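import Mathlib

/-!
Adapted bases: total positivity and sign changes.
-/

namespace FQ

open Finset Filter Topology Matrix

variable {n d : ℕ}

/-- the rectangular Vandermonde matrix with nodes `0, …, n-1` -/
noncomputable def VM (n d : ℕ) : Matrix (Fin n) (Fin d) ℝ := fun i j => ((i : ℕ) : ℝ) ^ (j : ℕ)

theorem VM_minor (f : Fin d ↪o Fin n) : 0 < ((VM n d).submatrix f id).det := by
  have h1 : (VM n d).submatrix f id = Matrix.vandermonde (fun a : Fin d => (((f a : Fin n) : ℕ) : ℝ)) := by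
    ext i j; rfl
  rw [h1, Matrix.det_vandermonde]
  refine Finset.prod_pos fun i _ => Finset.prod_pos fun j hj => ?_
  rw [Finset.mem_Ioi] at hj
  have h2 : f i < f j := f.strictMono hj
  have h3 : ((f i : Fin n) : ℕ) < ((f j : Fin n) : ℕ) := h2
  have h4 : (((f i : Fin n) : ℕ) : ℝ) < (((f j : Fin n) : ℕ) : ℝ) := by exact_mod_cast h3
  linarith

/-- sign polynomial -/
noncomputable def qJ (J : Finset (Fin n)) (x : ℝ) : ℝ := ∏ k ∈ J, (((k : ℕ) : ℝ) - 1 / 2 - x)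

theorem qJ_lower (J : Finset (Fin n)) (i : Fin n) : (1 / 2 : ℝ) ^ n ≤ |qJ J ((i : ℕ) : ℝ)| := by
  rw [qJ, Finset.abs_prod]
  have h1 : ∀ k ∈ J, (1 / 2 : ℝ) ≤ |((k : ℕ) : ℝ) - 1 / 2 - ((i : ℕ) : ℝ)| := by
    intro k _
    rcases le_or_gt (k : ℕ) (i : ℕ) with h | h
    · have h2 : ((k : ℕ) : ℝ) ≤ ((i : ℕ) : ℝ) := by exact_mod_cast h
      rw [abs_of_nonpos (by linarith)]
      linarith
    · have h2 : ((i : ℕ) : ℝ) + 1 ≤ ((k : ℕ) : ℝ) := by exact_mod_cast h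
      rw [abs_of_nonneg (by linarith)]
      linarith
  calc (1 / 2 : ℝ) ^ n ≤ (1 / 2 : ℝ) ^ J.card := by
        apply pow_le_pow_of_le_one (by norm_num) (by norm_num)
        have := Finset.card_le_univ J
        rwa [Fintype.card_fin] at this
    _ = ∏ _k ∈ J, (1 / 2 : ℝ) := by rw [Finset.prod_const]
    _ ≤ ∏ k ∈ J, |((k : ℕ) : ℝ) - 1 / 2 - ((i : ℕ) : ℝ)| :=
        Finset.prod_le_prod (fun _ _ => by norm_num) h1

theorem qJ_upper (J : Finset (Fin n)) (i : Fin n) : |qJ J ((i : ℕ) : ℝ)| ≤ (n : ℝ) ^ n := by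
  rw [qJ, Finset.abs_prod]
  have hn : (1 : ℝ) ≤ n := by
    have := i.pos
    exact_mod_cast this
  have h1 : ∀ k ∈ J, |((k : ℕ) : ℝ) - 1 / 2 - ((i : ℕ) : ℝ)| ≤ n := by
    intro k _
    have hk : ((k : ℕ) : ℝ) + 1 ≤ n := by exact_mod_cast k.2
    have hi : ((i : ℕ) : ℝ) + 1 ≤ n := by exact_mod_cast i.2
    have hk0 : (0 : ℝ) ≤ ((k : ℕ) : ℝ) := by positivity
    have hi0 : (0 : ℝ) ≤ ((i : ℕ) : ℝ) := by positivity
    rw [abs_le]
    constructor <;> linarith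
  calc ∏ k ∈ J, |((k : ℕ) : ℝ) - 1 / 2 - ((i : ℕ) : ℝ)| ≤ ∏ _k ∈ J, (n : ℝ) :=
        Finset.prod_le_prod (fun _ _ => abs_nonneg _) h1
    _ = (n : ℝ) ^ J.card := by rw [Finset.prod_const]
    _ ≤ (n : ℝ) ^ n := by
        apply pow_le_pow_right₀ hn
        have := Finset.card_le_univ J
        rwa [Fintype.card_fin] at this

theorem qJ_poly (J : Finset (Fin n)) (hJ : J.card < d) : ∃ a : Fin d → ℝ, ∀ x : ℝ,
    qJ J x = ∑ j : Fin d, a j * x ^ (j : ℕ) := by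
  let Q : Polynomial ℝ := ∏ k ∈ J, (Polynomial.C (((k : ℕ) : ℝ) - 1 / 2) - Polynomial.X)
  have hdeg : Q.natDegree < d := by
    refine lt_of_le_of_lt ?_ hJ
    refine (Polynomial.natDegree_prod_le _ _).trans ?_
    calc ∑ k ∈ J, (Polynomial.C (((k : ℕ) : ℝ) - 1 / 2) - Polynomial.X : Polynomial ℝ).natDegree
        ≤ ∑ _k ∈ J, 1 := by
          refine Finset.sum_le_sum fun k _ => ?_
          refine (Polynomial.natDegree_sub_le _ _).trans ?_
          simp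
      _ = J.card := by simp
  refine ⟨fun j => Q.coeff j, fun x => ?_⟩
  have h1 : Q.eval x = qJ J x := by
    simp only [Q, qJ, Polynomial.eval_prod, Polynomial.eval_sub, Polynomial.eval_C, Polynomial.eval_X]
  rw [← h1, Polynomial.eval_eq_sum_range' hdeg, ← Fin.sum_univ_eq_sum_range (fun j => Q.coeff j * x ^ j)]

/-- vectors orthogonal to polynomials of degree `< d` -/
noncomputable def W0 (n d : ℕ) : Submodule ℝ (Fin n → ℝ) := (VM n d)ᵀ.mulVecLin.ker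

theorem mem_W0 {w : Fin n → ℝ} (hw : w ∈ W0 n d) (j : Fin d) :
    ∑ i : Fin n, ((i : ℕ) : ℝ) ^ (j : ℕ) * w i = 0 := by
  have h1 := congrFun (LinearMap.mem_ker.1 hw) j
  rw [Matrix.mulVecLin_apply] at h1
  exact h1

theorem sum_qJ {w : Fin n → ℝ} (hw : w ∈ W0 n d) (J : Finset (Fin n)) (hJ : J.card < d) :
    ∑ i : Fin n, qJ J ((i : ℕ) : ℝ) * w i = 0 := by
  obtain ⟨a, ha⟩ := qJ_poly J hJ
  simp only [ha, Finset.sum_mul]
  rw [Finset.sum_comm]
  refine Finset.sum_eq_zero fun j _ => ?_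
  have h1 := mem_W0 hw j
  calc ∑ i : Fin n, a j * ((i : ℕ) : ℝ) ^ (j : ℕ) * w i
      = a j * ∑ i : Fin n, ((i : ℕ) : ℝ) ^ (j : ℕ) * w i := by
        rw [Finset.mul_sum]; exact Finset.sum_congr rfl fun i _ => by ring
    _ = 0 := by rw [h1, mul_zero]

/-- robust sign change estimate -/
theorem sign_estimate {w p : Fin n → ℝ} (hw : w ∈ W0 n d) (J : Finset (Fin n)) (hJ : J.card < d)
    (s : ℝ) (hs : |s| = 1) (hpos : ∀ i : Fin n, 0 ≤ s * qJ J ((i : ℕ) : ℝ) * (w i + p i)) :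
    ∑ i, |w i| ≤ ((2 : ℝ) ^ n * (n : ℝ) ^ n + 1) * ∑ i, |p i| := by
  have h1 : (1 / 2 : ℝ) ^ n * ∑ i, |w i + p i| ≤ (n : ℝ) ^ n * ∑ i, |p i| := by
    calc (1 / 2 : ℝ) ^ n * ∑ i, |w i + p i| = ∑ i, (1 / 2 : ℝ) ^ n * |w i + p i| := by rw [Finset.mul_sum]
      _ ≤ ∑ i : Fin n, |s * qJ J ((i : ℕ) : ℝ) * (w i + p i)| := by
          refine Finset.sum_le_sum fun i _ => ?_
          rw [abs_mul, abs_mul, hs, one_mul]
          exact mul_le_mul_of_nonneg_right (qJ_lower J i) (abs_nonneg _)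
      _ = ∑ i : Fin n, s * qJ J ((i : ℕ) : ℝ) * (w i + p i) :=
          Finset.sum_congr rfl fun i _ => abs_of_nonneg (hpos i)
      _ = s * (∑ i : Fin n, qJ J ((i : ℕ) : ℝ) * w i) + ∑ i : Fin n, s * qJ J ((i : ℕ) : ℝ) * p i := by
          rw [Finset.mul_sum, ← Finset.sum_add_distrib]
          exact Finset.sum_congr rfl fun i _ => by ring
      _ = ∑ i : Fin n, s * qJ J ((i : ℕ) : ℝ) * p i := by rw [sum_qJ hw J hJ, mul_zero, zero_add]
      _ ≤ ∑ i : Fin n, (n : ℝ) ^ n * |p i| := by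
          refine Finset.sum_le_sum fun i _ => ?_
          refine (le_abs_self _).trans ?_
          rw [abs_mul, abs_mul, hs, one_mul]
          exact mul_le_mul_of_nonneg_right (qJ_upper J i) (abs_nonneg _)
      _ = _ := by rw [Finset.mul_sum]
  have h2 : ∑ i, |w i| ≤ ∑ i, |w i + p i| + ∑ i, |p i| := by
    rw [← Finset.sum_add_distrib]
    refine Finset.sum_le_sum fun i _ => ?_
    have := abs_sub (w i + p i) (p i)
    rwa [add_sub_cancel_right] at this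
  have h3 : ∑ i, |w i + p i| ≤ (2 : ℝ) ^ n * (n : ℝ) ^ n * ∑ i, |p i| := by
    have h4 : (2 : ℝ) ^ n * (1 / 2 : ℝ) ^ n = 1 := by rw [← mul_pow]; norm_num
    calc ∑ i, |w i + p i| = (2 : ℝ) ^ n * ((1 / 2 : ℝ) ^ n * ∑ i, |w i + p i|) := by
          rw [← mul_assoc, h4, one_mul]
      _ ≤ (2 : ℝ) ^ n * ((n : ℝ) ^ n * ∑ i, |p i|) := mul_le_mul_of_nonneg_left h1 (by positivity)
      _ = _ := by ring
  linarith

end FQ
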