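import Pool.Agent.Helper46.FQ.Adapt

/-!
Existence of adapted bases.
-/

namespace FQ

open Finset Filter Topology Matrix

variable {n d : ℕ}

theorem VM_injective (hdn : d ≤ n) : Function.Injective (VM n d).mulVecLin := by
  rw [← LinearMap.ker_eq_bot, LinearMap.ker_eq_bot']
  intro y hy
  have h1 := VM_minor (n := n) (Fin.castLEOrderEmb hdn)
  have h2 : ((VM n d).submatrix (Fin.castLEOrderEmb hdn) id).mulVec y = 0 := by
    ext i
    have := congrFun hy (Fin.castLEOrderEmb hdn i)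
    exact this
  exact Matrix.eq_zero_of_mulVec_eq_zero h1.ne' h2

theorem tendsto_round (y : ℝ) : Tendsto (fun k : ℕ => ((round ((k : ℝ) * y) : ℤ) : ℝ) / k) atTop (𝓝 y) := by
  rw [tendsto_iff_norm_sub_tendsto_zero]
  have h1 : Tendsto (fun k : ℕ => (1 / 2 : ℝ) * ((k : ℝ))⁻¹) atTop (𝓝 0) := by
    have := (tendsto_inv_atTop_nhds_zero_nat (𝕜 := ℝ)).const_mul (1 / 2 : ℝ)
    simpa using this
  refine squeeze_zero' (Eventually.of_forall fun k => norm_nonneg _) ?_ h1
  filter_upwards [eventually_gt_atTop 0] with k hk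
  have hk' : (0 : ℝ) < k := by exact_mod_cast hk
  have h2 : ((round ((k : ℝ) * y) : ℤ) : ℝ) / k - y = (((round ((k : ℝ) * y) : ℤ) : ℝ) - k * y) / k := by
    field_simp
  rw [h2, norm_div, Real.norm_of_nonneg hk'.le, Real.norm_eq_abs, div_eq_mul_inv]
  apply mul_le_mul_of_nonneg_right _ (by positivity)
  rw [abs_sub_comm]
  exact abs_sub_round _

theorem exists_adapted (L : Matrix (Fin n) (Fin d) ℝ) (hL : Function.Injective L.mulVecLin)
    (ε : ℝ) (hε : 0 < ε) : ∃ P : Matrix (Fin n) (Fin n) ℤ, P.det ≠ 0 ∧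
      (∀ f : Fin d ↪o Fin n, 0 < ((P.map (Int.cast : ℤ → ℝ) * L).submatrix f id).det) ∧
      ∀ v : Fin n → ℝ, (∀ y u, v = L.mulVec y + u → ε * ‖y‖ < ‖u‖) →
        ∀ (J : Finset (Fin n)) (s : ℝ), |s| = 1 → J.card < d →
          ¬ ∀ i : Fin n, 0 ≤ s * qJ J ((i : ℕ) : ℝ) * (P.map (Int.cast : ℤ → ℝ)).mulVec v i := by
  classical
  have hdn : d ≤ n := by
    have := LinearMap.finrank_le_finrank_of_injective hL
    simpa using this
  obtain ⟨pi, hpi⟩ := L.mulVecLin.exists_leftInverse_of_injective (LinearMap.ker_eq_bot.2 hL)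
  have hpiL : ∀ y, pi (L.mulVec y) = y := fun y => by
    have := LinearMap.congr_fun hpi y
    simpa using this
  have hfin : Module.finrank ℝ pi.ker ≤ Module.finrank ℝ (W0 n d) := by
    have h1 := pi.finrank_range_add_finrank_ker
    have h2 : Function.Surjective pi := fun y => ⟨_, hpiL y⟩
    rw [LinearMap.range_eq_top.2 h2, finrank_top, Module.finrank_fin_fun, Module.finrank_fin_fun] at h1
    have h3 := ((VM n d)ᵀ.mulVecLin).finrank_range_add_finrank_ker
    have h4 := Submodule.finrank_le ((VM n d)ᵀ.mulVecLin).range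
    rw [Module.finrank_fin_fun] at h3 h4
    have h5 : Module.finrank ℝ (W0 n d) = Module.finrank ℝ ((VM n d)ᵀ.mulVecLin).ker := rfl
    omega
  obtain ⟨Y0, hY0⟩ := finrank_le_iff_exists_linearMap.1 hfin
  let up : (Fin n → ℝ) →ₗ[ℝ] pi.ker := (LinearMap.id - L.mulVecLin ∘ₗ pi).codRestrict pi.ker (by
    intro v
    rw [LinearMap.mem_ker, LinearMap.sub_apply, map_sub, LinearMap.comp_apply, LinearMap.id_apply,
      Matrix.mulVecLin_apply, hpiL, sub_self])
  have hup : ∀ v, (up v : Fin n → ℝ) = v - L.mulVec (pi v) := fun v => rfl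
  let T0 : pi.ker →ₗ[ℝ] (Fin n → ℝ) := (W0 n d).subtype ∘ₗ Y0
  have hT0 : Function.Injective T0 := (W0 n d).injective_subtype.comp hY0
  have hT0mem : ∀ x, T0 x ∈ W0 n d := fun x => (Y0 x).2
  obtain ⟨K₀, hK₀, hanti⟩ := T0.exists_antilipschitzWith (LinearMap.ker_eq_bot.2 hT0)
  have hK₀' : (0 : ℝ) < K₀ := hK₀
  have hlow : ∀ x : pi.ker, ‖(x : Fin n → ℝ)‖ ≤ K₀ * ‖T0 x‖ := fun x => hanti.le_mul_norm (by simp) x
  obtain ⟨CV, hCV0, hCV⟩ : ∃ CV, 0 ≤ CV ∧ ∀ y, ‖(VM n d).mulVec y‖ ≤ CV * ‖y‖ :=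
    ⟨‖LinearMap.toContinuousLinearMap (VM n d).mulVecLin‖, norm_nonneg _,
      fun y => (LinearMap.toContinuousLinearMap (VM n d).mulVecLin).le_opNorm y⟩
  obtain ⟨CL, hCL0, hCL⟩ : ∃ CL, 0 ≤ CL ∧ ∀ y, ‖L.mulVec y‖ ≤ CL * ‖y‖ :=
    ⟨‖LinearMap.toContinuousLinearMap L.mulVecLin‖, norm_nonneg _,
      fun y => (LinearMap.toContinuousLinearMap L.mulVecLin).le_opNorm y⟩
  set Kn : ℝ := (2 : ℝ) ^ n * (n : ℝ) ^ n + 1 with hKn
  have hKn0 : 0 < Kn := by positivity
  set S : ℝ := K₀ * (Kn * n * CV / ε + 1) with hS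
  have hS0 : 0 < S := by positivity
  let Y : (Fin n → ℝ) →ₗ[ℝ] (Fin n → ℝ) := (VM n d).mulVecLin ∘ₗ pi + S • (T0 ∘ₗ up)
  have hY : ∀ v, Y v = (VM n d).mulVec (pi v) + S • T0 (up v) := fun v => rfl
  have hupL : ∀ y, up (L.mulVec y) = 0 := by
    intro y
    apply Subtype.ext
    rw [hup, hpiL, sub_self]; rfl
  have hYL : ∀ y, Y (L.mulVec y) = (VM n d).mulVec y := by
    intro y
    rw [hY, hpiL, hupL, map_zero, smul_zero, add_zero]
  let Ym : Matrix (Fin n) (Fin n) ℝ := LinearMap.toMatrix' Y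
  have hYm : ∀ v, Ym.mulVec v = Y v := by
    intro v
    rw [← Matrix.toLin'_apply, Matrix.toLin'_toMatrix']
  have hYmL : Ym * L = VM n d := by
    apply Matrix.ext_of_mulVec_single
    intro j
    rw [← Matrix.mulVec_mulVec, hYm, hYL]
  -- Y injective
  have hYinj : Ym.det ≠ 0 := by
    intro h0
    obtain ⟨v, hv0, hv⟩ := Matrix.exists_mulVec_eq_zero_iff.2 h0
    rw [hYm, hY] at hv
    have hmem := hT0mem (up v)
    have h1 : ∑ i, (VM n d).mulVec (pi v) i * (T0 (up v)) i = 0 := by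
      simp only [Matrix.mulVec, dotProduct, Finset.sum_mul]
      rw [Finset.sum_comm]
      refine Finset.sum_eq_zero fun j _ => ?_
      have h2 := mem_W0 hmem j
      calc ∑ i, VM n d i j * pi v j * T0 (up v) i = pi v j * ∑ i : Fin n, ((i : ℕ) : ℝ) ^ (j : ℕ) * T0 (up v) i := by
            rw [Finset.mul_sum]
            exact Finset.sum_congr rfl fun i _ => by rw [VM]; ring
        _ = 0 := by rw [h2, mul_zero]
    have h2 : ∑ i, (VM n d).mulVec (pi v) i * (VM n d).mulVec (pi v) i = 0 := by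
      have h3 : ∀ i, (VM n d).mulVec (pi v) i = -(S * T0 (up v) i) := by
        intro i
        have := congrFun hv i
        rw [Pi.add_apply, Pi.smul_apply, smul_eq_mul, Pi.zero_apply] at this
        linarith only [this]
      calc ∑ i, (VM n d).mulVec (pi v) i * (VM n d).mulVec (pi v) i
          = -S * ∑ i, (VM n d).mulVec (pi v) i * T0 (up v) i := by
            rw [Finset.mul_sum]
            refine Finset.sum_congr rfl fun i _ => ?_
            rw [h3 i]; ring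
        _ = 0 := by rw [h1, mul_zero]
    have h3 := (Finset.sum_eq_zero_iff_of_nonneg (fun i _ => mul_self_nonneg _)).1 h2
    have h4 : (VM n d).mulVec (pi v) = 0 := by
      ext i
      exact mul_self_eq_zero.1 (h3 i (Finset.mem_univ i))
    have h5 : pi v = 0 := by
      apply VM_injective hdn
      rw [map_zero]
      exact h4
    rw [h4, zero_add] at hv
    have h6 : T0 (up v) = 0 := by
      rcases smul_eq_zero.1 hv with h | h
      · exact absurd h hS0.ne'
      · exact h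
    have h7 : up v = 0 := hT0 (by rw [h6, map_zero])
    have h8 : (up v : Fin n → ℝ) = 0 := by rw [h7]; rfl
    rw [hup, h5, Matrix.mulVec_zero, sub_zero] at h8
    exact hv0 h8
  -- approximations
  let P : ℕ → Matrix (Fin n) (Fin n) ℤ := fun k i j => round ((k : ℝ) * Ym i j)
  have hPtend : Tendsto (fun k : ℕ => ((k : ℝ)⁻¹) • (P k).map (Int.cast : ℤ → ℝ)) atTop (𝓝 Ym) := by
    refine tendsto_pi_nhds.2 fun i => tendsto_pi_nhds.2 fun j => ?_
    refine (tendsto_round (Ym i j)).congr fun k => ?_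
    show _ = (k : ℝ)⁻¹ * ((round ((k : ℝ) * Ym i j) : ℤ) : ℝ)
    rw [div_eq_inv_mul]
  have hdet : ∀ᶠ k in atTop, (P k).det ≠ 0 := by
    have h1 : Tendsto (fun k : ℕ => (((k : ℝ)⁻¹) • (P k).map (Int.cast : ℤ → ℝ)).det) atTop (𝓝 Ym.det) :=
      ((continuous_id.matrix_det).tendsto Ym).comp hPtend
    filter_upwards [h1.eventually_ne hYinj] with k hk h0
    apply hk
    rw [Matrix.det_smul]
    have h2 : ((P k).map (Int.cast : ℤ → ℝ)).det = (((P k).det : ℤ) : ℝ) := by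
      exact (RingHom.map_det (Int.castRingHom ℝ) (P k)).symm
    rw [h2, h0, Int.cast_zero, mul_zero]
  have hmin : ∀ᶠ k in atTop, ∀ f : Fin d ↪o Fin n,
      0 < (((P k).map (Int.cast : ℤ → ℝ) * L).submatrix f id).det := by
    rw [Filter.eventually_all]
    intro f
    have hc : Continuous fun A : Matrix (Fin n) (Fin n) ℝ => ((A * L).submatrix f id).det :=
      ((continuous_id.matrix_mul continuous_const).matrix_submatrix _ _).matrix_det
    have h1 := (hc.tendsto Ym).comp hPtend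
    rw [hYmL] at h1
    filter_upwards [h1.eventually (lt_mem_nhds (VM_minor f)), eventually_gt_atTop 0] with k hk hk0
    have hk0' : (0 : ℝ) < (k : ℝ)⁻¹ := by
      have : (0 : ℝ) < k := by exact_mod_cast hk0
      positivity
    have h2 : (((k : ℝ)⁻¹ • (P k).map (Int.cast : ℤ → ℝ)) * L).submatrix f id =
        (k : ℝ)⁻¹ • (((P k).map (Int.cast : ℤ → ℝ) * L).submatrix f id) := by
      rw [Matrix.smul_mul]; rfl
    rw [Function.comp_apply, h2, Matrix.det_smul] at hk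
    exact pos_of_mul_pos_right hk (by positivity)
  obtain ⟨k₀, hk₀⟩ := exists_nat_ge (Kn * n * (n * (CL / ε + 1)) + 1)
  obtain ⟨k, hk1, hk2, hk3, hk4⟩ := (hdet.and (hmin.and ((eventually_gt_atTop 0).and
    (eventually_ge_atTop k₀)))).exists
  refine ⟨P k, hk1, hk2, fun v hv J s hs hJ hpos => ?_⟩
  have hkpos : (0 : ℝ) < k := by exact_mod_cast hk3
  set y := pi v with hy
  set u : Fin n → ℝ := (up v : Fin n → ℝ) with hu
  have hvyu : v = L.mulVec y + u := by rw [hu, hup, add_sub_cancel]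
  have hlt := hv y u hvyu
  have hu0 : 0 < ‖u‖ := lt_of_le_of_lt (by positivity) hlt
  have hy_le : ‖y‖ ≤ ‖u‖ / ε := by
    rw [le_div_iff₀ hε]; linarith
  set w : Fin n → ℝ := ((k : ℝ) * S) • T0 (up v) with hw
  have hwmem : w ∈ W0 n d := (W0 n d).smul_mem _ (hT0mem _)
  set er : Fin n → ℝ := ((P k).map (Int.cast : ℤ → ℝ)).mulVec v - (k : ℝ) • Ym.mulVec v with her
  set p : Fin n → ℝ := (k : ℝ) • (VM n d).mulVec y + er with hp
  have hwp : ∀ i, w i + p i = ((P k).map (Int.cast : ℤ → ℝ)).mulVec v i := by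
    intro i
    rw [hw, hp, her, hYm, hY]
    simp only [Pi.add_apply, Pi.smul_apply, Pi.sub_apply, smul_eq_mul]
    ring
  have hest := sign_estimate hwmem J hJ s hs (p := p) (fun i => by rw [hwp]; exact hpos i)
  -- norms
  have hnorm_le : ∀ x : Fin n → ℝ, ‖x‖ ≤ ∑ i, |x i| := by
    intro x
    rw [pi_norm_le_iff_of_nonneg (Finset.sum_nonneg fun _ _ => abs_nonneg _)]
    intro i
    rw [Real.norm_eq_abs]
    exact Finset.single_le_sum (f := fun i => |x i|) (fun _ _ => abs_nonneg _) (Finset.mem_univ i)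
  have hle_norm : ∀ x : Fin n → ℝ, ∑ i, |x i| ≤ n * ‖x‖ := by
    intro x
    calc ∑ i, |x i| ≤ ∑ _i : Fin n, ‖x‖ := Finset.sum_le_sum fun i _ => by
          rw [← Real.norm_eq_abs]; exact norm_le_pi_norm x i
      _ = n * ‖x‖ := by rw [Finset.sum_const, Finset.card_univ, Fintype.card_fin, nsmul_eq_mul]
  have h1 : k * S * ‖T0 (up v)‖ ≤ Kn * (n * ‖p‖) := by
    calc k * S * ‖T0 (up v)‖ = ‖w‖ := by
          rw [hw, norm_smul, Real.norm_of_nonneg (by positivity)]
      _ ≤ ∑ i, |w i| := hnorm_le w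
      _ ≤ Kn * ∑ i, |p i| := hest
      _ ≤ Kn * (n * ‖p‖) := mul_le_mul_of_nonneg_left (hle_norm p) hKn0.le
  have her_le : ‖er‖ ≤ n * ‖v‖ := by
    rw [pi_norm_le_iff_of_nonneg (by positivity)]
    intro i
    have h2 : er i = ∑ j, (((P k i j : ℤ) : ℝ) - k * Ym i j) * v j := by
      rw [her]
      simp only [Pi.sub_apply, Pi.smul_apply, smul_eq_mul, Matrix.mulVec, dotProduct, Matrix.map_apply,
        Finset.mul_sum, ← Finset.sum_sub_distrib]
      exact Finset.sum_congr rfl fun j _ => by ring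
    rw [h2, Real.norm_eq_abs]
    calc |∑ j, (((P k i j : ℤ) : ℝ) - k * Ym i j) * v j|
        ≤ ∑ j, |(((P k i j : ℤ) : ℝ) - k * Ym i j) * v j| := Finset.abs_sum_le_sum_abs _ _
      _ ≤ ∑ _j : Fin n, ‖v‖ := by
          refine Finset.sum_le_sum fun j _ => ?_
          rw [abs_mul]
          have h3 : |((P k i j : ℤ) : ℝ) - k * Ym i j| ≤ 1 := by
            rw [abs_sub_comm]
            exact (abs_sub_round _).trans (by norm_num)
          have h4 : |v j| ≤ ‖v‖ := by rw [← Real.norm_eq_abs]; exact norm_le_pi_norm v j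
          calc |((P k i j : ℤ) : ℝ) - k * Ym i j| * |v j| ≤ 1 * ‖v‖ :=
                mul_le_mul h3 h4 (abs_nonneg _) zero_le_one
            _ = ‖v‖ := one_mul _
      _ = n * ‖v‖ := by rw [Finset.sum_const, Finset.card_univ, Fintype.card_fin, nsmul_eq_mul]
  have hv_le : ‖v‖ ≤ (CL / ε + 1) * ‖u‖ := by
    calc ‖v‖ ≤ ‖L.mulVec y‖ + ‖u‖ := by
          conv_lhs => rw [hvyu]
          exact norm_add_le _ _
      _ ≤ CL * (‖u‖ / ε) + ‖u‖ := by
          have := (hCL y).trans (mul_le_mul_of_nonneg_left hy_le hCL0)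
          linarith
      _ = (CL / ε + 1) * ‖u‖ := by ring
  have hp_le : ‖p‖ ≤ k * (CV * (‖u‖ / ε)) + n * ((CL / ε + 1) * ‖u‖) := by
    rw [hp]
    refine (norm_add_le _ _).trans (add_le_add ?_ ?_)
    · rw [norm_smul, Real.norm_of_nonneg hkpos.le]
      apply mul_le_mul_of_nonneg_left _ hkpos.le
      exact (hCV y).trans (mul_le_mul_of_nonneg_left hy_le hCV0)
    · exact her_le.trans (mul_le_mul_of_nonneg_left hv_le (by positivity))
  have h2 : ‖u‖ ≤ K₀ * ‖T0 (up v)‖ := hlow (up v)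
  have h3 : (k : ℝ) * (Kn * n * CV / ε + 1) * ‖u‖ ≤ Kn * (n * ‖p‖) := by
    calc (k : ℝ) * (Kn * n * CV / ε + 1) * ‖u‖ ≤ (k : ℝ) * (Kn * n * CV / ε + 1) * (K₀ * ‖T0 (up v)‖) :=
          mul_le_mul_of_nonneg_left h2 (by positivity)
      _ = k * S * ‖T0 (up v)‖ := by rw [hS]; ring
      _ ≤ _ := h1
  have h4 : Kn * (n * ‖p‖) ≤ Kn * (n * (k * (CV * (‖u‖ / ε)) + n * ((CL / ε + 1) * ‖u‖))) := by
    gcongr
  have h5 : (k : ℝ) * ‖u‖ ≤ (Kn * n * (n * (CL / ε + 1))) * ‖u‖ := by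
    have h6 : (k : ℝ) * (Kn * n * CV / ε + 1) * ‖u‖ = Kn * (n * (k * (CV * (‖u‖ / ε)))) + k * ‖u‖ := by ring
    have h7 : Kn * (n * (k * (CV * (‖u‖ / ε)) + n * ((CL / ε + 1) * ‖u‖))) =
        Kn * (n * (k * (CV * (‖u‖ / ε)))) + (Kn * n * (n * (CL / ε + 1))) * ‖u‖ := by ring
    linarith only [h3, h4, h6]
  have h6 : (k : ℝ) ≤ Kn * n * (n * (CL / ε + 1)) := le_of_mul_le_mul_right h5 hu0
  have h7 : (k₀ : ℝ) ≤ k := by exact_mod_cast hk4
  linarith only [hk₀, h6, h7]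

end FQ
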