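import Mathlib

/-!
Basic combinatorial notions: convolution of a finitely supported function with an arbitrary
function on an abelian group.
-/

namespace FQ

open Finset

variable {G : Type*} [AddCommGroup G]

/-- Convolution `(f * c)_η = ∑_ζ f_ζ c_{η-ζ}`. -/
noncomputable def conv (f : G →₀ ℂ) (c : G → ℂ) (η : G) : ℂ :=
  f.sum fun ζ a => a * c (η - ζ)

theorem conv_eq_sum (f : G →₀ ℂ) (c : G → ℂ) (η : G) :
    conv f c η = ∑ ζ ∈ f.support, f ζ * c (η - ζ) := rfl

theorem conv_eq_sum_of_subset (f : G →₀ ℂ) (c : G → ℂ) (η : G) {s : Finset G}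
    (hs : f.support ⊆ s) : conv f c η = ∑ ζ ∈ s, f ζ * c (η - ζ) :=
  Finsupp.sum_of_support_subset f hs _ (by simp)

theorem conv_add (f g : G →₀ ℂ) (c : G → ℂ) (η : G) :
    conv (f + g) c η = conv f c η + conv g c η := by
  classical
  exact Finsupp.sum_add_index (by simp) (by intros; ring)

theorem conv_zero (c : G → ℂ) (η : G) : conv (0 : G →₀ ℂ) c η = 0 := by
  simp [conv]

theorem conv_smul (a : ℂ) (f : G →₀ ℂ) (c : G → ℂ) (η : G) :
    conv (a • f) c η = a * conv f c η := by
  rw [conv, Finsupp.sum_smul_index' (by simp)]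
  simp only [smul_eq_mul, conv, Finsupp.sum, Finset.mul_sum, mul_assoc]

theorem conv_single (ζ : G) (a : ℂ) (c : G → ℂ) (η : G) :
    conv (Finsupp.single ζ a) c η = a * c (η - ζ) := by
  rw [conv, Finsupp.sum_single_index (by simp)]

/-- translate of the function -/
theorem conv_translate (f : G →₀ ℂ) (c : G → ℂ) (a η : G) :
    conv f (fun x => c (a + x)) η = conv f c (a + η) := by
  simp only [conv_eq_sum]
  refine Finset.sum_congr rfl fun ζ _ => ?_
  rw [add_sub_assoc]

/-- the shift of `f` by `ζ`: coefficient at `x` is `f (x + ζ)`. -/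
noncomputable def sh (ζ : G) (f : G →₀ ℂ) : G →₀ ℂ := Finsupp.equivMapDomain (Equiv.subRight ζ) f

theorem sh_apply (ζ : G) (f : G →₀ ℂ) (x : G) : sh ζ f x = f (x + ζ) := by
  simp [sh, Finsupp.equivMapDomain_apply]

theorem conv_sh (ζ : G) (f : G →₀ ℂ) (c : G → ℂ) (η : G) :
    conv (sh ζ f) c η = conv f c (η + ζ) := by
  classical
  have h1 : (sh ζ f).support ⊆ f.support.map (Equiv.subRight ζ).toEmbedding := by
    intro x hx
    rw [Finsupp.mem_support_iff, sh_apply] at hx
    rw [Finset.mem_map]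
    exact ⟨x + ζ, Finsupp.mem_support_iff.2 hx, by simp⟩
  rw [conv_eq_sum_of_subset _ _ _ h1, Finset.sum_map, conv_eq_sum]
  refine Finset.sum_congr rfl fun x _ => ?_
  rw [sh_apply]
  simp only [Equiv.toEmbedding_apply, Equiv.subRight_apply, sub_add_cancel]
  congr 2
  abel

end FQ
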