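import Mathlib
import Pool.Agent.Helper46.FQ.Basic

/-!
The Laurent polynomial ring, evaluation, the ideal attached to `c`, the trace map.
-/

namespace FQ

open Finset AddMonoidAlgebra

/-- Laurent polynomial ring in `n` variables -/
abbrev LR (n : ℕ) := AddMonoidAlgebra ℂ (Fin n → ℤ)

instance (n : ℕ) : IsNoetherianRing (LR n) := Algebra.FiniteType.isNoetherianRing ℂ _

theorem coeff_mul_eq_conv {G : Type*} [AddCommGroup G] (f g : AddMonoidAlgebra ℂ G) (η : G) :
    (f * g).coeff η = conv f.coeff g.coeff η := by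
  classical
  rw [AddMonoidAlgebra.coeff_mul, conv]
  refine Finset.sum_congr rfl fun ζ _ => ?_
  show (g.coeff.sum fun a b => if ζ + a = η then f.coeff ζ * b else 0) = _
  rw [Finsupp.sum, Finset.sum_eq_single (η - ζ)]
  · simp
  · intro b _ hb
    rw [if_neg]
    intro h; apply hb; rw [← h]; abel
  · intro h
    rw [Finsupp.notMem_support_iff] at h
    simp [h]

theorem conv_mul {G : Type*} [AddCommGroup G] (f g : AddMonoidAlgebra ℂ G) (c : G → ℂ) (η : G) :
    conv (f * g).coeff c η = conv f.coeff (fun x => conv g.coeff c x) η := by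
  classical
  induction f using AddMonoidAlgebra.induction_linear with
  | zero => simp [conv_zero]
  | add f₁ f₂ h₁ h₂ => rw [add_mul, coeff_add, conv_add, h₁, h₂, coeff_add, conv_add]
  | single a b =>
    rw [coeff_single, conv_single]
    have h1 : (AddMonoidAlgebra.single a b * g).coeff = b • sh (-a) g.coeff := by
      ext x
      rw [coeff_single_mul_apply, Finsupp.smul_apply, sh_apply, smul_eq_mul, add_comm]
    rw [h1, conv_smul, conv_sh, sub_eq_add_neg]

/-- the annihilator ideal -/
noncomputable def IdealOf {G : Type*} [AddCommGroup G] (c : G → ℂ) : Ideal (AddMonoidAlgebra ℂ G) where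
  carrier := {f | ∀ η, conv f.coeff c η = 0}
  add_mem' := by
    intro a b ha hb η
    rw [coeff_add, conv_add, ha, hb, add_zero]
  zero_mem' := by intro η; simp [conv_zero]
  smul_mem' := by
    intro a f hf η
    rw [smul_eq_mul, conv_mul]
    have : (fun x => conv f.coeff c x) = fun _ => 0 := funext hf
    rw [this]
    simp [conv]

theorem mem_IdealOf {G : Type*} [AddCommGroup G] {c : G → ℂ} {f : AddMonoidAlgebra ℂ G} :
    f ∈ IdealOf c ↔ ∀ η, conv f.coeff c η = 0 := Iff.rfl

section RB

variable {n e : ℕ} (β : (Fin e → ℤ) →+ (Fin n → ℤ))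

/-- the ring homomorphism induced by `β` -/
noncomputable abbrev ib : LR e →+* LR n := AddMonoidAlgebra.mapDomainRingHom ℂ β

theorem conv_ib (p : LR e) (c : (Fin n → ℤ) → ℂ) (η : Fin n → ℤ) :
    conv (ib β p).coeff c η = p.coeff.sum fun k a => a * c (η - β k) := by
  show conv (Finsupp.mapDomain β p.coeff) c η = _
  rw [conv, Finsupp.sum_mapDomain_index (by simp) (by intros; ring)]

/-- the trace map -/
noncomputable def tr (c : (Fin n → ℤ) → ℂ)
    (hfin : ∀ f : LR n, (Function.support fun m => conv f.coeff c (β m)).Finite) :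
    LR n →+ LR e :=
  AddMonoidHom.mk' (fun f => AddMonoidAlgebra.ofCoeff
    (Finsupp.ofSupportFinite (fun m => conv f.coeff c (β m)) (hfin f))) (by
    intro f g
    ext m
    show conv (f + g).coeff c (β m) = conv f.coeff c (β m) + conv g.coeff c (β m)
    rw [coeff_add, conv_add])

theorem tr_coeff (c : (Fin n → ℤ) → ℂ)
    (hfin : ∀ f : LR n, (Function.support fun m => conv f.coeff c (β m)).Finite) (f : LR n)
    (m : Fin e → ℤ) : (tr β c hfin f).coeff m = conv f.coeff c (β m) := rfl

theorem tr_lin (c : (Fin n → ℤ) → ℂ)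
    (hfin : ∀ f : LR n, (Function.support fun m => conv f.coeff c (β m)).Finite) (p : LR e)
    (f : LR n) : tr β c hfin (ib β p * f) = p * tr β c hfin f := by
  ext m
  rw [coeff_mul_eq_conv, tr_coeff, conv_mul, conv_ib, conv]
  refine Finset.sum_congr rfl fun k _ => ?_
  simp only [tr_coeff, map_sub]

theorem tr_mul_eq_zero (c : (Fin n → ℤ) → ℂ)
    (hfin : ∀ f : LR n, (Function.support fun m => conv f.coeff c (β m)).Finite) (f : LR n)
    (hf : f ∈ IdealOf c) (g : LR n) : tr β c hfin (f * g) = 0 := by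
  have h1 : f * g ∈ IdealOf c := by
    rw [mul_comm]; exact Ideal.mul_mem_left _ _ hf
  ext m
  exact h1 _

theorem mem_of_tr_eq_zero (c : (Fin n → ℤ) → ℂ)
    (hfin : ∀ f : LR n, (Function.support fun m => conv f.coeff c (β m)).Finite) (f : LR n)
    (hf : ∀ g : LR n, tr β c hfin (f * g) = 0) : f ∈ IdealOf c := by
  intro η
  have h1 := hf (AddMonoidAlgebra.single (-η) 1)
  have h2 : (tr β c hfin (f * (AddMonoidAlgebra.single (-η) 1))).coeff 0 = 0 := by rw [h1]; rfl
  rw [tr_coeff, map_zero, mul_comm, conv_mul, coeff_single, conv_single, one_mul] at h2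
  simpa using h2

end RB

/-- finiteness of a module with a nondegenerate trace form and bounded rank -/
theorem fg_of_trace {P R : Type*} [CommRing P] [IsDomain P] [IsNoetherianRing P] [CommRing R]
    (φ : P →+* R) (I : Ideal R) (Tr : R →+ P) (hlin : ∀ p f, Tr (φ p * f) = p * Tr f)
    (h1 : ∀ f ∈ I, ∀ g, Tr (f * g) = 0)
    (h2 : ∀ f, (∀ g, Tr (f * g) = 0) → f ∈ I) (r : ℕ)
    (hr : ∀ (s : ℕ) (v : Fin s → R), (∀ a : Fin s → P, ∑ i, φ (a i) * v i ∈ I → a = 0) → s ≤ r) :
    ((Ideal.Quotient.mk I).comp φ).Finite := by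
  classical
  let Q : ℕ → Prop := fun s => ∃ v : Fin s → R, (∀ a : Fin s → P, ∑ i, φ (a i) * v i ∈ I → a = 0)
  have hQ0 : Q 0 := ⟨Fin.elim0, fun a _ => Subsingleton.elim _ _⟩
  obtain ⟨s, ⟨v, hv⟩, hmax⟩ : ∃ s, Q s ∧ ∀ s', Q s' → s' ≤ s := by
    have hb : ∀ s, Q s → s ≤ r := fun s ⟨v, hv⟩ => hr s v hv
    refine ⟨Nat.findGreatest Q r, ?_, ?_⟩
    · exact Nat.findGreatest_spec (P := Q) (Nat.zero_le r) hQ0
    · intro s' hs'
      exact Nat.le_findGreatest (hb s' hs') hs'
  -- every element is torsion modulo the span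
  have htors : ∀ x : R, ∃ p : P, p ≠ 0 ∧ ∃ a : Fin s → P, φ p * x - ∑ i, φ (a i) * v i ∈ I := by
    intro x
    have hnli : ¬ (∀ a : Fin (s + 1) → P, ∑ i, φ (a i) * (Fin.cons x v : Fin (s + 1) → R) i ∈ I → a = 0) := by
      intro hli
      have := hmax (s + 1) ⟨_, hli⟩
      omega
    push Not at hnli
    obtain ⟨a, ha, hne⟩ := hnli
    rw [Fin.sum_univ_succ] at ha
    simp only [Fin.cons_zero, Fin.cons_succ] at ha
    have ha0 : a 0 ≠ 0 := by
      intro h0
      rw [h0, map_zero, zero_mul, zero_add] at ha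
      have := hv (fun i => a i.succ) ha
      apply hne
      ext i
      refine Fin.cases ?_ ?_ i
      · exact h0
      · intro j; exact congrFun this j
    refine ⟨a 0, ha0, fun i => - a i.succ, ?_⟩
    simpa using ha
  let : Algebra P R := φ.toAlgebra
  -- the injective map
  let T₀ : R →ₗ[P] (Fin s → P) :=
    { toFun := fun x i => Tr (x * v i)
      map_add' := by intro x y; ext i; simp [add_mul]
      map_smul' := by
        intro p x; ext i
        simp only [RingHom.id_apply, Pi.smul_apply, smul_eq_mul]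
        rw [← hlin, ← mul_assoc]
        rfl }
  have hT₀ : ∀ x i, T₀ x i = Tr (x * v i) := fun x i => rfl
  have hker : (I.restrictScalars P) ≤ T₀.ker := by
    intro x hx
    rw [LinearMap.mem_ker]
    ext i
    rw [hT₀]
    exact h1 x hx _
  let T : (R ⧸ I) →ₗ[P] (Fin s → P) :=
    { toFun := Submodule.liftQ (I.restrictScalars P) T₀ hker
      map_add' := fun x y => map_add _ x y
      map_smul' := by
        intro p x
        obtain ⟨x, rfl⟩ := Ideal.Quotient.mk_surjective x
        have e1 : p • (Ideal.Quotient.mk I x) = Ideal.Quotient.mk I (p • x) := by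
          rw [Algebra.smul_def, Algebra.smul_def, map_mul]; rfl
        rw [e1]
        exact map_smul T₀ p x }
  have hT : ∀ x i, T (Ideal.Quotient.mk I x) i = Tr (x * v i) := fun x i => rfl
  have hinj : Function.Injective T := by
    rw [← LinearMap.ker_eq_bot, LinearMap.ker_eq_bot']
    intro x hx
    obtain ⟨f, rfl⟩ := Ideal.Quotient.mk_surjective x
    rw [Ideal.Quotient.eq_zero_iff_mem]
    apply h2
    intro y
    obtain ⟨p, hp0, a, hpa⟩ := htors y
    have h4 : Tr (f * (φ p * y)) = 0 := by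
      have h5 : f * (φ p * y) = (φ p * y - ∑ i, φ (a i) * v i) * f + ∑ i, φ (a i) * (f * v i) := by
        rw [sub_mul, Finset.sum_mul, mul_comm f (φ p * y)]
        have : ∀ i, (φ (a i) * v i) * f = φ (a i) * (f * v i) := by
          intro i; ring
        simp only [this]
        ring
      rw [h5, map_add, h1 _ hpa, zero_add, map_sum]
      refine Finset.sum_eq_zero fun i _ => ?_
      rw [hlin]
      have : Tr (f * v i) = 0 := by
        rw [← hT, hx]; rfl
      rw [this, mul_zero]
    rw [show f * (φ p * y) = φ p * (f * y) by ring, hlin] at h4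
    rcases mul_eq_zero.1 h4 with h | h
    · exact absurd h hp0
    · exact h
  have hfin : Module.Finite P (R ⧸ I) := Module.Finite.of_injective T hinj
  have hm : (Ideal.Quotient.mk I).comp φ = algebraMap P (R ⧸ I) := rfl
  rw [hm, RingHom.finite_algebraMap]
  exact hfin

/-- no torsion -/
theorem torsion_free_of_trace {P R : Type*} [CommRing P] [IsDomain P] [CommRing R]
    (φ : P →+* R) (I : Ideal R) (Tr : R →+ P) (hlin : ∀ p f, Tr (φ p * f) = p * Tr f)
    (h1 : ∀ f ∈ I, ∀ g, Tr (f * g) = 0)
    (h2 : ∀ f, (∀ g, Tr (f * g) = 0) → f ∈ I) (p : P) (hp : p ≠ 0) (f : R) (hf : φ p * f ∈ I) :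
    f ∈ I := by
  apply h2
  intro g
  have h3 := h1 _ hf g
  rw [mul_assoc, hlin] at h3
  rcases mul_eq_zero.1 h3 with h | h
  · exact absurd h hp
  · exact h

end FQ
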