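import Mathlib
import Pool.Agent.Helper46.FQ.Ring

/-!
The Laurent polynomial ring is integrally closed.
-/

namespace FQ

open Finset AddMonoidAlgebra

/-- the cast of exponents -/
def castHom (e : ℕ) : (Fin e →₀ ℕ) →+ (Fin e → ℤ) where
  toFun k := fun i => (k i : ℤ)
  map_zero' := by ext i; simp
  map_add' := by intro a b; ext i; simp

theorem castHom_injective (e : ℕ) : Function.Injective (castHom e) := by
  intro a b hab
  ext i
  have := congrFun hab i
  simpa [castHom] using this

/-- inclusion of polynomials into Laurent polynomials -/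
noncomputable def polyHom (e : ℕ) : MvPolynomial (Fin e) ℂ →+* LR e :=
  (AddMonoidAlgebra.mapDomainRingHom ℂ (castHom e) : AddMonoidAlgebra ℂ (Fin e →₀ ℕ) →+* LR e)

theorem polyHom_injective (e : ℕ) : Function.Injective (polyHom e) := by
  intro a b hab
  apply AddMonoidAlgebra.mapDomain_injective (castHom_injective e)
  exact hab

theorem polyHom_monomial (e : ℕ) (k : Fin e →₀ ℕ) (a : ℂ) :
    polyHom e (MvPolynomial.monomial k a) = AddMonoidAlgebra.single (castHom e k) a := by
  show AddMonoidAlgebra.mapDomain (castHom e) (AddMonoidAlgebra.single k a) = _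
  rw [AddMonoidAlgebra.mapDomain_single]

/-- the monomial `∏ X_i` -/
noncomputable def onesMon (e : ℕ) : MvPolynomial (Fin e) ℂ :=
  MvPolynomial.monomial (Finsupp.equivFunOnFinite.symm (fun _ => 1)) 1

theorem polyHom_onesMon_pow (e N : ℕ) :
    polyHom e (onesMon e ^ N) = AddMonoidAlgebra.single (fun _ => (N : ℤ)) 1 := by
  rw [onesMon, MvPolynomial.monomial_pow, polyHom_monomial, one_pow]
  congr 1
  ext i
  simp [castHom]

theorem exists_poly (e : ℕ) (f : LR e) : ∃ (N : ℕ) (p : MvPolynomial (Fin e) ℂ),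
    f * polyHom e (onesMon e ^ N) = polyHom e p := by
  induction f using AddMonoidAlgebra.induction_linear with
  | zero => exact ⟨0, 0, by simp⟩
  | add f g hf hg =>
    obtain ⟨N, p, hp⟩ := hf
    obtain ⟨M, q, hq⟩ := hg
    refine ⟨N + M, p * onesMon e ^ M + q * onesMon e ^ N, ?_⟩
    rw [map_add, map_mul, map_mul, ← hp, ← hq, pow_add, map_mul]
    ring
  | single m a =>
    refine ⟨∑ i, (m i).natAbs, MvPolynomial.monomial
      (Finsupp.equivFunOnFinite.symm (fun i => (m i + (∑ i, (m i).natAbs : ℕ)).toNat)) a, ?_⟩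
    rw [polyHom_onesMon_pow, polyHom_monomial, AddMonoidAlgebra.single_mul_single, mul_one]
    congr 1
    ext i
    have h1 : (m i).natAbs ≤ ∑ i, (m i).natAbs :=
      Finset.single_le_sum (f := fun i => (m i).natAbs) (fun _ _ => Nat.zero_le _) (Finset.mem_univ i)
    have h2 : (0 : ℤ) ≤ m i + (∑ i, (m i).natAbs : ℕ) := by
      omega
    show m i + ((∑ i, (m i).natAbs : ℕ) : ℤ) = ((m i + (∑ i, (m i).natAbs : ℕ)).toNat : ℤ)
    rw [Int.toNat_of_nonneg h2]

instance LR_isIntegrallyClosed (e : ℕ) : IsIntegrallyClosed (LR e) := by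
  let : Algebra (MvPolynomial (Fin e) ℂ) (LR e) := (polyHom e).toAlgebra
  have hmap : ∀ p, algebraMap (MvPolynomial (Fin e) ℂ) (LR e) p = polyHom e p := fun p => rfl
  have hne : onesMon e ≠ 0 := by
    rw [onesMon, Ne, MvPolynomial.monomial_eq_zero]; exact one_ne_zero
  have hloc : IsLocalization (Submonoid.powers (onesMon e)) (LR e) := by
    refine ⟨?_, ?_, ?_⟩
    · rintro ⟨_, N, rfl⟩
      rw [hmap]
      show IsUnit (polyHom e (onesMon e ^ N))
      rw [polyHom_onesMon_pow]
      refine IsUnit.of_mul_eq_one (AddMonoidAlgebra.single (fun _ => -(N : ℤ)) 1) ?_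
      rw [AddMonoidAlgebra.single_mul_single, AddMonoidAlgebra.one_def, mul_one]
      congr 1
      ext i; simp
    · intro f
      obtain ⟨N, p, hp⟩ := exists_poly e f
      exact ⟨(p, ⟨onesMon e ^ N, N, rfl⟩), hp⟩
    · intro a b hab
      refine ⟨1, ?_⟩
      have := polyHom_injective e hab
      rw [this]
  exact isIntegrallyClosed_of_isLocalization (LR e) (Submonoid.powers (onesMon e))
    (powers_le_nonZeroDivisors_of_noZeroDivisors hne)

end FQ
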