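import Pool.Agent.Helper46.FQ.Star

/-!
Geometry of numbers: counting lattice points near the kernel of `h`, sublattices near the kernel.
-/

namespace FQ

open Finset

variable {n : ℕ} {E : Type*} [NormedAddCommGroup E] [InnerProductSpace ℝ E]
  [FiniteDimensional ℝ E]

/-- the adjoint `L : E → ℝ^n` -/
noncomputable def Lmap (h : (Fin n → ℤ) →+ E) (y : E) : Fin n → ℝ :=
  fun i => inner ℝ (h (Pi.single i 1)) y

theorem inner_hR (h : (Fin n → ℤ) →+ E) (x : Fin n → ℝ) (y : E) :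
    inner ℝ (hR h x) y = ∑ i, x i * Lmap h y i := by
  rw [hR_apply, sum_inner]
  exact Finset.sum_congr rfl fun i _ => by rw [inner_smul_left]; simp [Lmap]

/-- dimension of the kernel -/
noncomputable def kdim (h : (Fin n → ℤ) →+ E) : ℕ := Module.finrank ℝ (hR h).ker

/-- basis of the kernel -/
noncomputable def kb (h : (Fin n → ℤ) →+ E) (j : Fin (kdim h)) : Fin n → ℝ :=
  ((Module.finBasis ℝ (hR h).ker) j : Fin n → ℝ)

theorem kb_mem (h : (Fin n → ℤ) →+ E) (j : Fin (kdim h)) : hR h (kb h j) = 0 :=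
  ((Module.finBasis ℝ (hR h).ker) j).2

theorem mem_ker_eq_sum (h : (Fin n → ℤ) →+ E) (x : Fin n → ℝ) (hx : hR h x = 0) :
    ∃ a : Fin (kdim h) → ℝ, x = ∑ j, a j • kb h j := by
  refine ⟨fun j => (Module.finBasis ℝ (hR h).ker).repr ⟨x, hx⟩ j, ?_⟩
  have h1 := (Module.finBasis ℝ (hR h).ker).sum_repr ⟨x, hx⟩
  have h2 := congrArg (Subtype.val) h1
  simp only [Submodule.coe_sum, Submodule.coe_smul] at h2
  exact h2.symm

theorem kb_independent (h : (Fin n → ℤ) →+ E) (a : Fin (kdim h) → ℝ)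
    (ha : ∑ j, a j • kb h j = 0) : a = 0 := by
  have hli := (Module.finBasis ℝ (hR h).ker).linearIndependent
  rw [Fintype.linearIndependent_iff] at hli
  ext j
  refine hli a ?_ j
  apply Subtype.ext
  simp only [Submodule.coe_sum, Submodule.coe_smul, Submodule.coe_zero]
  exact ha

theorem eq_zero_of_ker (h : (Fin n → ℤ) →+ E) (x : Fin n → ℝ) (hx : hR h x = 0)
    (hk : ∀ j, ∑ i, kb h j i * x i = 0) : x = 0 := by
  obtain ⟨a, ha⟩ := mem_ker_eq_sum h x hx
  have h1 : ∑ i, x i * x i = 0 := by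
    have : ∀ i, x i * x i = ∑ j, a j * (kb h j i * x i) := by
      intro i
      have hxi : x i = ∑ j, a j * kb h j i := by
        have := congrFun ha i
        simpa [Finset.sum_apply] using this
      calc x i * x i = (∑ j, a j * kb h j i) * x i := by rw [← hxi]
        _ = ∑ j, a j * (kb h j i * x i) := by
            rw [Finset.sum_mul]
            exact Finset.sum_congr rfl fun j _ => by ring
    rw [Finset.sum_congr rfl fun i _ => this i, Finset.sum_comm]
    simp only [← Finset.mul_sum, hk, mul_zero, Finset.sum_const_zero]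
  ext i
  have h3 := (Finset.sum_eq_zero_iff_of_nonneg (fun i _ => mul_self_nonneg (x i))).1 h1
  exact mul_self_eq_zero.1 (h3 i (Finset.mem_univ i))

/-- number of lattice points in a window -/
theorem window_count (h : (Fin n → ℤ) →+ E) (R : ℝ) : ∃ C : ℕ, ∀ N : ℕ,
    (((box n N).filter (fun ζ => ‖h ζ‖ ≤ R)).card) ≤ C * (N + 1) ^ (kdim h) := by
  classical
  set e := kdim h with he
  let T : (Fin n → ℝ) →ₗ[ℝ] (E × (Fin e → ℝ)) :=
    (hR h).prod (LinearMap.pi fun j => ∑ i, (kb h j i) • (LinearMap.proj i : (Fin n → ℝ) →ₗ[ℝ] ℝ))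
  have hT1 : ∀ x, (T x).1 = hR h x := fun x => rfl
  have hT2 : ∀ x j, (T x).2 j = ∑ i, kb h j i * x i := fun x j => by simp [T]
  have hker : T.ker = ⊥ := by
    rw [LinearMap.ker_eq_bot']
    intro x hx
    refine eq_zero_of_ker h x ?_ ?_
    · rw [← hT1, hx]; rfl
    · intro j; rw [← hT2, hx]; rfl
  obtain ⟨K, hK, hanti⟩ := T.exists_antilipschitzWith hker
  obtain ⟨N₁, hN₁⟩ := exists_nat_ge ((K : ℝ) * max (2 * R) 1)
  obtain ⟨B, hB0, hB⟩ := exists_bound (Finset.univ : Finset (Fin e × Fin n))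
    (fun p => |kb h p.1 p.2|)
  obtain ⟨B', hB'⟩ := exists_nat_ge (n * B)
  refine ⟨(2 * N₁ + 1) ^ n * (2 * B' + 3) ^ e, fun N => ?_⟩
  let f : (Fin n → ℤ) → (Fin e → ℤ) := fun ζ j => ⌊∑ i, kb h j i * (ζ i : ℝ)⌋
  set S := (box n N).filter (fun ζ => ‖h ζ‖ ≤ R) with hS
  have himg : S.image f ⊆ box e (B' * N + 1) := by
    intro m hm
    obtain ⟨ζ, hζ, rfl⟩ := Finset.mem_image.1 hm
    have hζN := mem_box.1 (Finset.mem_filter.1 hζ).1
    rw [mem_box, pi_norm_le_iff_of_nonneg (by positivity)]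
    intro j
    have h1 : |∑ i, kb h j i * (ζ i : ℝ)| ≤ B' * N := by
      calc |∑ i, kb h j i * (ζ i : ℝ)| ≤ ∑ i, |kb h j i * (ζ i : ℝ)| := Finset.abs_sum_le_sum_abs _ _
        _ ≤ ∑ i : Fin n, B * N := by
            refine Finset.sum_le_sum fun i _ => ?_
            rw [abs_mul]
            refine mul_le_mul (hB (j, i) (Finset.mem_univ _)) ?_ (abs_nonneg _) hB0
            rw [← Int.norm_eq_abs]
            exact (norm_le_pi_norm ζ i).trans hζN
        _ = n * B * N := by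
            rw [Finset.sum_const, Finset.card_univ, Fintype.card_fin, nsmul_eq_mul, mul_assoc]
        _ ≤ B' * N := by gcongr
    rw [Int.norm_eq_abs, abs_le]
    rw [abs_le] at h1
    have h2 := Int.floor_le (∑ i, kb h j i * (ζ i : ℝ))
    have h3 := Int.lt_floor_add_one (∑ i, kb h j i * (ζ i : ℝ))
    simp only [f]
    push_cast
    constructor <;> linarith
  have hfib : ∀ m ∈ S.image f, (S.filter (fun ζ => f ζ = m)).card ≤ (2 * N₁ + 1) ^ n := by
    intro m hm
    obtain ⟨ζ₀, hζ₀, rfl⟩ := Finset.mem_image.1 hm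
    rw [← card_box n N₁]
    refine Finset.card_le_card_of_injOn (fun ζ => ζ - ζ₀) ?_ ?_
    · intro ζ hζ
      have hζ := Finset.mem_filter.1 (Finset.mem_coe.1 hζ)
      have hζS := (Finset.mem_filter.1 hζ.1).2
      have hζ₀S := (Finset.mem_filter.1 hζ₀).2
      rw [Finset.mem_coe, mem_box]
      have h1 := hanti.le_mul_norm (by simp) (toR (ζ - ζ₀))
      rw [norm_toR] at h1
      refine h1.trans (le_trans ?_ hN₁)
      refine mul_le_mul_of_nonneg_left ?_ K.2
      rw [Prod.norm_def, hT1, hR_toR]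
      refine max_le_max ?_ ?_
      · rw [map_sub]
        exact (norm_sub_le _ _).trans (by linarith)
      · rw [pi_norm_le_iff_of_nonneg zero_le_one]
        intro j
        rw [hT2]
        have h2 : ∑ i, kb h j i * toR (ζ - ζ₀) i
            = (∑ i, kb h j i * (ζ i : ℝ)) - ∑ i, kb h j i * (ζ₀ i : ℝ) := by
          rw [← Finset.sum_sub_distrib]
          exact Finset.sum_congr rfl fun i _ => by simp [toR]; ring
        rw [h2, Real.norm_eq_abs]
        have h3 : ⌊∑ i, kb h j i * (ζ i : ℝ)⌋ = ⌊∑ i, kb h j i * (ζ₀ i : ℝ)⌋ := congrFun hζ.2 j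
        exact (Int.abs_sub_lt_one_of_floor_eq_floor h3).le
    · intro a _ b _ hab
      simpa using hab
  calc S.card ≤ (2 * N₁ + 1) ^ n * (S.image f).card := Finset.card_le_mul_card_image S _ hfib
    _ ≤ (2 * N₁ + 1) ^ n * (box e (B' * N + 1)).card := by
        exact Nat.mul_le_mul_left _ (Finset.card_le_card himg)
    _ = (2 * N₁ + 1) ^ n * (2 * (B' * N + 1) + 1) ^ e := by rw [card_box]
    _ ≤ (2 * N₁ + 1) ^ n * ((2 * B' + 3) * (N + 1)) ^ e := by
        apply Nat.mul_le_mul_left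
        apply Nat.pow_le_pow_left
        nlinarith
    _ = (2 * N₁ + 1) ^ n * (2 * B' + 3) ^ e * (N + 1) ^ e := by rw [mul_pow, mul_assoc]

/-- ℓ¹ norm on `ℤ^e` -/
noncomputable def l1 {e : ℕ} (m : Fin e → ℤ) : ℝ := ∑ j, |(m j : ℝ)|

theorem l1_nonneg {e : ℕ} (m : Fin e → ℤ) : 0 ≤ l1 m := Finset.sum_nonneg fun _ _ => abs_nonneg _

theorem l1_eq_zero {e : ℕ} (m : Fin e → ℤ) (hm : l1 m = 0) : m = 0 := by
  have h3 := (Finset.sum_eq_zero_iff_of_nonneg (fun i _ => abs_nonneg ((m i : ℝ)))).1 hm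
  ext i
  have := h3 i (Finset.mem_univ i)
  simpa using this

theorem range_L (h : (Fin n → ℤ) →+ E) (τ : Fin n → ℝ)
    (hτ : ∀ x, hR h x = 0 → ∑ i, x i * τ i = 0) : ∃ y : E, τ = Lmap h y := by
  let ℓ : Module.Dual ℝ (Fin n → ℝ) := ∑ i, (τ i) • (LinearMap.proj i : (Fin n → ℝ) →ₗ[ℝ] ℝ)
  have hℓ : ∀ x, ℓ x = ∑ i, x i * τ i := by
    intro x; simp [ℓ, mul_comm]
  have h1 : ℓ ∈ (hR h).ker.dualAnnihilator := by
    rw [Submodule.mem_dualAnnihilator]
    intro x hx
    rw [hℓ]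
    exact hτ x hx
  rw [← LinearMap.range_dualMap_eq_dualAnnihilator_ker] at h1
  obtain ⟨g, hg⟩ := h1
  let g' : E →L[ℝ] ℝ := LinearMap.toContinuousLinearMap g
  refine ⟨(InnerProductSpace.toDual ℝ E).symm g', ?_⟩
  ext i
  have h2 : τ i = ℓ (Pi.single i 1) := by
    rw [hℓ]; simp [Pi.single_apply]
  rw [h2, ← hg, LinearMap.dualMap_apply]
  have h3 : hR h (Pi.single i 1) = h (Pi.single i 1) := by
    have : (Pi.single i 1 : Fin n → ℝ) = toR (Pi.single i 1) := by
      ext j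
      simp only [toR, Pi.single_apply]
      split_ifs <;> simp
    rw [this, hR_toR]
  rw [h3, Lmap, real_inner_comm, InnerProductSpace.toDual_symm_apply]
  rfl

theorem near_range_L (h : (Fin n → ℤ) →+ E) : ∃ C : ℝ, 0 ≤ C ∧ ∀ (τ : Fin n → ℝ) (δ : ℝ), 0 ≤ δ →
    (∀ j, |∑ i, kb h j i * τ i| ≤ δ) → ∃ y : E, ‖τ - Lmap h y‖ ≤ C * δ := by
  classical
  set e := kdim h with he
  let T : (hR h).ker →ₗ[ℝ] (Fin e → ℝ) :=
    (LinearMap.pi fun j => ∑ i, (kb h j i) • (LinearMap.proj i : (Fin n → ℝ) →ₗ[ℝ] ℝ)).domRestrict _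
  have hT : ∀ x j, T x j = ∑ i, kb h j i * (x : Fin n → ℝ) i := fun x j => by simp [T]
  have hker : T.ker = ⊥ := by
    rw [LinearMap.ker_eq_bot']
    rintro ⟨x, hx⟩ hTx
    apply Subtype.ext
    refine eq_zero_of_ker h x hx ?_
    intro j
    have := congrFun hTx j
    rw [hT] at this
    exact this
  have hsurj : Function.Surjective T := by
    have hinj : Function.Injective T := LinearMap.ker_eq_bot.1 hker
    rw [← LinearMap.injective_iff_surjective_of_finrank_eq_finrank]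
    · exact hinj
    · simp [he, kdim]
  obtain ⟨K, hK, hanti⟩ := T.exists_antilipschitzWith hker
  refine ⟨K, K.2, fun τ δ hδ hτ => ?_⟩
  obtain ⟨x, hx⟩ := hsurj (fun j => ∑ i, kb h j i * τ i)
  obtain ⟨y, hy⟩ := range_L h (τ - x) (by
    intro z hz
    obtain ⟨a, ha⟩ := mem_ker_eq_sum h z hz
    have h1 : ∀ j, ∑ i, kb h j i * (τ - (x : Fin n → ℝ)) i = 0 := by
      intro j
      have := congrFun hx j
      rw [hT] at this
      simp only [Pi.sub_apply, mul_sub, Finset.sum_sub_distrib]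
      rw [this, sub_self]
    have h2 : ∀ i, z i * (τ - (x : Fin n → ℝ)) i = ∑ j, a j * (kb h j i * (τ - (x : Fin n → ℝ)) i) := by
      intro i
      conv_lhs => rw [show z i = (∑ j, a j • kb h j) i from congrFun ha i]
      rw [Finset.sum_apply, Finset.sum_mul]
      exact Finset.sum_congr rfl fun j _ => by simp [mul_assoc]
    rw [Finset.sum_congr rfl fun i _ => h2 i, Finset.sum_comm]
    simp only [← Finset.mul_sum, h1, mul_zero, Finset.sum_const_zero])
  refine ⟨y, ?_⟩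
  rw [← hy]
  have h3 := hanti.le_mul_norm (by simp) x
  have h4 : τ - (τ - (x : Fin n → ℝ)) = x := by abel
  rw [h4]
  have h5 : ‖T x‖ ≤ δ := by
    rw [hx, pi_norm_le_iff_of_nonneg hδ]
    exact hτ
  calc ‖(x : Fin n → ℝ)‖ = ‖x‖ := rfl
    _ ≤ K * ‖T x‖ := h3
    _ ≤ K * δ := by gcongr

/-- sublattices near the kernel -/
theorem exists_sublattice (h : (Fin n → ℤ) →+ E) : ∃ C₃ C₄ C₅ C₆ t₀ : ℝ, 0 < C₃ ∧ 0 ≤ C₄ ∧ 0 ≤ C₅ ∧
    0 ≤ C₆ ∧ 1 ≤ t₀ ∧ ∀ t ≥ t₀, ∃ β : (Fin (kdim h) → ℤ) →+ (Fin n → ℤ),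
      (∀ m, t * l1 m ≤ C₃ * ‖β m‖) ∧ (∀ m, ‖h (β m)‖ ≤ C₄ * l1 m) ∧
      (∀ m, ‖β m‖ ≤ C₅ * t * l1 m) ∧
      (∀ τ : Fin n → ℝ, (∀ m, ∑ i, (β m i : ℝ) * τ i = 0) → ∃ y : E,
        ‖τ - Lmap h y‖ ≤ C₆ / t * ‖τ‖) := by
  classical
  set e := kdim h with he
  let S : (Fin e → ℝ) →ₗ[ℝ] (Fin n → ℝ) := ∑ j, (LinearMap.proj j : (Fin e → ℝ) →ₗ[ℝ] ℝ).smulRight (kb h j)
  have hS : ∀ a, S a = ∑ j, a j • kb h j := by intro a; simp [S]
  have hker : S.ker = ⊥ := by
    rw [LinearMap.ker_eq_bot']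
    intro a ha
    rw [hS] at ha
    exact kb_independent h a ha
  obtain ⟨K, hK, hanti⟩ := S.exists_antilipschitzWith hker
  let H : (Fin n → ℝ) →L[ℝ] E := LinearMap.toContinuousLinearMap (hR h)
  obtain ⟨B, hB0, hB⟩ := exists_bound (Finset.univ : Finset (Fin e)) (fun j => ‖kb h j‖)
  obtain ⟨C, hC0, hC⟩ := near_range_L h
  set Kc : ℝ := e * K + 1 with hKc
  have hKc0 : 0 < Kc := by positivity
  have hl1 : ∀ m : Fin e → ℤ, l1 m ≤ Kc * ‖S (fun j => (m j : ℝ))‖ := by
    intro m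
    have h1 : l1 m ≤ e * ‖(fun j => (m j : ℝ))‖ := by
      calc l1 m ≤ ∑ j : Fin e, ‖(fun j => (m j : ℝ))‖ := by
            refine Finset.sum_le_sum fun j _ => ?_
            rw [← Real.norm_eq_abs]
            exact norm_le_pi_norm (fun j => (m j : ℝ)) j
        _ = e * ‖(fun j => (m j : ℝ))‖ := by
            rw [Finset.sum_const, Finset.card_univ, Fintype.card_fin, nsmul_eq_mul]
    have h2 := hanti.le_mul_norm (by simp) (fun j => (m j : ℝ))
    calc l1 m ≤ e * ‖(fun j => (m j : ℝ))‖ := h1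
      _ ≤ e * (K * ‖S (fun j => (m j : ℝ))‖) := by gcongr
      _ ≤ Kc * ‖S (fun j => (m j : ℝ))‖ := by
          rw [hKc, ← mul_assoc]
          apply mul_le_mul_of_nonneg_right _ (norm_nonneg _)
          linarith
  refine ⟨2 * Kc, ‖H‖ / 2, B + 1, C * n / 2, max 1 Kc, by positivity, by positivity, by positivity,
    by positivity, le_max_left _ _, fun t ht => ?_⟩
  have ht1 : 1 ≤ t := (le_max_left _ _).trans ht
  have htK : Kc ≤ t := (le_max_right _ _).trans ht
  have ht0 : 0 < t := by linarith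
  let b : Fin e → (Fin n → ℤ) := fun j i => round (t * kb h j i)
  let β : (Fin e → ℤ) →+ (Fin n → ℤ) := AddMonoidHom.mk' (fun m => ∑ j, m j • b j) (by
    intro x y; simp [add_smul, Finset.sum_add_distrib])
  have hβ : ∀ m, β m = ∑ j, m j • b j := fun m => rfl
  have hβi : ∀ m i, ((β m i : ℤ) : ℝ) = ∑ j, (m j : ℝ) * (b j i : ℝ) := by
    intro m i
    rw [hβ, Finset.sum_apply]
    push_cast
    exact Finset.sum_congr rfl fun j _ => by simp
  have hdiff : ∀ m, ‖toR (β m) - t • S (fun j => (m j : ℝ))‖ ≤ l1 m / 2 := by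
    intro m
    rw [pi_norm_le_iff_of_nonneg (by have := l1_nonneg m; positivity)]
    intro i
    have h1 : (toR (β m) - t • S (fun j => (m j : ℝ))) i
        = ∑ j, (m j : ℝ) * ((b j i : ℝ) - t * kb h j i) := by
      rw [Pi.sub_apply, Pi.smul_apply, hS, Finset.sum_apply]
      simp only [toR, hβi, smul_eq_mul, Pi.smul_apply, mul_sub, Finset.sum_sub_distrib]
      rw [Finset.mul_sum]
      congr 1
      exact Finset.sum_congr rfl fun j _ => by ring
    rw [h1, Real.norm_eq_abs]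
    calc |∑ j, (m j : ℝ) * ((b j i : ℝ) - t * kb h j i)|
        ≤ ∑ j, |(m j : ℝ) * ((b j i : ℝ) - t * kb h j i)| := Finset.abs_sum_le_sum_abs _ _
      _ ≤ ∑ j, |(m j : ℝ)| * (1 / 2) := by
          refine Finset.sum_le_sum fun j _ => ?_
          rw [abs_mul]
          apply mul_le_mul_of_nonneg_left _ (abs_nonneg _)
          rw [abs_sub_comm]
          exact abs_sub_round _
      _ = l1 m / 2 := by rw [← Finset.sum_mul]; simp [l1]; ring
  refine ⟨β, ?_, ?_, ?_, ?_⟩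
  · intro m
    have h1 := hdiff m
    have h2 : t * ‖S (fun j => (m j : ℝ))‖ ≤ ‖β m‖ + l1 m / 2 := by
      rw [← norm_toR (β m)]
      calc t * ‖S (fun j => (m j : ℝ))‖ = ‖t • S (fun j => (m j : ℝ))‖ := by
            rw [norm_smul, Real.norm_of_nonneg ht0.le]
        _ = ‖toR (β m) - (toR (β m) - t • S (fun j => (m j : ℝ)))‖ := by congr 1; abel
        _ ≤ ‖toR (β m)‖ + ‖toR (β m) - t • S (fun j => (m j : ℝ))‖ := norm_sub_le _ _
        _ ≤ _ := by linarith
    have h3 := hl1 m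
    have h4 : t * l1 m ≤ Kc * (‖β m‖ + l1 m / 2) := by
      calc t * l1 m ≤ t * (Kc * ‖S (fun j => (m j : ℝ))‖) := by gcongr
        _ = Kc * (t * ‖S (fun j => (m j : ℝ))‖) := by ring
        _ ≤ _ := by gcongr
    have h5 : Kc * l1 m ≤ t * l1 m := mul_le_mul_of_nonneg_right htK (l1_nonneg m)
    linarith
  · intro m
    have h1 : h (β m) = H (toR (β m) - t • S (fun j => (m j : ℝ))) := by
      rw [map_sub]
      have h2 : H (t • S (fun j => (m j : ℝ))) = 0 := by
        have h3 : H (t • S (fun j => (m j : ℝ))) = hR h (t • S (fun j => (m j : ℝ))) := rfl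
        rw [h3, map_smul, hS, map_sum]
        simp [kb_mem]
      rw [h2, sub_zero]
      exact (hR_toR h _).symm
    rw [h1]
    calc _ ≤ ‖H‖ * ‖toR (β m) - t • S (fun j => (m j : ℝ))‖ := H.le_opNorm _
      _ ≤ ‖H‖ * (l1 m / 2) := by gcongr; exact hdiff m
      _ = ‖H‖ / 2 * l1 m := by ring
  · intro m
    have h1 := hdiff m
    have h2 : ‖S (fun j => (m j : ℝ))‖ ≤ B * l1 m := by
      rw [hS]
      calc ‖∑ j, (m j : ℝ) • kb h j‖ ≤ ∑ j, ‖(m j : ℝ) • kb h j‖ := norm_sum_le _ _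
        _ ≤ ∑ j, |(m j : ℝ)| * B := by
            refine Finset.sum_le_sum fun j _ => ?_
            rw [norm_smul, Real.norm_eq_abs]
            exact mul_le_mul_of_nonneg_left (hB j (Finset.mem_univ j)) (abs_nonneg _)
        _ = B * l1 m := by rw [← Finset.sum_mul, mul_comm]; rfl
    rw [← norm_toR (β m)]
    have h0 := l1_nonneg m
    calc ‖toR (β m)‖ = ‖t • S (fun j => (m j : ℝ)) + (toR (β m) - t • S (fun j => (m j : ℝ)))‖ := by
          congr 1; abel
      _ ≤ ‖t • S (fun j => (m j : ℝ))‖ + ‖toR (β m) - t • S (fun j => (m j : ℝ))‖ := norm_add_le _ _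
      _ ≤ t * (B * l1 m) + l1 m / 2 := by
          refine add_le_add ?_ h1
          rw [norm_smul, Real.norm_of_nonneg ht0.le]
          gcongr
      _ ≤ (B + 1) * t * l1 m := by nlinarith
  · intro τ hτ
    have h1 : ∀ j, |∑ i, kb h j i * τ i| ≤ n / (2 * t) * ‖τ‖ := by
      intro j
      have h2 := hτ (Pi.single j 1)
      have h3 : ∀ i, ((β (Pi.single j 1) i : ℤ) : ℝ) = (b j i : ℝ) := by
        intro i
        rw [hβi, Finset.sum_eq_single j]
        · simp
        · intro k _ hk; simp [Pi.single_eq_of_ne hk]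
        · simp
      have h4 : ∑ i, kb h j i * τ i = ∑ i, (kb h j i - (b j i : ℝ) / t) * τ i := by
        simp only [sub_mul, Finset.sum_sub_distrib]
        have h5 : ∑ i, (b j i : ℝ) / t * τ i = 0 := by
          have : ∑ i, (b j i : ℝ) / t * τ i = (∑ i, ((β (Pi.single j 1) i : ℤ) : ℝ) * τ i) / t := by
            rw [Finset.sum_div]
            exact Finset.sum_congr rfl fun i _ => by rw [h3]; ring
          rw [this, h2, zero_div]
        rw [h5, sub_zero]
      rw [h4]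
      calc |∑ i, (kb h j i - (b j i : ℝ) / t) * τ i|
          ≤ ∑ i, |(kb h j i - (b j i : ℝ) / t) * τ i| := Finset.abs_sum_le_sum_abs _ _
        _ ≤ ∑ i : Fin n, 1 / (2 * t) * ‖τ‖ := by
            refine Finset.sum_le_sum fun i _ => ?_
            rw [abs_mul]
            refine mul_le_mul ?_ (norm_le_pi_norm τ i) (abs_nonneg _) (by positivity)
            have h6 : kb h j i - (b j i : ℝ) / t = (t * kb h j i - (b j i : ℝ)) / t := by
              field_simp
            rw [h6, abs_div, abs_of_pos ht0, div_le_div_iff₀ ht0 (by positivity)]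
            have h7 : |t * kb h j i - (b j i : ℝ)| ≤ 1 / 2 := abs_sub_round _
            nlinarith
        _ = n / (2 * t) * ‖τ‖ := by
            rw [Finset.sum_const, Finset.card_univ, Fintype.card_fin, nsmul_eq_mul]
            ring
    obtain ⟨y, hy⟩ := hC τ (n / (2 * t) * ‖τ‖) (by positivity) h1
    refine ⟨y, hy.trans (le_of_eq ?_)⟩
    field_simp

end FQ
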