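import Mathlib
import Pool.Agent.Helper46.FQ.Lattice
import Pool.Agent.Helper46.FQ.Ring

/-!
Points of the torus `(ℂ^*)^n`, evaluation of Laurent polynomials.
-/

namespace FQ

open Finset AddMonoidAlgebra

/-- the character value `z^ζ` as a unit -/
noncomputable def chrU {n : ℕ} (z : Fin n → ℂˣ) (ζ : Fin n → ℤ) : ℂˣ := ∏ i, z i ^ ζ i

theorem chrU_zero {n : ℕ} (z : Fin n → ℂˣ) : chrU z 0 = 1 := by simp [chrU]

theorem chrU_add {n : ℕ} (z : Fin n → ℂˣ) (ζ ξ : Fin n → ℤ) :
    chrU z (ζ + ξ) = chrU z ζ * chrU z ξ := by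
  simp [chrU, zpow_add, Finset.prod_mul_distrib]

theorem chrU_single {n : ℕ} (z : Fin n → ℂˣ) (i : Fin n) (k : ℤ) :
    chrU z (Pi.single i k) = z i ^ k := by
  rw [chrU, Finset.prod_eq_single i]
  · simp
  · intro j _ hj; simp [Pi.single_eq_of_ne hj]
  · simp

/-- character as a homomorphism -/
noncomputable def chrHom {n : ℕ} (z : Fin n → ℂˣ) : Multiplicative (Fin n → ℤ) →* ℂ where
  toFun ζ := (chrU z ζ.toAdd : ℂ)
  map_one' := by simp [chrU_zero]
  map_mul' := by intro a b; simp [chrU_add]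

/-- evaluation at a point of the torus -/
noncomputable def evz {n : ℕ} (z : Fin n → ℂˣ) : LR n →ₐ[ℂ] ℂ :=
  AddMonoidAlgebra.lift ℂ ℂ (Fin n → ℤ) (chrHom z)

theorem evz_single {n : ℕ} (z : Fin n → ℂˣ) (ζ : Fin n → ℤ) (a : ℂ) :
    evz z (AddMonoidAlgebra.single ζ a) = a * chrU z ζ := by
  rw [evz, AddMonoidAlgebra.lift_single]; rfl

theorem evz_eq_sum {n : ℕ} (z : Fin n → ℂˣ) (f : LR n) :
    evz z f = ∑ ζ ∈ f.coeff.support, f.coeff ζ * chrU z ζ := by
  classical
  have h1 : f = ∑ ζ ∈ f.coeff.support, AddMonoidAlgebra.single ζ (f.coeff ζ) := by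
    ext x
    simp only [coeff_sum, coeff_single]
    rw [Finsupp.finsetSum_apply]
    simp only [Finsupp.single_apply]
    rw [Finset.sum_ite_eq']
    simp only [Finsupp.mem_support_iff, ne_eq, ite_not]
    split_ifs with h
    · exact h
    · rfl
  conv_lhs => rw [h1]
  rw [map_sum]
  exact Finset.sum_congr rfl fun ζ _ => evz_single z ζ _

theorem evz_eq_sum_of_subset {n : ℕ} (z : Fin n → ℂˣ) (f : LR n) {s : Finset (Fin n → ℤ)}
    (hs : f.coeff.support ⊆ s) :
    evz z f = ∑ ζ ∈ s, f.coeff ζ * chrU z ζ := by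
  rw [evz_eq_sum]
  apply Finset.sum_subset hs
  intro x _ hx
  rw [Finsupp.notMem_support_iff] at hx
  rw [hx, zero_mul]

/-- log of the absolute values -/
noncomputable def lg {n : ℕ} (z : Fin n → ℂˣ) : Fin n → ℝ := fun i => Real.log ‖(z i : ℂ)‖

theorem norm_chrU {n : ℕ} (z : Fin n → ℂˣ) (ζ : Fin n → ℤ) :
    ‖(chrU z ζ : ℂ)‖ = Real.exp (∑ i, (ζ i : ℝ) * lg z i) := by
  rw [Real.exp_sum, chrU, Units.coe_prod, norm_prod]
  refine Finset.prod_congr rfl fun i _ => ?_
  have hpos : 0 < ‖(z i : ℂ)‖ := norm_pos_iff.2 (z i).ne_zero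
  rw [Units.val_zpow_eq_zpow_val, norm_zpow, mul_comm, lg, Real.exp_mul, Real.exp_log hpos,
    Real.rpow_intCast]

theorem norm_chrU_le {e : ℕ} (θ : Fin e → ℂˣ) (m : Fin e → ℤ) :
    ‖(chrU θ m : ℂ)‖ ≤ Real.exp (l1 m * ‖lg θ‖) := by
  rw [norm_chrU]
  apply Real.exp_le_exp.2
  rw [l1, Finset.sum_mul]
  refine Finset.sum_le_sum fun i _ => ?_
  calc (m i : ℝ) * lg θ i ≤ |(m i : ℝ) * lg θ i| := le_abs_self _
    _ = |(m i : ℝ)| * |lg θ i| := abs_mul _ _
    _ ≤ |(m i : ℝ)| * ‖lg θ‖ := mul_le_mul_of_nonneg_left (norm_le_pi_norm (lg θ) i) (abs_nonneg _)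

/-- projection to the sublattice torus -/
noncomputable def pr {n e : ℕ} (β : (Fin e → ℤ) →+ (Fin n → ℤ)) (z : Fin n → ℂˣ) : Fin e → ℂˣ :=
  fun j => chrU z (β (Pi.single j 1))

theorem chrU_hom {n : ℕ} (z : Fin n → ℂˣ) (k : ℤ) (ζ : Fin n → ℤ) : chrU z (k • ζ) = chrU z ζ ^ k := by
  simp only [chrU, Pi.smul_apply, smul_eq_mul, zpow_mul', Finset.prod_zpow]

theorem chrU_sum {n : ℕ} {ι : Type*} (z : Fin n → ℂˣ) (s : Finset ι) (ζ : ι → (Fin n → ℤ)) :
    chrU z (∑ i ∈ s, ζ i) = ∏ i ∈ s, chrU z (ζ i) := by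
  classical
  induction s using Finset.induction_on with
  | empty => simp [chrU_zero]
  | insert a s ha ih => rw [Finset.sum_insert ha, Finset.prod_insert ha, chrU_add, ih]

theorem chrU_pr {n e : ℕ} (β : (Fin e → ℤ) →+ (Fin n → ℤ)) (z : Fin n → ℂˣ) (m : Fin e → ℤ) :
    chrU (pr β z) m = chrU z (β m) := by
  have h1 : m = ∑ j, m j • (Pi.single j 1 : Fin e → ℤ) := by
    ext i
    simp [Finset.sum_apply, Pi.single_apply]
  conv_rhs => rw [h1, map_sum, chrU_sum]
  rw [chrU]
  refine Finset.prod_congr rfl fun j _ => ?_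
  rw [map_zsmul, chrU_hom, pr]

theorem evz_ib {n e : ℕ} (β : (Fin e → ℤ) →+ (Fin n → ℤ)) (z : Fin n → ℂˣ) (p : LR e) :
    evz z (ib β p) = evz (pr β z) p := by
  induction p using AddMonoidAlgebra.induction_linear with
  | zero => simp
  | add f g hf hg => rw [map_add, map_add, map_add, hf, hg]
  | single m a =>
    have h1 : ib β (AddMonoidAlgebra.single m a) = AddMonoidAlgebra.single (β m) a := by
      show AddMonoidAlgebra.mapDomain β (AddMonoidAlgebra.single m a) = _
      rw [AddMonoidAlgebra.mapDomain_single]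
    rw [h1, evz_single, evz_single, chrU_pr]

theorem lg_pr {n e : ℕ} (β : (Fin e → ℤ) →+ (Fin n → ℤ)) (z : Fin n → ℂˣ) (j : Fin e) :
    lg (pr β z) j = ∑ i, (β (Pi.single j 1) i : ℝ) * lg z i := by
  rw [lg, pr, norm_chrU, Real.log_exp]

theorem continuous_chrU {n : ℕ} (ζ : Fin n → ℤ) : Continuous fun z : Fin n → ℂˣ => (chrU z ζ : ℂ) := by
  apply Units.continuous_val.comp
  unfold chrU
  exact continuous_finsetProd _ fun i _ => (continuous_apply i).zpow _

theorem continuous_evz {n : ℕ} (f : LR n) : Continuous fun z : Fin n → ℂˣ => evz z f := by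
  simp only [evz_eq_sum]
  exact continuous_finsetSum _ fun ζ _ => continuous_const.mul (continuous_chrU ζ)

theorem continuous_lg {n : ℕ} : Continuous (lg : (Fin n → ℂˣ) → (Fin n → ℝ)) := by
  refine continuous_pi fun i => ?_
  unfold lg
  refine Continuous.log ?_ ?_
  · exact (Units.continuous_val.comp (continuous_apply i)).norm
  · intro z; exact norm_ne_zero_iff.2 (z i).ne_zero

/-- the point `exp (i x)` -/
noncomputable def expI {n : ℕ} (x : Fin n → ℝ) : Fin n → ℂˣ :=
  fun i => Units.mk0 (Complex.exp (Complex.I * x i)) (Complex.exp_ne_zero _)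

theorem chrU_expI {n : ℕ} (x : Fin n → ℝ) (ζ : Fin n → ℤ) :
    (chrU (expI x) ζ : ℂ) = Complex.exp (Complex.I * ∑ i, (ζ i : ℂ) * x i) := by
  rw [chrU, Units.coe_prod, Finset.mul_sum, Complex.exp_sum]
  refine Finset.prod_congr rfl fun i _ => ?_
  rw [Units.val_zpow_eq_zpow_val, expI, Units.val_mk0, ← Complex.exp_int_mul]
  congr 1; ring

theorem chrU_mul {n : ℕ} (z w : Fin n → ℂˣ) (ζ : Fin n → ℤ) :
    chrU (z * w) ζ = chrU z ζ * chrU w ζ := by
  simp [chrU, mul_zpow, Finset.prod_mul_distrib]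

theorem continuous_expI {n : ℕ} : Continuous (expI : (Fin n → ℝ) → (Fin n → ℂˣ)) := by
  refine continuous_pi fun i => ?_
  rw [Units.isEmbedding_val₀.continuous_iff]
  show Continuous fun x : Fin n → ℝ => Complex.exp (Complex.I * x i)
  fun_prop

/-- nonvanishing near every point, along the real torus directions -/
theorem exists_ne_near {e : ℕ} (p : LR e) (hp : p ≠ 0) (θ₀ : Fin e → ℂˣ) :
    ∃ᶠ x in nhds (0 : Fin e → ℝ), evz (θ₀ * expI x) p ≠ 0 := by
  intro hcon
  simp only [not_not] at hcon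
  -- the analytic function
  let F : (Fin e → ℝ) → ℂ := fun x => evz (θ₀ * expI x) p
  have hF : ∀ x, F x = ∑ m ∈ p.coeff.support, (p.coeff m * chrU θ₀ m) *
      Complex.exp (Complex.I * ∑ i, (m i : ℂ) * x i) := by
    intro x
    simp only [F]
    rw [evz_eq_sum]
    refine Finset.sum_congr rfl fun m _ => ?_
    rw [chrU_mul, Units.val_mul, chrU_expI, mul_assoc]
  have hFan : AnalyticOnNhd ℝ F Set.univ := by
    have : F = fun x => ∑ m ∈ p.coeff.support, (p.coeff m * chrU θ₀ m) *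
      Complex.exp (Complex.I * ∑ i, (m i : ℂ) * x i) := funext hF
    rw [this]
    intro x _
    refine Finset.analyticAt_fun_sum _ fun m _ => ?_
    refine analyticAt_const.mul ?_
    have h1 : AnalyticAt ℝ (fun x : Fin e → ℝ => Complex.I * ∑ i, (m i : ℂ) * (x i : ℂ)) x := by
      refine analyticAt_const.mul ?_
      refine Finset.analyticAt_fun_sum _ fun i _ => ?_
      refine analyticAt_const.mul ?_
      exact (Complex.ofRealCLM.analyticAt _).comp ((ContinuousLinearMap.proj (R := ℝ) i).analyticAt x)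
    exact (Complex.differentiable_exp.analyticAt _).restrictScalars.comp h1
  have hF0 : ∀ x, F x = 0 := by
    have h1 := hFan.eqOn_zero_of_preconnected_of_eventuallyEq_zero isPreconnected_univ
      (Set.mem_univ 0) hcon
    exact fun x => h1 (Set.mem_univ x)
  -- independence of characters
  let χ : (Fin e → ℤ) → (Multiplicative (Fin e → ℝ) →* ℂ) := fun m =>
    { toFun := fun x => Complex.exp (Complex.I * ∑ i, (m i : ℂ) * ((x.toAdd i : ℝ) : ℂ))
      map_one' := by simp
      map_mul' := by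
        intro x y
        rw [← Complex.exp_add]
        congr 1
        rw [← mul_add, ← Finset.sum_add_distrib]
        congr 1
        exact Finset.sum_congr rfl fun i _ => by simp [mul_add] }
  have hχ : Function.Injective χ := by
    intro m m' hmm
    ext i
    by_contra hne
    have h1 := DFunLike.congr_fun hmm (Multiplicative.ofAdd (Pi.single i (1 : ℝ)))
    simp only [χ, MonoidHom.coe_mk, OneHom.coe_mk, toAdd_ofAdd] at h1
    -- use a generic multiple
    have h2 := fun s : ℝ => DFunLike.congr_fun hmm (Multiplicative.ofAdd (Pi.single i s))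
    simp only [χ, MonoidHom.coe_mk, OneHom.coe_mk, toAdd_ofAdd] at h2
    have hs : ∀ (k : Fin e → ℤ) (s : ℝ), ∑ j, (k j : ℂ) * (((Pi.single i s : Fin e → ℝ) j : ℝ) : ℂ) = k i * s := by
      intro k s
      rw [Finset.sum_eq_single i]
      · simp
      · intro j _ hj; simp [Pi.single_eq_of_ne hj]
      · simp
    have hd : (m i : ℝ) - m' i ≠ 0 := by
      intro h; apply hne
      have : (m i : ℝ) = m' i := by linarith
      exact_mod_cast this
    have h3 := h2 (Real.pi / ((m i : ℝ) - m' i))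
    rw [hs, hs, Complex.exp_eq_exp_iff_exp_sub_eq_one] at h3
    have h4 : Complex.I * ((m i : ℂ) * ((Real.pi / ((m i : ℝ) - m' i) : ℝ) : ℂ)) -
        Complex.I * ((m' i : ℂ) * ((Real.pi / ((m i : ℝ) - m' i) : ℝ) : ℂ)) = Real.pi * Complex.I := by
      have hd' : (m i : ℂ) - m' i ≠ 0 := by
        exact_mod_cast hd
      push_cast
      field_simp
    rw [h4, Complex.exp_pi_mul_I] at h3
    norm_num at h3
  have hind := (linearIndependent_monoidHom (Multiplicative (Fin e → ℝ)) ℂ).comp χ hχ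
  rw [linearIndependent_iff'] at hind
  have h5 := hind p.coeff.support (fun m => p.coeff m * chrU θ₀ m) (by
    ext x
    rw [Finset.sum_apply]
    have h6 := hF0 x.toAdd
    rw [hF] at h6
    simpa [χ] using h6)
  apply hp
  ext m
  by_cases hm : m ∈ p.coeff.support
  · have h6 := h5 m hm
    rcases mul_eq_zero.1 h6 with h | h
    · exact h
    · exact absurd h (Units.ne_zero _)
  · rw [Finsupp.notMem_support_iff] at hm
    rw [hm]; rfl

theorem dense_ne {e : ℕ} (p : LR e) (hp : p ≠ 0) : Dense {θ : Fin e → ℂˣ | evz θ p ≠ 0} := by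
  rw [dense_iff_inter_open]
  intro U hU hne
  obtain ⟨θ₀, hθ₀⟩ := hne
  have h1 : Filter.Tendsto (fun x : Fin e → ℝ => θ₀ * expI x) (nhds 0) (nhds θ₀) := by
    have h2 : Continuous (fun x : Fin e → ℝ => θ₀ * expI x) := continuous_const.mul continuous_expI
    have h3 := h2.tendsto 0
    have h4 : θ₀ * expI (0 : Fin e → ℝ) = θ₀ := by
      have : expI (0 : Fin e → ℝ) = 1 := by
        ext i; simp [expI]
      rw [this, mul_one]
    rwa [h4] at h3
  have h2 := h1.eventually (hU.mem_nhds hθ₀)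
  obtain ⟨x, hx1, hx2⟩ := ((exists_ne_near p hp θ₀).and_eventually h2).exists
  exact ⟨_, hx2, hx1⟩

end FQ
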