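import Mathlib

/-!
The root lemma: bounds for roots of minimal polynomials from growth of traces.
-/

namespace FQ

open Finset Polynomial

/-- `μ` is the minimal polynomial of `f` modulo `𝔭`. -/
structure IsMin {P R : Type*} [CommRing P] [CommRing R] (φ : P →+* R) (𝔭 : Ideal R) (f : R)
    (μ : P[X]) : Prop where
  monic : μ.Monic
  mem : μ.eval₂ φ f ∈ 𝔭
  irr : Irreducible μ

theorem exists_isMin {P R : Type*} [CommRing P] [IsDomain P] [CommRing R]
    (φ : P →+* R) (𝔭 : Ideal R) [h𝔭 : 𝔭.IsPrime]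
    (hint : ((Ideal.Quotient.mk 𝔭).comp φ).IsIntegral) (f : R) : ∃ μ : P[X], IsMin φ 𝔭 f μ := by
  let : Algebra P (R ⧸ 𝔭) := ((Ideal.Quotient.mk 𝔭).comp φ).toAlgebra
  have hI : IsIntegral P (Ideal.Quotient.mk 𝔭 f) := hint _
  refine ⟨minpoly P (Ideal.Quotient.mk 𝔭 f), minpoly.monic hI, ?_, minpoly.irreducible hI⟩
  have h1 := minpoly.aeval P (Ideal.Quotient.mk 𝔭 f)
  rw [← Ideal.Quotient.eq_zero_iff_mem, Polynomial.hom_eval₂]
  exact h1

theorem exists_annihilator {R : Type*} [CommRing R] [IsNoetherianRing R] (I : Ideal R)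
    (hrad : I.IsRadical) (𝔭 : Ideal R) (h𝔭 : 𝔭 ∈ I.minimalPrimes) :
    ∃ g₀, g₀ ∉ 𝔭 ∧ ∀ x ∈ 𝔭, x * g₀ ∈ I := by
  classical
  have hfin := Ideal.finite_minimalPrimes_of_isNoetherianRing R I
  have hprime : 𝔭.IsPrime := h𝔭.1.1
  set s : Finset (Ideal R) := hfin.toFinset.erase 𝔭 with hs
  have hnle : ¬ (s.inf id ≤ 𝔭) := by
    rw [hprime.inf_le']
    rintro ⟨𝔮, h𝔮, hle⟩
    rw [hs, Finset.mem_erase, Set.Finite.mem_toFinset] at h𝔮
    have h1 := h𝔭.2 h𝔮.2.1 hle
    exact h𝔮.1 (le_antisymm hle h1)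
  obtain ⟨g₀, hg₀, hg₀'⟩ := Set.not_subset.1 hnle
  refine ⟨g₀, hg₀', fun x hx => ?_⟩
  have h2 : x * g₀ ∈ sInf I.minimalPrimes := by
    rw [Submodule.mem_sInf]
    intro 𝔮 h𝔮
    by_cases he : 𝔮 = 𝔭
    · rw [he]; exact Ideal.mul_mem_right _ _ hx
    · have h3 : 𝔮 ∈ s := by rw [hs, Finset.mem_erase, Set.Finite.mem_toFinset]; exact ⟨he, h𝔮⟩
      have h4 : s.inf id ≤ 𝔮 := Finset.inf_le h3
      exact Ideal.mul_mem_left _ _ (h4 hg₀)
  rw [Ideal.sInf_minimalPrimes, hrad.radical] at h2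
  exact h2

/-- clearing denominators in a Bezout identity -/
theorem clear_bezout {P : Type*} [CommRing P] [IsDomain P] (μ ν : P[X])
    (hcop : IsCoprime (μ.map (algebraMap P (FractionRing P))) (ν.map (algebraMap P (FractionRing P)))) :
    ∃ a b : P[X], ∃ δ : P, δ ≠ 0 ∧ a * μ + b * ν = C δ := by
  obtain ⟨a', b', hab⟩ := hcop
  obtain ⟨d₁, hd₁, h1⟩ := IsLocalization.integerNormalization_spec (nonZeroDivisors P) a'
  obtain ⟨d₂, hd₂, h2⟩ := IsLocalization.integerNormalization_spec (nonZeroDivisors P) b'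
  set a := IsLocalization.integerNormalization (nonZeroDivisors P) a'
  set b := IsLocalization.integerNormalization (nonZeroDivisors P) b'
  have hd₁0 := nonZeroDivisors.ne_zero hd₁
  have hd₂0 := nonZeroDivisors.ne_zero hd₂
  refine ⟨C d₂ * a, C d₁ * b, d₁ * d₂, mul_ne_zero hd₁0 hd₂0, ?_⟩
  apply Polynomial.map_injective (algebraMap P (FractionRing P)) (IsFractionRing.injective P _)
  have e1 : a.map (algebraMap P (FractionRing P)) = C (algebraMap P (FractionRing P) d₁) * a' := by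
    rw [h1, Algebra.smul_def]; rfl
  have e2 : b.map (algebraMap P (FractionRing P)) = C (algebraMap P (FractionRing P) d₂) * b' := by
    rw [h2, Algebra.smul_def]; rfl
  rw [Polynomial.map_add, Polynomial.map_mul, Polynomial.map_mul, Polynomial.map_mul,
    Polynomial.map_mul, e1, e2, map_C, map_C, map_C, map_mul, C_mul]
  linear_combination (C (algebraMap P (FractionRing P) d₁)) * (C (algebraMap P (FractionRing P) d₂)) * hab

theorem bezout_of_irreducible {P : Type*} [CommRing P] [IsDomain P] [IsIntegrallyClosed P]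
    (μ ν : P[X]) (hμ : μ.Monic) (hirr : Irreducible μ) (hν : ν ≠ 0) (hdeg : ν.natDegree < μ.natDegree) :
    ∃ a b : P[X], ∃ δ : P, δ ≠ 0 ∧ a * μ + b * ν = C δ := by
  apply clear_bezout
  have h1 := (hμ.irreducible_iff_irreducible_map_fraction_map (K := FractionRing P)).1 hirr
  rw [h1.coprime_iff_not_dvd]
  intro hdvd
  have hν' : ν.map (algebraMap P (FractionRing P)) ≠ 0 := by
    rw [Ne, Polynomial.map_eq_zero_iff (IsFractionRing.injective P _)]
    exact hν
  have h2 := Polynomial.natDegree_le_of_dvd hdvd hν'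
  rw [hμ.natDegree_map, Polynomial.natDegree_map_eq_of_injective (IsFractionRing.injective P _)] at h2
  omega

/-- a polynomial with a small value has a close root -/
theorem exists_close_root (p : ℂ[X]) (hp : p.Monic) (ρ : ℂ) (ε : ℝ) (hε : 0 < ε)
    (h : ‖p.eval ρ‖ < ε ^ p.natDegree) : ∃ r, p.IsRoot r ∧ ‖ρ - r‖ < ε := by
  by_contra hcon
  push Not at hcon
  have hs := IsAlgClosed.splits p
  rw [hs.eval_eq_prod_roots_of_monic hp] at h
  have h1 : ∀ s : Multiset ℂ, (∀ r ∈ s, ε ≤ ‖ρ - r‖) →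
      ε ^ (Multiset.card s) ≤ ‖(Multiset.map (fun x => ρ - x) s).prod‖ := by
    intro s
    induction s using Multiset.induction_on with
    | empty => intro _; simp
    | cons a s ih =>
      intro hs
      rw [Multiset.map_cons, Multiset.prod_cons, Multiset.card_cons, pow_succ', norm_mul]
      have h2 := ih (fun r hr => hs r (Multiset.mem_cons_of_mem hr))
      have h3 := hs a (Multiset.mem_cons_self a s)
      exact mul_le_mul h3 h2 (by positivity) (norm_nonneg _)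
  have h4 := h1 p.roots (fun r hr => hcon r ((Polynomial.mem_roots hp.ne_zero).1 hr))
  rw [IsAlgClosed.card_roots_eq_natDegree] at h4
  linarith

/-- generating function argument over `ℂ` -/
theorem gen_fun (s : ℕ) (m Q : ℕ → ℂ) (ρ : ℂ) (hρ : ρ ≠ 0)
    (hroot : ∑ j ∈ range (s + 1), m j * ρ ^ j = 0)
    (hrec : ∀ N, ∑ j ∈ range (s + 1), m j * Q (N + j) = 0)
    (hsum : Summable fun N => Q N * (ρ⁻¹) ^ (N + 1)) :
    ∑ j ∈ range (s + 1), ∑ N ∈ range j, m j * Q N * ρ ^ (j - 1 - N) = 0 := by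
  set x := ρ⁻¹ with hx
  have hx0 : x ≠ 0 := inv_ne_zero hρ
  have hρx : ρ * x = 1 := mul_inv_cancel₀ hρ
  set H := ∑' N, Q N * x ^ (N + 1) with hH
  have h1 : ∀ j, ρ ^ j * H = ∑ N ∈ range j, Q N * ρ ^ (j - 1 - N) + ∑' N, Q (N + j) * x ^ (N + 1) := by
    intro j
    have h2 := hsum.sum_add_tsum_nat_add j
    rw [← hH] at h2
    rw [← h2, mul_add, Finset.mul_sum, ← tsum_mul_left]
    congr 1
    · refine Finset.sum_congr rfl fun N hN => ?_
      have hN' := Finset.mem_range.1 hN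
      have h3 : ρ ^ j = ρ ^ (j - 1 - N) * ρ ^ (N + 1) := by rw [← pow_add]; congr 1; omega
      rw [h3]
      calc ρ ^ (j - 1 - N) * ρ ^ (N + 1) * (Q N * x ^ (N + 1))
          = Q N * ρ ^ (j - 1 - N) * (ρ * x) ^ (N + 1) := by rw [mul_pow]; ring
        _ = _ := by rw [hρx, one_pow, mul_one]
    · refine tsum_congr fun N => ?_
      have h3 : x ^ (N + j + 1) = x ^ (N + 1) * x ^ j := by rw [← pow_add]; congr 1; omega
      rw [h3]
      calc ρ ^ j * (Q (N + j) * (x ^ (N + 1) * x ^ j))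
          = Q (N + j) * x ^ (N + 1) * (ρ * x) ^ j := by rw [mul_pow]; ring
        _ = _ := by rw [hρx, one_pow, mul_one]
  have hsum2 : ∀ j, Summable fun N => Q (N + j) * x ^ (N + 1) := by
    intro j
    have h2 : Summable fun N => Q (N + j) * x ^ (N + j + 1) := by
      exact (summable_nat_add_iff (f := fun N => Q N * x ^ (N + 1)) j).2 hsum
    have h3 : (fun N => Q (N + j) * x ^ (N + 1)) = fun N => (Q (N + j) * x ^ (N + j + 1)) * ρ ^ j := by
      ext N
      have h4 : x ^ (N + j + 1) = x ^ (N + 1) * x ^ j := by rw [← pow_add]; congr 1; omega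
      rw [h4]
      calc Q (N + j) * x ^ (N + 1) = Q (N + j) * x ^ (N + 1) * (ρ * x) ^ j := by
            rw [hρx, one_pow, mul_one]
        _ = _ := by rw [mul_pow]; ring
    rw [h3]
    exact h2.mul_right _
  have h5 : ∑ j ∈ range (s + 1), m j * (ρ ^ j * H) = 0 := by
    have : ∑ j ∈ range (s + 1), m j * (ρ ^ j * H) = (∑ j ∈ range (s + 1), m j * ρ ^ j) * H := by
      rw [Finset.sum_mul]; exact Finset.sum_congr rfl fun j _ => by ring
    rw [this, hroot, zero_mul]
  have h6 : ∑ j ∈ range (s + 1), m j * ∑' N, Q (N + j) * x ^ (N + 1) = 0 := by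
    have : ∀ j ∈ range (s + 1), m j * ∑' N, Q (N + j) * x ^ (N + 1)
        = ∑' N, m j * (Q (N + j) * x ^ (N + 1)) := fun j _ => (tsum_mul_left).symm
    rw [Finset.sum_congr rfl this, ← Summable.tsum_finsetSum (fun j _ => (hsum2 j).mul_left _)]
    have : ∀ N, ∑ j ∈ range (s + 1), m j * (Q (N + j) * x ^ (N + 1)) = 0 := by
      intro N
      have h7 : ∑ j ∈ range (s + 1), m j * (Q (N + j) * x ^ (N + 1))
          = (∑ j ∈ range (s + 1), m j * Q (N + j)) * x ^ (N + 1) := by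
        rw [Finset.sum_mul]; exact Finset.sum_congr rfl fun j _ => by ring
      rw [h7, hrec, zero_mul]
    simp [this]
  simp only [h1, mul_add, Finset.sum_add_distrib, h6, add_zero] at h5
  rw [← h5]
  refine Finset.sum_congr rfl fun j _ => ?_
  rw [Finset.mul_sum]
  exact Finset.sum_congr rfl fun N _ => by ring

/-- The root lemma. -/
theorem root_lemma {P R Θ : Type*} [CommRing P] [IsDomain P] [IsIntegrallyClosed P] [CommRing R]
    [IsNoetherianRing R] [TopologicalSpace Θ] (ev : Θ → P →+* ℂ)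
    (hcont : ∀ p, Continuous fun θ => ev θ p) (hdense : ∀ p ≠ 0, Dense {θ | ev θ p ≠ 0})
    (φ : P →+* R) (I : Ideal R) (hrad : I.IsRadical)
    (Tr : R →+ P) (hlin : ∀ p f, Tr (φ p * f) = p * Tr f)
    (h1 : ∀ f ∈ I, ∀ g, Tr (f * g) = 0)
    (h2 : ∀ f, (∀ g, Tr (f * g) = 0) → f ∈ I) (𝔭 : Ideal R) (h𝔭 : 𝔭 ∈ I.minimalPrimes) (f : R)
    (Ω : Θ → ℝ) (hΩ : Continuous Ω) (hΩ0 : ∀ θ, 0 ≤ Ω θ)
    (hgrowth : ∀ g θ (ρ : ℂ), Ω θ < ‖ρ‖ → Summable (fun N => ev θ (Tr (f ^ N * g)) * (ρ⁻¹) ^ (N + 1)))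
    (μ : P[X]) (hμ : IsMin φ 𝔭 f μ) :
    ∀ θ ρ, (μ.map (ev θ)).IsRoot ρ → ‖ρ‖ ≤ Ω θ := by
  obtain ⟨g₀, hg₀, hg₀I⟩ := exists_annihilator I hrad 𝔭 h𝔭
  have hprime : 𝔭.IsPrime := h𝔭.1.1
  have hI𝔭 : I ≤ 𝔭 := h𝔭.1.2
  obtain ⟨g, hg⟩ : ∃ g, Tr (g₀ * g) ≠ 0 := by
    by_contra hcon
    push Not at hcon
    exact hg₀ (hI𝔭 (h2 g₀ hcon))
  set s := μ.natDegree with hs
  have hs1 : 1 ≤ s := by
    by_contra hcon
    have h0 : μ.natDegree = 0 := by omega
    have h3 : μ = 1 := Polynomial.eq_one_of_monic_natDegree_zero hμ.monic h0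
    have h4 := hμ.mem
    rw [h3, eval₂_one] at h4
    exact hprime.ne_top ((Ideal.eq_top_iff_one _).2 h4)
  let q : ℕ → P := fun N => Tr (f ^ N * (g₀ * g))
  have hq0 : q 0 ≠ 0 := by simpa [q] using hg
  have hrec : ∀ N, ∑ j ∈ range (s + 1), μ.coeff j * q (N + j) = 0 := by
    intro N
    have h3 : ∑ j ∈ range (s + 1), μ.coeff j * q (N + j)
        = Tr ((μ.eval₂ φ f * g₀) * (f ^ N * g)) := by
      rw [eval₂_eq_sum_range, ← hs, Finset.sum_mul, Finset.sum_mul, map_sum]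
      refine Finset.sum_congr rfl fun j _ => ?_
      rw [← hlin]
      congr 1
      rw [pow_add]
      ring
    rw [h3]
    exact h1 _ (hg₀I _ hμ.mem) _
  let ν : P[X] := ∑ j ∈ range (s + 1), ∑ N ∈ range j, C (μ.coeff j * q N) * X ^ (j - 1 - N)
  have hνcoeff : ν.coeff (s - 1) = q 0 := by
    simp only [ν, finsetSum_coeff, coeff_C_mul_X_pow]
    rw [Finset.sum_eq_single s]
    · rw [Finset.sum_eq_single 0]
      · have : s - 1 = s - 1 - 0 := rfl
        rw [if_pos this, hμ.monic.coeff_natDegree, one_mul]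
      · intro N hN hN0
        have := Finset.mem_range.1 hN
        rw [if_neg]; omega
      · intro h; exfalso; apply h; rw [Finset.mem_range]; omega
    · intro j hj hjs
      have hj' := Finset.mem_range.1 hj
      refine Finset.sum_eq_zero fun N hN => ?_
      have := Finset.mem_range.1 hN
      rw [if_neg]; omega
    · intro h; exfalso; apply h; rw [Finset.mem_range]; omega
  have hν0 : ν ≠ 0 := by
    intro h
    rw [h, coeff_zero] at hνcoeff
    exact hq0 hνcoeff.symm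
  have hνdeg : ν.natDegree < μ.natDegree := by
    rw [← hs]
    refine lt_of_le_of_lt (b := s - 1) ?_ (by omega)
    refine natDegree_sum_le_of_forall_le _ _ fun j hj => ?_
    refine natDegree_sum_le_of_forall_le _ _ fun N hN => ?_
    refine (natDegree_C_mul_X_pow_le _ _).trans ?_
    have := Finset.mem_range.1 hj
    omega
  obtain ⟨a, b, δ, hδ, hab⟩ := bezout_of_irreducible μ ν hμ.monic hμ.irr hν0 hνdeg
  -- generic θ
  have hgen : ∀ θ ρ, (μ.map (ev θ)).IsRoot ρ → ev θ δ ≠ 0 → ‖ρ‖ ≤ Ω θ := by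
    intro θ ρ hroot hδθ
    by_contra hcon
    push Not at hcon
    have hρ0 : ρ ≠ 0 := by
      rintro rfl
      rw [norm_zero] at hcon
      exact absurd (hΩ0 θ) (not_le.2 hcon)
    have hroot' : ∑ j ∈ range (s + 1), ev θ (μ.coeff j) * ρ ^ j = 0 := by
      have h3 := hroot
      rw [IsRoot.def, eval_map, eval₂_eq_sum_range] at h3
      exact h3
    have hν := gen_fun s (fun j => ev θ (μ.coeff j)) (fun N => ev θ (q N)) ρ hρ0 hroot' (by
      intro N
      rw [← map_zero (ev θ), ← hrec N, map_sum]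
      exact Finset.sum_congr rfl fun j _ => by rw [map_mul]) (hgrowth _ θ ρ hcon)
    have hνeval : (ν.map (ev θ)).eval ρ = 0 := by
      rw [← hν]
      simp only [ν, Polynomial.map_sum, eval_finsetSum, Polynomial.map_mul, Polynomial.map_pow,
        map_C, map_X, eval_mul, eval_C, eval_pow, eval_X, map_mul]
    have h3 := congrArg (fun p => (p.map (ev θ)).eval ρ) hab
    simp only [Polynomial.map_add, Polynomial.map_mul, eval_add, eval_mul, hνeval, mul_zero,
      map_C, eval_C, add_zero] at h3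
    rw [IsRoot.def] at hroot
    rw [hroot, mul_zero] at h3
    exact hδθ h3.symm
  intro θ₀ ρ₀ hroot₀
  by_contra hcon
  push Not at hcon
  set ε := (‖ρ₀‖ - Ω θ₀) / 2 with hε
  have hε0 : 0 < ε := by rw [hε]; linarith
  have hev1 : ∀ᶠ θ in nhds θ₀, Ω θ < Ω θ₀ + ε :=
    (hΩ.tendsto θ₀).eventually (gt_mem_nhds (by linarith))
  have hcontμ : Continuous fun θ => ‖(μ.map (ev θ)).eval ρ₀‖ := by
    have h3 : (fun θ => (μ.map (ev θ)).eval ρ₀) = fun θ => ∑ j ∈ range (s + 1), ev θ (μ.coeff j) * ρ₀ ^ j := by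
      ext θ
      rw [eval_map, eval₂_eq_sum_range]
    apply Continuous.norm
    rw [h3]
    exact continuous_finsetSum _ fun j _ => (hcont _).mul continuous_const
  have hev2 : ∀ᶠ θ in nhds θ₀, ‖(μ.map (ev θ)).eval ρ₀‖ < ε ^ s := by
    have h3 := hcontμ.tendsto θ₀
    rw [IsRoot.def] at hroot₀
    rw [hroot₀, norm_zero] at h3
    exact h3.eventually (gt_mem_nhds (by positivity))
  obtain ⟨θ, hθ⟩ := (hdense δ hδ).inter_nhds_nonempty (hev1.and hev2)
  obtain ⟨hθδ, hθ1, hθ2⟩ := hθ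
  have hmon := hμ.monic.map (ev θ)
  obtain ⟨r, hr, hrlt⟩ := exists_close_root (μ.map (ev θ)) hmon ρ₀ ε hε0 (by
    rw [hμ.monic.natDegree_map]; exact hθ2)
  have h4 := hgen θ r hr hθδ
  have h5 : ‖ρ₀‖ ≤ ‖r‖ + ‖ρ₀ - r‖ := by
    have := norm_add_le r (ρ₀ - r)
    rwa [add_sub_cancel] at this
  linarith

end FQ
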