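import Mathlib
import Pool.Agent.Helper46.FQ.Ring
import Pool.Agent.Helper46.FQ.Lattice

/-!
Finiteness of `LR n / I` over the Laurent ring of a sublattice near the kernel.
-/

namespace FQ

open Finset AddMonoidAlgebra

variable {n : ℕ} {E : Type*} [NormedAddCommGroup E] [InnerProductSpace ℝ E]
  [FiniteDimensional ℝ E]

/-- data: a sublattice near the kernel -/
structure SubLat (h : (Fin n → ℤ) →+ E) (B t C₃ C₄ C₅ C₆ : ℝ)
    (β : (Fin (kdim h) → ℤ) →+ (Fin n → ℤ)) : Prop where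
  one_le : 1 ≤ t
  c3 : 0 < C₃
  c4 : 0 ≤ C₄
  c5 : 0 ≤ C₅
  c6 : 0 ≤ C₆
  b0 : 0 ≤ B
  l1_le : ∀ m, t * l1 m ≤ C₃ * ‖β m‖
  h_le : ∀ m, ‖h (β m)‖ ≤ C₄ * l1 m
  norm_le : ∀ m, ‖β m‖ ≤ C₅ * t * l1 m
  tan : ∀ τ : Fin n → ℝ, (∀ m, ∑ i, (β m i : ℝ) * τ i = 0) → ∃ y : E,
        ‖τ - Lmap h y‖ ≤ C₆ / t * ‖τ‖
  large : 2 * B * C₃ * C₄ ≤ t

/-- weight of an exponent -/
noncomputable def wt (h : (Fin n → ℤ) →+ E) (B : ℝ) (ζ : Fin n → ℤ) : ℝ := ‖ζ‖ + B * ‖h ζ‖

theorem wt_nonneg (h : (Fin n → ℤ) →+ E) {B : ℝ} (hB : 0 ≤ B) (ζ : Fin n → ℤ) : 0 ≤ wt h B ζ := by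
  unfold wt; positivity

theorem wt_add (h : (Fin n → ℤ) →+ E) {B : ℝ} (hB : 0 ≤ B) (ζ ξ : Fin n → ℤ) :
    wt h B (ζ + ξ) ≤ wt h B ζ + wt h B ξ := by
  unfold wt
  rw [map_add]
  have h1 := norm_add_le ζ ξ
  have h2 : B * ‖h ζ + h ξ‖ ≤ B * (‖h ζ‖ + ‖h ξ‖) := mul_le_mul_of_nonneg_left (norm_add_le _ _) hB
  linarith

theorem exists_of_conv_ne {G : Type*} [AddCommGroup G] {f : G →₀ ℂ} {c : G → ℂ} {η : G}
    (hne : conv f c η ≠ 0) : ∃ ζ ∈ f.support, c (η - ζ) ≠ 0 := by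
  by_contra hcon
  push Not at hcon
  apply hne
  rw [conv_eq_sum]
  exact Finset.sum_eq_zero fun ζ hζ => by rw [hcon ζ hζ, mul_zero]

theorem SubLat.l1_bound {h : (Fin n → ℤ) →+ E} {A B t C₃ C₄ C₅ C₆ : ℝ}
    {β : (Fin (kdim h) → ℤ) →+ (Fin n → ℤ)} (S : SubLat h B t C₃ C₄ C₅ C₆ β)
    {c : (Fin n → ℤ) → ℂ} (star : ∀ ξ, c ξ ≠ 0 → ‖ξ‖ ≤ A + B * ‖h ξ‖)
    {f : (Fin n → ℤ) →₀ ℂ} {m : Fin (kdim h) → ℤ} (hne : conv f c (β m) ≠ 0) :
    ∃ ζ ∈ f.support, t * l1 m ≤ 2 * C₃ * (A + wt h B ζ) := by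
  obtain ⟨ζ, hζ, hc⟩ := exists_of_conv_ne hne
  refine ⟨ζ, hζ, ?_⟩
  have h1 := star _ hc
  have h2 : ‖β m‖ ≤ ‖ζ‖ + ‖β m - ζ‖ := by
    have := norm_add_le ζ (β m - ζ)
    rwa [add_sub_cancel] at this
  have h3 : ‖h (β m - ζ)‖ ≤ C₄ * l1 m + ‖h ζ‖ := by
    rw [map_sub]
    exact (norm_sub_le _ _).trans (by have := S.h_le m; linarith)
  have h4 : B * ‖h (β m - ζ)‖ ≤ B * (C₄ * l1 m + ‖h ζ‖) := mul_le_mul_of_nonneg_left h3 S.b0
  have h5 := S.l1_le m
  have h6 : C₃ * ‖β m‖ ≤ C₃ * (‖ζ‖ + A + B * (C₄ * l1 m + ‖h ζ‖)) :=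
    mul_le_mul_of_nonneg_left (by linarith) S.c3.le
  have h7 : 2 * B * C₃ * C₄ * l1 m ≤ t * l1 m := mul_le_mul_of_nonneg_right S.large (l1_nonneg m)
  unfold wt
  nlinarith

theorem l1_finite {e : ℕ} (K : ℝ) : {m : Fin e → ℤ | l1 m ≤ K}.Finite := by
  obtain ⟨N, hN⟩ := exists_nat_ge K
  refine (box e N).finite_toSet.subset ?_
  intro m hm
  rw [Finset.mem_coe, mem_box, pi_norm_le_iff_of_nonneg (by positivity)]
  intro j
  rw [Int.norm_eq_abs]
  refine le_trans ?_ (le_trans hm hN)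
  exact Finset.single_le_sum (f := fun j => |(m j : ℝ)|) (fun _ _ => abs_nonneg _) (Finset.mem_univ j)

theorem SubLat.hfin {h : (Fin n → ℤ) →+ E} {A B t C₃ C₄ C₅ C₆ : ℝ}
    {β : (Fin (kdim h) → ℤ) →+ (Fin n → ℤ)} (S : SubLat h B t C₃ C₄ C₅ C₆ β)
    {c : (Fin n → ℤ) → ℂ} (star : ∀ ξ, c ξ ≠ 0 → ‖ξ‖ ≤ A + B * ‖h ξ‖) :
    ∀ f : LR n, (Function.support fun m => conv f.coeff c (β m)).Finite := by
  intro f
  obtain ⟨M, hM0, hM⟩ := exists_bound f.coeff.support (fun ζ => wt h B ζ)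
  refine (l1_finite (2 * C₃ * (A + M))).subset ?_
  intro m hm
  obtain ⟨ζ, hζ, hle⟩ := S.l1_bound star (hm : conv f.coeff c (β m) ≠ 0)
  have h1 := hM ζ hζ
  have h2 := S.one_le
  have h3 := l1_nonneg m
  have h4 := S.c3
  show l1 m ≤ 2 * C₃ * (A + M)
  have h5 : 2 * C₃ * (A + wt h B ζ) ≤ 2 * C₃ * (A + M) := by
    apply mul_le_mul_of_nonneg_left _ (by positivity)
    linarith
  nlinarith

theorem l1_le_of_mem_box {e N : ℕ} {m : Fin e → ℤ} (hm : m ∈ box e N) : l1 m ≤ e * N := by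
  rw [mem_box] at hm
  calc l1 m ≤ ∑ _j : Fin e, (N : ℝ) := by
        refine Finset.sum_le_sum fun j _ => ?_
        rw [← Int.norm_eq_abs]
        exact (norm_le_pi_norm m j).trans hm
    _ = e * N := by rw [Finset.sum_const, Finset.card_univ, Fintype.card_fin, nsmul_eq_mul]

open Classical in
theorem SubLat.rank_bound {h : (Fin n → ℤ) →+ E} {A B t C₃ C₄ C₅ C₆ : ℝ}
    {β : (Fin (kdim h) → ℤ) →+ (Fin n → ℤ)} (S : SubLat h B t C₃ C₄ C₅ C₆ β)
    {c : (Fin n → ℤ) → ℂ} (star : ∀ ξ, c ξ ≠ 0 → ‖ξ‖ ≤ A + B * ‖h ξ‖)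
    {R : ℝ} (U : ∀ f : (Fin n → ℤ) →₀ ℂ, (∀ η, ‖h η‖ ≤ R → conv f c η = 0) → f ∈ Ann c) :
    ∃ r : ℕ, ∀ (s : ℕ) (v : Fin s → LR n),
      (∀ a : Fin s → LR (kdim h), ∑ i, ib β (a i) * v i ∈ IdealOf c → a = 0) → s ≤ r := by
  obtain ⟨Cw, hCw⟩ := window_count h R
  obtain ⟨K₁, hK₁⟩ := exists_nat_ge ((C₅ * t + B * C₄) * (kdim h))
  refine ⟨Cw * (K₁ + 1) ^ (kdim h), fun s v hv => ?_⟩
  -- bounds for the v's
  obtain ⟨M, hM0, hM⟩ := exists_bound ((Finset.univ : Finset (Fin s)).biUnion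
    (fun i => (v i).coeff.support)) (fun ζ => wt h B ζ)
  obtain ⟨Kg, hKg⟩ := exists_nat_ge (M + A + B * |R|)
  set N := Kg + 1 with hN
  set N' := K₁ * N + Kg with hN'
  set W := (box n N').filter (fun ζ => ‖h ζ‖ ≤ R) with hW
  have hcard : ((box (kdim h) N) ×ˢ (Finset.univ : Finset (Fin s))).card ≤ W.card := by
    refine card_le_of_inj _ W (fun p η => conv (v p.2).coeff c (η - β p.1)) ?_
    intro x hx
    -- the combination
    let a : Fin s → LR (kdim h) := fun i => ∑ m ∈ box (kdim h) N, AddMonoidAlgebra.single m (x (m, i))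
    have hcomb : ∀ η, conv (∑ i, ib β (a i) * v i).coeff c η
        = ∑ p ∈ (box (kdim h) N) ×ˢ (Finset.univ : Finset (Fin s)), x p * conv (v p.2).coeff c (η - β p.1) := by
      intro η
      have h1 : ∑ i, ib β (a i) * v i = ∑ p ∈ (box (kdim h) N) ×ˢ (Finset.univ : Finset (Fin s)),
          AddMonoidAlgebra.single (β p.1) (x p) * v p.2 := by
        rw [Finset.sum_product_right]
        refine Finset.sum_congr rfl fun i _ => ?_
        rw [map_sum, Finset.sum_mul]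
        refine Finset.sum_congr rfl fun m _ => ?_
        congr 1
        show AddMonoidAlgebra.mapDomain β (AddMonoidAlgebra.single m (x (m, i))) = _
        rw [AddMonoidAlgebra.mapDomain_single]
      rw [h1]
      -- conv of a finite sum
      have h2 : ∀ (T : Finset ((Fin (kdim h) → ℤ) × Fin s)) , conv (∑ p ∈ T,
          AddMonoidAlgebra.single (β p.1) (x p) * v p.2 : LR n).coeff c η
          = ∑ p ∈ T, x p * conv (v p.2).coeff c (η - β p.1) := by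
        intro T
        induction T using Finset.induction_on with
        | empty => simp [conv_zero]
        | insert p T hp ih =>
          rw [Finset.sum_insert hp, Finset.sum_insert hp, coeff_add, conv_add, ih, conv_mul,
            coeff_single, conv_single]
      exact h2 _
    have hmem : ∑ i, ib β (a i) * v i ∈ IdealOf c := by
      apply U
      intro η hη
      rw [hcomb]
      by_cases hηW : η ∈ W
      · exact hx η hηW
      · refine Finset.sum_eq_zero fun p hp => ?_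
        by_cases hz : conv (v p.2).coeff c (η - β p.1) = 0
        · rw [hz, mul_zero]
        · exfalso
          apply hηW
          rw [hW, Finset.mem_filter]
          refine ⟨?_, hη⟩
          obtain ⟨ζ, hζ, hc⟩ := exists_of_conv_ne hz
          have hp1 := (Finset.mem_product.1 hp).1
          have hl := l1_le_of_mem_box hp1
          have h1 := star _ hc
          have hMζ := hM ζ (Finset.mem_biUnion.2 ⟨p.2, Finset.mem_univ _, hζ⟩)
          unfold wt at hMζ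
          have h2 : ‖h (η - β p.1 - ζ)‖ ≤ |R| + C₄ * l1 p.1 + ‖h ζ‖ := by
            rw [map_sub, map_sub]
            have e1 := norm_sub_le (h η - h (β p.1)) (h ζ)
            have e2 := norm_sub_le (h η) (h (β p.1))
            have e3 := S.h_le p.1
            have e4 := hη.trans (le_abs_self R)
            linarith
          have h3 : ‖η‖ ≤ ‖η - β p.1 - ζ‖ + ‖β p.1‖ + ‖ζ‖ := by
            have e1 := norm_add_le (η - β p.1 - ζ) (β p.1 + ζ)
            have e2 := norm_add_le (β p.1) ζ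
            have e3 : η - β p.1 - ζ + (β p.1 + ζ) = η := by abel
            rw [e3] at e1
            linarith
          have h4 := S.norm_le p.1
          have h5 : B * ‖h (η - β p.1 - ζ)‖ ≤ B * (|R| + C₄ * l1 p.1 + ‖h ζ‖) :=
            mul_le_mul_of_nonneg_left h2 S.b0
          have h6 : (C₅ * t + B * C₄) * l1 p.1 ≤ (C₅ * t + B * C₄) * ((kdim h) * N) := by
            apply mul_le_mul_of_nonneg_left hl
            have := S.c5; have := S.one_le; have := S.b0; have := S.c4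
            positivity
          have h7 : (C₅ * t + B * C₄) * ((kdim h) * N) ≤ K₁ * N := by
            have : (C₅ * t + B * C₄) * ((kdim h) * N) = (C₅ * t + B * C₄) * (kdim h) * N := by ring
            rw [this]
            exact mul_le_mul_of_nonneg_right hK₁ (by positivity)
          rw [mem_box, hN']
          push_cast
          nlinarith
    have ha := hv a hmem
    intro p hp
    have h1 : (a p.2).coeff p.1 = 0 := by rw [congrFun ha p.2]; rfl
    have h2 : (a p.2).coeff p.1 = x p := by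
      simp only [a, coeff_sum, coeff_single]
      rw [Finsupp.finsetSum_apply, Finset.sum_eq_single p.1]
      · simp
      · intro b _ hb; simp [Finsupp.single_apply, hb]
      · intro hp1; exact absurd (Finset.mem_product.1 hp).1 hp1
    rw [← h2, h1]
  rw [Finset.card_product, card_box, Finset.card_univ, Fintype.card_fin] at hcard
  have h8 := hcard.trans (hCw N')
  have h9 : N' + 1 = (K₁ + 1) * N := by rw [hN', hN]; ring
  rw [h9, mul_pow] at h8
  have h10 : N ^ (kdim h) ≤ (2 * N + 1) ^ (kdim h) := Nat.pow_le_pow_left (by omega) (kdim h)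
  have h11 : (2 * N + 1) ^ (kdim h) * s ≤ (2 * N + 1) ^ (kdim h) * (Cw * (K₁ + 1) ^ (kdim h)) := by
    calc (2 * N + 1) ^ (kdim h) * s ≤ Cw * ((K₁ + 1) ^ (kdim h) * N ^ (kdim h)) := h8
      _ ≤ Cw * ((K₁ + 1) ^ (kdim h) * (2 * N + 1) ^ (kdim h)) := by gcongr
      _ = _ := by ring
  exact Nat.le_of_mul_le_mul_left h11 (by positivity)

/-- the quotient ring is finite over the Laurent ring of the sublattice -/
theorem SubLat.finite {h : (Fin n → ℤ) →+ E} {A B t C₃ C₄ C₅ C₆ : ℝ}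
    {β : (Fin (kdim h) → ℤ) →+ (Fin n → ℤ)} (S : SubLat h B t C₃ C₄ C₅ C₆ β)
    {c : (Fin n → ℤ) → ℂ} (star : ∀ ξ, c ξ ≠ 0 → ‖ξ‖ ≤ A + B * ‖h ξ‖)
    {R : ℝ} (U : ∀ f : (Fin n → ℤ) →₀ ℂ, (∀ η, ‖h η‖ ≤ R → conv f c η = 0) → f ∈ Ann c) :
    ((Ideal.Quotient.mk (IdealOf c)).comp (ib β)).Finite := by
  obtain ⟨r, hr⟩ := S.rank_bound star U
  exact fg_of_trace (ib β) (IdealOf c) (tr β c (S.hfin star)) (tr_lin β c _)
    (fun f hf g => tr_mul_eq_zero β c _ f hf g) (fun f hf => mem_of_tr_eq_zero β c _ f hf) r hr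

theorem SubLat.torsion_free {h : (Fin n → ℤ) →+ E} {A B t C₃ C₄ C₅ C₆ : ℝ}
    {β : (Fin (kdim h) → ℤ) →+ (Fin n → ℤ)} (S : SubLat h B t C₃ C₄ C₅ C₆ β)
    {c : (Fin n → ℤ) → ℂ} (star : ∀ ξ, c ξ ≠ 0 → ‖ξ‖ ≤ A + B * ‖h ξ‖)
    (p : LR (kdim h)) (hp : p ≠ 0) (f : LR n) (hf : ib β p * f ∈ IdealOf c) : f ∈ IdealOf c :=
  torsion_free_of_trace (ib β) (IdealOf c) (tr β c (S.hfin star)) (tr_lin β c _)
    (fun f hf g => tr_mul_eq_zero β c _ f hf g) (fun f hf => mem_of_tr_eq_zero β c _ f hf) p hp f hf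

end FQ
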