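import Mathlib
import Pool.Agent.Helper46.FQ.Points
import Pool.Agent.Helper46.FQ.IntClosed
import Pool.Agent.Helper46.FQ.Root
import Pool.Agent.Helper46.FQ.Trace

/-!
Bounds for the values of Laurent polynomials on the zero set of the ideal.
-/

namespace FQ

open Finset AddMonoidAlgebra

variable {n : ℕ} {E : Type*} [NormedAddCommGroup E] [InnerProductSpace ℝ E]
  [FiniteDimensional ℝ E]

/-- the analytic input about a quasicrystal; `X` is the set of points `φ(x)`, `x ∈ Λ`. -/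
structure Data (h : (Fin n → ℤ) →+ E) (c : (Fin n → ℤ) → ℂ) (X : Set (Fin n → ℂˣ)) (R C : ℝ) :
    Prop where
  span : Submodule.span ℝ (Set.range h) = ⊤
  lf : ∀ r, {ξ | c ξ ≠ 0 ∧ ‖h ξ‖ ≤ r}.Finite
  un : ∀ f : (Fin n → ℤ) →₀ ℂ, (∀ η, ‖h η‖ ≤ R → conv f c η = 0) → f ∈ Ann c
  c0 : 0 ≤ C
  bound : ∀ (f : LR n) (s : ℝ), (∀ z ∈ X, ‖evz z f‖ ≤ s) → ∀ η, ‖conv f.coeff c η‖ ≤ C * s
  vanish : ∀ f : LR n, f ∈ IdealOf c → ∀ z ∈ X, evz z f = 0
  unit : ∀ z ∈ X, lg z = 0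

variable {h : (Fin n → ℤ) →+ E} {c : (Fin n → ℤ) → ℂ} {X : Set (Fin n → ℂˣ)} {R C : ℝ}

theorem Data.mem_iff (D : Data h c X R C) (f : LR n) : f ∈ IdealOf c ↔ ∀ z ∈ X, evz z f = 0 := by
  refine ⟨D.vanish f, fun hf η => ?_⟩
  have h1 := D.bound f 0 (fun z hz => by rw [hf z hz, norm_zero]) η
  rw [mul_zero] at h1
  exact norm_le_zero_iff.1 h1

theorem Data.isRadical (D : Data h c X R C) : (IdealOf c).IsRadical := by
  intro f hf
  obtain ⟨N, hN⟩ := hf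
  rw [D.mem_iff] at hN ⊢
  intro z hz
  have := hN z hz
  rw [map_pow] at this
  by_contra hne
  exact pow_ne_zero N hne this

/-- weight bound -/
def WB (h : (Fin n → ℤ) →+ E) (B : ℝ) (f : LR n) (u : ℝ) : Prop := ∀ ζ ∈ f.coeff.support, wt h B ζ ≤ u

theorem WB.mul {B : ℝ} (hB : 0 ≤ B) {f g : LR n} {u v : ℝ} (hf : WB h B f u) (hg : WB h B g v) :
    WB h B (f * g) (u + v) := by
  classical
  intro ζ hζ
  rw [Finsupp.mem_support_iff, coeff_mul_eq_conv] at hζ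
  obtain ⟨ξ, hξ, hξ2⟩ := exists_of_conv_ne hζ
  have h1 := hf ξ hξ
  have h2 := hg (ζ - ξ) (Finsupp.mem_support_iff.2 hξ2)
  have h3 := wt_add h hB ξ (ζ - ξ)
  rw [add_sub_cancel] at h3
  linarith

theorem WB.pow_mul {B : ℝ} (hB : 0 ≤ B) {f g : LR n} {u v : ℝ} (hf : WB h B f u) (hg : WB h B g v)
    (N : ℕ) : WB h B (f ^ N * g) (N * u + v) := by
  induction N with
  | zero => simpa using hg
  | succ N ih =>
    have h1 := WB.mul hB hf ih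
    have h2 : f ^ (N + 1) * g = f * (f ^ N * g) := by ring
    rw [h2]
    have h3 : ((N + 1 : ℕ) : ℝ) * u + v = u + (N * u + v) := by push_cast; ring
    rw [h3]; exact h1

theorem exists_WB (h : (Fin n → ℤ) →+ E) (B : ℝ) (f : LR n) : ∃ u ≥ 0, WB h B f u := by
  obtain ⟨u, hu, H⟩ := exists_bound f.coeff.support (fun ζ => wt h B ζ)
  exact ⟨u, hu, H⟩

theorem exists_BX_mul {f g : LR n} {s v : ℝ} (hs : 0 ≤ s) (hf : ∀ z ∈ X, ‖evz z f‖ ≤ s)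
    (hg : ∀ z ∈ X, ‖evz z g‖ ≤ v) (N : ℕ) : ∀ z ∈ X, ‖evz z (f ^ N * g)‖ ≤ s ^ N * v := by
  intro z hz
  rw [map_mul, map_pow, norm_mul, norm_pow]
  exact mul_le_mul (pow_le_pow_left₀ (norm_nonneg _) (hf z hz) N) (hg z hz) (norm_nonneg _)
    (pow_nonneg hs N)

/-- estimate for the evaluated trace -/
theorem SubLat.norm_tr_le {A B t C₃ C₄ C₅ C₆ : ℝ} (hA : 0 ≤ A) (D : Data h c X R C)
    {β : (Fin (kdim h) → ℤ) →+ (Fin n → ℤ)} (S : SubLat h B t C₃ C₄ C₅ C₆ β)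
    (star : ∀ ξ, c ξ ≠ 0 → ‖ξ‖ ≤ A + B * ‖h ξ‖) (F : LR n) (s u : ℝ) (hu : 0 ≤ u)
    (hs : ∀ z ∈ X, ‖evz z F‖ ≤ s) (hF : WB h B F u) (θ : Fin (kdim h) → ℂˣ) :
    ‖evz θ (tr β c (S.hfin star) F)‖ ≤ (2 * (2 * C₃ / t * (A + u)) + 3) ^ (kdim h) * (C * |s|) *
      Real.exp (2 * C₃ / t * (A + u) * ‖lg θ‖) := by
  have ht : 0 < t := by have := S.one_le; linarith
  set K := 2 * C₃ / t * (A + u) with hK
  have hK0 : 0 ≤ K := by have := S.c3; positivity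
  have hl1 : ∀ m ∈ (tr β c (S.hfin star) F).coeff.support, l1 m ≤ K := by
    intro m hm
    rw [Finsupp.mem_support_iff, tr_coeff] at hm
    obtain ⟨ζ, hζ, hle⟩ := S.l1_bound star hm
    have h1 := hF ζ hζ
    have h2 : t * l1 m ≤ 2 * C₃ * (A + u) := hle.trans (by
      apply mul_le_mul_of_nonneg_left _ (by have := S.c3; positivity)
      linarith)
    rw [hK, div_mul_eq_mul_div, le_div_iff₀ ht]
    linarith
  obtain ⟨N, hN1, hN2⟩ : ∃ N : ℕ, K ≤ N ∧ (N : ℝ) ≤ K + 1 :=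
    ⟨⌈K⌉₊, Nat.le_ceil K, (Nat.ceil_lt_add_one hK0).le⟩
  have hsub : (tr β c (S.hfin star) F).coeff.support ⊆ box (kdim h) N := by
    intro m hm
    rw [mem_box, pi_norm_le_iff_of_nonneg (by positivity)]
    intro j
    rw [Int.norm_eq_abs]
    refine le_trans ?_ ((hl1 m hm).trans hN1)
    exact Finset.single_le_sum (f := fun j => |(m j : ℝ)|) (fun _ _ => abs_nonneg _) (Finset.mem_univ j)
  rw [evz_eq_sum]
  calc ‖∑ m ∈ (tr β c (S.hfin star) F).coeff.support,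
        (tr β c (S.hfin star) F).coeff m * chrU θ m‖
      ≤ ∑ m ∈ (tr β c (S.hfin star) F).coeff.support, (C * |s|) * Real.exp (K * ‖lg θ‖) := by
        refine (norm_sum_le _ _).trans (Finset.sum_le_sum fun m hm => ?_)
        rw [norm_mul]
        refine mul_le_mul ?_ ?_ (norm_nonneg _) (by have := D.c0; positivity)
        · rw [tr_coeff]
          exact D.bound F |s| (fun z hz => (hs z hz).trans (le_abs_self s)) _
        · refine (norm_chrU_le θ m).trans (Real.exp_le_exp.2 ?_)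
          exact mul_le_mul_of_nonneg_right (hl1 m hm) (norm_nonneg _)
    _ = ((tr β c (S.hfin star) F).coeff.support.card : ℝ) * ((C * |s|) * Real.exp (K * ‖lg θ‖)) := by
        rw [Finset.sum_const, nsmul_eq_mul]
    _ ≤ (2 * K + 3) ^ (kdim h) * ((C * |s|) * Real.exp (K * ‖lg θ‖)) := by
        apply mul_le_mul_of_nonneg_right _ (by have := D.c0; positivity)
        calc ((tr β c (S.hfin star) F).coeff.support.card : ℝ) ≤ ((box (kdim h) N).card : ℝ) := by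
              exact_mod_cast Finset.card_le_card hsub
          _ = (2 * N + 1) ^ (kdim h) := by rw [card_box]; push_cast; rfl
          _ ≤ (2 * K + 3) ^ (kdim h) := by
              apply pow_le_pow_left₀ (by positivity)
              linarith
    _ = _ := by ring

theorem summable_aux (a b : ℝ) (ha : 0 ≤ a) (hb : 0 ≤ b) (e : ℕ) (r : ℝ) (hr0 : 0 ≤ r) (hr1 : r < 1) :
    Summable fun N : ℕ => (a + b * N) ^ e * r ^ N := by
  set r' := (r + 1) / 2 with hr'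
  have hr'0 : 0 < r' := by rw [hr']; linarith
  have hr'1 : r' < 1 := by rw [hr']; linarith
  have hrr' : r ≤ r' := by rw [hr']; linarith
  have h1 := summable_pow_mul_geometric_of_norm_lt_one e (r := r') (by
    rw [Real.norm_of_nonneg hr'0.le]; exact hr'1)
  have h2 : Summable fun N : ℕ => ((N + 1 : ℕ) : ℝ) ^ e * r' ^ (N + 1) :=
    (summable_nat_add_iff (f := fun N : ℕ => ((N : ℕ) : ℝ) ^ e * r' ^ N) 1).2 h1
  refine Summable.of_nonneg_of_le (fun N => by positivity) (fun N => ?_) (h2.mul_left ((a + b) ^ e / r'))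
  have h3 : (a + b * N) ^ e ≤ (a + b) ^ e * ((N + 1 : ℕ) : ℝ) ^ e := by
    rw [← mul_pow]
    apply pow_le_pow_left₀ (by positivity)
    push_cast
    have : (0 : ℝ) ≤ a * N := by positivity
    nlinarith
  have h4 : r ^ N ≤ r' ^ N := pow_le_pow_left₀ hr0 hrr' N
  calc (a + b * N) ^ e * r ^ N ≤ ((a + b) ^ e * ((N + 1 : ℕ) : ℝ) ^ e) * r' ^ N :=
        mul_le_mul h3 h4 (by positivity) (by positivity)
    _ = (a + b) ^ e / r' * (((N + 1 : ℕ) : ℝ) ^ e * r' ^ (N + 1)) := by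
        rw [pow_succ]; field_simp

/-- the growth exponent -/
noncomputable def Om {e : ℕ} (s b : ℝ) (θ : Fin e → ℂˣ) : ℝ := s * Real.exp (b * ‖lg θ‖)

theorem continuous_Om {e : ℕ} (s b : ℝ) : Continuous (Om s b : (Fin e → ℂˣ) → ℝ) := by
  unfold Om
  exact continuous_const.mul (Real.continuous_exp.comp (continuous_const.mul continuous_lg.norm))

theorem SubLat.growth {A B t C₃ C₄ C₅ C₆ : ℝ} (hA : 0 ≤ A) (D : Data h c X R C)
    {β : (Fin (kdim h) → ℤ) →+ (Fin n → ℤ)} (S : SubLat h B t C₃ C₄ C₅ C₆ β)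
    (star : ∀ ξ, c ξ ≠ 0 → ‖ξ‖ ≤ A + B * ‖h ξ‖) (hXb : ∀ g : LR n, ∃ v, ∀ z ∈ X, ‖evz z g‖ ≤ v)
    (f : LR n) (s u : ℝ) (hu : 0 ≤ u)
    (hs0 : 0 ≤ s) (hs : ∀ z ∈ X, ‖evz z f‖ ≤ s) (hf : WB h B f u) (g : LR n)
    (θ : Fin (kdim h) → ℂˣ) (ρ : ℂ) (hρ : Om s (2 * C₃ / t * u) θ < ‖ρ‖) :
    Summable fun N => evz θ (tr β c (S.hfin star) (f ^ N * g)) * (ρ⁻¹) ^ (N + 1) := by
  have ht : 0 < t := by have := S.one_le; linarith
  have hC₃ := S.c3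
  have hC := D.c0
  obtain ⟨v, hv⟩ := hXb g
  obtain ⟨ug, hug0, hug⟩ := exists_WB h B g
  set b := 2 * C₃ / t * u with hb
  have hb0 : 0 ≤ b := by positivity
  set a := 2 * C₃ / t * (A + ug) with ha
  have ha0 : 0 ≤ a := by positivity
  set Λ := ‖lg θ‖ with hΛ
  have hΛ0 : 0 ≤ Λ := norm_nonneg _
  have hΩ0 : 0 ≤ Om s b θ := by unfold Om; positivity
  have hρ0 : 0 < ‖ρ‖ := lt_of_le_of_lt hΩ0 hρ
  set r := Om s b θ / ‖ρ‖ with hr
  have hr0 : 0 ≤ r := by positivity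
  have hr1 : r < 1 := by rw [hr, div_lt_one hρ0]; exact hρ
  have hsum := (summable_aux (2 * a + 3) (2 * b) (by positivity) (by positivity) (kdim h) r hr0
    hr1).mul_left ((C * |v|) * Real.exp (a * Λ) / ‖ρ‖)
  refine Summable.of_norm_bounded hsum fun N => ?_
  have h1 := S.norm_tr_le hA D star (f ^ N * g) (s ^ N * |v|) (N * u + ug) (by positivity)
    (exists_BX_mul hs0 hs (fun z hz => (hv z hz).trans (le_abs_self v)) N) (WB.pow_mul S.b0 hf hug N) θ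
  have h2 : 2 * C₃ / t * (A + (N * u + ug)) = a + b * N := by rw [ha, hb]; ring
  rw [h2, ← hΛ, abs_of_nonneg (by positivity : (0:ℝ) ≤ s ^ N * |v|)] at h1
  rw [norm_mul, norm_pow, norm_inv]
  have h3 : Real.exp ((a + b * N) * Λ) = Real.exp (a * Λ) * Real.exp (b * Λ) ^ N := by
    rw [← Real.exp_nat_mul, ← Real.exp_add]; congr 1; ring
  rw [h3] at h1
  calc ‖evz θ (tr β c (S.hfin star) (f ^ N * g))‖ * ‖ρ‖⁻¹ ^ (N + 1)
      ≤ ((2 * (a + b * N) + 3) ^ kdim h * (C * (s ^ N * |v|)) *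
        (Real.exp (a * Λ) * Real.exp (b * Λ) ^ N)) * ‖ρ‖⁻¹ ^ (N + 1) :=
        mul_le_mul_of_nonneg_right h1 (by positivity)
    _ = (C * |v|) * Real.exp (a * Λ) / ‖ρ‖ * ((2 * a + 3 + 2 * b * N) ^ kdim h * r ^ N) := by
        have h4 : r ^ N = s ^ N * Real.exp (b * Λ) ^ N / ‖ρ‖ ^ N := by
          rw [hr, div_pow, Om, mul_pow]
        rw [h4, pow_succ, inv_pow]
        have h5 : 2 * (a + b * N) + 3 = 2 * a + 3 + 2 * b * N := by ring
        rw [h5]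
        field_simp

/-- package of everything about a sublattice -/
structure Pack (h : (Fin n → ℤ) →+ E) (c : (Fin n → ℤ) → ℂ) (X : Set (Fin n → ℂˣ))
    (R C A B t C₃ C₄ C₅ C₆ : ℝ) (β : (Fin (kdim h) → ℤ) →+ (Fin n → ℤ)) : Prop where
  D : Data h c X R C
  S : SubLat h B t C₃ C₄ C₅ C₆ β
  a0 : 0 ≤ A
  star : ∀ ξ, c ξ ≠ 0 → ‖ξ‖ ≤ A + B * ‖h ξ‖
  xb : ∀ g : LR n, ∃ v, ∀ z ∈ X, ‖evz z g‖ ≤ v

variable {A B t C₃ C₄ C₅ C₆ : ℝ} {β : (Fin (kdim h) → ℤ) →+ (Fin n → ℤ)}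

theorem Pack.integral (Q : Pack h c X R C A B t C₃ C₄ C₅ C₆ β) (𝔭 : Ideal (LR n))
    (h𝔭 : IdealOf c ≤ 𝔭) : ((Ideal.Quotient.mk 𝔭).comp (ib β)).IsIntegral := by
  have h1 := (Q.S.finite Q.star Q.D.un).to_isIntegral
  intro x
  obtain ⟨f, rfl⟩ := Ideal.Quotient.mk_surjective x
  obtain ⟨p, hp, hp2⟩ := h1 (Ideal.Quotient.mk _ f)
  refine ⟨p, hp, ?_⟩
  rw [← Polynomial.hom_eval₂, Ideal.Quotient.eq_zero_iff_mem] at hp2 ⊢
  exact h𝔭 hp2

/-- bound for the roots of the minimal polynomials -/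
theorem Pack.root_bound (Q : Pack h c X R C A B t C₃ C₄ C₅ C₆ β) (𝔭 : Ideal (LR n))
    (h𝔭 : 𝔭 ∈ (IdealOf c).minimalPrimes) (f : LR n) (s u : ℝ) (hu : 0 ≤ u)
    (hs0 : 0 ≤ s) (hs : ∀ z ∈ X, ‖evz z f‖ ≤ s) (hf : WB h B f u)
    (μ : Polynomial (LR (kdim h))) (hμ : IsMin (ib β) 𝔭 f μ) :
    ∀ (θ : Fin (kdim h) → ℂˣ) (ρ : ℂ), (μ.map (evz θ : LR (kdim h) →+* ℂ)).IsRoot ρ →
      ‖ρ‖ ≤ Om s (2 * C₃ / t * u) θ := by
  have hcont : ∀ p : LR (kdim h), Continuous fun θ : Fin (kdim h) → ℂˣ =>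
      (evz θ : LR (kdim h) →+* ℂ) p := fun p => continuous_evz p
  have hdense : ∀ p : LR (kdim h), p ≠ 0 → Dense {θ : Fin (kdim h) → ℂˣ |
      (evz θ : LR (kdim h) →+* ℂ) p ≠ 0} := fun p hp => dense_ne p hp
  have hlin := tr_lin β c (Q.S.hfin Q.star)
  have h1 : ∀ f ∈ IdealOf c, ∀ g, tr β c (Q.S.hfin Q.star) (f * g) = 0 :=
    fun f hf g => tr_mul_eq_zero β c _ f hf g
  have h2 : ∀ f, (∀ g, tr β c (Q.S.hfin Q.star) (f * g) = 0) → f ∈ IdealOf c :=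
    fun f hf => mem_of_tr_eq_zero β c _ f hf
  have hΩ0 : ∀ θ : Fin (kdim h) → ℂˣ, 0 ≤ Om s (2 * C₃ / t * u) θ := by
    intro θ; unfold Om; positivity
  have hgrowth : ∀ (g : LR n) (θ : Fin (kdim h) → ℂˣ) (ρ : ℂ), Om s (2 * C₃ / t * u) θ < ‖ρ‖ →
      Summable (fun N => (evz θ : LR (kdim h) →+* ℂ) (tr β c (Q.S.hfin Q.star) (f ^ N * g)) * (ρ⁻¹) ^ (N + 1)) :=
    fun g θ ρ hρ => Q.S.growth Q.a0 Q.D Q.star Q.xb f s u hu hs0 hs hf g θ ρ hρ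
  have key1 := root_lemma (fun θ : Fin (kdim h) → ℂˣ => (evz θ : LR (kdim h) →+* ℂ)) hcont hdense
    (ib β) (IdealOf c) Q.D.isRadical
  have key2 := key1 (tr β c (Q.S.hfin Q.star))
  have key3 := key2 hlin h1 h2 𝔭 h𝔭 f (Om s (2 * C₃ / t * u)) (continuous_Om s _) hΩ0
  have key4 := key3 hgrowth
  exact key4 μ hμ

/-- bound for values at points of the variety -/
theorem Pack.point_bound (Q : Pack h c X R C A B t C₃ C₄ C₅ C₆ β) (z : Fin n → ℂˣ)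
    (hz : ∀ f ∈ IdealOf c, evz z f = 0) (f : LR n) (s u : ℝ) (hu : 0 ≤ u)
    (hs0 : 0 ≤ s) (hs : ∀ z ∈ X, ‖evz z f‖ ≤ s) (hf : WB h B f u) :
    ‖evz z f‖ ≤ Om s (2 * C₃ / t * u) (pr β z) := by
  have hker : IdealOf c ≤ RingHom.ker (evz z : LR n →+* ℂ) := fun g hg => hz g hg
  have hprime := RingHom.ker_isPrime (evz z : LR n →+* ℂ)
  obtain ⟨𝔭, h𝔭, hle⟩ := Ideal.exists_minimalPrimes_le (J := RingHom.ker (evz z : LR n →+* ℂ)) hker
  have hp : 𝔭.IsPrime := h𝔭.1.1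
  obtain ⟨μ, hμ⟩ := exists_isMin (ib β) 𝔭 (Q.integral 𝔭 h𝔭.1.2) f
  refine Q.root_bound 𝔭 h𝔭 f s u hu hs0 hs hf μ hμ (pr β z) (evz z f) ?_
  have h1 : evz z (μ.eval₂ (ib β) f) = 0 := hle hμ.mem
  rw [Polynomial.IsRoot.def, Polynomial.eval_map]
  have h2 := Polynomial.hom_eval₂ μ (ib β) (evz z : LR n →+* ℂ) f
  have h3 : ((evz z : LR n →+* ℂ)).comp (ib β) = (evz (pr β z) : LR (kdim h) →+* ℂ) := by
    exact RingHom.ext fun p => evz_ib β z p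
  rw [h3] at h2
  rw [← h1]
  exact h2.symm

end FQ
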