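import Pool.Agent.Helper46.FQ.Bound

/-!
The cone theorem.
-/

namespace FQ

open Finset AddMonoidAlgebra Filter Topology

/-- the point `exp x`, `x` real -/
noncomputable def expR {n : ℕ} (x : Fin n → ℝ) : Fin n → ℂˣ :=
  fun i => Units.mk0 (Complex.exp (x i)) (Complex.exp_ne_zero _)

theorem lg_expR {n : ℕ} (x : Fin n → ℝ) : lg (expR x) = x := by
  ext i
  rw [lg, expR, Units.val_mk0, Complex.norm_exp, Complex.ofReal_re, Real.log_exp]

theorem lg_expI {n : ℕ} (x : Fin n → ℝ) : lg (expI x) = 0 := by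
  ext i
  rw [lg, expI, Units.val_mk0, Complex.norm_exp]
  simp

theorem lg_mul {n : ℕ} (z w : Fin n → ℂˣ) : lg (z * w) = lg z + lg w := by
  ext i
  rw [Pi.add_apply, lg, lg, lg, Pi.mul_apply, Units.val_mul, norm_mul, Real.log_mul]
  · exact norm_ne_zero_iff.2 (z i).ne_zero
  · exact norm_ne_zero_iff.2 (w i).ne_zero

theorem chrU_expR {n : ℕ} (x : Fin n → ℝ) (ζ : Fin n → ℤ) :
    (chrU (expR x) ζ : ℂ) = ((Real.exp (∑ i, (ζ i : ℝ) * x i) : ℝ) : ℂ) := by
  rw [Complex.ofReal_exp, chrU, Units.coe_prod]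
  push_cast
  rw [Complex.exp_sum]
  refine Finset.prod_congr rfl fun i _ => ?_
  rw [expR, Units.val_mk0, ← Complex.exp_int_mul]

/-- growth controls the support -/
theorem l1_le_of_growth {e : ℕ} (a : LR e) (C K : ℝ)
    (hb : ∀ θ : Fin e → ℂˣ, ‖evz θ a‖ ≤ C * Real.exp (K * ‖lg θ‖)) (hK : 0 ≤ K) :
    ∀ m ∈ a.coeff.support, l1 m ≤ K := by
  classical
  intro m₀ hm₀
  by_contra hcon
  push Not at hcon
  let σ : Fin e → ℝ := fun j => SignType.sign (m₀ j : ℝ)
  let pair : (Fin e → ℤ) → ℝ := fun m => ∑ j, (m j : ℝ) * σ j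
  have hpair₀ : pair m₀ = l1 m₀ := by
    simp only [pair, l1, σ]
    exact Finset.sum_congr rfl fun j _ => by rw [mul_comm]; exact sign_mul_self _
  obtain ⟨m₁, hm₁, hmax⟩ := a.coeff.support.exists_max_image pair ⟨m₀, hm₀⟩
  set M := pair m₁ with hM
  have hKM : K < M := by
    have := hmax m₀ hm₀
    rw [hpair₀] at this
    linarith
  -- leading part
  let aM : LR e := AddMonoidAlgebra.ofCoeff (a.coeff.filter (fun m => pair m = M))
  have haM : aM ≠ 0 := by
    intro h0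
    have h1 : aM.coeff m₁ = 0 := by rw [h0]; rfl
    have h2 : aM.coeff m₁ = a.coeff m₁ := Finsupp.filter_apply_pos _ _ hM.symm
    rw [h2] at h1
    exact Finsupp.mem_support_iff.1 hm₁ h1
  obtain ⟨x, hx⟩ := (exists_ne_near aM haM 1).exists
  rw [one_mul] at hx
  set θ₀ := expI x with hθ₀
  have hev : evz θ₀ aM = ∑ m ∈ a.coeff.support, if pair m = M then a.coeff m * chrU θ₀ m else 0 := by
    rw [evz_eq_sum_of_subset θ₀ aM (s := a.coeff.support) (by
      show (a.coeff.filter _).support ⊆ _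
      rw [Finsupp.support_filter]; exact Finset.filter_subset _ _)]
    refine Finset.sum_congr rfl fun m _ => ?_
    show (a.coeff.filter (fun m => pair m = M)) m * _ = _
    rw [Finsupp.filter_apply]
    split_ifs <;> simp
  have hσ : ‖σ‖ ≤ 1 := by
    rw [pi_norm_le_iff_of_nonneg zero_le_one]
    intro j
    simp only [σ]
    rcases lt_trichotomy (m₀ j : ℝ) 0 with h | h | h
    · rw [sign_neg h]; simp
    · rw [h]; simp
    · rw [sign_pos h]; simp
  let θ : ℝ → (Fin e → ℂˣ) := fun τ => θ₀ * expR (τ • σ)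
  have hlg : ∀ τ, 0 ≤ τ → ‖lg (θ τ)‖ ≤ τ := by
    intro τ hτ
    simp only [θ]
    rw [lg_mul, lg_expR, hθ₀, lg_expI, zero_add, norm_smul, Real.norm_of_nonneg hτ]
    nlinarith [norm_nonneg σ]
  have hval : ∀ τ, evz (θ τ) a * (Real.exp (-(τ * M)) : ℝ) =
      ∑ m ∈ a.coeff.support, a.coeff m * chrU θ₀ m * (Real.exp (τ * (pair m - M)) : ℝ) := by
    intro τ
    rw [evz_eq_sum, Finset.sum_mul]
    refine Finset.sum_congr rfl fun m _ => ?_
    simp only [θ]
    rw [chrU_mul, Units.val_mul, chrU_expR]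
    have h1 : ∑ i, (m i : ℝ) * (τ • σ) i = τ * pair m := by
      simp only [pair, Finset.mul_sum, Pi.smul_apply, smul_eq_mul]
      exact Finset.sum_congr rfl fun i _ => by ring
    rw [h1]
    have h2 : Real.exp (τ * (pair m - M)) = Real.exp (τ * pair m) * Real.exp (-(τ * M)) := by
      rw [← Real.exp_add]; congr 1; ring
    rw [h2]
    push_cast
    ring
  have hlim1 : Tendsto (fun τ => evz (θ τ) a * (Real.exp (-(τ * M)) : ℝ)) atTop (𝓝 (evz θ₀ aM)) := by
    have : (fun τ => evz (θ τ) a * (Real.exp (-(τ * M)) : ℝ)) = fun τ : ℝ =>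
      ∑ m ∈ a.coeff.support, a.coeff m * chrU θ₀ m * (Real.exp (τ * (pair m - M)) : ℝ) := funext hval
    rw [this, hev]
    refine tendsto_finsetSum _ fun m hm => ?_
    by_cases hmM : pair m = M
    · rw [if_pos hmM, hmM]
      simp
    · rw [if_neg hmM]
      have hlt : pair m - M < 0 := by
        have := hmax m hm
        have h3 : pair m ≠ M := hmM
        have h4 := lt_of_le_of_ne this h3
        linarith
      have h5 : Tendsto (fun τ : ℝ => Real.exp (τ * (pair m - M))) atTop (𝓝 0) := by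
        apply Real.tendsto_exp_atBot.comp
        exact tendsto_id.atTop_mul_const_of_neg hlt
      have h6 : Tendsto (fun τ : ℝ => ((Real.exp (τ * (pair m - M)) : ℝ) : ℂ)) atTop (𝓝 0) := by
        have := (Complex.continuous_ofReal.tendsto 0).comp h5
        rw [Complex.ofReal_zero] at this
        exact this
      have := h6.const_mul (a.coeff m * chrU θ₀ m)
      simpa using this
  have hlim2 : Tendsto (fun τ : ℝ => C * Real.exp (τ * (K - M))) atTop (𝓝 0) := by
    have h5 : Tendsto (fun τ : ℝ => Real.exp (τ * (K - M))) atTop (𝓝 0) := by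
      apply Real.tendsto_exp_atBot.comp
      exact tendsto_id.atTop_mul_const_of_neg (by linarith)
    simpa using h5.const_mul C
  have hC : 0 ≤ C := by
    have h1 := hb 1
    have h2 : (0:ℝ) ≤ C * Real.exp (K * ‖lg (1 : Fin e → ℂˣ)‖) := (norm_nonneg _).trans h1
    by_contra hneg
    push Not at hneg
    have := mul_neg_of_neg_of_pos hneg (Real.exp_pos (K * ‖lg (1 : Fin e → ℂˣ)‖))
    linarith
  have hle : ∀ᶠ τ in atTop, ‖evz (θ τ) a * (Real.exp (-(τ * M)) : ℝ)‖ ≤ C * Real.exp (τ * (K - M)) := by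
    filter_upwards [eventually_ge_atTop 0] with τ hτ
    rw [norm_mul, Complex.norm_real, Real.norm_of_nonneg (Real.exp_pos _).le]
    calc ‖evz (θ τ) a‖ * Real.exp (-(τ * M)) ≤ (C * Real.exp (K * τ)) * Real.exp (-(τ * M)) := by
          apply mul_le_mul_of_nonneg_right _ (Real.exp_pos _).le
          refine (hb _).trans ?_
          apply mul_le_mul_of_nonneg_left _ hC
          apply Real.exp_le_exp.2
          exact mul_le_mul_of_nonneg_left (hlg τ hτ) hK
      _ = C * Real.exp (τ * (K - M)) := by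
          rw [mul_assoc, ← Real.exp_add]; congr 2; ring
  have hfin := le_of_tendsto_of_tendsto hlim1.norm hlim2 hle
  exact hx (norm_le_zero_iff.1 hfin)


variable {n : ℕ} {E : Type*} [NormedAddCommGroup E] [InnerProductSpace ℝ E]
  [FiniteDimensional ℝ E]
  {h : (Fin n → ℤ) →+ E} {c : (Fin n → ℤ) → ℂ} {X : Set (Fin n → ℂˣ)} {R C : ℝ}
  {A B t C₃ C₄ C₅ C₆ : ℝ} {β : (Fin (kdim h) → ℤ) →+ (Fin n → ℤ)}

/-- integral equations with controlled exponents -/
theorem Pack.exists_poly (Q : Pack h c X R C A B t C₃ C₄ C₅ C₆ β) (F : LR n) (u : ℝ) (hu : 0 ≤ u)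
    (hs : ∀ z ∈ X, ‖evz z F‖ ≤ 1) (hf : WB h B F u) :
    ∃ χ : Polynomial (LR (kdim h)), χ.Monic ∧ χ.eval₂ (ib β) F ∈ IdealOf c ∧
      ∀ k, ∀ m ∈ (χ.coeff k).coeff.support, l1 m ≤ (2 * C₃ / t * u) * ((χ.natDegree - k : ℕ) : ℝ) := by
  classical
  have hfin := Ideal.finite_minimalPrimes_of_isNoetherianRing (LR n) (IdealOf c)
  have hex : ∀ 𝔭 : Ideal (LR n), ∃ μ : Polynomial (LR (kdim h)),
      𝔭 ∈ (IdealOf c).minimalPrimes → IsMin (ib β) 𝔭 F μ := by
    intro 𝔭
    by_cases h𝔭 : 𝔭 ∈ (IdealOf c).minimalPrimes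
    · have hp : 𝔭.IsPrime := h𝔭.1.1
      obtain ⟨μ, hμ⟩ := exists_isMin (ib β) 𝔭 (Q.integral 𝔭 h𝔭.1.2) F
      exact ⟨μ, fun _ => hμ⟩
    · exact ⟨0, fun h => absurd h h𝔭⟩
  choose μ hμ using hex
  set χ : Polynomial (LR (kdim h)) := ∏ 𝔭 ∈ hfin.toFinset, μ 𝔭 with hχ
  have hmon : χ.Monic := Polynomial.monic_prod_of_monic _ _ fun 𝔭 h𝔭 =>
    (hμ 𝔭 (hfin.mem_toFinset.1 h𝔭)).monic
  refine ⟨χ, hmon, ?_, ?_⟩
  · have h1 : χ.eval₂ (ib β) F ∈ sInf (IdealOf c).minimalPrimes := by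
      rw [Submodule.mem_sInf]
      intro 𝔭 h𝔭
      rw [hχ, Polynomial.eval₂_finsetProd]
      exact Ideal.mem_of_dvd _ (Finset.dvd_prod_of_mem _ (hfin.mem_toFinset.2 h𝔭)) (hμ 𝔭 h𝔭).mem
    rw [Ideal.sInf_minimalPrimes, Q.D.isRadical.radical] at h1
    exact h1
  · intro k
    have hC3 := Q.S.c3
    have ht : 0 < t := by have := Q.S.one_le; linarith
    refine l1_le_of_growth _ (χ.natDegree.choose k) _ ?_ (by positivity)
    intro θ
    have h1 := Polynomial.coeff_le_of_roots_le (f := (evz θ : LR (kdim h) →+* ℂ)) (B := Om 1 (2 * C₃ / t * u) θ)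
      k hmon (IsAlgClosed.splits _) (by
        intro ρ hρ
        rw [Polynomial.mem_roots (hmon.map _).ne_zero] at hρ
        rw [Polynomial.IsRoot.def, hχ, Polynomial.map_prod, Polynomial.eval_prod,
          Finset.prod_eq_zero_iff] at hρ
        obtain ⟨𝔭, h𝔭, h0⟩ := hρ
        rw [hfin.mem_toFinset] at h𝔭
        exact Q.root_bound 𝔭 h𝔭 F 1 u hu zero_le_one hs hf (μ 𝔭) (hμ 𝔭 h𝔭) θ ρ h0)
    rw [Polynomial.coeff_map] at h1
    have h2 : Om 1 (2 * C₃ / t * u) θ ^ (χ.natDegree - k) =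
        Real.exp (2 * C₃ / t * u * ((χ.natDegree - k : ℕ) : ℝ) * ‖lg θ‖) := by
      rw [Om, one_mul, ← Real.exp_nat_mul]; congr 1; ring
    rw [h2, mul_comm] at h1
    exact h1

/-- pairing with a real vector -/
noncomputable def pairR (v : Fin n → ℝ) (ζ : Fin n → ℤ) : ℝ := ∑ i, (ζ i : ℝ) * v i

theorem pairR_add (v : Fin n → ℝ) (ζ ξ : Fin n → ℤ) : pairR v (ζ + ξ) = pairR v ζ + pairR v ξ := by
  simp [pairR, add_mul, Finset.sum_add_distrib]

theorem pairR_zsmul (v : Fin n → ℝ) (k : ℤ) (ζ : Fin n → ℤ) : pairR v (k • ζ) = k * pairR v ζ := by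
  simp [pairR, Finset.mul_sum, mul_assoc]

theorem pairR_zero (v : Fin n → ℝ) : pairR v 0 = 0 := by simp [pairR]

theorem pairR_sum {ι : Type*} (v : Fin n → ℝ) (s : Finset ι) (ζ : ι → (Fin n → ℤ)) :
    pairR v (∑ i ∈ s, ζ i) = ∑ i ∈ s, pairR v (ζ i) := by
  classical
  induction s using Finset.induction_on with
  | empty => simp [pairR_zero]
  | insert a s ha ih => rw [Finset.sum_insert ha, Finset.sum_insert ha, pairR_add, ih]

/-- the restriction of `v` to the sublattice -/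
noncomputable def resv (β : (Fin (kdim h) → ℤ) →+ (Fin n → ℤ)) (v : Fin n → ℝ) : Fin (kdim h) → ℝ :=
  fun j => pairR v (β (Pi.single j 1))

theorem pairR_beta_le (β : (Fin (kdim h) → ℤ) →+ (Fin n → ℤ)) (v : Fin n → ℝ) (m : Fin (kdim h) → ℤ) :
    pairR v (β m) ≤ l1 m * ‖resv β v‖ := by
  have h1 : m = ∑ j, m j • (Pi.single j 1 : Fin (kdim h) → ℤ) := by
    ext i
    simp [Finset.sum_apply, Pi.single_apply]
  conv_lhs => rw [h1, map_sum, pairR_sum]
  rw [l1, Finset.sum_mul]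
  refine Finset.sum_le_sum fun j _ => ?_
  rw [map_zsmul, pairR_zsmul]
  calc (m j : ℝ) * pairR v (β (Pi.single j 1)) ≤ |(m j : ℝ) * pairR v (β (Pi.single j 1))| := le_abs_self _
    _ = |(m j : ℝ)| * |resv β v j| := abs_mul _ _
    _ ≤ |(m j : ℝ)| * ‖resv β v‖ :=
        mul_le_mul_of_nonneg_left (norm_le_pi_norm (resv β v) j) (abs_nonneg _)

theorem exists_signed {v : Fin n → ℝ} (hv : v ≠ 0) :
    ∃ p : Fin n × Fin 2, pairR v (Pi.single p.1 (if p.2 = 0 then 1 else -1)) = ‖v‖ := by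
  have hne : Nonempty (Fin n) := by
    by_contra hcon
    rw [not_nonempty_iff] at hcon
    exact hv (Subsingleton.elim _ _)
  obtain ⟨i, hi⟩ : ∃ i, ‖v‖ = ‖v i‖ := by
    obtain ⟨i, -, hi⟩ := Finset.exists_max_image Finset.univ (fun i => ‖v i‖) Finset.univ_nonempty
    exact ⟨i, le_antisymm ((pi_norm_le_iff_of_nonneg (norm_nonneg _)).2 fun j => hi j (Finset.mem_univ j))
      (norm_le_pi_norm v i)⟩
  have hp : ∀ k : ℤ, pairR v (Pi.single i k) = k * v i := by
    intro k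
    rw [pairR, Finset.sum_eq_single i]
    · simp
    · intro j _ hj; simp [Pi.single_eq_of_ne hj]
    · simp
  rw [Real.norm_eq_abs] at hi
  rcases le_or_gt 0 (v i) with h0 | h0
  · refine ⟨(i, 0), ?_⟩
    rw [hi, abs_of_nonneg h0]
    simp only [↓reduceIte]
    rw [hp]; simp
  · refine ⟨(i, 1), ?_⟩
    rw [hi, abs_of_neg h0]
    simp only [Fin.isValue, one_ne_zero, ↓reduceIte]
    rw [hp]; simp

/-- good elements of the ideal for directions `v` in a cone -/
theorem Pack.good (Q : Pack h c X R C A B t C₃ C₄ C₅ C₆ β) (W : ℝ)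
    (hW : ∀ p : Fin n × Fin 2, wt h B (Pi.single p.1 (if p.2 = 0 then 1 else -1)) ≤ W) (hW0 : 0 ≤ W) :
    ∃ Fs : Finset (LR n), (∀ f ∈ Fs, f ∈ IdealOf c) ∧ ∀ v : Fin n → ℝ, v ≠ 0 →
      2 * C₃ / t * W * ‖resv β v‖ ≤ ‖v‖ / 4 → ∃ f ∈ Fs, f.coeff 0 = 1 ∧
        ∀ ζ ∈ f.coeff.support, ζ ≠ 0 → pairR v ζ ≤ -(‖v‖ / 2) := by
  classical
  let ξ : Fin n × Fin 2 → (Fin n → ℤ) := fun p => Pi.single p.1 (if p.2 = 0 then 1 else -1)
  have hex : ∀ p : Fin n × Fin 2, ∃ χ : Polynomial (LR (kdim h)), χ.Monic ∧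
      χ.eval₂ (ib β) (AddMonoidAlgebra.single (ξ p) 1 : LR n) ∈ IdealOf c ∧
      ∀ k, ∀ m ∈ (χ.coeff k).coeff.support, l1 m ≤ (2 * C₃ / t * W) * ((χ.natDegree - k : ℕ) : ℝ) := by
    intro p
    refine Q.exists_poly _ W hW0 ?_ ?_
    · intro z hz
      rw [evz_single, one_mul, norm_chrU, Q.D.unit z hz]
      simp
    · intro ζ hζ
      rw [coeff_single] at hζ
      have := Finsupp.support_single_subset hζ
      rw [Finset.mem_singleton] at this
      rw [this]
      exact hW p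
  choose χ hmon hmem hcoef using hex
  let f : Fin n × Fin 2 → LR n := fun p =>
    AddMonoidAlgebra.single (-((χ p).natDegree : ℤ) • ξ p) 1 *
      (χ p).eval₂ (ib β) (AddMonoidAlgebra.single (ξ p) 1 : LR n)
  refine ⟨Finset.univ.image f, ?_, ?_⟩
  · intro g hg
    obtain ⟨p, -, rfl⟩ := Finset.mem_image.1 hg
    exact Ideal.mul_mem_left _ _ (hmem p)
  · intro v hv hvb
    obtain ⟨p, hp⟩ := exists_signed hv
    have hvpos : 0 < ‖v‖ := norm_pos_iff.2 hv
    refine ⟨f p, Finset.mem_image_of_mem _ (Finset.mem_univ p), ?_⟩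
    set N := (χ p).natDegree with hN
    -- terms
    let T : ℕ → LR n := fun k => ib β ((χ p).coeff k) * AddMonoidAlgebra.single (((k : ℤ) - N) • ξ p) 1
    have hfT : f p = ∑ k ∈ Finset.range (N + 1), T k := by
      simp only [f, T]
      rw [Polynomial.eval₂_eq_sum_range, ← hN, Finset.mul_sum]
      refine Finset.sum_congr rfl fun k _ => ?_
      rw [AddMonoidAlgebra.single_pow, one_pow, mul_left_comm, AddMonoidAlgebra.single_mul_single,
        one_mul]
      congr 3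
      rw [← natCast_zsmul, ← add_zsmul]
      congr 1; ring
    have hTsupp : ∀ k, ∀ ζ ∈ (T k).coeff.support, ∃ m ∈ ((χ p).coeff k).coeff.support,
        ζ = β m + ((k : ℤ) - N) • ξ p := by
      intro k ζ hζ
      rw [Finsupp.mem_support_iff, coeff_mul_eq_conv] at hζ
      obtain ⟨a, ha, ha2⟩ := exists_of_conv_ne hζ
      have h1 : (ib β ((χ p).coeff k)).coeff = Finsupp.mapDomain β ((χ p).coeff k).coeff := rfl
      rw [h1] at ha
      obtain ⟨m, hm, rfl⟩ := Finset.mem_image.1 (Finsupp.mapDomain_support ha)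
      refine ⟨m, hm, ?_⟩
      rw [coeff_single, Finsupp.single_apply] at ha2
      split_ifs at ha2 with h2
      · rw [h2]; abel
      · exact absurd rfl ha2
    have hneg : ∀ k, k < N → ∀ ζ ∈ (T k).coeff.support, pairR v ζ ≤ -(‖v‖ / 2) := by
      intro k hk ζ hζ
      obtain ⟨m, hm, rfl⟩ := hTsupp k ζ hζ
      rw [pairR_add, pairR_zsmul]
      have h1 := pairR_beta_le β v m
      have h2 := hcoef p k m hm
      rw [← hN] at h2
      have h3 : l1 m * ‖resv β v‖ ≤ (2 * C₃ / t * W) * ((N - k : ℕ) : ℝ) * ‖resv β v‖ :=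
        mul_le_mul_of_nonneg_right h2 (norm_nonneg _)
      have h4 : (2 * C₃ / t * W) * ((N - k : ℕ) : ℝ) * ‖resv β v‖ ≤ ((N - k : ℕ) : ℝ) * (‖v‖ / 4) := by
        have : (2 * C₃ / t * W) * ((N - k : ℕ) : ℝ) * ‖resv β v‖
            = ((N - k : ℕ) : ℝ) * (2 * C₃ / t * W * ‖resv β v‖) := by ring
        rw [this]
        exact mul_le_mul_of_nonneg_left hvb (by positivity)
      have h5 : ((N - k : ℕ) : ℝ) = N - k := by rw [Nat.cast_sub hk.le]
      have h6 : (1 : ℝ) ≤ ((N - k : ℕ) : ℝ) := by exact_mod_cast (by omega : 1 ≤ N - k)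
      have h7 : pairR v (ξ p) = ‖v‖ := hp
      rw [h7]
      push_cast
      rw [h5] at h3 h4 h6
      nlinarith
    have hTN : T N = 1 := by
      simp only [T]
      rw [hN, (hmon p).coeff_natDegree, map_one, one_mul, sub_self, zero_smul]
      rfl
    constructor
    · rw [hfT, Finset.sum_range_succ, hTN, coeff_add, Finsupp.add_apply, coeff_sum,
        Finsupp.finsetSum_apply, Finset.sum_eq_zero, zero_add]
      · simp [AddMonoidAlgebra.one_def]
      · intro k hk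
        by_contra hne
        have h1 := hneg k (Finset.mem_range.1 hk) 0 (Finsupp.mem_support_iff.2 hne)
        rw [pairR_zero] at h1
        linarith
    · intro ζ hζ hζ0
      rw [Finsupp.mem_support_iff, hfT, Finset.sum_range_succ, hTN, coeff_add, Finsupp.add_apply] at hζ
      have h1 : (1 : LR n).coeff ζ = 0 := by
        rw [AddMonoidAlgebra.one_def, coeff_single, Finsupp.single_apply, if_neg]
        exact fun h => hζ0 h.symm
      rw [h1, add_zero, coeff_sum, Finsupp.finsetSum_apply] at hζ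
      obtain ⟨k, hk, hk2⟩ := Finset.exists_ne_zero_of_sum_ne_zero hζ
      exact hneg k (Finset.mem_range.1 hk) ζ (Finsupp.mem_support_iff.2 hk2)

end FQ
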