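import Mathlib

/-!
Definitions: subvarieties of `(ℙ¹)^n`, strict Lee-Yang varieties, the sets `Λ(X, L)`.
Here `ℙ¹ = ℂ ∪ {∞}` is `OnePoint ℂ`.
-/

namespace FQ

open scoped OnePoint

/-- `1/w` as a point of `ℙ¹ = ℂ ∪ {∞}`, with `1/0 = ∞`. -/
noncomputable def invP (w : ℂ) : OnePoint ℂ := if w = 0 then ∞ else ((w⁻¹ : ℂ) : OnePoint ℂ)

/-- The `2^n` standard affine charts `ℂ^n → (ℙ¹)^n`: the point with `i`-th coordinate `w i` for
`i ∉ s` and `1 / w i` for `i ∈ s`. Their images are open and cover `(ℙ¹)^n`. -/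
noncomputable def chart {n : ℕ} (s : Finset (Fin n)) (w : Fin n → ℂ) : Fin n → OnePoint ℂ :=
  fun i => if i ∈ s then invP (w i) else ((w i : ℂ) : OnePoint ℂ)

/-- the part of `X ⊆ (ℙ¹)^n` in the chart `s`, as a subset of `ℂ^n` -/
def affinePart {n : ℕ} (X : Set (Fin n → OnePoint ℂ)) (s : Finset (Fin n)) : Set (Fin n → ℂ) :=
  {w | chart s w ∈ X}

/-- `X` is a closed subvariety of `(ℙ¹)^n`: in each standard affine chart it is the common zero
set of a set of polynomials. -/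
def IsClosedSubvariety {n : ℕ} (X : Set (Fin n → OnePoint ℂ)) : Prop :=
  ∀ s : Finset (Fin n), ∃ S : Set (MvPolynomial (Fin n) ℂ),
    affinePart X s = {w | ∀ p ∈ S, MvPolynomial.eval w p = 0}

/-- the ideal of the polynomials vanishing on `X` in the chart `s` -/
noncomputable def idealAt {n : ℕ} (X : Set (Fin n → OnePoint ℂ)) (s : Finset (Fin n)) :
    Ideal (MvPolynomial (Fin n) ℂ) := MvPolynomial.vanishingIdeal ℂ (affinePart X s)

/-- `X` is equidimensional of dimension `k`: in each standard affine chart, each irreducible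
component (minimal prime over the ideal of `X`) has dimension `k` (transcendence degree over `ℂ`
of its coordinate ring). -/
def IsEquidimensional {n : ℕ} (X : Set (Fin n → OnePoint ℂ)) (k : ℕ) : Prop :=
  ∀ (s : Finset (Fin n)) (P : Ideal (MvPolynomial (Fin n) ℂ)), P ∈ (idealAt X s).minimalPrimes →
    Algebra.trdeg ℂ (MvPolynomial (Fin n) ℂ ⧸ P) = k

/-- `z ↦ 1 / z̄` on `ℙ¹` -/
noncomputable def invConj (z : OnePoint ℂ) : OnePoint ℂ :=
  z.elim ((0 : ℂ) : OnePoint ℂ) (fun w => invP (starRingEnd ℂ w))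

/-- `log |z|`, with `log |0| = -∞` and `log |∞| = +∞` -/
noncomputable def logAbs (z : OnePoint ℂ) : EReal :=
  z.elim ⊤ (fun w => if w = 0 then ⊥ else ((Real.log ‖w‖ : ℝ) : EReal))

open Classical in
/-- the number of sign changes of `y`, zeros being skipped: the number of pairs `i < j` with
`y i`, `y j` of opposite signs and `y k = 0` for all `k` strictly between. -/
noncomputable def var {n : ℕ} (y : Fin n → EReal) : ℕ :=
  (Finset.univ.filter fun p : Fin n × Fin n => p.1 < p.2 ∧ (∀ k, p.1 < k → k < p.2 → y k = 0) ∧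
    ((y p.1 < 0 ∧ 0 < y p.2) ∨ (0 < y p.1 ∧ y p.2 < 0))).card

/-- the real torus `{|z_1| = … = |z_n| = 1}` in `(ℙ¹)^n` -/
def torus (n : ℕ) : Set (Fin n → OnePoint ℂ) :=
  {z | ∀ i, ∃ w : ℂ, ‖w‖ = 1 ∧ z i = ((w : ℂ) : OnePoint ℂ)}

/-- `X`, of pure codimension `d`, is smooth at the point `w ∈ ℂ^n ⊆ (ℙ¹)^n` (Jacobian criterion):
there are `d` polynomials in the ideal of `X` whose gradients at `w` are linearly independent. -/
def IsSmoothAt {n : ℕ} (X : Set (Fin n → OnePoint ℂ)) (d : ℕ) (w : Fin n → ℂ) : Prop :=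
  ∃ f : Fin d → MvPolynomial (Fin n) ℂ, (∀ j, f j ∈ idealAt X ∅) ∧
    LinearIndependent ℂ fun j : Fin d => fun i : Fin n => MvPolynomial.eval w (MvPolynomial.pderiv i (f j))

/-- strict Lee-Yang varieties of dimension `n - d` in `(ℙ¹)^n` -/
structure IsStrictLeeYang {n : ℕ} (d : ℕ) (X : Set (Fin n → OnePoint ℂ)) : Prop where
  le : d ≤ n
  nonempty : X.Nonempty
  closed : IsClosedSubvariety X
  equidim : IsEquidimensional X (n - d)
  inv : ∀ z ∈ X, (fun i => invConj (z i)) ∈ X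
  var_ge : ∀ z ∈ X, z ∈ torus n ∨ d ≤ var (fun i => logAbs (z i))
  smooth : ∀ w : Fin n → ℂ, (fun i => ((w i : ℂ) : OnePoint ℂ)) ∈ X ∩ torus n → IsSmoothAt X d w

/-- `Λ(X, L) = {x ∈ ℝ^d : exp(2πi L x) ∈ X}` -/
def LYSet {n d : ℕ} (X : Set (Fin n → OnePoint ℂ)) (L : Matrix (Fin n) (Fin d) ℝ) :
    Set (EuclideanSpace ℝ (Fin d)) :=
  {x | (fun i => ((Complex.exp (2 * Real.pi * Complex.I * ∑ j, (L i j : ℂ) * (x j : ℂ)) : ℂ) :
    OnePoint ℂ)) ∈ X}

end FQ
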