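import Mathlib
import Pool.Agent.Helper46.FQ.LYDefs
import Pool.Agent.Helper46.FQ.Points

/-!
The closure in `(ℙ¹)^n` of the zero set of an ideal of Laurent polynomials.
-/

namespace FQ

open Finset AddMonoidAlgebra

variable {n : ℕ}

/-- homogeneous factor -/
noncomputable def hc (N : ℕ) (k : ℤ) (z : OnePoint ℂ) : ℂ :=
  z.elim (if k = N then 1 else 0) (fun w => w ^ ((N : ℤ) + k).toNat)

/-- multihomogenisation, evaluated -/
noncomputable def homog (N : ℕ) (f : LR n) (p : Fin n → OnePoint ℂ) : ℂ :=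
  f.coeff.sum fun ζ a => a * ∏ i, hc N (ζ i) (p i)

/-- exponent bound -/
def EB (N : ℕ) (f : LR n) : Prop := ∀ ζ ∈ f.coeff.support, ∀ i, |ζ i| ≤ (N : ℤ)

/-- the closure of the zero set -/
def XI (I : Ideal (LR n)) : Set (Fin n → OnePoint ℂ) := {p | ∀ f ∈ I, ∀ N : ℕ, EB N f → homog N f p = 0}

/-- sign of the chart -/
def sgnc (s : Finset (Fin n)) (i : Fin n) : ℤ := if i ∈ s then -1 else 1

/-- the polynomial in the chart `s` -/
noncomputable def hp (s : Finset (Fin n)) (N : ℕ) (f : LR n) : MvPolynomial (Fin n) ℂ :=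
  f.coeff.sum fun ζ a => MvPolynomial.C a * ∏ i, MvPolynomial.X i ^ ((N : ℤ) + sgnc s i * ζ i).toNat

theorem exists_EB (f : LR n) : ∃ N, EB N f := by
  classical
  obtain ⟨M, hM0, hM⟩ := exists_bound f.coeff.support (fun ζ => ‖ζ‖)
  obtain ⟨N, hN⟩ := exists_nat_ge M
  refine ⟨N, fun ζ hζ i => ?_⟩
  have h1 : ‖ζ i‖ ≤ N := (norm_le_pi_norm ζ i).trans ((hM ζ hζ).trans hN)
  rw [Int.norm_eq_abs] at h1
  exact_mod_cast h1

/-- unit factor relating the two -/
noncomputable def uf (s : Finset (Fin n)) (N : ℕ) (w : Fin n → ℂ) (i : Fin n) : ℂ :=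
  if i ∈ s ∧ w i ≠ 0 then w i ^ (2 * N) else 1

theorem uf_ne_zero (s : Finset (Fin n)) (N : ℕ) (w : Fin n → ℂ) (i : Fin n) : uf s N w i ≠ 0 := by
  unfold uf
  split_ifs with h
  · exact pow_ne_zero _ h.2
  · exact one_ne_zero

theorem hc_chart (s : Finset (Fin n)) (N : ℕ) (w : Fin n → ℂ) (i : Fin n) (k : ℤ) (hk : |k| ≤ N) :
    w i ^ ((N : ℤ) + sgnc s i * k).toNat = uf s N w i * hc N k (chart s w i) := by
  have hk1 := abs_le.1 hk
  unfold chart sgnc uf
  by_cases hi : i ∈ s
  · rw [if_pos hi, if_pos hi]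
    by_cases hw : w i = 0
    · rw [if_neg (fun h => h.2 hw), invP, if_pos hw, hc, OnePoint.elim_infty, one_mul, hw]
      by_cases hkN : k = N
      · rw [if_pos hkN, hkN]; simp
      · rw [if_neg hkN, zero_pow]
        omega
    · rw [if_pos ⟨hi, hw⟩, invP, if_neg hw, hc, OnePoint.elim_some]
      have h1 : (2 * N : ℕ) = ((N : ℤ) + -1 * k).toNat + ((N : ℤ) + k).toNat := by omega
      rw [h1, pow_add, mul_assoc, ← mul_pow, mul_inv_cancel₀ hw, one_pow, mul_one]
  · rw [if_neg hi, if_neg hi, if_neg (fun h => hi h.1), hc, OnePoint.elim_some, one_mul, one_mul]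

theorem eval_hp (s : Finset (Fin n)) (N : ℕ) (f : LR n) (w : Fin n → ℂ) :
    MvPolynomial.eval w (hp s N f) = f.coeff.sum fun ζ a => a * ∏ i, w i ^ ((N : ℤ) + sgnc s i * ζ i).toNat := by
  rw [hp, Finsupp.sum, map_sum, Finsupp.sum]
  refine Finset.sum_congr rfl fun ζ _ => ?_
  simp

theorem eval_hp_eq (s : Finset (Fin n)) (N : ℕ) (f : LR n) (hf : EB N f) (w : Fin n → ℂ) :
    MvPolynomial.eval w (hp s N f) = (∏ i, uf s N w i) * homog N f (chart s w) := by
  rw [eval_hp, homog, Finsupp.sum, Finsupp.sum, Finset.mul_sum]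
  refine Finset.sum_congr rfl fun ζ hζ => ?_
  rw [mul_left_comm, ← Finset.prod_mul_distrib]
  congr 1
  exact Finset.prod_congr rfl fun i _ => hc_chart s N w i (ζ i) (hf ζ hζ i)

theorem eval_hp_eq_zero_iff (s : Finset (Fin n)) (N : ℕ) (f : LR n) (hf : EB N f) (w : Fin n → ℂ) :
    MvPolynomial.eval w (hp s N f) = 0 ↔ homog N f (chart s w) = 0 := by
  rw [eval_hp_eq s N f hf, mul_eq_zero, or_iff_right]
  exact Finset.prod_ne_zero_iff.2 fun i _ => uf_ne_zero s N w i

/-- the map to the Laurent ring given by the chart -/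
noncomputable def kap (s : Finset (Fin n)) : MvPolynomial (Fin n) ℂ →ₐ[ℂ] LR n :=
  MvPolynomial.aeval fun i => AddMonoidAlgebra.single (Pi.single i (sgnc s i)) 1

/-- signed exponent vector -/
def sv (s : Finset (Fin n)) (a : Fin n → ℤ) : Fin n → ℤ := fun i => sgnc s i * a i

theorem kap_monomial (s : Finset (Fin n)) (α : Fin n →₀ ℕ) (a : ℂ) :
    kap s (MvPolynomial.monomial α a) = AddMonoidAlgebra.single (sv s fun i => (α i : ℤ)) a := by
  rw [kap, MvPolynomial.aeval_monomial, Finsupp.prod_fintype _ _ (by simp)]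
  have h1 : ∀ i, (AddMonoidAlgebra.single (Pi.single i (sgnc s i)) (1 : ℂ) : LR n) ^ α i =
      AddMonoidAlgebra.single (Pi.single i (sgnc s i * α i)) 1 := by
    intro i
    rw [AddMonoidAlgebra.single_pow, one_pow]
    congr 1
    ext j
    by_cases hj : j = i
    · subst hj; simp [mul_comm]
    · simp [Pi.single_eq_of_ne hj]
  simp only [h1]
  have h2 : ∀ T : Finset (Fin n), ∏ i ∈ T, (AddMonoidAlgebra.single (Pi.single i (sgnc s i * α i)) (1 : ℂ) : LR n) =
      AddMonoidAlgebra.single (∑ i ∈ T, Pi.single i (sgnc s i * (α i : ℤ))) 1 := by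
    intro T
    classical
    induction T using Finset.induction_on with
    | empty => simp [AddMonoidAlgebra.one_def]
    | insert i T hi ih =>
      rw [Finset.prod_insert hi, ih, AddMonoidAlgebra.single_mul_single, one_mul, Finset.sum_insert hi]
  rw [h2]
  have h3 : ∑ i, Pi.single i (sgnc s i * (α i : ℤ)) = sv s fun i => (α i : ℤ) := by
    ext j
    simp [Finset.sum_apply, Pi.single_apply, sv]
  rw [h3, ← Algebra.smul_def, AddMonoidAlgebra.smul_single, smul_eq_mul, mul_one]

theorem sgnc_mul_self (s : Finset (Fin n)) (i : Fin n) : sgnc s i * sgnc s i = 1 := by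
  unfold sgnc; split_ifs <;> norm_num

theorem abs_sgnc (s : Finset (Fin n)) (i : Fin n) : |sgnc s i| = 1 := by
  unfold sgnc; split_ifs <;> norm_num

theorem hp_add (s : Finset (Fin n)) (N : ℕ) (f g : LR n) : hp s N (f + g) = hp s N f + hp s N g := by
  classical
  rw [hp, coeff_add]
  exact Finsupp.sum_add_index (by simp) (by intros; rw [map_add, add_mul])

theorem hp_zero (s : Finset (Fin n)) (N : ℕ) : hp s N (0 : LR n) = 0 := by simp [hp]

theorem hp_single (s : Finset (Fin n)) (N : ℕ) (ζ : Fin n → ℤ) (a : ℂ) :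
    hp s N (AddMonoidAlgebra.single ζ a) =
      MvPolynomial.C a * ∏ i, MvPolynomial.X i ^ ((N : ℤ) + sgnc s i * ζ i).toNat := by
  rw [hp, coeff_single, Finsupp.sum_single_index (by simp)]

/-- shift vector -/
def shf (s : Finset (Fin n)) (N : ℕ) : Fin n → ℤ := sv s fun _ => -(N : ℤ)

theorem hp_kap (s : Finset (Fin n)) (N : ℕ) (q : MvPolynomial (Fin n) ℂ) :
    hp s N (AddMonoidAlgebra.single (shf s N) 1 * kap s q) = q := by
  induction q using MvPolynomial.induction_on' with
  | monomial α a =>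
    rw [kap_monomial, AddMonoidAlgebra.single_mul_single, one_mul, hp_single]
    have h1 : ∀ i, ((N : ℤ) + sgnc s i * (shf s N + sv s fun i => (α i : ℤ)) i).toNat = α i := by
      intro i
      have h2 := sgnc_mul_self s i
      have h3 : (N : ℤ) + sgnc s i * (shf s N + sv s fun i => (α i : ℤ)) i = α i := by
        rw [Pi.add_apply, shf, sv, sv]
        linear_combination ((α i : ℤ) - N) * h2
      rw [h3, Int.toNat_natCast]
    simp only [h1]
    rw [MvPolynomial.monomial_eq, Finsupp.prod_fintype _ _ (by simp)]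
  | add p q hp' hq => rw [map_add, mul_add, hp_add, hp', hq]

theorem EB_add {N : ℕ} {f g : LR n} (hf : EB N f) (hg : EB N g) : EB N (f + g) := by
  classical
  intro ζ hζ
  rw [coeff_add] at hζ
  rcases Finset.mem_union.1 (Finsupp.support_add hζ) with h | h
  · exact hf ζ h
  · exact hg ζ h

theorem EB_zero (N : ℕ) : EB N (0 : LR n) := by intro ζ hζ; simp at hζ

theorem EB_sum {ι : Type*} {N : ℕ} (T : Finset ι) (f : ι → LR n) (hf : ∀ i ∈ T, EB N (f i)) :
    EB N (∑ i ∈ T, f i) := by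
  classical
  induction T using Finset.induction_on with
  | empty => simpa using EB_zero N
  | insert i T hi ih =>
    rw [Finset.sum_insert hi]
    exact EB_add (hf i (Finset.mem_insert_self i T)) (ih fun j hj => hf j (Finset.mem_insert_of_mem hj))

theorem EB_single {N : ℕ} {ζ : Fin n → ℤ} (hζ : ∀ i, |ζ i| ≤ (N : ℤ)) (a : ℂ) :
    EB N (AddMonoidAlgebra.single ζ a : LR n) := by
  intro ξ hξ
  rw [coeff_single] at hξ
  have := Finsupp.support_single_subset hξ
  rw [Finset.mem_singleton] at this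
  rw [this]
  exact hζ

theorem exists_EB_kap (s : Finset (Fin n)) (q : MvPolynomial (Fin n) ℂ) :
    ∃ N : ℕ, EB N (AddMonoidAlgebra.single (shf s N) 1 * kap s q) := by
  classical
  obtain ⟨M, hM⟩ : ∃ M : ℕ, ∀ α ∈ q.support, ∀ i, α i ≤ M := by
    refine ⟨q.support.sup (fun α => Finset.univ.sup fun i => α i), fun α hα i => ?_⟩
    exact (Finset.le_sup (f := fun i => α i) (Finset.mem_univ i)).trans
      (Finset.le_sup (f := fun α : Fin n →₀ ℕ => Finset.univ.sup fun i => α i) hα)
  refine ⟨M, ?_⟩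
  conv => rw [MvPolynomial.as_sum q]
  rw [map_sum, Finset.mul_sum]
  refine EB_sum _ _ fun α hα => ?_
  rw [kap_monomial, AddMonoidAlgebra.single_mul_single]
  apply EB_single
  intro i
  have h1 : (shf s M + sv s fun i => (α i : ℤ)) i = sgnc s i * ((α i : ℤ) - M) := by
    rw [Pi.add_apply, shf, sv, sv]; ring
  rw [h1, abs_mul, abs_sgnc, one_mul, abs_le]
  have := hM α hα i
  constructor <;> omega

theorem kap_hp (s : Finset (Fin n)) (N : ℕ) (f : LR n) (hf : EB N f) :
    kap s (hp s N f) = AddMonoidAlgebra.single (sv s fun _ => (N : ℤ)) 1 * f := by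
  classical
  have h1 : ∀ ζ : Fin n → ℤ, (∀ i, |ζ i| ≤ (N : ℤ)) → ∀ a, kap s (hp s N (AddMonoidAlgebra.single ζ a)) =
      AddMonoidAlgebra.single (sv s fun _ => (N : ℤ)) 1 * AddMonoidAlgebra.single ζ a := by
    intro ζ hζ a
    have h2 : hp s N (AddMonoidAlgebra.single ζ a) = MvPolynomial.monomial
        (Finsupp.equivFunOnFinite.symm fun i => ((N : ℤ) + sgnc s i * ζ i).toNat) a := by
      rw [hp_single, MvPolynomial.monomial_eq, Finsupp.prod_fintype _ _ (by simp)]
      rfl
    rw [h2, kap_monomial, AddMonoidAlgebra.single_mul_single, one_mul]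
    congr 1
    ext i
    show sgnc s i * (((N : ℤ) + sgnc s i * ζ i).toNat : ℤ) = sgnc s i * N + ζ i
    have h3 := abs_le.1 (hζ i)
    have h4 : 0 ≤ (N : ℤ) + sgnc s i * ζ i := by
      unfold sgnc; split_ifs <;> omega
    rw [Int.toNat_of_nonneg h4]
    linear_combination (ζ i) * sgnc_mul_self s i
  have h2 : f = ∑ ζ ∈ f.coeff.support, AddMonoidAlgebra.single ζ (f.coeff ζ) := by
    ext x
    simp only [coeff_sum, coeff_single]
    rw [Finsupp.finsetSum_apply]
    simp only [Finsupp.single_apply]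
    rw [Finset.sum_ite_eq']
    simp only [Finsupp.mem_support_iff, ne_eq, ite_not]
    split_ifs with h
    · exact h
    · rfl
  have h3 : ∀ (T : Finset (Fin n → ℤ)) (g : (Fin n → ℤ) → LR n), hp s N (∑ ζ ∈ T, g ζ) = ∑ ζ ∈ T, hp s N (g ζ) := by
    intro T g
    induction T using Finset.induction_on with
    | empty => simp [hp_zero]
    | insert i T hi ih => rw [Finset.sum_insert hi, Finset.sum_insert hi, hp_add, ih]
  conv_lhs => rw [h2]
  conv_rhs => rw [h2]
  rw [h3, map_sum, Finset.mul_sum]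
  exact Finset.sum_congr rfl fun ζ hζ => h1 ζ (hf ζ hζ) _

theorem affinePart_XI (I : Ideal (LR n)) (s : Finset (Fin n)) :
    affinePart (XI I) s = {w | ∀ q ∈ I.comap (kap s), MvPolynomial.eval w q = 0} := by
  ext w
  constructor
  · intro hw q hq
    obtain ⟨N, hN⟩ := exists_EB_kap s q
    have h1 : AddMonoidAlgebra.single (shf s N) 1 * kap s q ∈ I := Ideal.mul_mem_left _ _ hq
    have h2 := hw _ h1 N hN
    rw [← eval_hp_eq_zero_iff s N _ hN w, hp_kap] at h2
    exact h2
  · intro hw f hf N hN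
    rw [← eval_hp_eq_zero_iff s N f hN w]
    apply hw
    rw [Ideal.mem_comap, kap_hp s N f hN]
    exact Ideal.mul_mem_left _ _ hf

theorem affinePart_eq_zeroLocus (I : Ideal (LR n)) (s : Finset (Fin n)) :
    affinePart (XI I) s = MvPolynomial.zeroLocus ℂ (I.comap (kap s)) := by
  rw [affinePart_XI]
  ext w
  rw [MvPolynomial.mem_zeroLocus_iff]
  rfl

theorem isClosed_XI (I : Ideal (LR n)) : IsClosedSubvariety (XI I) := fun s =>
  ⟨(I.comap (kap s) : Set (MvPolynomial (Fin n) ℂ)), affinePart_XI I s⟩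

theorem idealAt_XI (I : Ideal (LR n)) (hI : I.IsRadical) (s : Finset (Fin n)) :
    idealAt (XI I) s = I.comap (kap s) := by
  rw [idealAt, affinePart_eq_zeroLocus, MvPolynomial.vanishingIdeal_zeroLocus_eq_radical]
  exact (hI.comap _).radical

/-- evaluation and charts -/
theorem eval_kap (s : Finset (Fin n)) (z : Fin n → ℂˣ) (q : MvPolynomial (Fin n) ℂ) :
    evz z (kap s q) = MvPolynomial.eval (fun i => ((z i ^ sgnc s i : ℂˣ) : ℂ)) q := by
  induction q using MvPolynomial.induction_on' with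
  | monomial α a =>
    rw [kap_monomial, evz_single, MvPolynomial.eval_monomial, Finsupp.prod_fintype _ _ (by simp)]
    congr 1
    rw [chrU, Units.coe_prod]
    refine Finset.prod_congr rfl fun i _ => ?_
    rw [sv, zpow_mul, zpow_natCast, Units.val_pow_eq_pow_val]
  | add p q hp' hq => rw [map_add, map_add, map_add, hp', hq]

theorem mem_XI_iff (I : Ideal (LR n)) (z : Fin n → ℂˣ) :
    (fun i => (((z i : ℂˣ) : ℂ) : OnePoint ℂ)) ∈ XI I ↔ ∀ f ∈ I, evz z f = 0 := by
  have h0 : (fun i => (((z i : ℂˣ) : ℂ) : OnePoint ℂ)) = chart ∅ (fun i => ((z i : ℂˣ) : ℂ)) := by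
    ext i; simp [chart]
  have h1 : (fun i => (((z i : ℂˣ) : ℂ) : OnePoint ℂ)) ∈ XI I ↔
      (fun i => ((z i : ℂˣ) : ℂ)) ∈ affinePart (XI I) ∅ := by rw [h0]; rfl
  have hs : ∀ i, sgnc (∅ : Finset (Fin n)) i = 1 := fun i => by simp [sgnc]
  rw [h1, affinePart_XI]
  constructor
  · intro H f hf
    obtain ⟨N, hN⟩ := exists_EB f
    have h2 := H (hp ∅ N f) (by
      rw [Ideal.mem_comap, kap_hp ∅ N f hN]
      exact Ideal.mul_mem_left _ _ hf)
    have h3 := eval_kap ∅ z (hp ∅ N f)
    simp only [hs, zpow_one] at h3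
    rw [h2, kap_hp ∅ N f hN, map_mul, evz_single, one_mul] at h3
    exact (mul_eq_zero.1 h3).resolve_left (Units.ne_zero _)
  · intro H q hq
    have h3 := eval_kap ∅ z q
    simp only [hs, zpow_one] at h3
    rw [← h3]
    exact H _ hq

end FQ
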