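import Mathlib
import Pool.Agent.Helper46.FQ.Cone
import Pool.Agent.Helper46.FQ.Proj

/-!
Boundary points of the closure have many sign changes.
-/

namespace FQ

open Finset AddMonoidAlgebra
open scoped OnePoint

variable {n : ℕ}

theorem homog_add (N : ℕ) (f g : LR n) (p : Fin n → OnePoint ℂ) :
    homog N (f + g) p = homog N f p + homog N g p := by
  classical
  rw [homog, coeff_add]
  exact Finsupp.sum_add_index (by simp) (by intros; ring)

theorem homog_zero (N : ℕ) (p : Fin n → OnePoint ℂ) : homog N (0 : LR n) p = 0 := by simp [homog]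

theorem homog_single (N : ℕ) (ζ : Fin n → ℤ) (a : ℂ) (p : Fin n → OnePoint ℂ) :
    homog N (AddMonoidAlgebra.single ζ a) p = a * ∏ i, hc N (ζ i) (p i) := by
  rw [homog, coeff_single, Finsupp.sum_single_index (by simp)]

/-- reducibility to exponents bounded above in the directions `ε` -/
def Red (I : Ideal (LR n)) (ε : Fin n → ℤ) (K : ℤ) (F : LR n) : Prop :=
  ∃ g : LR n, F - g ∈ I ∧ ∀ ζ ∈ g.coeff.support, ∀ i, ε i * ζ i ≤ K

theorem Red.of_mem {I : Ideal (LR n)} {ε : Fin n → ℤ} {K : ℤ} {F : LR n} (hF : F ∈ I) : Red I ε K F :=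
  ⟨0, by rwa [sub_zero], by intro ζ hζ; simp at hζ⟩

theorem Red.add {I : Ideal (LR n)} {ε : Fin n → ℤ} {K : ℤ} {F G : LR n} (hF : Red I ε K F)
    (hG : Red I ε K G) : Red I ε K (F + G) := by
  classical
  obtain ⟨f, hf1, hf2⟩ := hF
  obtain ⟨g, hg1, hg2⟩ := hG
  refine ⟨f + g, ?_, fun ζ hζ => ?_⟩
  · have : F + G - (f + g) = (F - f) + (G - g) := by ring
    rw [this]; exact I.add_mem hf1 hg1
  · rw [coeff_add] at hζ
    rcases Finset.mem_union.1 (Finsupp.support_add hζ) with h | h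
    · exact hf2 ζ h
    · exact hg2 ζ h

theorem Red.smul {I : Ideal (LR n)} {ε : Fin n → ℤ} {K : ℤ} {F : LR n} (hF : Red I ε K F) (a : ℂ) :
    Red I ε K (a • F) := by
  obtain ⟨f, hf1, hf2⟩ := hF
  refine ⟨a • f, ?_, fun ζ hζ => ?_⟩
  · rw [← smul_sub, Algebra.smul_def]
    exact I.mul_mem_left _ hf1
  · apply hf2
    rw [coeff_smul] at hζ
    exact Finsupp.support_smul hζ

theorem Red.sum {ι : Type*} {I : Ideal (LR n)} {ε : Fin n → ℤ} {K : ℤ} (T : Finset ι) (F : ι → LR n)
    (hF : ∀ i ∈ T, Red I ε K (F i)) : Red I ε K (∑ i ∈ T, F i) := by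
  classical
  induction T using Finset.induction_on with
  | empty => simpa using Red.of_mem (I := I) (ε := ε) (K := K) I.zero_mem
  | insert i T hi ih =>
    rw [Finset.sum_insert hi]
    exact (hF i (Finset.mem_insert_self i T)).add (ih fun j hj => hF j (Finset.mem_insert_of_mem hj))

theorem eq_sum_single (f : LR n) : f = ∑ ζ ∈ f.coeff.support, AddMonoidAlgebra.single ζ (f.coeff ζ) := by
  classical
  ext x
  simp only [coeff_sum, coeff_single]
  rw [Finsupp.finsetSum_apply]
  simp only [Finsupp.single_apply]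
  rw [Finset.sum_ite_eq']
  simp only [Finsupp.mem_support_iff, ne_eq, ite_not]
  split_ifs with h
  · exact h
  · rfl

/-- descent -/
theorem descent (I : Ideal (LR n)) (Fs : Finset (LR n)) (hFs : ∀ f ∈ Fs, f ∈ I) (c₁ : ℝ) (hc₁ : 0 < c₁)
    (ε : Fin n → ℤ) (hε : ∀ i, |ε i| ≤ 1)
    (hgood : ∀ r : Fin n → ℝ, (∀ i, 0 ≤ r i) → (fun i => r i * (ε i : ℝ)) ≠ 0 → ∃ f ∈ Fs, f.coeff 0 = 1 ∧
      ∀ ζ ∈ f.coeff.support, ζ ≠ 0 → pairR (fun i => r i * (ε i : ℝ)) ζ ≤ -(c₁ * ‖fun i => r i * (ε i : ℝ)‖)) :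
    ∃ K : ℤ, 0 ≤ K ∧ ∀ ξ : Fin n → ℤ, Red I ε K (AddMonoidAlgebra.single ξ 1) := by
  classical
  obtain ⟨N, hN⟩ : ∃ N : ℕ, ∀ f ∈ Fs, EB N f := by
    choose N hN using fun f : LR n => exists_EB f
    refine ⟨Fs.sup N, fun f hf ζ hζ i => (hN f ζ hζ i).trans ?_⟩
    exact_mod_cast Finset.le_sup hf
  obtain ⟨K, hK⟩ := exists_nat_gt ((n : ℝ) * (N : ℝ) ^ 2 / (2 * c₁))
  refine ⟨K, by positivity, ?_⟩
  let lam : (Fin n → ℤ) → Fin n → ℤ := fun ξ i => max (ε i * ξ i) 0
  let Φ : (Fin n → ℤ) → ℤ := fun ξ => ∑ i, (lam ξ i) ^ 2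
  have hind : ∀ m : ℕ, ∀ ξ : Fin n → ℤ, Φ ξ ≤ m → Red I ε K (AddMonoidAlgebra.single ξ 1) := by
    intro m
    induction m with
    | zero =>
      intro ξ hξ
      refine ⟨AddMonoidAlgebra.single ξ 1, by rw [sub_self]; exact I.zero_mem, fun ζ hζ i => ?_⟩
      rw [coeff_single] at hζ
      have := Finsupp.support_single_subset hζ
      rw [Finset.mem_singleton] at this
      rw [this]
      by_contra hcon
      push Not at hcon
      have h1 : lam ξ i ^ 2 ≤ Φ ξ := Finset.single_le_sum (f := fun i => lam ξ i ^ 2)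
        (fun _ _ => sq_nonneg _) (Finset.mem_univ i)
      have h2 : 0 < lam ξ i := lt_of_lt_of_le (by omega) (le_max_left _ _)
      have h3 : 0 < lam ξ i ^ 2 := by positivity
      push_cast at hξ
      omega
    | succ m ih =>
      intro ξ hξ
      by_cases hall : ∀ i, ε i * ξ i ≤ K
      · refine ⟨AddMonoidAlgebra.single ξ 1, by rw [sub_self]; exact I.zero_mem, fun ζ hζ i => ?_⟩
        rw [coeff_single] at hζ
        have := Finsupp.support_single_subset hζ
        rw [Finset.mem_singleton] at this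
        rw [this]
        exact hall i
      · push Not at hall
        obtain ⟨i₀, hi₀⟩ := hall
        set v : Fin n → ℝ := fun i => (lam ξ i : ℝ) * (ε i : ℝ) with hv
        have hlam0 : ∀ i, (0 : ℝ) ≤ (lam ξ i : ℝ) := fun i => by
          have : 0 ≤ lam ξ i := le_max_right _ _
          exact_mod_cast this
        have hε0 : |(ε i₀ : ℝ)| = 1 := by
          have h1 := hε i₀
          have h2 : ε i₀ ≠ 0 := by
            intro h0
            rw [h0, zero_mul] at hi₀
            omega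
          have h3 : |ε i₀| = 1 := by
            have := abs_pos.2 h2
            omega
          exact_mod_cast h3
        have hvK : (K : ℝ) < ‖v‖ := by
          refine lt_of_lt_of_le ?_ (norm_le_pi_norm v i₀)
          rw [hv, Real.norm_eq_abs, abs_mul, hε0, mul_one, abs_of_nonneg (hlam0 i₀)]
          have h1 : (K : ℤ) < lam ξ i₀ := lt_of_lt_of_le hi₀ (le_max_left _ _)
          exact_mod_cast h1
        have hv0 : v ≠ 0 := by
          intro h0
          rw [h0, norm_zero] at hvK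
          have : (0 : ℝ) ≤ K := by positivity
          linarith
        obtain ⟨f, hf, hf0, hf1⟩ := hgood (fun i => (lam ξ i : ℝ)) hlam0 hv0
        -- descent of Φ
        have hΦ : ∀ ζ ∈ f.coeff.support, ζ ≠ 0 → Φ (ξ + ζ) ≤ m := by
          intro ζ hζ hζ0
          have h1 := hf1 ζ hζ hζ0
          have h2 : Φ (ξ + ζ) ≤ ∑ i, (lam ξ i + ε i * ζ i) ^ 2 := by
            refine Finset.sum_le_sum fun i _ => ?_
            have h3 : lam (ξ + ζ) i = max (ε i * ξ i + ε i * ζ i) 0 := by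
              simp only [lam, Pi.add_apply]; rw [mul_add]
            rw [h3]
            rcases le_or_gt (ε i * ξ i + ε i * ζ i) 0 with h4 | h4
            · rw [max_eq_right h4]
              positivity
            · rw [max_eq_left h4.le]
              have h5 : ε i * ξ i ≤ lam ξ i := le_max_left _ _
              apply pow_le_pow_left₀ h4.le
              linarith
          have h3 : (Φ (ξ + ζ) : ℝ) < Φ ξ := by
            have h4 : ((∑ i, (lam ξ i + ε i * ζ i) ^ 2 : ℤ) : ℝ) = (Φ ξ : ℝ) + 2 * pairR v ζ +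
                ∑ i, ((ε i : ℝ) * (ζ i : ℝ)) ^ 2 := by
              simp only [Φ, pairR, hv]
              push_cast
              rw [Finset.mul_sum, ← Finset.sum_add_distrib, ← Finset.sum_add_distrib]
              exact Finset.sum_congr rfl fun i _ => by ring
            have h5 : ∑ i, ((ε i : ℝ) * (ζ i : ℝ)) ^ 2 ≤ n * (N : ℝ) ^ 2 := by
              calc ∑ i, ((ε i : ℝ) * (ζ i : ℝ)) ^ 2 ≤ ∑ _i : Fin n, (N : ℝ) ^ 2 := by
                    refine Finset.sum_le_sum fun i _ => ?_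
                    rw [← sq_abs, abs_mul]
                    apply pow_le_pow_left₀ (by positivity)
                    have e1 : |(ε i : ℝ)| ≤ 1 := by exact_mod_cast hε i
                    have e2 : |(ζ i : ℝ)| ≤ N := by exact_mod_cast hN f hf ζ hζ i
                    calc |(ε i : ℝ)| * |(ζ i : ℝ)| ≤ 1 * N := mul_le_mul e1 e2 (abs_nonneg _) zero_le_one
                      _ = N := one_mul _
                _ = n * (N : ℝ) ^ 2 := by rw [Finset.sum_const, Finset.card_univ, Fintype.card_fin, nsmul_eq_mul]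
            have h6 : (Φ (ξ + ζ) : ℝ) ≤ ((∑ i, (lam ξ i + ε i * ζ i) ^ 2 : ℤ) : ℝ) := by exact_mod_cast h2
            have h7 : (n : ℝ) * (N : ℝ) ^ 2 < K * (2 * c₁) := by
              rwa [div_lt_iff₀ (by positivity)] at hK
            have h8 : c₁ * K < c₁ * ‖v‖ := mul_lt_mul_of_pos_left hvK hc₁
            rw [h4] at h6
            have h9 : pairR v ζ ≤ -(c₁ * ‖v‖) := h1
            linarith
          have h4 : Φ (ξ + ζ) < Φ ξ := by exact_mod_cast h3
          push_cast at hξ
          omega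
        have hsplit : (AddMonoidAlgebra.single ξ 1 : LR n) = AddMonoidAlgebra.single ξ 1 * f +
            (-1 : ℂ) • ∑ ζ ∈ f.coeff.support.erase 0, (f.coeff ζ) • AddMonoidAlgebra.single (ξ + ζ) 1 := by
          have h0 : (0 : Fin n → ℤ) ∈ f.coeff.support := by
            rw [Finsupp.mem_support_iff, hf0]; exact one_ne_zero
          have h1 : AddMonoidAlgebra.single ξ 1 * f = AddMonoidAlgebra.single ξ 1 +
              ∑ ζ ∈ f.coeff.support.erase 0, (f.coeff ζ) • AddMonoidAlgebra.single (ξ + ζ) (1 : ℂ) := by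
            conv_lhs => rw [eq_sum_single f, ← Finset.add_sum_erase _ _ h0, mul_add, Finset.mul_sum]
            congr 1
            · rw [AddMonoidAlgebra.single_mul_single, hf0, add_zero, one_mul]
            · refine Finset.sum_congr rfl fun ζ _ => ?_
              rw [AddMonoidAlgebra.single_mul_single, AddMonoidAlgebra.smul_single, one_mul, smul_eq_mul,
                mul_one]
          rw [h1, neg_one_smul, add_neg_cancel_right]
        rw [hsplit]
        refine (Red.of_mem (I.mul_mem_left _ (hFs f hf))).add (Red.smul (Red.sum _ _ fun ζ hζ => ?_) _)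
        exact (ih _ (hΦ ζ (Finset.mem_erase.1 hζ).2 (Finset.mem_erase.1 hζ).1)).smul _
  intro ξ
  have h0 : 0 ≤ Φ ξ := Finset.sum_nonneg fun _ _ => sq_nonneg _
  exact hind (Φ ξ).toNat ξ (by rw [Int.toNat_of_nonneg h0])

theorem mem_support_single_mul {κ ζ : Fin n → ℤ} {G : LR n}
    (h : ζ ∈ (AddMonoidAlgebra.single κ 1 * G : LR n).coeff.support) : ζ - κ ∈ G.coeff.support := by
  rw [Finsupp.mem_support_iff, coeff_single_mul_apply, one_mul] at h
  rw [Finsupp.mem_support_iff]
  have : -κ + ζ = ζ - κ := by abel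
  rwa [this] at h

/-- the sign of a boundary coordinate -/
noncomputable def bsg (z : OnePoint ℂ) : ℤ := z.elim 1 (fun w => if w = 0 then -1 else 0)

theorem boundary (I : Ideal (LR n)) (Fs : Finset (LR n)) (hFs : ∀ f ∈ Fs, f ∈ I) (c₁ : ℝ) (hc₁ : 0 < c₁)
    (p : Fin n → OnePoint ℂ) (hp : p ∈ XI I) (i₀ : Fin n) (hi₀ : bsg (p i₀) ≠ 0)
    (hgood : ∀ r : Fin n → ℝ, (∀ i, 0 ≤ r i) → (fun i => r i * (bsg (p i) : ℝ)) ≠ 0 →
      ∃ f ∈ Fs, f.coeff 0 = 1 ∧ ∀ ζ ∈ f.coeff.support, ζ ≠ 0 →
        pairR (fun i => r i * (bsg (p i) : ℝ)) ζ ≤ -(c₁ * ‖fun i => r i * (bsg (p i) : ℝ)‖)) : False := by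
  classical
  set ε : Fin n → ℤ := fun i => bsg (p i) with hε
  have hcases : ∀ i, (p i = ∞ ∧ ε i = 1) ∨ (p i = ((0 : ℂ) : OnePoint ℂ) ∧ ε i = -1) ∨
      (∃ w : ℂ, w ≠ 0 ∧ p i = (w : OnePoint ℂ) ∧ ε i = 0) := by
    intro i
    rw [hε]
    simp only
    induction p i using OnePoint.rec with
    | infty => left; exact ⟨rfl, rfl⟩
    | coe w =>
      right
      by_cases hw : w = 0
      · left; rw [hw]; exact ⟨rfl, by simp [bsg]⟩
      · right; exact ⟨w, hw, rfl, by simp [bsg, hw]⟩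
  have hεabs : ∀ i, |ε i| ≤ 1 := by
    intro i
    rcases hcases i with ⟨-, h⟩ | ⟨-, h⟩ | ⟨w, -, -, h⟩ <;> rw [h] <;> simp
  obtain ⟨K, hK0, hK⟩ := descent I Fs hFs c₁ hc₁ ε hεabs hgood
  obtain ⟨g, hg1, hg2⟩ := hK (fun i => ε i * (K + 1))
  set ξ : Fin n → ℤ := fun i => ε i * (K + 1) with hξ
  set G : LR n := AddMonoidAlgebra.single (-ξ) 1 * g with hG
  have hGexp : ∀ ζ ∈ G.coeff.support, ∀ i, ε i ≠ 0 → ε i * ζ i ≤ -1 := by
    intro ζ hζ i hi
    have h1 := hg2 _ (mem_support_single_mul hζ) i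
    have h2 : ε i * ε i = 1 := by
      rcases hcases i with ⟨-, h⟩ | ⟨-, h⟩ | ⟨w, -, -, h⟩
      · rw [h]; norm_num
      · rw [h]; norm_num
      · exact absurd h hi
    rw [Pi.sub_apply, Pi.neg_apply, sub_neg_eq_add, mul_add, hξ] at h1
    have h3 : ε i * (ε i * (K + 1)) = K + 1 := by rw [← mul_assoc, h2, one_mul]
    simp only [h3] at h1
    linarith
  have hFmem : (1 : LR n) - G ∈ I := by
    have h1 := I.mul_mem_left (AddMonoidAlgebra.single (-ξ) 1) hg1
    rw [mul_sub, AddMonoidAlgebra.single_mul_single, neg_add_cancel, one_mul] at h1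
    exact h1
  obtain ⟨N, hN⟩ := exists_EB G
  set κ : Fin n → ℤ := fun i => ε i * N with hκ
  have hmem2 : (AddMonoidAlgebra.single κ 1 : LR n) + AddMonoidAlgebra.single κ (-1) * G ∈ I := by
    have h1 := I.mul_mem_left (AddMonoidAlgebra.single κ 1) hFmem
    have h2 : (AddMonoidAlgebra.single κ 1 : LR n) * (1 - G) = AddMonoidAlgebra.single κ 1 +
        AddMonoidAlgebra.single κ (-1) * G := by
      have h3 : (AddMonoidAlgebra.single κ (-1) : LR n) = -AddMonoidAlgebra.single κ 1 := by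
        rw [← AddMonoidAlgebra.single_neg]
      rw [h3]; ring
    rwa [h2] at h1
  have hsupp2 : ∀ ζ ∈ (AddMonoidAlgebra.single κ (-1) * G : LR n).coeff.support, ζ - κ ∈ G.coeff.support := by
    intro ζ hζ
    rw [Finsupp.mem_support_iff, coeff_single_mul_apply] at hζ
    rw [Finsupp.mem_support_iff]
    have h3 : -κ + ζ = ζ - κ := by abel
    rw [h3] at hζ
    exact right_ne_zero_of_mul hζ
  have hEB2 : EB N (AddMonoidAlgebra.single κ (-1) * G : LR n) := by
    intro ζ hζ i
    have h1 := hsupp2 ζ hζ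
    have h2 := hN _ h1 i
    rw [Pi.sub_apply] at h2
    rcases hcases i with ⟨-, h⟩ | ⟨-, h⟩ | ⟨w, -, -, h⟩
    · have h3 := hGexp _ h1 i (by rw [h]; norm_num)
      rw [Pi.sub_apply, hκ] at h3
      rw [hκ] at h2
      simp only [h, one_mul] at h3 h2
      rw [abs_le] at h2 ⊢
      constructor <;> omega
    · have h3 := hGexp _ h1 i (by rw [h]; norm_num)
      rw [Pi.sub_apply, hκ] at h3
      rw [hκ] at h2
      simp only [h, neg_mul, one_mul] at h3 h2
      rw [abs_le] at h2 ⊢
      constructor <;> omega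
    · rw [hκ] at h2
      simp only [h, zero_mul, sub_zero] at h2
      exact h2
  have hEB1 : EB N (AddMonoidAlgebra.single κ 1 : LR n) := by
    apply EB_single
    intro i
    rw [hκ]
    simp only [abs_mul, Nat.abs_cast]
    have := hεabs i
    nlinarith
  have hzero := hp _ hmem2 N (EB_add hEB1 hEB2)
  rw [homog_add, homog_single, one_mul] at hzero
  have hsecond : homog N (AddMonoidAlgebra.single κ (-1) * G) p = 0 := by
    rw [homog, Finsupp.sum]
    refine Finset.sum_eq_zero fun ζ hζ => ?_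
    have h1 := hGexp _ (hsupp2 ζ hζ) i₀ hi₀
    rw [Pi.sub_apply, hκ] at h1
    have h2 : hc N (ζ i₀) (p i₀) = 0 := by
      rcases hcases i₀ with ⟨h3, h⟩ | ⟨h3, h⟩ | ⟨w, -, -, h⟩
      · simp only [h, one_mul] at h1
        rw [h3, hc, OnePoint.elim_infty, if_neg]
        omega
      · simp only [h, neg_mul, one_mul] at h1
        rw [h3, hc, OnePoint.elim_some, zero_pow]
        omega
      · exact absurd h hi₀
    rw [Finset.prod_eq_zero (Finset.mem_univ i₀) h2, mul_zero]
  rw [hsecond, add_zero] at hzero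
  refine Finset.prod_ne_zero_iff.2 (fun i _ => ?_) hzero
  rcases hcases i with ⟨h3, h⟩ | ⟨h3, h⟩ | ⟨w, hw, h3, h⟩
  · rw [h3, hκ, hc, OnePoint.elim_infty]
    simp [h]
  · rw [h3, hκ, hc, OnePoint.elim_some]
    simp [h]
  · rw [h3, hκ, hc, OnePoint.elim_some]
    exact pow_ne_zero _ hw

end FQ
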