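import Pool.Agent.Helper46.FQ.Basic

/-!
Leading forms, chains of leading-form ideals, genericity, and the counting argument (H1).
-/

namespace FQ

open Finset

variable {n : ℕ} {E : Type*} [NormedAddCommGroup E] [InnerProductSpace ℝ E]

/-- the functional `ζ ↦ ⟪h ζ, y⟫` -/
noncomputable def fn {G : Type*} [AddCommGroup G] (h : G →+ E) (y : E) : G →+ ℝ :=
  AddMonoidHom.mk' (fun ζ => inner ℝ (h ζ) y) (by intro a b; simp [inner_add_left])

@[simp] theorem fn_apply {G : Type*} [AddCommGroup G] (h : G →+ E) (y : E) (ζ : G) :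
    fn h y ζ = inner ℝ (h ζ) y := rfl

/-- Leading forms of elements of `J` with respect to `y`. -/
def Lead {G : Type*} [AddCommGroup G] (y : G →+ ℝ) (J : Set (G →₀ ℂ)) : Set (G →₀ ℂ) :=
  {b | ∃ f ∈ J, (∀ ζ ∈ f.support, 0 ≤ y ζ) ∧ b = f.filter (fun ζ => y ζ = 0)}

/-- chain ideals -/
inductive Chain {G : Type*} [AddCommGroup G] (h : G →+ E) (I : Set (G →₀ ℂ)) :
    AddSubgroup G → Set (G →₀ ℂ) → Prop
  | base (y : E) (hy : y ≠ 0) : Chain h I (fn h y).ker (Lead (fn h y) I)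
  | step {A : AddSubgroup G} {J : Set (G →₀ ℂ)} (y : E) (hc : Chain h I A J) :
      Chain h I (A ⊓ (fn h y).ker) (Lead (fn h y) J)

theorem Chain.supp {G : Type*} [AddCommGroup G] {h : G →+ E} {I : Set (G →₀ ℂ)}
    {A : AddSubgroup G} {J : Set (G →₀ ℂ)} (hc : Chain h I A J) :
    ∀ f ∈ J, ∀ ζ ∈ f.support, ζ ∈ A := by
  classical
  induction hc with
  | base y hy =>
    rintro f ⟨g, hg, h0, rfl⟩ ζ hζ
    rw [Finsupp.support_filter, Finset.mem_filter] at hζ
    exact hζ.2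
  | step y hc ih =>
    rintro f ⟨g, hg, h0, rfl⟩ ζ hζ
    rw [Finsupp.support_filter, Finset.mem_filter] at hζ
    exact ⟨ih g hg ζ hζ.1, hζ.2⟩

theorem Chain.exists_ne {G : Type*} [AddCommGroup G] {h : G →+ E} {I : Set (G →₀ ℂ)}
    {A : AddSubgroup G} {J : Set (G →₀ ℂ)} (hc : Chain h I A J) :
    ∃ y : E, y ≠ 0 ∧ A ≤ (fn h y).ker := by
  induction hc with
  | base y hy => exact ⟨y, hy, le_rfl⟩
  | step y hc ih =>
    obtain ⟨z, hz, hA⟩ := ih
    exact ⟨z, hz, inf_le_left.trans hA⟩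

open Classical in
/-- the invariant of chains -/
theorem Chain.inv {G : Type*} [AddCommGroup G] {h : G →+ E} {I : Set (G →₀ ℂ)}
    (hI : ∀ f ∈ I, ∀ ζ, sh ζ f ∈ I)
    {A : AddSubgroup G} {J : Set (G →₀ ℂ)} (hc : Chain h I A J) :
    ∀ f ∈ I, f ≠ 0 → ∃ ζ₀ ∈ f.support, ∀ ζ ∈ f.support, ζ - ζ₀ ∈ A →
      (sh ζ f).filter (fun x => x ∈ A) ∈ J := by
  induction hc with
  | base y hy =>
    intro f hf hf0
    obtain ⟨ζ₀, hζ₀, hmin⟩ := f.support.exists_min_image (fn h y) (Finsupp.support_nonempty_iff.2 hf0)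
    refine ⟨ζ₀, hζ₀, fun ζ hζ hA => ⟨sh ζ f, hI f hf ζ, ?_, rfl⟩⟩
    intro x hx
    rw [Finsupp.mem_support_iff, sh_apply, ← Finsupp.mem_support_iff] at hx
    have h1 := hmin _ hx
    have h2 : fn h y ζ - fn h y ζ₀ = 0 := by rw [← map_sub]; exact hA
    rw [map_add] at h1
    linarith
  | @step A J y hc ih =>
    intro f hf hf0
    obtain ⟨ζ₀, hζ₀, H⟩ := ih f hf hf0
    have hne : (f.support.filter (fun ζ => ζ - ζ₀ ∈ A)).Nonempty :=
      ⟨ζ₀, by simp [Finset.mem_filter, hζ₀, A.zero_mem, -Finsupp.mem_support_iff]⟩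
    obtain ⟨ζ₁, hζ₁, hmin⟩ := (f.support.filter (fun ζ => ζ - ζ₀ ∈ A)).exists_min_image (fn h y) hne
    rw [Finset.mem_filter] at hζ₁
    refine ⟨ζ₁, hζ₁.1, fun ζ hζ hA => ⟨_, H ζ hζ ?_, ?_, ?_⟩⟩
    · have := A.add_mem hA.1 hζ₁.2
      simpa using this
    · intro x hx
      rw [Finsupp.support_filter, Finset.mem_filter, Finsupp.mem_support_iff, sh_apply,
        ← Finsupp.mem_support_iff] at hx
      have h1 := hmin (x + ζ) (by
        rw [Finset.mem_filter]
        refine ⟨hx.1, ?_⟩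
        have := A.add_mem hx.2 (A.add_mem hA.1 hζ₁.2)
        have h3 : x + ζ - ζ₀ = x + (ζ - ζ₁ + (ζ₁ - ζ₀)) := by abel
        rw [h3]; exact this)
      have h2 : fn h y ζ - fn h y ζ₁ = 0 := by rw [← map_sub]; exact hA.2
      rw [map_add] at h1
      linarith
    · ext x
      simp only [Finsupp.filter_apply, AddSubgroup.mem_inf]
      by_cases hx1 : inner ℝ (h x) y = (0 : ℝ)
      · by_cases hx2 : x ∈ A
        · simp [hx1, hx2, AddMonoidHom.mem_ker]
        · simp [hx2]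
      · simp [hx1, AddMonoidHom.mem_ker]

/-- genericity of a real functional on `G` -/
def Generic {G : Type*} [AddCommGroup G] (h : G →+ E) (w : G →+ ℝ) : Prop :=
  ∀ (y : E) (D : ℝ), {a : G | w a + inner ℝ (h a) y = 0 ∧ ‖h a‖ ≤ D}.Finite

/-- exponential growth contradicts a polynomial bound -/
theorem growth_contra (D m : ℕ) (a : ℕ → ℕ) (h0 : 1 ≤ a 0) (h1 : ∀ N, 2 * a N ≤ a (N + D))
    (h2 : ∀ N, a N ≤ (2 * N + 1) ^ m) : False := by
  have h3 : ∀ k, 2 ^ k ≤ a (k * D) := by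
    intro k
    induction k with
    | zero => simpa using h0
    | succ k ih =>
      calc 2 ^ (k + 1) = 2 * 2 ^ k := by ring
        _ ≤ 2 * a (k * D) := by omega
        _ ≤ a (k * D + D) := h1 _
        _ = a ((k + 1) * D) := by ring_nf
  have h4 : ∀ k : ℕ, (2 : ℝ) ^ k ≤ ((2 * D + 1 : ℕ) * (k + 1 : ℕ) : ℝ) ^ m := by
    intro k
    have h5 : 2 ^ k ≤ (2 * (k * D) + 1) ^ m := (h3 k).trans (h2 _)
    have h6 : (2 * (k * D) + 1) ^ m ≤ ((2 * D + 1) * (k + 1)) ^ m := by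
      apply Nat.pow_le_pow_left
      nlinarith
    exact_mod_cast h5.trans h6
  have h5 : Filter.Tendsto (fun k : ℕ => (((2 * D + 1 : ℕ) : ℝ) ^ m) * (((k + 1 : ℕ) : ℝ) ^ m / 2 ^ (k + 1)) * 2)
      Filter.atTop (nhds ((((2 * D + 1 : ℕ) : ℝ) ^ m) * 0 * 2)) := by
    refine Filter.Tendsto.mul_const _ (Filter.Tendsto.const_mul _ ?_)
    have := tendsto_pow_const_div_const_pow_of_one_lt m (r := 2) (by norm_num)
    exact this.comp (Filter.tendsto_add_atTop_nat 1)
  rw [mul_zero, zero_mul] at h5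
  have h6 := (h5.eventually (gt_mem_nhds (show (0:ℝ) < 1 by norm_num))).exists
  obtain ⟨k, hk⟩ := h6
  have h7 := h4 k
  rw [mul_pow] at h7
  have h8 : (0:ℝ) < 2 ^ k := by positivity
  have h9 : (((2 * D + 1 : ℕ) : ℝ) ^ m) * (((k + 1 : ℕ) : ℝ) ^ m / 2 ^ (k + 1)) * 2
      = (((2 * D + 1 : ℕ) : ℝ) ^ m) * (((k + 1 : ℕ) : ℝ) ^ m) / 2 ^ k := by
    rw [pow_succ]; field_simp
  rw [h9, div_lt_one h8] at hk
  push_cast at *
  linarith

/-- linear algebra: an injective linear map does not decrease the dimension -/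
theorem card_le_of_inj {ι κ : Type*} (s : Finset ι) (W : Finset κ) (M : ι → κ → ℂ)
    (hinj : ∀ x : ι → ℂ, (∀ k ∈ W, ∑ i ∈ s, x i * M i k = 0) → ∀ i ∈ s, x i = 0) :
    s.card ≤ W.card := by
  classical
  let T : (s → ℂ) →ₗ[ℂ] (W → ℂ) :=
    { toFun := fun x k => ∑ i, x i * M i k
      map_add' := by
        intro x y; ext k; simp [add_mul, Finset.sum_add_distrib]
      map_smul' := by
        intro a x; ext k; simp [Finset.mul_sum, mul_assoc] }
  have hT : Function.Injective T := by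
    rw [← LinearMap.ker_eq_bot, LinearMap.ker_eq_bot']
    intro x hx
    have h1 := hinj (fun i => if hi : i ∈ s then x ⟨i, hi⟩ else 0) (by
      intro k hk
      have h2 := congrFun hx ⟨k, hk⟩
      simp only [T, LinearMap.coe_mk, AddHom.coe_mk, Pi.zero_apply] at h2
      rw [← Finset.sum_coe_sort s]
      rw [← h2]
      refine Finset.sum_congr rfl fun i _ => ?_
      simp)
    ext i
    have h3 := h1 i i.2
    simpa using h3
  have := LinearMap.finrank_le_finrank_of_injective hT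
  simpa using this

/-- box in `ℤ^n` -/
noncomputable def box (n N : ℕ) : Finset (Fin n → ℤ) := Fintype.piFinset fun _ => Finset.Icc (-(N : ℤ)) N

theorem mem_box {n N : ℕ} {ζ : Fin n → ℤ} : ζ ∈ box n N ↔ ‖ζ‖ ≤ N := by
  rw [box, Fintype.mem_piFinset, pi_norm_le_iff_of_nonneg (by positivity)]
  refine forall_congr' fun i => ?_
  rw [Finset.mem_Icc, Int.norm_eq_abs, abs_le]
  constructor
  · rintro ⟨h1, h2⟩
    exact ⟨by exact_mod_cast h1, by exact_mod_cast h2⟩
  · rintro ⟨h1, h2⟩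
    exact ⟨by exact_mod_cast h1, by exact_mod_cast h2⟩

theorem card_box (n N : ℕ) : (box n N).card = (2 * N + 1) ^ n := by
  rw [box, Fintype.card_piFinset]
  simp only [Int.card_Icc, Finset.prod_const, Finset.card_univ, Fintype.card_fin]
  congr 1
  omega

/-- the annihilator -/
def Ann {G : Type*} [AddCommGroup G] (c : G → ℂ) : Set (G →₀ ℂ) := {f | ∀ η, conv f c η = 0}

theorem Ann.sh {G : Type*} [AddCommGroup G] (c : G → ℂ) : ∀ f ∈ Ann c, ∀ ζ, sh ζ f ∈ Ann c := by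
  intro f hf ζ η
  rw [conv_sh]
  exact hf _

theorem exists_inner_large {G : Type*} [AddCommGroup G] (h : G →+ E)
    (hspan : Submodule.span ℝ (Set.range h) = ⊤) (y : E) (hy : y ≠ 0) (K : ℝ) :
    ∃ ζ : G, K < inner ℝ (h ζ) y := by
  have h1 : ∃ ζ, inner ℝ (h ζ) y ≠ (0 : ℝ) := by
    by_contra hcon
    push Not at hcon
    apply hy
    have h2 : ∀ x : E, inner ℝ x y = (0:ℝ) := by
      intro x
      have hx : x ∈ Submodule.span ℝ (Set.range h) := hspan ▸ Submodule.mem_top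
      induction hx using Submodule.span_induction with
      | mem x hx => obtain ⟨ζ, rfl⟩ := hx; exact hcon ζ
      | zero => simp
      | add x z _ _ hx hz => rw [inner_add_left, hx, hz, add_zero]
      | smul a x _ hx => rw [inner_smul_left, hx, mul_zero]
    exact inner_self_eq_zero.1 (h2 y)
  obtain ⟨ζ, hζ⟩ := h1
  obtain ⟨k, hk⟩ := exists_nat_gt (|K| / |inner ℝ (h ζ) y|)
  have h3 : |K| < k * |inner ℝ (h ζ) y| := by
    rwa [div_lt_iff₀ (abs_pos.2 hζ)] at hk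
  rcases lt_or_gt_of_ne hζ with h4 | h4
  · refine ⟨-(k • ζ), ?_⟩
    rw [map_neg, inner_neg_left, map_nsmul, ← Nat.cast_smul_eq_nsmul ℝ, inner_smul_left]
    rw [abs_of_neg h4] at h3
    simp only [conj_trivial]
    linarith [le_abs_self K]
  · refine ⟨k • ζ, ?_⟩
    rw [map_nsmul, ← Nat.cast_smul_eq_nsmul ℝ, inner_smul_left]
    rw [abs_of_pos h4] at h3
    simp only [conj_trivial]
    linarith [le_abs_self K]

end FQ
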