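import Pool.Agent.Helper46.FQ.Cone

/-!
The cone theorem: directions near the range of `L` are good.
-/

namespace FQ

open Finset AddMonoidAlgebra Filter Topology

variable {n : ℕ} {E : Type*} [NormedAddCommGroup E] [InnerProductSpace ℝ E]
  [FiniteDimensional ℝ E]
  {h : (Fin n → ℤ) →+ E} {c : (Fin n → ℤ) → ℂ} {X : Set (Fin n → ℂˣ)} {R C : ℝ}

theorem Data.exists_bound_X (D : Data h c X R C) (g : LR n) : ∃ v, ∀ z ∈ X, ‖evz z g‖ ≤ v := by
  refine ⟨∑ ζ ∈ g.coeff.support, ‖g.coeff ζ‖, fun z hz => ?_⟩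
  rw [evz_eq_sum]
  refine (norm_sum_le _ _).trans (Finset.sum_le_sum fun ζ _ => ?_)
  rw [norm_mul, norm_chrU, D.unit z hz]
  simp

theorem Data.exists_pack (D : Data h c X R C) : ∃ A B C₃ C₄ C₅ C₆ t₀ : ℝ, 0 < C₃ ∧ 0 ≤ C₄ ∧
    0 ≤ C₅ ∧ 0 ≤ C₆ ∧ 1 ≤ t₀ ∧ 0 ≤ B ∧ ∀ t ≥ t₀, ∃ β, Pack h c X R C A B t C₃ C₄ C₅ C₆ β := by
  obtain ⟨A, B, hA, hB, hstar⟩ := star h D.span c R D.lf D.un
  obtain ⟨C₃, C₄, C₅, C₆, t₀, h3, h4, h5, h6, h0, H⟩ := exists_sublattice h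
  refine ⟨A, B, C₃, C₄, C₅, C₆, max t₀ (2 * B * C₃ * C₄), h3, h4, h5, h6,
    h0.trans (le_max_left _ _), hB, fun t ht => ?_⟩
  obtain ⟨β, hβ1, hβ2, hβ3, hβ4⟩ := H t ((le_max_left _ _).trans ht)
  exact ⟨β, D, ⟨h0.trans ((le_max_left _ _).trans ht), h3, h4, h5, h6, hB, hβ1, hβ2, hβ3, hβ4,
    (le_max_right _ _).trans ht⟩, hA, hstar, D.exists_bound_X⟩

/-- `L` as a linear map -/
noncomputable def Llin (h : (Fin n → ℤ) →+ E) : E →ₗ[ℝ] (Fin n → ℝ) where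
  toFun := Lmap h
  map_add' := by intro x y; ext i; simp [Lmap, inner_add_right]
  map_smul' := by intro a x; ext i; simp [Lmap, inner_smul_right]

theorem Llin_apply (h : (Fin n → ℤ) →+ E) (y : E) : Llin h y = Lmap h y := rfl

theorem pairR_Lmap (h : (Fin n → ℤ) →+ E) (y : E) (ζ : Fin n → ℤ) :
    pairR (Lmap h y) ζ = inner ℝ (h ζ) y := by
  rw [← hR_toR h ζ, inner_hR]; rfl

theorem exists_L_lower (hspan : Submodule.span ℝ (Set.range h) = ⊤) :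
    ∃ cL > 0, ∀ y : E, cL * ‖y‖ ≤ ‖Lmap h y‖ := by
  have hker : (Llin h).ker = ⊥ := by
    rw [LinearMap.ker_eq_bot']
    intro y hy
    by_contra hne
    obtain ⟨ζ, hζ⟩ := exists_inner_large h hspan y hne 0
    rw [← pairR_Lmap] at hζ
    have : Lmap h y = 0 := hy
    rw [this] at hζ
    simp [pairR] at hζ
  obtain ⟨K, hK, hanti⟩ := (Llin h).exists_antilipschitzWith hker
  have hK' : (0 : ℝ) < K := hK
  refine ⟨(K : ℝ)⁻¹, by positivity, fun y => ?_⟩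
  have h1 := hanti.le_mul_norm (by simp) y
  rw [Llin_apply] at h1
  rw [inv_mul_le_iff₀ hK']
  exact h1

theorem pairR_add_left (v w : Fin n → ℝ) (ζ : Fin n → ℤ) : pairR (v + w) ζ = pairR v ζ + pairR w ζ := by
  simp [pairR, mul_add, Finset.sum_add_distrib]

theorem abs_pairR_le (v : Fin n → ℝ) (ζ : Fin n → ℤ) : |pairR v ζ| ≤ n * ‖ζ‖ * ‖v‖ := by
  rw [pairR]
  calc |∑ i, (ζ i : ℝ) * v i| ≤ ∑ i, |(ζ i : ℝ) * v i| := Finset.abs_sum_le_sum_abs _ _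
    _ ≤ ∑ _i : Fin n, ‖ζ‖ * ‖v‖ := by
        refine Finset.sum_le_sum fun i _ => ?_
        rw [abs_mul, ← Int.norm_eq_abs]
        exact mul_le_mul (norm_le_pi_norm ζ i) (norm_le_pi_norm v i) (abs_nonneg _) (norm_nonneg _)
    _ = n * ‖ζ‖ * ‖v‖ := by
        rw [Finset.sum_const, Finset.card_univ, Fintype.card_fin, nsmul_eq_mul, mul_assoc]

theorem lg_pr_eq {β : (Fin (kdim h) → ℤ) →+ (Fin n → ℤ)} (z : Fin n → ℂˣ) :
    lg (pr β z) = resv β (lg z) := by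
  ext j
  rw [lg_pr]; rfl

theorem l1_single {e : ℕ} (j : Fin e) : l1 (Pi.single j 1 : Fin e → ℤ) = 1 := by
  rw [l1, Finset.sum_eq_single j]
  · simp
  · intro k _ hk; simp [Pi.single_eq_of_ne hk]
  · simp

/-- the cone theorem -/
theorem Data.cone (D : Data h c X R C) : ∃ ε > 0, ∃ Fs : Finset (LR n),
    (∀ f ∈ Fs, f ∈ IdealOf c) ∧
    (∀ (y : E) (u : Fin n → ℝ), y ≠ 0 → ‖u‖ ≤ ε * ‖y‖ → ∃ f ∈ Fs, f.coeff 0 = 1 ∧
      ∀ ζ ∈ f.coeff.support, ζ ≠ 0 → pairR (Lmap h y + u) ζ ≤ -(‖Lmap h y + u‖ / 2)) ∧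
    (∀ (y : E) (u : Fin n → ℝ), y ≠ 0 → ‖u‖ ≤ ε * ‖y‖ → Lmap h y + u ≠ 0) ∧
    (∀ z : Fin n → ℂˣ, (∀ f ∈ IdealOf c, evz z f = 0) → ∀ (y : E) (u : Fin n → ℝ),
      lg z = Lmap h y + u → ‖u‖ ≤ ε * ‖y‖ → y = 0) := by
  classical
  obtain ⟨A, B, C₃, C₄, C₅, C₆, t₀, h3, h4, h5, h6, h0, hB, H⟩ := D.exists_pack
  obtain ⟨cL, hcL, hL⟩ := exists_L_lower D.span
  obtain ⟨W, hW0, hW⟩ := exists_bound (Finset.univ : Finset (Fin n × Fin 2))
    (fun p => wt h B (Pi.single p.1 (if p.2 = 0 then 1 else -1)))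
  set κ := 2 * C₃ * W with hκ
  have hκ0 : 0 ≤ κ := by positivity
  set t := max t₀ (16 * κ * C₄ / cL) with ht
  obtain ⟨β, Q⟩ := H t (le_max_left _ _)
  have ht0 : 0 < t := by
    have := le_max_left t₀ (16 * κ * C₄ / cL)
    linarith
  have htκ : κ * C₄ / t ≤ cL / 16 := by
    have h1 : 16 * κ * C₄ / cL ≤ t := le_max_right _ _
    rw [div_le_iff₀ hcL] at h1
    rw [div_le_iff₀ ht0]
    linarith
  set ε := min (cL / 2) (cL / (16 * (κ * n * C₅ + 1))) with hε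
  have hε0 : 0 < ε := by
    rw [hε]; apply lt_min <;> positivity
  have hε1 : ε ≤ cL / 2 := min_le_left _ _
  have hε2 : κ * n * C₅ * ε ≤ cL / 16 := by
    have h1 : ε ≤ cL / (16 * (κ * n * C₅ + 1)) := min_le_right _ _
    rw [le_div_iff₀ (by positivity)] at h1
    have : 0 ≤ ε * 16 := by positivity
    nlinarith
  -- lower bound for v
  have hlow : ∀ (y : E) (u : Fin n → ℝ), ‖u‖ ≤ ε * ‖y‖ → cL / 2 * ‖y‖ ≤ ‖Lmap h y + u‖ := by
    intro y u hu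
    have h1 := hL y
    have h2 : ‖Lmap h y‖ ≤ ‖Lmap h y + u‖ + ‖u‖ := by
      have := norm_sub_le (Lmap h y + u) u
      rwa [add_sub_cancel_right] at this
    have h3 : ε * ‖y‖ ≤ cL / 2 * ‖y‖ := mul_le_mul_of_nonneg_right hε1 (norm_nonneg _)
    linarith
  have hres : ∀ (y : E) (u : Fin n → ℝ), ‖u‖ ≤ ε * ‖y‖ →
      2 * C₃ / t * W * ‖resv β (Lmap h y + u)‖ ≤ ‖Lmap h y + u‖ / 4 := by
    intro y u hu
    have h1 : ‖resv β (Lmap h y + u)‖ ≤ C₄ * ‖y‖ + n * (C₅ * t) * ‖u‖ := by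
      rw [pi_norm_le_iff_of_nonneg (by positivity)]
      intro j
      rw [Real.norm_eq_abs, resv, pairR_add_left, pairR_Lmap]
      refine (abs_add_le _ _).trans (add_le_add ?_ ?_)
      · refine (abs_real_inner_le_norm _ _).trans ?_
        have := Q.S.h_le (Pi.single j 1)
        rw [l1_single, mul_one] at this
        exact mul_le_mul_of_nonneg_right this (norm_nonneg _)
      · refine (abs_pairR_le _ _).trans ?_
        have := Q.S.norm_le (Pi.single j 1)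
        rw [l1_single, mul_one] at this
        gcongr
    have h2 : 2 * C₃ / t * W * ‖resv β (Lmap h y + u)‖ ≤
        2 * C₃ / t * W * (C₄ * ‖y‖ + n * (C₅ * t) * ‖u‖) :=
      mul_le_mul_of_nonneg_left h1 (by positivity)
    have h3 : 2 * C₃ / t * W * (C₄ * ‖y‖ + n * (C₅ * t) * ‖u‖)
        = κ * C₄ / t * ‖y‖ + κ * n * C₅ * ‖u‖ := by
      rw [hκ]; field_simp
    have h4' : κ * n * C₅ * ‖u‖ ≤ κ * n * C₅ * (ε * ‖y‖) := by
      apply mul_le_mul_of_nonneg_left hu (by positivity)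
    have h5' : κ * n * C₅ * (ε * ‖y‖) ≤ cL / 16 * ‖y‖ := by
      rw [← mul_assoc]
      exact mul_le_mul_of_nonneg_right hε2 (norm_nonneg _)
    have h6' : κ * C₄ / t * ‖y‖ ≤ cL / 16 * ‖y‖ := mul_le_mul_of_nonneg_right htκ (norm_nonneg _)
    have h7 := hlow y u hu
    linarith
  have hne : ∀ (y : E) (u : Fin n → ℝ), y ≠ 0 → ‖u‖ ≤ ε * ‖y‖ → Lmap h y + u ≠ 0 := by
    intro y u hy hu h0
    have h1 := hlow y u hu
    rw [h0, norm_zero] at h1
    have h2 : 0 < ‖y‖ := norm_pos_iff.2 hy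
    have : 0 < cL / 2 * ‖y‖ := by positivity
    linarith
  obtain ⟨Fs, hFs, hgood⟩ := Q.good W (fun p => hW p (Finset.mem_univ p)) hW0
  refine ⟨ε, hε0, Fs, hFs, ?_, hne, ?_⟩
  · intro y u hy hu
    exact hgood _ (hne y u hy hu) (hres y u hu)
  · intro z hz y u hzy hu
    by_contra hy
    have hv := hne y u hy hu
    obtain ⟨p, hp⟩ := exists_signed hv
    have h1 := Q.point_bound z hz (AddMonoidAlgebra.single (Pi.single p.1 (if p.2 = 0 then 1 else -1)) 1)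
      1 W hW0 zero_le_one (by
        intro w hw
        rw [evz_single, one_mul, norm_chrU, D.unit w hw]
        simp) (by
        intro ζ hζ
        rw [coeff_single] at hζ
        have := Finsupp.support_single_subset hζ
        rw [Finset.mem_singleton] at this
        rw [this]
        exact hW p (Finset.mem_univ p))
    rw [evz_single, one_mul, norm_chrU, Om, one_mul] at h1
    have h2 := Real.exp_le_exp.1 h1
    rw [lg_pr_eq, hzy] at h2
    have h3' : ∑ i, ((Pi.single p.1 (if p.2 = 0 then 1 else -1) : Fin n → ℤ) i : ℝ) * (Lmap h y + u) i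
        = ‖Lmap h y + u‖ := hp
    rw [h3'] at h2
    have h4' := hres y u hu
    have h5' : 0 < ‖Lmap h y + u‖ := norm_pos_iff.2 hv
    linarith

/-- points of the variety over the real torus are in the real torus -/
theorem Pack.fibre_real {A B t C₃ C₄ C₅ C₆ : ℝ} {β : (Fin (kdim h) → ℤ) →+ (Fin n → ℤ)}
    (Q : Pack h c X R C A B t C₃ C₄ C₅ C₆ β) (z : Fin n → ℂˣ)
    (hz : ∀ f ∈ IdealOf c, evz z f = 0) (hpr : lg (pr β z) = 0) : lg z = 0 := by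
  classical
  by_contra hv
  obtain ⟨p, hp⟩ := exists_signed hv
  obtain ⟨u, hu, hW⟩ := exists_WB h B (AddMonoidAlgebra.single (Pi.single p.1 (if p.2 = 0 then 1 else -1)) 1 : LR n)
  have h1 := Q.point_bound z hz _ 1 u hu zero_le_one (by
        intro w hw
        rw [evz_single, one_mul, norm_chrU, Q.D.unit w hw]
        simp) hW
  rw [evz_single, one_mul, norm_chrU, Om, one_mul, hpr, norm_zero, mul_zero] at h1
  have h2 := Real.exp_le_exp.1 h1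
  have h3' : ∑ i, ((Pi.single p.1 (if p.2 = 0 then 1 else -1) : Fin n → ℤ) i : ℝ) * lg z i
        = ‖lg z‖ := hp
  rw [h3'] at h2
  have h5' : 0 < ‖lg z‖ := norm_pos_iff.2 hv
  linarith

/-- sup bound at real points of the variety -/
theorem Pack.real_bound {A B t C₃ C₄ C₅ C₆ : ℝ} {β : (Fin (kdim h) → ℤ) →+ (Fin n → ℤ)}
    (Q : Pack h c X R C A B t C₃ C₄ C₅ C₆ β) (z : Fin n → ℂˣ)
    (hz : ∀ f ∈ IdealOf c, evz z f = 0) (hzr : lg z = 0) (f : LR n) (s : ℝ) (hs0 : 0 ≤ s)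
    (hs : ∀ z ∈ X, ‖evz z f‖ ≤ s) : ‖evz z f‖ ≤ s := by
  obtain ⟨u, hu, hW⟩ := exists_WB h B f
  have h1 := Q.point_bound z hz f s u hu hs0 hs hW
  rw [Om, lg_pr_eq, hzr] at h1
  have h2 : resv β (0 : Fin n → ℝ) = 0 := by ext j; simp [resv, pairR]
  rw [h2, norm_zero, mul_zero, Real.exp_zero, mul_one] at h1
  exact h1

end FQ
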