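import Mathlib

/-!
Definitions: Fourier quasicrystal sets, uniformly discrete sets, Delone sets.
-/

namespace FQ

open scoped FourierTransform SchwartzMap

/-- `Λ ⊆ ℝ^d` is a Fourier quasicrystal set: there are a set `Λ'` and nonzero coefficients
`c ξ` (`ξ ∈ Λ'`) with `∑_{x ∈ Λ} f̂(x) = ∑_{ξ ∈ Λ'} c_ξ f(ξ)` for every Schwartz function `f`,
both sets are locally finite, and `#(Λ ∩ B_R(0)) + ∑_{ξ ∈ Λ' ∩ B_R(0)} |c_ξ| ≤ C R^m` for all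
`R > 1`. The Fourier transform is `f̂(y) = ∫ f(x) exp(-2πi⟨x,y⟩) dx`. -/
def IsFQSet {d : ℕ} (Λ : Set (EuclideanSpace ℝ (Fin d))) : Prop :=
  ∃ (Λ' : Set (EuclideanSpace ℝ (Fin d))) (c : EuclideanSpace ℝ (Fin d) → ℂ),
    (∀ ξ ∈ Λ', c ξ ≠ 0) ∧
    (∀ f : 𝓢(EuclideanSpace ℝ (Fin d), ℂ), ∑' x : Λ, 𝓕 f (x : EuclideanSpace ℝ (Fin d)) =
      ∑' ξ : Λ', c ξ * f ξ) ∧
    (∀ R : ℝ, (Λ ∩ Metric.ball 0 R).Finite) ∧ (∀ R : ℝ, (Λ' ∩ Metric.ball 0 R).Finite) ∧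
    ∃ C > 0, ∃ m : ℕ, ∀ R > (1 : ℝ),
      ((Λ ∩ Metric.ball 0 R).ncard : ℝ) + ∑' ξ : ↥(Λ' ∩ Metric.ball 0 R), ‖c ξ‖ ≤ C * R ^ m

/-- `Λ` is uniformly discrete: distinct points are at distance at least some `r > 0`. -/
def IsUniformlyDiscrete {d : ℕ} (Λ : Set (EuclideanSpace ℝ (Fin d))) : Prop :=
  ∃ r > 0, ∀ x ∈ Λ, ∀ y ∈ Λ, x ≠ y → r ≤ dist x y

/-- `Λ` is relatively dense: balls of some fixed radius around its points cover `ℝ^d`. -/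
def IsRelativelyDense {d : ℕ} (Λ : Set (EuclideanSpace ℝ (Fin d))) : Prop :=
  ∃ R : ℝ, ∀ y, ∃ x ∈ Λ, dist x y ≤ R

/-- Delone sets -/
def IsDelone {d : ℕ} (Λ : Set (EuclideanSpace ℝ (Fin d))) : Prop :=
  IsUniformlyDiscrete Λ ∧ IsRelativelyDense Λ

/-- A trigonometric polynomial on `ℂ^d` is given by its finitely many frequencies in `ℝ^d` and
coefficients; its value at `x ∈ ℂ^d` is `∑_λ a_λ exp(2πi ∑_j λ_j x_j)`. -/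
noncomputable def trigEval {d : ℕ} (f : EuclideanSpace ℝ (Fin d) →₀ ℂ) (x : Fin d → ℂ) : ℂ :=
  f.sum fun lam a => a * Complex.exp (2 * Real.pi * Complex.I * ∑ j, (lam j : ℂ) * x j)

end FQ
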