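import Mathlib
import Pool.Agent.Helper46.FQ.Bound

/-!
Lying over: roots of minimal polynomials lift to points; a squarefree equation.
-/

namespace FQ

open Finset AddMonoidAlgebra Filter Topology

variable {n : ℕ} {E : Type*} [NormedAddCommGroup E] [InnerProductSpace ℝ E]
  [FiniteDimensional ℝ E]
  {h : (Fin n → ℤ) →+ E} {c : (Fin n → ℤ) → ℂ} {X : Set (Fin n → ℂˣ)} {R C : ℝ}
  {A B t C₃ C₄ C₅ C₆ : ℝ} {β : (Fin (kdim h) → ℤ) →+ (Fin n → ℤ)}

/-- maximal ideals of the Laurent ring are points -/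
theorem exists_point (𝔪 : Ideal (LR n)) [h𝔪 : 𝔪.IsMaximal] : ∃ z : Fin n → ℂˣ, ∀ f ∈ 𝔪, evz z f = 0 := by
  let F := LR n ⧸ 𝔪
  let : Field F := Ideal.Quotient.field 𝔪
  have hft : Algebra.FiniteType ℂ F := inferInstance
  have hfin : Module.Finite ℂ F := finite_of_finite_type_of_isJacobsonRing ℂ F
  have hint : Algebra.IsIntegral ℂ F := Algebra.IsIntegral.of_finite ℂ F
  have hbij : Function.Bijective (algebraMap ℂ F) := IsAlgClosed.algebraMap_bijective_of_isIntegral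
  let e : ℂ ≃ₐ[ℂ] F := AlgEquiv.ofBijective (Algebra.ofId ℂ F) hbij
  let g : LR n →ₐ[ℂ] ℂ := (e.symm : F →ₐ[ℂ] ℂ).comp (Ideal.Quotient.mkₐ ℂ 𝔪)
  let m : Multiplicative (Fin n → ℤ) →* ℂ := g.toMonoidHom.comp (AddMonoidAlgebra.of ℂ (Fin n → ℤ))
  let mu : Multiplicative (Fin n → ℤ) →* ℂˣ := m.toHomUnits
  let z : Fin n → ℂˣ := fun i => mu (Multiplicative.ofAdd (Pi.single i 1))
  refine ⟨z, fun f hf => ?_⟩
  have hz : ∀ ζ : Fin n → ℤ, (chrU z ζ : ℂ) = g (AddMonoidAlgebra.single ζ 1) := by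
    intro ζ
    have h1 : ζ = ∑ j, ζ j • (Pi.single j 1 : Fin n → ℤ) := by
      ext i
      simp [Finset.sum_apply, Pi.single_apply]
    have h2 : chrU z ζ = mu (Multiplicative.ofAdd ζ) := by
      conv_rhs => rw [h1, ofAdd_sum, map_prod]
      rw [chrU]
      refine Finset.prod_congr rfl fun j _ => ?_
      rw [ofAdd_zsmul, map_zpow]
    rw [h2]
    rfl
  have hev : evz z f = g f := by
    clear hf
    induction f using AddMonoidAlgebra.induction_linear with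
    | zero => simp
    | add f₁ f₂ h₁ h₂ => rw [map_add, map_add, h₁, h₂]
    | single ζ a =>
      have h1 : (AddMonoidAlgebra.single ζ a : LR n) = a • AddMonoidAlgebra.single ζ 1 := by
        rw [AddMonoidAlgebra.smul_single, smul_eq_mul, mul_one]
      rw [evz_single, hz, h1, map_smul, smul_eq_mul]
  rw [hev]
  show e.symm (Ideal.Quotient.mk 𝔪 f) = 0
  rw [Ideal.Quotient.eq_zero_iff_mem.2 hf, map_zero]

theorem Pack.injective (Q : Pack h c X R C A B t C₃ C₄ C₅ C₆ β) (𝔭 : Ideal (LR n))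
    (h𝔭 : 𝔭 ∈ (IdealOf c).minimalPrimes) (p : LR (kdim h)) (hp : ib β p ∈ 𝔭) : p = 0 := by
  by_contra hne
  obtain ⟨g₀, hg₀, hg₀I⟩ := exists_annihilator (IdealOf c) Q.D.isRadical 𝔭 h𝔭
  have h1 := hg₀I _ hp
  have h2 := Q.S.torsion_free Q.star p hne g₀ h1
  exact hg₀ (h𝔭.1.2 h2)

/-- polynomials vanishing at `F` modulo `𝔭` are divisible by `μ` -/
theorem Pack.dvd (Q : Pack h c X R C A B t C₃ C₄ C₅ C₆ β) (𝔭 : Ideal (LR n))
    (h𝔭 : 𝔭 ∈ (IdealOf c).minimalPrimes) (F : LR n) (μ : Polynomial (LR (kdim h)))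
    (hμ : IsMin (ib β) 𝔭 F μ) (g : Polynomial (LR (kdim h))) (hg : g.eval₂ (ib β) F ∈ 𝔭) : μ ∣ g := by
  rw [← Polynomial.modByMonic_eq_zero_iff_dvd hμ.monic]
  by_contra hne
  have hp : 𝔭.IsPrime := h𝔭.1.1
  have hmu1 : μ ≠ 1 := by
    intro h1
    have := hμ.mem
    rw [h1, Polynomial.eval₂_one] at this
    exact hp.ne_top ((Ideal.eq_top_iff_one _).2 this)
  have h1 : (g %ₘ μ).eval₂ (ib β) F ∈ 𝔭 := by
    have h2 := Polynomial.modByMonic_add_div g μ
    have h3 : (g %ₘ μ) = g - μ * (g /ₘ μ) := by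
      linear_combination h2
    rw [h3, Polynomial.eval₂_sub, Polynomial.eval₂_mul]
    exact 𝔭.sub_mem hg (Ideal.mul_mem_right _ _ hμ.mem)
  obtain ⟨a, b, δ, hδ, hab⟩ := bezout_of_irreducible μ (g %ₘ μ) hμ.monic hμ.irr hne
    (Polynomial.natDegree_modByMonic_lt g hμ.monic hmu1)
  have h4 := congrArg (fun p => p.eval₂ (ib β) F) hab
  simp only [Polynomial.eval₂_add, Polynomial.eval₂_mul, Polynomial.eval₂_C] at h4
  have h5 : ib β δ ∈ 𝔭 := by
    rw [← h4]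
    exact 𝔭.add_mem (Ideal.mul_mem_left _ _ hμ.mem) (Ideal.mul_mem_left _ _ h1)
  exact hδ (Q.injective 𝔭 h𝔭 δ h5)

/-- roots lift to points -/
theorem Pack.lift (Q : Pack h c X R C A B t C₃ C₄ C₅ C₆ β) (𝔭 : Ideal (LR n))
    (h𝔭 : 𝔭 ∈ (IdealOf c).minimalPrimes) (F : LR n) (μ : Polynomial (LR (kdim h)))
    (hμ : IsMin (ib β) 𝔭 F μ) (θ : Fin (kdim h) → ℂˣ) (ρ : ℂ)
    (hρ : (μ.map (evz θ : LR (kdim h) →+* ℂ)).IsRoot ρ) :
    ∃ z : Fin n → ℂˣ, (∀ f ∈ IdealOf c, evz z f = 0) ∧ pr β z = θ ∧ evz z F = ρ := by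
  have hp : 𝔭.IsPrime := h𝔭.1.1
  let φ : LR (kdim h) →+* LR n ⧸ 𝔭 := (Ideal.Quotient.mk 𝔭).comp (ib β)
  let ψ : Polynomial (LR (kdim h)) →+* LR n ⧸ 𝔭 := Polynomial.eval₂RingHom φ (Ideal.Quotient.mk 𝔭 F)
  have hψ : ∀ g, ψ g = Ideal.Quotient.mk 𝔭 (g.eval₂ (ib β) F) := by
    intro g
    show g.eval₂ φ (Ideal.Quotient.mk 𝔭 F) = _
    rw [Polynomial.hom_eval₂]
  have hint : ψ.IsIntegral := by
    have h1 : (ψ.comp Polynomial.C).IsIntegral := by
      have h2 : ψ.comp Polynomial.C = φ := RingHom.ext fun a => by simp [ψ]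
      rw [h2]
      exact Q.integral 𝔭 h𝔭.1.2
    exact RingHom.IsIntegral.tower_top _ _ h1
  let ev : Polynomial (LR (kdim h)) →+* ℂ := Polynomial.eval₂RingHom (evz θ : LR (kdim h) →+* ℂ) ρ
  have hevmax : (RingHom.ker ev).IsMaximal := by
    apply RingHom.ker_isMaximal_of_surjective
    intro a
    refine ⟨Polynomial.C (AddMonoidAlgebra.single 0 a), ?_⟩
    show Polynomial.eval₂ _ _ _ = a
    rw [Polynomial.eval₂_C]
    show evz θ _ = a
    rw [evz_single, chrU_zero]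
    simp
  let : Algebra (Polynomial (LR (kdim h))) (LR n ⧸ 𝔭) := ψ.toAlgebra
  have hInt : Algebra.IsIntegral (Polynomial (LR (kdim h))) (LR n ⧸ 𝔭) := ⟨hint⟩
  have hprime : (RingHom.ker ev).IsPrime := hevmax.isPrime
  obtain ⟨q, -, hq, hcomap⟩ := Ideal.exists_ideal_over_prime_of_isIntegral (RingHom.ker ev)
    (⊥ : Ideal (LR n ⧸ 𝔭)) (by
      intro g hg
      rw [Ideal.mem_comap, Ideal.mem_bot] at hg
      have h1 : ψ g = 0 := hg
      rw [hψ, Ideal.Quotient.eq_zero_iff_mem] at h1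
      obtain ⟨g', rfl⟩ := Q.dvd 𝔭 h𝔭 F μ hμ g h1
      rw [RingHom.mem_ker, map_mul]
      have h2 : ev μ = 0 := by
        rw [Polynomial.IsRoot.def, Polynomial.eval_map] at hρ
        exact hρ
      rw [h2, zero_mul])
  have hqmax : q.IsMaximal := by
    apply Ideal.isMaximal_of_isIntegral_of_isMaximal_comap (R := Polynomial (LR (kdim h)))
    rw [hcomap]
    exact hevmax
  have h𝔪 : (q.comap (Ideal.Quotient.mk 𝔭)).IsMaximal :=
    Ideal.comap_isMaximal_of_surjective _ Ideal.Quotient.mk_surjective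
  obtain ⟨z, hz⟩ := exists_point (q.comap (Ideal.Quotient.mk 𝔭))
  have hmem : ∀ g : Polynomial (LR (kdim h)), ev g = 0 → evz z (g.eval₂ (ib β) F) = 0 := by
    intro g hg
    apply hz
    rw [Ideal.mem_comap, ← hψ]
    have h1 : g ∈ q.comap (algebraMap (Polynomial (LR (kdim h))) (LR n ⧸ 𝔭)) := by
      rw [hcomap]; exact hg
    exact h1
  have hconst : ∀ a : ℂ, (AddMonoidAlgebra.single 0 a : LR n) = ib β (AddMonoidAlgebra.single 0 a) := by
    intro a
    show _ = AddMonoidAlgebra.mapDomain β (AddMonoidAlgebra.single 0 a)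
    rw [AddMonoidAlgebra.mapDomain_single, map_zero]
  refine ⟨z, fun f hf => ?_, ?_, ?_⟩
  · apply hz
    rw [Ideal.mem_comap, Ideal.Quotient.eq_zero_iff_mem.2 (h𝔭.1.2 hf)]
    exact q.zero_mem
  · ext j
    have h1 := hmem (Polynomial.C (AddMonoidAlgebra.single (Pi.single j 1) 1 -
      AddMonoidAlgebra.single 0 (θ j : ℂ))) (by
        show Polynomial.eval₂ _ _ _ = _
        rw [Polynomial.eval₂_C]
        show evz θ _ = 0
        rw [map_sub, evz_single, evz_single, chrU_zero, chrU_single]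
        simp)
    rw [Polynomial.eval₂_C, map_sub, map_sub, evz_ib, evz_ib, evz_single, evz_single, chrU_zero,
      chrU_single, sub_eq_zero] at h1
    simpa using h1
  · have h1 := hmem (Polynomial.X - Polynomial.C (AddMonoidAlgebra.single 0 ρ)) (by
        show Polynomial.eval₂ _ _ _ = _
        rw [Polynomial.eval₂_sub, Polynomial.eval₂_X, Polynomial.eval₂_C]
        show ρ - evz θ _ = 0
        rw [evz_single, chrU_zero]
        simp)
    rw [Polynomial.eval₂_sub, Polynomial.eval₂_X, Polynomial.eval₂_C, map_sub, evz_ib, evz_single,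
      chrU_zero, sub_eq_zero] at h1
    simpa using h1

theorem bezout_prod {P : Type*} [CommRing P] [IsDomain P] [IsIntegrallyClosed P] [CharZero P]
    (S : Finset (Polynomial P)) (hmonS : ∀ ν ∈ S, ν.Monic) (hirrS : ∀ ν ∈ S, Irreducible ν) :
    ∃ a b : Polynomial P, ∃ δ : P, δ ≠ 0 ∧
        a * (∏ ν ∈ S, ν) + b * (∏ ν ∈ S, ν).derivative = Polynomial.C δ := by
  classical
  apply clear_bezout
  rw [← Polynomial.derivative_map]
  have hirr : ∀ ν ∈ S, Irreducible (ν.map (algebraMap P (FractionRing P))) :=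
    fun ν hν => ((hmonS ν hν).irreducible_iff_irreducible_map_fraction_map).1 (hirrS ν hν)
  have hsep : (∏ ν ∈ S, ν.map (algebraMap P (FractionRing P))).Separable := by
    apply Polynomial.separable_prod'
    · intro ν hν ν' hν' hne
      rw [(hirr ν hν).coprime_iff_not_dvd]
      intro hdvd
      have h1 := ((hirr ν hν).dvd_irreducible_iff_associated (hirr ν' hν')).1 hdvd
      have h2 := Polynomial.eq_of_monic_of_associated ((hmonS ν hν).map _) ((hmonS ν' hν').map _) h1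
      exact hne (Polynomial.map_injective _ (IsFractionRing.injective _ _) h2)
    · intro ν hν
      have : CharZero (FractionRing P) :=
        charZero_of_injective_algebraMap (IsFractionRing.injective P (FractionRing P))
      exact (hirr ν hν).separable
  rw [← Polynomial.map_prod] at hsep
  exact hsep

instance (e : ℕ) : CharZero (LR e) := by
  refine charZero_of_injective_algebraMap (R := ℂ) (A := LR e) ?_
  exact (algebraMap ℂ (LR e)).injective

/-- a squarefree equation for `F` -/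
theorem Pack.exists_squarefree (Q : Pack h c X R C A B t C₃ C₄ C₅ C₆ β) (F : LR n) :
    ∃ χ : Polynomial (LR (kdim h)), χ.Monic ∧ χ.eval₂ (ib β) F ∈ IdealOf c ∧
      (∃ a b : Polynomial (LR (kdim h)), ∃ δ : LR (kdim h), δ ≠ 0 ∧
        a * χ + b * χ.derivative = Polynomial.C δ) ∧
      ∀ (θ : Fin (kdim h) → ℂˣ) (ρ : ℂ), (χ.map (evz θ : LR (kdim h) →+* ℂ)).IsRoot ρ →
        ∃ z : Fin n → ℂˣ, (∀ f ∈ IdealOf c, evz z f = 0) ∧ pr β z = θ ∧ evz z F = ρ := by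
  classical
  have hfin := Ideal.finite_minimalPrimes_of_isNoetherianRing (LR n) (IdealOf c)
  have hex : ∀ 𝔭 : Ideal (LR n), ∃ μ : Polynomial (LR (kdim h)),
      𝔭 ∈ (IdealOf c).minimalPrimes → IsMin (ib β) 𝔭 F μ := by
    intro 𝔭
    by_cases h𝔭 : 𝔭 ∈ (IdealOf c).minimalPrimes
    · have hp : 𝔭.IsPrime := h𝔭.1.1
      obtain ⟨μ, hμ⟩ := exists_isMin (ib β) 𝔭 (Q.integral 𝔭 h𝔭.1.2) F
      exact ⟨μ, fun _ => hμ⟩
    · exact ⟨0, fun h => absurd h h𝔭⟩
  choose μ hμ using hex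
  set S := hfin.toFinset.image μ with hS
  have hSmem : ∀ ν ∈ S, ∃ 𝔭 ∈ (IdealOf c).minimalPrimes, IsMin (ib β) 𝔭 F ν := by
    intro ν hν
    obtain ⟨𝔭, h𝔭, rfl⟩ := Finset.mem_image.1 hν
    rw [hfin.mem_toFinset] at h𝔭
    exact ⟨𝔭, h𝔭, hμ 𝔭 h𝔭⟩
  have hmonS : ∀ ν ∈ S, ν.Monic := fun ν hν => by
    obtain ⟨𝔭, -, h1⟩ := hSmem ν hν
    exact h1.monic
  have hirrS : ∀ ν ∈ S, Irreducible ν := fun ν hν => by
    obtain ⟨𝔭, -, h1⟩ := hSmem ν hν
    exact h1.irr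
  refine ⟨∏ ν ∈ S, ν, Polynomial.monic_prod_of_monic _ _ hmonS, ?_, ?_, ?_⟩
  · have h1 : (∏ ν ∈ S, ν).eval₂ (ib β) F ∈ sInf (IdealOf c).minimalPrimes := by
      rw [Submodule.mem_sInf]
      intro 𝔭 h𝔭
      rw [Polynomial.eval₂_finsetProd]
      have h2 : μ 𝔭 ∈ S := Finset.mem_image_of_mem _ (hfin.mem_toFinset.2 h𝔭)
      exact Ideal.mem_of_dvd _ (Finset.dvd_prod_of_mem _ h2) (hμ 𝔭 h𝔭).mem
    rw [Ideal.sInf_minimalPrimes, Q.D.isRadical.radical] at h1
    exact h1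
  · exact bezout_prod S hmonS hirrS
  · intro θ ρ hρ
    rw [Polynomial.IsRoot.def, Polynomial.map_prod, Polynomial.eval_prod,
      Finset.prod_eq_zero_iff] at hρ
    obtain ⟨ν, hν, h0⟩ := hρ
    obtain ⟨𝔭, h𝔭, h1⟩ := hSmem ν hν
    exact Q.lift 𝔭 h𝔭 F ν h1 θ ρ h0

end FQ
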