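import Mathlib
import Pool.Agent.Helper46.FQ.Proj
import Pool.Agent.Helper46.FQ.LiftPt

/-!
Dimension.
-/

namespace FQ

open Finset AddMonoidAlgebra

theorem trdeg_eq_of_algebraic {S T : Type} [CommRing S] [CommRing T] [IsDomain T] [Algebra ℂ S]
    [Algebra ℂ T] (g : S →ₐ[ℂ] T) (hg : Function.Injective g)
    (halg : ∀ x : T, ∃ p : Polynomial S, p ≠ 0 ∧ p.eval₂ (g : S →+* T) x = 0) :
    Algebra.trdeg ℂ S = Algebra.trdeg ℂ T := by
  let : Algebra S T := (g : S →+* T).toAlgebra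
  have hst : IsScalarTower ℂ S T := IsScalarTower.of_algebraMap_eq fun a => (g.commutes a).symm
  have hf : FaithfulSMul S T := (faithfulSMul_iff_algebraMap_injective S T).2 hg
  have hnt : Nontrivial S := by
    refine ⟨0, 1, fun h => ?_⟩
    have := congrArg g h
    rw [map_zero, map_one] at this
    exact zero_ne_one this
  have hf2 : FaithfulSMul ℂ S := (faithfulSMul_iff_algebraMap_injective ℂ S).2 (algebraMap ℂ S).injective
  have ha : Algebra.IsAlgebraic S T := ⟨fun x => halg x⟩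
  have h1 := _root_.trdeg_add_eq ℂ S (A := T)
  rw [_root_.trdeg_eq_zero (R := S) (A := T), add_zero] at h1
  exact h1

variable {n : ℕ}

theorem kap_injective (s : Finset (Fin n)) : Function.Injective (kap s) := by
  intro p q hpq
  rw [← hp_kap s 0 p, ← hp_kap s 0 q, hpq]

theorem kap_alg (s : Finset (Fin n)) (f : LR n) : ∃ m q : MvPolynomial (Fin n) ℂ,
    IsUnit (kap s m) ∧ kap s m * f = kap s q := by
  obtain ⟨N, hN⟩ := exists_EB f
  refine ⟨MvPolynomial.monomial (Finsupp.equivFunOnFinite.symm fun _ => N) 1, hp s N f, ?_, ?_⟩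
  · rw [kap_monomial]
    refine IsUnit.of_mul_eq_one (AddMonoidAlgebra.single (-(sv s fun i => ((Finsupp.equivFunOnFinite.symm fun _ => N) i : ℤ))) 1) ?_
    rw [AddMonoidAlgebra.single_mul_single, add_neg_cancel, one_mul]; rfl
  · rw [kap_monomial, kap_hp s N f hN]
    rfl

theorem trdeg_kap (s : Finset (Fin n)) (𝔭 : Ideal (LR n)) [h𝔭 : 𝔭.IsPrime] :
    Algebra.trdeg ℂ (MvPolynomial (Fin n) ℂ ⧸ 𝔭.comap (kap s)) = Algebra.trdeg ℂ (LR n ⧸ 𝔭) := by
  let g : (MvPolynomial (Fin n) ℂ ⧸ 𝔭.comap (kap s)) →ₐ[ℂ] (LR n ⧸ 𝔭) :=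
    Ideal.quotientMapₐ 𝔭 (kap s) le_rfl
  have hg : Function.Injective g := Ideal.quotientMap_injective
  refine trdeg_eq_of_algebraic g hg fun x => ?_
  obtain ⟨f, rfl⟩ := Ideal.Quotient.mk_surjective x
  obtain ⟨m, q, hm, hmq⟩ := kap_alg s f
  have hgmk : ∀ p, g (Ideal.Quotient.mk _ p) = Ideal.Quotient.mk 𝔭 (kap s p) := fun p => rfl
  refine ⟨Polynomial.C (Ideal.Quotient.mk _ m) * Polynomial.X - Polynomial.C (Ideal.Quotient.mk _ q), ?_, ?_⟩
  · intro h0
    have h1 := congrArg (fun p => p.coeff 1) h0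
    simp only [Polynomial.coeff_sub, Polynomial.coeff_C_mul, Polynomial.coeff_X_one, mul_one,
      Polynomial.coeff_zero] at h1
    rw [Polynomial.coeff_C_of_ne_zero (by norm_num), sub_zero] at h1
    have h2 := congrArg g h1
    rw [hgmk, map_zero, Ideal.Quotient.eq_zero_iff_mem] at h2
    exact h𝔭.ne_top (Ideal.eq_top_of_isUnit_mem _ h2 hm)
  · rw [Polynomial.eval₂_sub, Polynomial.eval₂_mul, Polynomial.eval₂_C, Polynomial.eval₂_C,
      Polynomial.eval₂_X]
    show g _ * _ - g _ = 0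
    rw [hgmk, hgmk, ← map_mul, hmq, sub_self]

theorem trdeg_LR (e : ℕ) : Algebra.trdeg ℂ (LR e) = e := by
  rw [← trdeg_eq_of_algebraic (kap (∅ : Finset (Fin e))) (kap_injective ∅), MvPolynomial.trdeg_of_isDomain]
  · simp
  · intro f
    obtain ⟨m, q, hm, hmq⟩ := kap_alg ∅ f
    refine ⟨Polynomial.C m * Polynomial.X - Polynomial.C q, ?_, ?_⟩
    · intro h0
      have h1 := congrArg (fun p => p.coeff 1) h0
      simp only [Polynomial.coeff_sub, Polynomial.coeff_C_mul, Polynomial.coeff_X_one, mul_one,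
        Polynomial.coeff_zero] at h1
      rw [Polynomial.coeff_C_of_ne_zero (by norm_num), sub_zero] at h1
      rw [h1, map_zero] at hm
      exact not_isUnit_zero hm
    · rw [Polynomial.eval₂_sub, Polynomial.eval₂_mul, Polynomial.eval₂_C, Polynomial.eval₂_C,
        Polynomial.eval₂_X]
      show kap ∅ m * f - kap ∅ q = 0
      rw [hmq, sub_self]

variable {E : Type*} [NormedAddCommGroup E] [InnerProductSpace ℝ E]
  [FiniteDimensional ℝ E]
  {h : (Fin n → ℤ) →+ E} {c : (Fin n → ℤ) → ℂ} {X : Set (Fin n → ℂˣ)} {R C : ℝ}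
  {A B t C₃ C₄ C₅ C₆ : ℝ} {β : (Fin (kdim h) → ℤ) →+ (Fin n → ℤ)}

theorem Pack.trdeg (Q : Pack h c X R C A B t C₃ C₄ C₅ C₆ β) (𝔭 : Ideal (LR n))
    (h𝔭 : 𝔭 ∈ (IdealOf c).minimalPrimes) : Algebra.trdeg ℂ (LR n ⧸ 𝔭) = kdim h := by
  have hp : 𝔭.IsPrime := h𝔭.1.1
  have hconst : ∀ a : ℂ, ib β (algebraMap ℂ (LR (kdim h)) a) = algebraMap ℂ (LR n) a := by
    intro a
    show AddMonoidAlgebra.mapDomain β (AddMonoidAlgebra.single 0 a) = _
    rw [AddMonoidAlgebra.mapDomain_single, map_zero]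
    rfl
  let g : LR (kdim h) →ₐ[ℂ] (LR n ⧸ 𝔭) :=
    { (Ideal.Quotient.mk 𝔭).comp (ib β) with
      commutes' := by
        intro a
        show Ideal.Quotient.mk 𝔭 (ib β (algebraMap ℂ (LR (kdim h)) a)) = _
        rw [hconst]
        rfl }
  have hg : Function.Injective g := by
    rw [injective_iff_map_eq_zero]
    intro p hp0
    have h1 : Ideal.Quotient.mk 𝔭 (ib β p) = 0 := hp0
    rw [Ideal.Quotient.eq_zero_iff_mem] at h1
    exact Q.injective 𝔭 h𝔭 p h1
  rw [← trdeg_eq_of_algebraic g hg, trdeg_LR]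
  intro x
  obtain ⟨p, hp1, hp2⟩ := Q.integral 𝔭 h𝔭.1.2 x
  exact ⟨p, hp1.ne_zero, hp2⟩

theorem kdim_add (hspan : Submodule.span ℝ (Set.range h) = ⊤) : Module.finrank ℝ E + kdim h = n := by
  have h1 := (hR h).finrank_range_add_finrank_ker
  rw [Module.finrank_fin_fun] at h1
  have h2 : (hR h).range = ⊤ := by
    rw [eq_top_iff, ← hspan, Submodule.span_le]
    rintro _ ⟨ζ, rfl⟩
    exact ⟨toR ζ, hR_toR h ζ⟩
  rw [h2, finrank_top] at h1
  exact h1

theorem equidim_XI (Q : Pack h c X R C A B t C₃ C₄ C₅ C₆ β) (hspan : Submodule.span ℝ (Set.range h) = ⊤) :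
    IsEquidimensional (XI (IdealOf c)) (n - Module.finrank ℝ E) := by
  intro s P hP
  rw [idealAt_XI _ Q.D.isRadical] at hP
  obtain ⟨𝔭, h𝔭, rfl⟩ := Ideal.exists_minimalPrimes_comap_eq _ _ hP
  have hp : 𝔭.IsPrime := h𝔭.1.1
  have h1 := trdeg_kap s 𝔭
  rw [Q.trdeg 𝔭 h𝔭] at h1
  have h2 := kdim_add hspan
  have h3 : n - Module.finrank ℝ E = kdim h := by omega
  rw [h3]
  exact h1

end FQ
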