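import Mathlib
import Pool.Agent.Helper46.FQ.Points
import Pool.Agent.Helper46.FQ.Root

/-!
Derivations at points of the variety; smoothness at real points.
-/

namespace FQ

open Finset AddMonoidAlgebra Filter Topology

/-- two close roots near a multiple root -/
theorem two_roots {Θ P : Type*} [TopologicalSpace Θ] [CommRing P] (ev : Θ → P →+* ℂ)
    (hcont : ∀ p, Continuous fun θ => ev θ p) (χ : Polynomial P) (hmon : χ.Monic) (θ₀ : Θ) (ρ₀ : ℂ)
    (h0 : (χ.map (ev θ₀)).IsRoot ρ₀) (h1 : (χ.derivative.map (ev θ₀)).eval ρ₀ = 0)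
    (ε : ℝ) (hε : 0 < ε) :
    ∀ᶠ θ in 𝓝 θ₀, (∀ r, (χ.map (ev θ)).IsRoot r → (χ.derivative.map (ev θ)).eval r ≠ 0) →
      ∃ r r', r ≠ r' ∧ (χ.map (ev θ)).IsRoot r ∧ (χ.map (ev θ)).IsRoot r' ∧
        ‖r - ρ₀‖ < ε ∧ ‖r' - ρ₀‖ < ε := by
  classical
  have hcontp : ∀ p : Polynomial P, Continuous fun q : Θ × ℂ => ‖(p.map (ev q.1)).eval q.2‖ := by
    intro p
    apply Continuous.norm
    have h3 : (fun q : Θ × ℂ => (p.map (ev q.1)).eval q.2) =
        fun q : Θ × ℂ => ∑ j ∈ range (p.natDegree + 1), ev q.1 (p.coeff j) * q.2 ^ j := by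
      ext q
      rw [Polynomial.eval_map, Polynomial.eval₂_eq_sum_range]
    rw [h3]
    exact continuous_finsetSum _ fun j _ => ((hcont _).comp continuous_fst).mul (continuous_snd.pow j)
  set N := χ.natDegree with hN
  have hG : ∀ᶠ q in 𝓝 (θ₀, ρ₀), ‖(χ.derivative.map (ev q.1)).eval q.2‖ < (ε / 2) ^ (N - 1) := by
    have h2 := (hcontp χ.derivative).tendsto (θ₀, ρ₀)
    have h3 : ‖(χ.derivative.map (ev (θ₀, ρ₀).1)).eval (θ₀, ρ₀).2‖ = 0 := by
      rw [h1, norm_zero]
    rw [h3] at h2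
    exact h2.eventually (gt_mem_nhds (by positivity))
  rw [nhds_prod_eq, eventually_prod_iff] at hG
  obtain ⟨pa, hpa, pb, hpb, H⟩ := hG
  obtain ⟨δ, hδ, hδ'⟩ := Metric.eventually_nhds_iff.1 hpb
  set δ₁ := min δ (ε / 2) with hδ₁
  have hδ₁0 : 0 < δ₁ := lt_min hδ (by positivity)
  have hev2 : ∀ᶠ θ in 𝓝 θ₀, ‖(χ.map (ev θ)).eval ρ₀‖ < δ₁ ^ N := by
    have h2 : Continuous fun θ : Θ => ‖(χ.map (ev θ)).eval ρ₀‖ :=
      (hcontp χ).comp (continuous_id.prodMk continuous_const)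
    have h3 := h2.tendsto θ₀
    rw [Polynomial.IsRoot.def] at h0
    rw [h0, norm_zero] at h3
    exact h3.eventually (gt_mem_nhds (by positivity))
  filter_upwards [hpa, hev2] with θ hθ1 hθ2 hsimple
  set p := χ.map (ev θ) with hp
  have hpmon : p.Monic := hmon.map _
  have hpdeg : p.natDegree = N := hmon.natDegree_map _
  obtain ⟨r, hr, hrlt⟩ := exists_close_root p hpmon ρ₀ δ₁ hδ₁0 (by rw [hpdeg]; exact hθ2)
  have hr1 : ‖r - ρ₀‖ < δ := by
    rw [norm_sub_rev]; exact lt_of_lt_of_le hrlt (min_le_left _ _)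
  have hr2 : ‖r - ρ₀‖ < ε / 2 := by
    rw [norm_sub_rev]; exact lt_of_lt_of_le hrlt (min_le_right _ _)
  have hder := H hθ1 (hδ' (by rw [dist_eq_norm]; exact hr1))
  set q := p /ₘ (Polynomial.X - Polynomial.C r) with hq
  have hpq : (Polynomial.X - Polynomial.C r) * q = p := Polynomial.mul_divByMonic_eq_iff_isRoot.2 hr
  have hqmon : q.Monic := by
    have := Polynomial.monic_X_sub_C r
    exact this.of_mul_monic_left (by rw [hpq]; exact hpmon)
  have hqdeg : q.natDegree = N - 1 := by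
    have h2 := (Polynomial.monic_X_sub_C r).natDegree_mul hqmon
    rw [hpq, hpdeg, Polynomial.natDegree_X_sub_C] at h2
    omega
  have hqr : q.eval r = (χ.derivative.map (ev θ)).eval r := by
    rw [← Polynomial.derivative_map, ← hp, ← hpq, Polynomial.derivative_mul]
    simp
  obtain ⟨r', hr', hr'lt⟩ := exists_close_root q hqmon r (ε / 2) (by positivity) (by
    rw [hqdeg, hqr]; exact hder)
  refine ⟨r, r', ?_, hr, ?_, by linarith, ?_⟩
  · rintro rfl
    apply hsimple r hr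
    rw [← hqr]
    exact hr'
  · rw [Polynomial.IsRoot.def, ← hpq, Polynomial.eval_mul]
    rw [Polynomial.IsRoot.def] at hr'
    rw [hr', mul_zero]
  · have h2 : ‖r' - ρ₀‖ ≤ ‖r - ρ₀‖ + ‖r - r'‖ := by
      have := norm_sub_le (r - ρ₀) (r - r')
      have e : (r - ρ₀) - (r - r') = r' - ρ₀ := by ring
      rwa [e] at this
    linarith

variable {n : ℕ}

/-- complex pairing -/
noncomputable def pairC (τ : Fin n → ℂ) (ζ : Fin n → ℤ) : ℂ := ∑ i, (ζ i : ℂ) * τ i

theorem pairC_add (τ : Fin n → ℂ) (ζ ξ : Fin n → ℤ) : pairC τ (ζ + ξ) = pairC τ ζ + pairC τ ξ := by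
  simp [pairC, add_mul, Finset.sum_add_distrib]

theorem pairC_zero (τ : Fin n → ℂ) : pairC τ 0 = 0 := by simp [pairC]

/-- deformed character -/
noncomputable def dchr (z : Fin n → ℂˣ) (τ : Fin n → ℂ) : Multiplicative (Fin n → ℤ) →* DualNumber ℂ where
  toFun ζ := TrivSqZeroExt.inl (chrU z ζ.toAdd : ℂ) +
    TrivSqZeroExt.inr ((chrU z ζ.toAdd : ℂ) * pairC τ ζ.toAdd)
  map_one' := by
    rw [toAdd_one, chrU_zero, pairC_zero]
    simp
  map_mul' := by
    intro a b
    rw [toAdd_mul, chrU_add, pairC_add]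
    ext
    · simp
    · simp
      ring

/-- evaluation at an infinitesimal deformation of `z` in the direction `τ` -/
noncomputable def evd (z : Fin n → ℂˣ) (τ : Fin n → ℂ) : LR n →ₐ[ℂ] DualNumber ℂ :=
  AddMonoidAlgebra.lift ℂ (DualNumber ℂ) (Fin n → ℤ) (dchr z τ)

/-- the derivative at `z` in the (logarithmic) direction `τ` -/
noncomputable def der (z : Fin n → ℂˣ) (τ : Fin n → ℂ) (f : LR n) : ℂ := (evd z τ f).snd

theorem evd_single (z : Fin n → ℂˣ) (τ : Fin n → ℂ) (ζ : Fin n → ℤ) (a : ℂ) :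
    evd z τ (AddMonoidAlgebra.single ζ a) = TrivSqZeroExt.inl (a * chrU z ζ) +
      TrivSqZeroExt.inr (a * (chrU z ζ * pairC τ ζ)) := by
  rw [evd, AddMonoidAlgebra.lift_single]
  ext
  · simp [dchr]
  · simp [dchr]

theorem evd_eq (z : Fin n → ℂˣ) (τ : Fin n → ℂ) (f : LR n) :
    evd z τ f = TrivSqZeroExt.inl (evz z f) + TrivSqZeroExt.inr (der z τ f) := by
  have h1 : (evd z τ f).fst = evz z f := by
    induction f using AddMonoidAlgebra.induction_linear with
    | zero => simp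
    | add f₁ f₂ h₁ h₂ => rw [map_add, map_add, TrivSqZeroExt.fst_add, h₁, h₂]
    | single ζ a => rw [evd_single, evz_single]; simp
  rw [← h1, der]
  exact (TrivSqZeroExt.inl_fst_add_inr_snd_eq _).symm

theorem der_single (z : Fin n → ℂˣ) (τ : Fin n → ℂ) (ζ : Fin n → ℤ) (a : ℂ) :
    der z τ (AddMonoidAlgebra.single ζ a) = a * (chrU z ζ * pairC τ ζ) := by
  rw [der, evd_single]; simp

theorem der_add (z : Fin n → ℂˣ) (τ : Fin n → ℂ) (f g : LR n) :
    der z τ (f + g) = der z τ f + der z τ g := by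
  rw [der, map_add, TrivSqZeroExt.snd_add]; rfl

theorem der_zero (z : Fin n → ℂˣ) (τ : Fin n → ℂ) : der z τ 0 = 0 := by
  rw [der, map_zero, TrivSqZeroExt.snd_zero]

theorem der_sum {ι : Type*} (z : Fin n → ℂˣ) (τ : Fin n → ℂ) (s : Finset ι) (f : ι → LR n) :
    der z τ (∑ i ∈ s, f i) = ∑ i ∈ s, der z τ (f i) := by
  classical
  induction s using Finset.induction_on with
  | empty => simp [der_zero]
  | insert a s ha ih => rw [Finset.sum_insert ha, Finset.sum_insert ha, der_add, ih]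

theorem der_mul (z : Fin n → ℂˣ) (τ : Fin n → ℂ) (f g : LR n) :
    der z τ (f * g) = evz z f * der z τ g + evz z g * der z τ f := by
  rw [der, map_mul, evd_eq z τ f, evd_eq z τ g]
  simp
  ring

theorem evd_ib {e : ℕ} (β : (Fin e → ℤ) →+ (Fin n → ℤ)) (z : Fin n → ℂˣ) (τ : Fin n → ℂ)
    (hτ : ∀ m, pairC τ (β m) = 0) (p : LR e) :
    evd z τ (ib β p) = TrivSqZeroExt.inl (evz (pr β z) p) := by
  induction p using AddMonoidAlgebra.induction_linear with
  | zero => simp
  | add f g hf hg => rw [map_add, map_add, map_add, hf, hg, TrivSqZeroExt.inl_add]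
  | single m a =>
    have h1 : ib β (AddMonoidAlgebra.single m a) = AddMonoidAlgebra.single (β m) a := by
      show AddMonoidAlgebra.mapDomain β (AddMonoidAlgebra.single m a) = _
      rw [AddMonoidAlgebra.mapDomain_single]
    rw [h1, evd_single, hτ, evz_single, chrU_pr]
    simp

theorem der_eval₂ {e : ℕ} (β : (Fin e → ℤ) →+ (Fin n → ℤ)) (z : Fin n → ℂˣ) (τ : Fin n → ℂ)
    (hτ : ∀ m, pairC τ (β m) = 0) (χ : Polynomial (LR e)) (F : LR n) :
    der z τ (χ.eval₂ (ib β) F) =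
      (χ.derivative.map (evz (pr β z) : LR e →+* ℂ)).eval (evz z F) * der z τ F := by
  have h1 : evd z τ (χ.eval₂ (ib β) F) = Polynomial.aeval (evd z τ F) (χ.map (evz (pr β z) : LR e →+* ℂ)) := by
    have h2 := Polynomial.hom_eval₂ χ (ib β) (evd z τ : LR n →+* DualNumber ℂ) F
    have h3 : ((evd z τ : LR n →+* DualNumber ℂ)).comp (ib β) =
        (algebraMap ℂ (DualNumber ℂ)).comp (evz (pr β z) : LR e →+* ℂ) :=
      RingHom.ext fun p => evd_ib β z τ hτ p
    rw [h3] at h2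
    rw [Polynomial.aeval_def, Polynomial.eval₂_map]
    exact h2
  rw [der, h1, evd_eq z τ F, Polynomial.aeval_add_of_sq_eq_zero]
  · rw [← Polynomial.derivative_map]
    have h4 : ∀ (p : Polynomial ℂ) (x : ℂ), Polynomial.aeval (TrivSqZeroExt.inl x : DualNumber ℂ) p =
        TrivSqZeroExt.inl (p.eval x) := by
      intro p x
      have : (TrivSqZeroExt.inl x : DualNumber ℂ) = algebraMap ℂ (DualNumber ℂ) x := rfl
      rw [this, Polynomial.aeval_algebraMap_apply]
      rfl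
    rw [h4, h4]
    simp
    ring
  · rw [pow_two, TrivSqZeroExt.inr_mul_inr]

end FQ
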