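import Mathlib
import Pool.Agent.Helper46.FQ.Smooth
import Pool.Agent.Helper46.FQ.ConeThm
import Pool.Agent.Helper46.FQ.LiftPt

/-!
Smoothness at real points.
-/

namespace FQ

open Finset AddMonoidAlgebra Filter Topology

variable {n : ℕ} {E : Type*} [NormedAddCommGroup E] [InnerProductSpace ℝ E]
  [FiniteDimensional ℝ E]
  {h : (Fin n → ℤ) →+ E} {c : (Fin n → ℤ) → ℂ} {X : Set (Fin n → ℂˣ)} {R C : ℝ}
  {A B t C₃ C₄ C₅ C₆ : ℝ} {β : (Fin (kdim h) → ℤ) →+ (Fin n → ℤ)}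

/-- the separation property -/
def Sep (c : (Fin n → ℤ) → ℂ) {e : ℕ} (β : (Fin e → ℤ) →+ (Fin n → ℤ)) (ε₀ : ℝ) : Prop :=
  ∀ (z : Fin n → ℂˣ) (τ : Fin n → ℝ), lg z = 0 → (∀ f ∈ IdealOf c, evz z f = 0) →
    (∀ f ∈ IdealOf c, evz (z * expI ((2 * Real.pi) • τ)) f = 0) →
    (∀ m, ∑ i, (β m i : ℝ) * τ i = 0) → ‖τ‖ ≤ ε₀ → τ = 0

theorem norm_eq_one_of_lg {z : Fin n → ℂˣ} (hz : lg z = 0) (i : Fin n) : ‖(z i : ℂ)‖ = 1 := by
  have h1 := congrFun hz i
  rw [lg, Pi.zero_apply, Real.log_eq_zero] at h1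
  have h2 : 0 < ‖(z i : ℂ)‖ := norm_pos_iff.2 (z i).ne_zero
  rcases h1 with h | h | h
  · linarith
  · exact h
  · linarith

theorem exists_expI {z : Fin n → ℂˣ} (hz : lg z = 0) :
    ∃ a : Fin n → ℝ, z = expI a ∧ ∀ i, a i = Complex.arg (z i) := by
  refine ⟨fun i => Complex.arg (z i), ?_, fun i => rfl⟩
  ext i
  rw [expI, Units.val_mk0]
  have h1 := Complex.norm_mul_exp_arg_mul_I (z i : ℂ)
  rw [norm_eq_one_of_lg hz i, Complex.ofReal_one, one_mul, mul_comm] at h1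
  exact h1.symm

theorem pairR_beta_zero (β : (Fin (kdim h) → ℤ) →+ (Fin n → ℤ)) (v : Fin n → ℝ)
    (hv : ∀ j, pairR v (β (Pi.single j 1)) = 0) (m : Fin (kdim h) → ℤ) : pairR v (β m) = 0 := by
  have h1 : m = ∑ j, m j • (Pi.single j 1 : Fin (kdim h) → ℤ) := by
    ext i
    simp [Finset.sum_apply, Pi.single_apply]
  rw [h1, map_sum, pairR_sum]
  refine Finset.sum_eq_zero fun j _ => ?_
  rw [map_zsmul, pairR_zsmul, hv, mul_zero]

theorem sep_close {ε₀ : ℝ} (hε₀ : 0 < ε₀) (hsep : Sep c β ε₀) :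
    ∃ ε₁ > 0, ∀ z z' : Fin n → ℂˣ, lg z = 0 → lg z' = 0 → (∀ f ∈ IdealOf c, evz z f = 0) →
      (∀ f ∈ IdealOf c, evz z' f = 0) → pr β z = pr β z' →
      (∀ i, ‖(z' i : ℂ) / (z i : ℂ) - 1‖ < ε₁) → z = z' := by
  classical
  have hpi := Real.pi_pos
  obtain ⟨K, hK0, hK⟩ := exists_bound (Finset.univ : Finset (Fin (kdim h)))
    (fun j => n * ‖β (Pi.single j 1)‖)
  set η := min (2 * Real.pi * ε₀) (2 * Real.pi / (2 * (K + 1))) with hη
  have hη0 : 0 < η := by rw [hη]; apply lt_min <;> positivity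
  have harg : ∀ᶠ w in 𝓝 (1 : ℂ), |Complex.arg w| < η := by
    have h1 := (Complex.continuousAt_arg (x := 1) Complex.one_mem_slitPlane).abs
    have h2 : Tendsto (fun w : ℂ => |Complex.arg w|) (𝓝 1) (𝓝 |Complex.arg 1|) := h1
    rw [Complex.arg_one, abs_zero] at h2
    exact h2.eventually (gt_mem_nhds hη0)
  obtain ⟨ε₁, hε₁, H⟩ := Metric.eventually_nhds_iff.1 harg
  refine ⟨ε₁, hε₁, fun z z' hz hz' hV hV' hpr hclose => ?_⟩
  have hw : lg (z' * z⁻¹) = 0 := by
    have h1 : lg (z' * z⁻¹ * z) = lg (z' * z⁻¹) + lg z := lg_mul _ _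
    rw [inv_mul_cancel_right, hz', hz, add_zero] at h1
    exact h1.symm
  obtain ⟨a, ha, ha'⟩ := exists_expI hw
  set τ : Fin n → ℝ := (1 / (2 * Real.pi)) • a with hτ
  have hτa : (2 * Real.pi) • τ = a := by
    rw [hτ, smul_smul]
    have : 2 * Real.pi * (1 / (2 * Real.pi)) = 1 := by field_simp
    rw [this, one_smul]
  have hz'eq : z' = z * expI ((2 * Real.pi) • τ) := by
    rw [hτa, ← ha, mul_comm z' z⁻¹, mul_inv_cancel_left]
  have hτη : ‖τ‖ ≤ η / (2 * Real.pi) := by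
    rw [pi_norm_le_iff_of_nonneg (by positivity)]
    intro i
    rw [hτ, Pi.smul_apply, smul_eq_mul, Real.norm_eq_abs, abs_mul, abs_of_pos (by positivity), ha']
    have h1 : |Complex.arg ((z' * z⁻¹) i : ℂˣ)| < η := by
      apply H
      rw [dist_eq_norm]
      have h2 := hclose i
      rw [Pi.mul_apply, Pi.inv_apply, Units.val_mul, Units.val_inv_eq_inv_val, ← div_eq_mul_inv]
      exact h2
    rw [div_mul_eq_mul_div, one_mul]
    exact div_le_div_of_nonneg_right h1.le (by positivity)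
  have hτε : ‖τ‖ ≤ ε₀ := by
    refine hτη.trans ?_
    rw [div_le_iff₀ (by positivity)]
    have : η ≤ 2 * Real.pi * ε₀ := min_le_left _ _
    linarith
  have hτK : ‖τ‖ ≤ 1 / (2 * (K + 1)) := by
    refine hτη.trans ?_
    rw [div_le_iff₀ (by positivity)]
    have h1 : η ≤ 2 * Real.pi / (2 * (K + 1)) := min_le_right _ _
    refine h1.trans (le_of_eq ?_)
    field_simp
  have hβ : ∀ m, pairR τ (β m) = 0 := by
    apply pairR_beta_zero
    intro j
    have h1 : chrU (expI ((2 * Real.pi) • τ)) (β (Pi.single j 1)) = 1 := by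
      have h2 := congrFun hpr j
      rw [pr, pr, hz'eq, chrU_mul] at h2
      exact (left_eq_mul.1 h2)
    have h2 := congrArg (fun u : ℂˣ => (u : ℂ)) h1
    simp only [Units.val_one] at h2
    rw [chrU_expI, Complex.exp_eq_one_iff] at h2
    obtain ⟨k, hk⟩ := h2
    have h3 : (∑ i, ((β (Pi.single j 1) i : ℤ) : ℂ) * (((2 * Real.pi) • τ) i : ℝ)) =
        ((2 * Real.pi * pairR τ (β (Pi.single j 1)) : ℝ) : ℂ) := by
      rw [pairR, Finset.mul_sum]
      push_cast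
      exact Finset.sum_congr rfl fun i _ => by simp; ring
    rw [h3] at hk
    have h4 : ((2 * Real.pi * pairR τ (β (Pi.single j 1)) : ℝ) : ℂ) = ((2 * Real.pi * k : ℝ) : ℂ) := by
      apply mul_left_cancel₀ Complex.I_ne_zero
      rw [hk]; push_cast; ring
    have h5 : 2 * Real.pi * pairR τ (β (Pi.single j 1)) = 2 * Real.pi * k := by exact_mod_cast h4
    have h6 : pairR τ (β (Pi.single j 1)) = k := mul_left_cancel₀ (by positivity) h5
    have h7 : |(k : ℝ)| < 1 := by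
      rw [← h6]
      refine (abs_pairR_le _ _).trans_lt ?_
      have h8 := hK j (Finset.mem_univ j)
      calc (n : ℝ) * ‖β (Pi.single j 1)‖ * ‖τ‖ ≤ K * (1 / (2 * (K + 1))) :=
            mul_le_mul h8 hτK (norm_nonneg _) hK0
        _ < 1 := by
            rw [mul_one_div, div_lt_one (by positivity)]
            linarith
    have h8 : k = 0 := by
      have : |k| < 1 := by exact_mod_cast h7
      exact Int.abs_lt_one_iff.1 this
    rw [h6, h8, Int.cast_zero]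
  have hτ0 := hsep z τ hz hV (by rw [← hz'eq]; exact hV') hβ hτε
  rw [hz'eq, hτ0, smul_zero]
  have h1 : expI (0 : Fin n → ℝ) = 1 := by ext i; simp [expI]
  rw [h1, mul_one]

theorem Pack.fibre_finite (P : Pack h c X R C A B t C₃ C₄ C₅ C₆ β) (θ : Fin (kdim h) → ℂˣ) :
    {z : Fin n → ℂˣ | (∀ f ∈ IdealOf c, evz z f = 0) ∧ pr β z = θ}.Finite := by
  classical
  have h1 := (P.S.finite P.star P.D.un).to_isIntegral
  have h2 : ∀ i : Fin n, ∃ p : Polynomial (LR (kdim h)), p.Monic ∧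
      p.eval₂ (ib β) (AddMonoidAlgebra.single (Pi.single i 1) 1 : LR n) ∈ IdealOf c := by
    intro i
    obtain ⟨p, hp, hp2⟩ := h1 (Ideal.Quotient.mk _ (AddMonoidAlgebra.single (Pi.single i 1) 1 : LR n))
    refine ⟨p, hp, ?_⟩
    rw [← Polynomial.hom_eval₂, Ideal.Quotient.eq_zero_iff_mem] at hp2
    exact hp2
  choose p hp hp2 using h2
  have h3 : {z : Fin n → ℂˣ | (∀ f ∈ IdealOf c, evz z f = 0) ∧ pr β z = θ} ⊆
      (fun z : Fin n → ℂˣ => fun i => (z i : ℂ)) ⁻¹' (Set.pi Set.univ fun i =>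
        {w : ℂ | ((p i).map (evz θ : LR (kdim h) →+* ℂ)).IsRoot w}) := by
    rintro z ⟨hz, hpr⟩
    rw [Set.mem_preimage, Set.mem_univ_pi]
    intro i
    have h4 := hz _ (hp2 i)
    have h5 := Polynomial.hom_eval₂ (p i) (ib β) (evz z : LR n →+* ℂ)
      (AddMonoidAlgebra.single (Pi.single i 1) 1 : LR n)
    have h6 : ((evz z : LR n →+* ℂ)).comp (ib β) = (evz θ : LR (kdim h) →+* ℂ) := by
      rw [← hpr]
      exact RingHom.ext fun q => evz_ib β z q
    rw [h6] at h5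
    show ((p i).map (evz θ : LR (kdim h) →+* ℂ)).IsRoot (z i : ℂ)
    rw [Polynomial.IsRoot.def, Polynomial.eval_map]
    have h7 : (evz z : LR n →+* ℂ) (AddMonoidAlgebra.single (Pi.single i 1) 1 : LR n) = (z i : ℂ) := by
      show evz z _ = _
      rw [evz_single, chrU_single, zpow_one, one_mul]
    rw [h7] at h5
    rw [← h5]
    exact h4
  refine Set.Finite.subset (Set.Finite.preimage ?_ (Set.Finite.pi fun i => ?_)) h3
  · intro z _ z' _ hzz
    ext i
    exact congrFun hzz i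
  · have h4 := ((hp i).map (evz θ : LR (kdim h) →+* ℂ)).ne_zero
    have h5 : {w : ℂ | ((p i).map (evz θ : LR (kdim h) →+* ℂ)).IsRoot w} =
        (((p i).map (evz θ : LR (kdim h) →+* ℂ)).roots.toFinset : Set ℂ) := by
      ext w
      simp [Polynomial.mem_roots h4]
    rw [h5]
    exact Finset.finite_toSet _

theorem continuous_coord {e : ℕ} (i : Fin e) : Continuous fun z : Fin e → ℂˣ => (z i : ℂ) :=
  Units.continuous_val.comp (continuous_apply i)

theorem tendsto_mul_expI {e : ℕ} (θ₀ : Fin e → ℂˣ) :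
    Tendsto (fun x : Fin e → ℝ => θ₀ * expI x) (𝓝 0) (𝓝 θ₀) := by
  have h2 : Continuous (fun x : Fin e → ℝ => θ₀ * expI x) :=
    continuous_const.mul continuous_expI
  have h3 := h2.tendsto 0
  have h4 : θ₀ * expI (0 : Fin e → ℝ) = θ₀ := by
    have : expI (0 : Fin e → ℝ) = 1 := by
      ext i; simp [expI]
    rw [this, mul_one]
  rwa [h4] at h3

/-- `F` has a simple root at a real point, if it separates the fibre -/
theorem Pack.simple_root (P : Pack h c X R C A B t C₃ C₄ C₅ C₆ β) {ε₀ : ℝ} (hε₀ : 0 < ε₀)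
    (hsep : Sep c β ε₀) (z₀ : Fin n → ℂˣ) (hz₀ : lg z₀ = 0) (hV₀ : ∀ f ∈ IdealOf c, evz z₀ f = 0)
    (F : LR n) (hF : ∀ z : Fin n → ℂˣ, (∀ f ∈ IdealOf c, evz z f = 0) → pr β z = pr β z₀ →
      evz z F = evz z₀ F → z = z₀)
    (χ : Polynomial (LR (kdim h))) (hmon : χ.Monic) (hχ : χ.eval₂ (ib β) F ∈ IdealOf c)
    (hbez : ∃ a b : Polynomial (LR (kdim h)), ∃ δ : LR (kdim h), δ ≠ 0 ∧
        a * χ + b * χ.derivative = Polynomial.C δ)
    (hlift : ∀ (θ : Fin (kdim h) → ℂˣ) (ρ : ℂ), (χ.map (evz θ : LR (kdim h) →+* ℂ)).IsRoot ρ →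
        ∃ z : Fin n → ℂˣ, (∀ f ∈ IdealOf c, evz z f = 0) ∧ pr β z = θ ∧ evz z F = ρ) :
    (χ.derivative.map (evz (pr β z₀) : LR (kdim h) →+* ℂ)).eval (evz z₀ F) ≠ 0 := by
  classical
  intro hder0
  obtain ⟨a, b, δ, hδ, hab⟩ := hbez
  obtain ⟨ε₁, hε₁, hclose⟩ := sep_close hε₀ hsep
  set θ₀ := pr β z₀ with hθ₀
  set ρ₀ := evz z₀ F with hρ₀
  have hroot0 : (χ.map (evz θ₀ : LR (kdim h) →+* ℂ)).IsRoot ρ₀ := by
    have h1 := hV₀ _ hχ
    have h2 := Polynomial.hom_eval₂ χ (ib β) (evz z₀ : LR n →+* ℂ) F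
    have h3 : ((evz z₀ : LR n →+* ℂ)).comp (ib β) = (evz θ₀ : LR (kdim h) →+* ℂ) :=
      RingHom.ext fun q => evz_ib β z₀ q
    rw [h3] at h2
    rw [Polynomial.IsRoot.def, Polynomial.eval_map]
    rw [← h1]
    exact h2.symm
  have hlgθ₀ : lg θ₀ = 0 := by
    rw [hθ₀, lg_pr_eq, hz₀]
    ext j; simp [resv, pairR]
  -- close pairs
  have hpair : ∀ ε > 0, ∃ (x : Fin (kdim h) → ℝ) (z z' : Fin n → ℂˣ), ‖x‖ < ε ∧ z ≠ z' ∧
      lg z = 0 ∧ lg z' = 0 ∧ (∀ f ∈ IdealOf c, evz z f = 0) ∧ (∀ f ∈ IdealOf c, evz z' f = 0) ∧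
      pr β z = θ₀ * expI x ∧ pr β z' = θ₀ * expI x ∧ ‖evz z F - ρ₀‖ < ε ∧ ‖evz z' F - ρ₀‖ < ε := by
    intro ε hε
    have h1 := two_roots (fun θ : Fin (kdim h) → ℂˣ => (evz θ : LR (kdim h) →+* ℂ))
      (fun p => continuous_evz p) χ hmon θ₀ ρ₀ hroot0 hder0 ε hε
    have h2 := tendsto_mul_expI θ₀
    have h3 := h2.eventually h1
    have h4 : ∀ᶠ x in 𝓝 (0 : Fin (kdim h) → ℝ), ‖x‖ < ε := by
      have := Metric.ball_mem_nhds (0 : Fin (kdim h) → ℝ) hε
      filter_upwards [this] with x hx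
      rwa [mem_ball_zero_iff] at hx
    obtain ⟨x, hx1, hx2, hx3⟩ := ((exists_ne_near δ hδ θ₀).and_eventually (h3.and h4)).exists
    obtain ⟨r, r', hrr', hr, hr', hrε, hr'ε⟩ := hx2 (by
      intro r hr hdr
      have h5 := congrArg (fun p => (p.map (evz (θ₀ * expI x) : LR (kdim h) →+* ℂ)).eval r) hab
      simp only [Polynomial.map_add, Polynomial.map_mul, Polynomial.eval_add, Polynomial.eval_mul,
        Polynomial.map_C, Polynomial.eval_C] at h5
      rw [Polynomial.IsRoot.def] at hr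
      rw [hr, hdr, mul_zero, mul_zero, add_zero] at h5
      exact hx1 h5.symm)
    obtain ⟨z, hz1, hz2, hz3⟩ := hlift _ _ hr
    obtain ⟨z', hz'1, hz'2, hz'3⟩ := hlift _ _ hr'
    have hlg : lg (θ₀ * expI x) = 0 := by rw [lg_mul, hlgθ₀, lg_expI, add_zero]
    refine ⟨x, z, z', hx3, ?_, P.fibre_real z hz1 (by rw [hz2, hlg]), P.fibre_real z' hz'1 (by rw [hz'2, hlg]),
      hz1, hz'1, hz2, hz'2, by rw [hz3]; exact hrε, by rw [hz'3]; exact hr'ε⟩
    rintro rfl
    exact hrr' (hz3.symm.trans hz'3)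
  choose x z z' hx hzz' hlz hlz' hVz hVz' hprz hprz' hFz hFz' using
    fun k : ℕ => hpair (1 / ((k : ℝ) + 1)) (by positivity)
  choose u hu hua using fun k => exists_expI (hlz k)
  choose u' hu' hua' using fun k => exists_expI (hlz' k)
  have hinv : Tendsto (fun k : ℕ => 1 / ((k : ℝ) + 1)) atTop (𝓝 0) := tendsto_one_div_add_atTop_nhds_zero_nat
  -- compactness
  set K : Set ((Fin n → ℝ) × (Fin n → ℝ)) :=
    Set.Icc (fun _ => -Real.pi) (fun _ => Real.pi) ×ˢ Set.Icc (fun _ => -Real.pi) (fun _ => Real.pi) with hK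
  have hKc : IsCompact K := isCompact_Icc.prod isCompact_Icc
  have hmemK : ∀ k, (u k, u' k) ∈ K := by
    intro k
    refine ⟨⟨fun i => ?_, fun i => ?_⟩, ⟨fun i => ?_, fun i => ?_⟩⟩
    · show _ ≤ u k i
      rw [hua]; exact (Complex.neg_pi_lt_arg _).le
    · show u k i ≤ _
      rw [hua]; exact Complex.arg_le_pi _
    · show _ ≤ u' k i
      rw [hua']; exact (Complex.neg_pi_lt_arg _).le
    · show u' k i ≤ _
      rw [hua']; exact Complex.arg_le_pi _
  obtain ⟨⟨v, v'⟩, -, φ, hφ, hlim⟩ := hKc.tendsto_subseq hmemK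
  have hlimu : Tendsto (fun k => u (φ k)) atTop (𝓝 v) := (continuous_fst.tendsto _).comp hlim
  have hlimu' : Tendsto (fun k => u' (φ k)) atTop (𝓝 v') := (continuous_snd.tendsto _).comp hlim
  have hgen : ∀ (w : ℕ → (Fin n → ℂˣ)) (s : ℕ → (Fin n → ℝ)) (s₀ : Fin n → ℝ), (∀ k, w k = expI (s k)) →
      (∀ k, ∀ f ∈ IdealOf c, evz (w k) f = 0) → (∀ k, pr β (w k) = θ₀ * expI (x k)) →
      (∀ k, ‖evz (w k) F - ρ₀‖ < 1 / ((k : ℝ) + 1)) → Tendsto (fun k => s (φ k)) atTop (𝓝 s₀) →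
      Tendsto (fun k => w (φ k)) atTop (𝓝 z₀) := by
    intro w s s₀ hws hw1 hw2 hw3 hs
    have hlw : Tendsto (fun k => w (φ k)) atTop (𝓝 (expI s₀)) := by
      have h1 := (continuous_expI.tendsto s₀).comp hs
      refine h1.congr fun k => ?_
      rw [Function.comp_apply, hws]
    have hV : ∀ f ∈ IdealOf c, evz (expI s₀) f = 0 := by
      intro f hf
      have h1 := ((continuous_evz f).tendsto _).comp hlw
      have h2 : (fun z : Fin n → ℂˣ => evz z f) ∘ (fun k => w (φ k)) = fun _ => 0 := by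
        ext k; exact hw1 _ f hf
      rw [h2] at h1
      exact tendsto_nhds_unique tendsto_const_nhds h1 |>.symm
    have hpr : pr β (expI s₀) = θ₀ := by
      ext j
      have h1 := ((continuous_chrU (β (Pi.single j 1))).tendsto _).comp hlw
      have hx0 : Tendsto (fun k => x (φ k)) atTop (𝓝 0) := by
        rw [tendsto_zero_iff_norm_tendsto_zero]
        refine squeeze_zero (fun k => norm_nonneg _) (fun k => (hx (φ k)).le) ?_
        exact hinv.comp hφ.tendsto_atTop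
      have h2 : Tendsto (fun k => θ₀ * expI (x (φ k))) atTop (𝓝 θ₀) := (tendsto_mul_expI θ₀).comp hx0
      have h3 : Tendsto (fun k => (((θ₀ * expI (x (φ k))) j : ℂˣ) : ℂ)) atTop (𝓝 ((θ₀ j : ℂˣ) : ℂ)) :=
        ((continuous_coord j).tendsto _).comp h2
      have h4 : (fun z : Fin n → ℂˣ => (chrU z (β (Pi.single j 1)) : ℂ)) ∘ (fun k => w (φ k)) =
          fun k => (((θ₀ * expI (x (φ k))) j : ℂˣ) : ℂ) := by
        ext k
        rw [← hw2]
        rfl
      rw [h4] at h1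
      exact tendsto_nhds_unique h1 h3
    have hFF : evz (expI s₀) F = ρ₀ := by
      have h1 := ((continuous_evz F).tendsto _).comp hlw
      have h2 : Tendsto (fun k => evz (w (φ k)) F) atTop (𝓝 ρ₀) := by
        rw [tendsto_iff_norm_sub_tendsto_zero]
        refine squeeze_zero (fun k => norm_nonneg _) (fun k => (hw3 (φ k)).le) ?_
        exact hinv.comp hφ.tendsto_atTop
      exact tendsto_nhds_unique h1 h2
    have h5 := hF (expI s₀) hV hpr hFF
    rwa [h5] at hlw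
  have hz1 := hgen z u v hu hVz hprz hFz hlimu
  have hz2 := hgen z' u' v' hu' hVz' hprz' hFz' hlimu'
  have hev : ∀ᶠ k in atTop, ∀ i, ‖(z' (φ k) i : ℂ) / (z (φ k) i : ℂ) - 1‖ < ε₁ := by
    rw [Filter.eventually_all]
    intro i
    have h1 : Tendsto (fun k => (z (φ k) i : ℂ)) atTop (𝓝 (z₀ i : ℂ)) :=
      ((continuous_coord i).tendsto _).comp hz1
    have h2 : Tendsto (fun k => (z' (φ k) i : ℂ)) atTop (𝓝 (z₀ i : ℂ)) :=
      ((continuous_coord i).tendsto _).comp hz2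
    have h3 := (h2.div h1 (z₀ i).ne_zero).sub_const 1
    rw [div_self (z₀ i).ne_zero, sub_self] at h3
    have h4 := h3.norm
    rw [norm_zero] at h4
    exact h4.eventually (gt_mem_nhds hε₁)
  obtain ⟨k, hk⟩ := hev.exists
  exact hzz' (φ k) (hclose _ _ (hlz _) (hlz' _) (hVz _) (hVz' _) (by rw [hprz, hprz']) hk)

/-- smoothness: the tangent space is transversal to the fibres -/
theorem Pack.smooth (P : Pack h c X R C A B t C₃ C₄ C₅ C₆ β) {ε₀ : ℝ} (hε₀ : 0 < ε₀)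
    (hsep : Sep c β ε₀) (z₀ : Fin n → ℂˣ) (hz₀ : lg z₀ = 0) (hV₀ : ∀ f ∈ IdealOf c, evz z₀ f = 0)
    (τ : Fin n → ℂ) (hτ0 : τ ≠ 0) (hτ : ∀ m, pairC τ (β m) = 0) :
    ∃ f ∈ IdealOf c, der z₀ τ f ≠ 0 := by
  classical
  have hfin := P.fibre_finite (pr β z₀)
  set S := hfin.toFinset.erase z₀ with hS
  have hSmem : ∀ z : Fin n → ℂˣ, (∀ f ∈ IdealOf c, evz z f = 0) → pr β z = pr β z₀ → z ≠ z₀ → z ∈ S := by
    intro z h1 h2 h3
    rw [hS, Finset.mem_erase, Set.Finite.mem_toFinset]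
    exact ⟨h3, h1, h2⟩
  let vv : Option S → (Fin n → ℂ) := fun o => match o with
    | none => fun i => (z₀ i : ℂ) * τ i
    | some z => fun i => (z.1 i : ℂ) - (z₀ i : ℂ)
  obtain ⟨g, hg⟩ := Module.exists_dual_forall_apply_ne_zero (K := ℂ) vv (by
    intro o
    cases o with
    | none =>
      intro h0
      apply hτ0
      ext i
      have := congrFun h0 i
      rcases mul_eq_zero.1 this with h | h
      · exact absurd h (z₀ i).ne_zero
      · exact h
    | some z =>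
      intro h0
      have h1 : z.1 ≠ z₀ := (Finset.mem_erase.1 z.2).1
      apply h1
      ext i
      exact sub_eq_zero.1 (congrFun h0 i))
  have hgsum : ∀ v : Fin n → ℂ, g v = ∑ i, v i * g (Pi.single i 1) := by
    intro v
    have h1 : v = ∑ i, v i • (Pi.single i (1:ℂ) : Fin n → ℂ) := by
      ext j
      simp [Finset.sum_apply, Pi.single_apply]
    conv_lhs => rw [h1]
    rw [map_sum]
    exact Finset.sum_congr rfl fun i _ => by rw [map_smul, smul_eq_mul]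
  set F : LR n := ∑ i, AddMonoidAlgebra.single (Pi.single i 1) (g (Pi.single i 1)) with hF
  have hevF : ∀ z : Fin n → ℂˣ, evz z F = g (fun i => (z i : ℂ)) := by
    intro z
    rw [hF, map_sum, hgsum]
    refine Finset.sum_congr rfl fun i _ => ?_
    rw [evz_single, chrU_single, zpow_one, mul_comm]
  have hderF : der z₀ τ F = g (fun i => (z₀ i : ℂ) * τ i) := by
    rw [hF, der_sum, hgsum]
    refine Finset.sum_congr rfl fun i _ => ?_
    rw [der_single, chrU_single, zpow_one, pairC, Finset.sum_eq_single i]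
    · simp; ring
    · intro j _ hj; simp [Pi.single_eq_of_ne hj]
    · simp
  obtain ⟨χ, hmon, hχ, hbez, hlift⟩ := P.exists_squarefree F
  refine ⟨_, hχ, ?_⟩
  rw [der_eval₂ β z₀ τ hτ]
  refine mul_ne_zero ?_ ?_
  · refine P.simple_root hε₀ hsep z₀ hz₀ hV₀ F ?_ χ hmon hχ hbez hlift
    intro z h1 h2 h3
    by_contra hne
    have h4 := hg (some ⟨z, hSmem z h1 h2 hne⟩)
    apply h4
    rw [hevF, hevF] at h3
    have h5 : vv (some ⟨z, hSmem z h1 h2 hne⟩) = (fun i => (z i : ℂ)) - (fun i => (z₀ i : ℂ)) := rfl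
    rw [h5, map_sub, h3, sub_self]
  · rw [hderF]
    exact hg none

end FQ
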