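import Mathlib
import Pool.Agent.Helper46.FQ.Dim
import Pool.Agent.Helper46.FQ.Smooth2

/-!
Invariance under `z ↦ 1/z̄`; smoothness in the affine chart.
-/

namespace FQ

open Finset AddMonoidAlgebra
open scoped OnePoint

variable {n : ℕ}

/-- `f*` with coefficients `conj (f (-ζ))` -/
noncomputable def stf (f : LR n) : LR n :=
  AddMonoidAlgebra.ofCoeff (Finsupp.equivMapDomain (Equiv.neg _)
    (f.coeff.mapRange (starRingEnd ℂ) (map_zero _)))

theorem stf_coeff (f : LR n) (ζ : Fin n → ℤ) : (stf f).coeff ζ = starRingEnd ℂ (f.coeff (-ζ)) := by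
  show Finsupp.equivMapDomain (Equiv.neg _) _ ζ = _
  rw [Finsupp.equivMapDomain_apply, Finsupp.mapRange_apply]
  rfl

theorem stf_support (f : LR n) : (stf f).coeff.support = f.coeff.support.map (Equiv.neg _).toEmbedding := by
  ext ζ
  rw [Finsupp.mem_support_iff, stf_coeff, Finset.mem_map_equiv, Finsupp.mem_support_iff]
  simp

theorem EB_stf {N : ℕ} {f : LR n} (hf : EB N f) : EB N (stf f) := by
  intro ζ hζ i
  rw [Finsupp.mem_support_iff, stf_coeff] at hζ
  have h1 : -ζ ∈ f.coeff.support := by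
    rw [Finsupp.mem_support_iff]
    intro h0
    rw [h0, map_zero] at hζ
    exact hζ rfl
  have := hf _ h1 i
  rwa [Pi.neg_apply, abs_neg] at this

theorem evz_stf (f : LR n) (z : Fin n → ℂˣ) (hz : lg z = 0) : evz z (stf f) = starRingEnd ℂ (evz z f) := by
  rw [evz_eq_sum, stf_support, Finset.sum_map, evz_eq_sum, map_sum]
  refine Finset.sum_congr rfl fun ζ _ => ?_
  rw [stf_coeff, map_mul]
  simp only [Equiv.coe_toEmbedding, Equiv.neg_apply, neg_neg]
  congr 1
  rw [chrU, chrU, Units.coe_prod, Units.coe_prod, map_prod]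
  refine Finset.prod_congr rfl fun i _ => ?_
  have h1 := norm_eq_one_of_lg hz i
  rw [Pi.neg_apply, Units.val_zpow_eq_zpow_val, Units.val_zpow_eq_zpow_val, zpow_neg, ← inv_zpow,
    Complex.inv_def, Complex.normSq_eq_norm_sq, h1, map_zpow₀]
  simp

/-- unit factor for the involution -/
noncomputable def ui (N : ℕ) (z : OnePoint ℂ) : ℂ :=
  z.elim 1 (fun w => if w = 0 then 1 else ((starRingEnd ℂ w)⁻¹) ^ (2 * N))

theorem hc_invConj (N : ℕ) (k : ℤ) (hk : |k| ≤ N) (z : OnePoint ℂ) :
    hc N k (invConj z) = ui N z * starRingEnd ℂ (hc N (-k) z) := by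
  have hk1 := abs_le.1 hk
  induction z using OnePoint.rec with
  | infty =>
    show hc N k ((0 : ℂ) : OnePoint ℂ) = 1 * _
    rw [hc, OnePoint.elim_some, hc, OnePoint.elim_infty, one_mul]
    by_cases h : -k = N
    · rw [if_pos h, map_one]
      have : ((N : ℤ) + k).toNat = 0 := by omega
      rw [this, pow_zero]
    · rw [if_neg h, map_zero, zero_pow]
      omega
  | coe w =>
    show hc N k (invP (starRingEnd ℂ w)) = _
    rw [ui, OnePoint.elim_some, hc, hc, OnePoint.elim_some]
    by_cases hw : w = 0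
    · rw [if_pos hw, hw, map_zero, invP, if_pos rfl, OnePoint.elim_infty, one_mul]
      by_cases h : k = N
      · rw [if_pos h]
        have : ((N : ℤ) + -k).toNat = 0 := by omega
        rw [this, pow_zero, map_one]
      · rw [if_neg h, zero_pow, map_zero]
        omega
    · have hw' : starRingEnd ℂ w ≠ 0 := by
        rw [Ne, map_eq_zero]; exact hw
      rw [if_neg hw, invP, if_neg hw', OnePoint.elim_some, map_pow]
      have h1 : (2 * N : ℕ) = ((N : ℤ) + k).toNat + ((N : ℤ) + -k).toNat := by omega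
      rw [h1, pow_add, mul_assoc, ← mul_pow, inv_mul_cancel₀ hw', one_pow, mul_one]

theorem invariant_XI (I : Ideal (LR n)) (hI : ∀ f ∈ I, stf f ∈ I) (p : Fin n → OnePoint ℂ)
    (hp : p ∈ XI I) : (fun i => invConj (p i)) ∈ XI I := by
  intro f hf N hN
  have h1 := hp _ (hI f hf) N (EB_stf hN)
  have h2 : homog N f (fun i => invConj (p i)) = (∏ i, ui N (p i)) * starRingEnd ℂ (homog N (stf f) p) := by
    rw [homog, homog, Finsupp.sum, Finsupp.sum, stf_support, Finset.sum_map, map_sum, Finset.mul_sum]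
    refine Finset.sum_congr rfl fun ζ hζ => ?_
    rw [map_mul, stf_coeff]
    simp only [Equiv.coe_toEmbedding, Equiv.neg_apply, neg_neg, Complex.conj_conj]
    rw [mul_left_comm, map_prod, ← Finset.prod_mul_distrib]
    congr 1
    exact Finset.prod_congr rfl fun i _ => hc_invConj N (ζ i) (hN ζ hζ i) (p i)
  rw [h2, h1, map_zero, mul_zero]

/-- gradients in the affine chart -/
theorem grad_eq (z : Fin n → ℂˣ) (i : Fin n) (q : MvPolynomial (Fin n) ℂ) :
    (z i : ℂ) * MvPolynomial.eval (fun i => (z i : ℂ)) (MvPolynomial.pderiv i q) =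
      der z (Pi.single i 1) (kap ∅ q) := by
  have hs : ∀ i, sgnc (∅ : Finset (Fin n)) i = 1 := fun i => by simp [sgnc]
  induction q using MvPolynomial.induction_on' with
  | monomial α a =>
    have hsv : (sv (∅ : Finset (Fin n)) fun i => (α i : ℤ)) = fun i => (α i : ℤ) := by
      ext j; rw [sv, hs, one_mul]
    rw [MvPolynomial.pderiv_monomial, MvPolynomial.eval_monomial, kap_monomial, hsv, der_single,
      Finsupp.prod_fintype _ _ (by simp), chrU, Units.coe_prod]
    have h1 : pairC (Pi.single i 1) (fun i => (α i : ℤ)) = α i := by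
      rw [pairC, Finset.sum_eq_single i]
      · simp
      · intro j _ hj; simp [Pi.single_eq_of_ne hj]
      · simp
    rw [h1]
    by_cases hα : α i = 0
    · rw [hα]; simp
    · have h2 : ∏ j, ((z j ^ (α j : ℤ) : ℂˣ) : ℂ) = (z i : ℂ) * ∏ j, (z j : ℂ) ^ ((α - Finsupp.single i 1 : Fin n →₀ ℕ) j) := by
        rw [← Finset.mul_prod_erase _ _ (Finset.mem_univ i), ← Finset.mul_prod_erase _ _ (Finset.mem_univ i),
          ← mul_assoc]
        congr 1
        · rw [zpow_natCast, Units.val_pow_eq_pow_val, Finsupp.tsub_apply, Finsupp.single_eq_same,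
            ← pow_succ']
          congr 1; omega
        · refine Finset.prod_congr rfl fun j hj => ?_
          rw [zpow_natCast, Units.val_pow_eq_pow_val, Finsupp.tsub_apply,
            Finsupp.single_eq_of_ne (Finset.mem_erase.1 hj).1, tsub_zero]
      rw [h2]; ring
  | add p q hp hq => rw [map_add, map_add, mul_add, hp, hq, map_add, der_add]

theorem der_eq_sum (z : Fin n → ℂˣ) (τ : Fin n → ℂ) (f : LR n) :
    der z τ f = ∑ i, τ i * der z (Pi.single i 1) f := by
  induction f using AddMonoidAlgebra.induction_linear with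
  | zero => simp [der_zero]
  | add f g hf hg =>
    rw [der_add, hf, hg, ← Finset.sum_add_distrib]
    exact Finset.sum_congr rfl fun i _ => by rw [der_add]; ring
  | single ζ a =>
    simp only [der_single]
    have h1 : ∀ i, pairC (Pi.single i 1) ζ = ζ i := by
      intro i
      rw [pairC, Finset.sum_eq_single i]
      · simp
      · intro j _ hj; simp [Pi.single_eq_of_ne hj]
      · simp
    simp only [h1]
    rw [pairC, Finset.mul_sum, Finset.mul_sum]
    exact Finset.sum_congr rfl fun i _ => by ring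

theorem der_smul (z : Fin n → ℂˣ) (τ : Fin n → ℂ) (a : ℂ) (f : LR n) : der z τ (a • f) = a * der z τ f := by
  rw [der, map_smul, TrivSqZeroExt.snd_smul]; rfl

variable {E : Type*} [NormedAddCommGroup E] [InnerProductSpace ℝ E]
  [FiniteDimensional ℝ E]
  {h : (Fin n → ℤ) →+ E} {c : (Fin n → ℤ) → ℂ} {X : Set (Fin n → ℂˣ)} {R C : ℝ}
  {A B t C₃ C₄ C₅ C₆ : ℝ} {β : (Fin (kdim h) → ℤ) →+ (Fin n → ℤ)}

theorem smooth_XI (P : Pack h c X R C A B t C₃ C₄ C₅ C₆ β) (hspan : Submodule.span ℝ (Set.range h) = ⊤)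
    {ε₀ : ℝ} (hε₀ : 0 < ε₀) (hsep : Sep c β ε₀) (z₀ : Fin n → ℂˣ) (hz₀ : lg z₀ = 0)
    (hV₀ : ∀ f ∈ IdealOf c, evz z₀ f = 0) (d : ℕ) (hd : Module.finrank ℝ E = d) :
    IsSmoothAt (XI (IdealOf c)) d (fun i => (z₀ i : ℂ)) := by
  classical
  -- the gradient map
  let G : (IdealOf c).restrictScalars ℂ →ₗ[ℂ] (Fin n → ℂ) :=
    { toFun := fun f => fun i => der z₀ (Pi.single i 1) (f : LR n)
      map_add' := by
        intro f g; ext i
        exact der_add _ _ _ _
      map_smul' := by
        intro a f; ext i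
        exact der_smul _ _ _ _ }
  have hG : ∀ (f : LR n) (hf : f ∈ IdealOf c) i, G ⟨f, hf⟩ i = der z₀ (Pi.single i 1) f := fun f hf i => rfl
  -- K_β
  let Kb : (Fin n → ℂ) →ₗ[ℂ] (Fin (kdim h) → ℂ) :=
    LinearMap.pi fun j => ∑ i, ((β (Pi.single j 1) i : ℤ) : ℂ) • (LinearMap.proj i : (Fin n → ℂ) →ₗ[ℂ] ℂ)
  have hKb : ∀ τ j, Kb τ j = pairC τ (β (Pi.single j 1)) := by
    intro τ j
    simp only [Kb, LinearMap.pi_apply, LinearMap.sum_apply, LinearMap.smul_apply, LinearMap.proj_apply,
      smul_eq_mul, pairC]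
  have hKb' : ∀ τ ∈ Kb.ker, ∀ m, pairC τ (β m) = 0 := by
    intro τ hτ m
    have h0 : ∀ j, pairC τ (β (Pi.single j 1)) = 0 := fun j => by
      rw [← hKb]; exact congrFun (LinearMap.mem_ker.1 hτ) j
    have h1 : m = ∑ j, m j • (Pi.single j 1 : Fin (kdim h) → ℤ) := by
      ext i
      simp [Finset.sum_apply, Pi.single_apply]
    have h2 : ∀ T : Finset (Fin (kdim h)), pairC τ (∑ j ∈ T, m j • β (Pi.single j 1)) = 0 := by
      intro T
      induction T using Finset.induction_on with
      | empty => simp [pairC_zero]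
      | insert j T hj ih =>
        rw [Finset.sum_insert hj, pairC_add, ih, add_zero]
        have : pairC τ (m j • β (Pi.single j 1)) = m j * pairC τ (β (Pi.single j 1)) := by
          simp [pairC, Finset.mul_sum, mul_assoc]
        rw [this, h0, mul_zero]
    rw [h1, map_sum]
    simp only [map_zsmul]
    exact h2 Finset.univ
  have hdimK : d ≤ Module.finrank ℂ Kb.ker := by
    have h1 := Kb.finrank_range_add_finrank_ker
    have h2 := Submodule.finrank_le Kb.range
    rw [Module.finrank_fin_fun] at h1 h2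
    have h3 := kdim_add hspan
    omega
  -- pairing
  let pair : Kb.ker →ₗ[ℂ] Module.Dual ℂ G.range :=
    LinearMap.mk₂ ℂ (fun (τ : Kb.ker) (v : G.range) => ∑ i, (τ : Fin n → ℂ) i * (v : Fin n → ℂ) i)
      (by
        intro τ σ v
        rw [← Finset.sum_add_distrib]
        exact Finset.sum_congr rfl fun i _ => by
          rw [Submodule.coe_add, Pi.add_apply]; ring)
      (by
        intro a τ v
        rw [smul_eq_mul, Finset.mul_sum]
        exact Finset.sum_congr rfl fun i _ => by
          rw [Submodule.coe_smul, Pi.smul_apply, smul_eq_mul]; ring)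
      (by
        intro τ v w
        rw [← Finset.sum_add_distrib]
        exact Finset.sum_congr rfl fun i _ => by
          rw [Submodule.coe_add, Pi.add_apply]; ring)
      (by
        intro a τ v
        rw [smul_eq_mul, Finset.mul_sum]
        exact Finset.sum_congr rfl fun i _ => by
          rw [Submodule.coe_smul, Pi.smul_apply, smul_eq_mul]; ring)
  have hpair : ∀ (τ : Kb.ker) (v : G.range), pair τ v = ∑ i, (τ : Fin n → ℂ) i * (v : Fin n → ℂ) i :=
    fun τ v => rfl
  have hpinj : Function.Injective pair := by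
    rw [injective_iff_map_eq_zero]
    intro τ hτ
    by_contra hne
    have hne' : (τ : Fin n → ℂ) ≠ 0 := fun h0 => hne (Subtype.ext h0)
    obtain ⟨f, hf, hder⟩ := P.smooth hε₀ hsep z₀ hz₀ hV₀ (τ : Fin n → ℂ) hne' (hKb' _ τ.2)
    apply hder
    have h1 := LinearMap.congr_fun hτ ⟨G ⟨f, hf⟩, LinearMap.mem_range_self _ _⟩
    rw [hpair] at h1
    rw [der_eq_sum]
    exact h1
  have hdimW : d ≤ Module.finrank ℂ G.range := by
    have h1 := LinearMap.finrank_le_finrank_of_injective hpinj
    rw [Subspace.dual_finrank_eq] at h1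
    omega
  -- choose vectors
  let b := Module.finBasis ℂ G.range
  let v : Fin d → G.range := fun j => b (Fin.castLE hdimW j)
  have hv : LinearIndependent ℂ v := b.linearIndependent.comp _ (Fin.castLE_injective hdimW)
  have hv' : LinearIndependent ℂ (fun j => (v j : Fin n → ℂ)) := hv.map' G.range.subtype (Submodule.ker_subtype _)
  choose F hF using fun j => LinearMap.mem_range.1 (v j).2
  obtain ⟨N, hN⟩ : ∃ N : ℕ, ∀ j, EB N (F j : LR n) := by
    choose N hN using fun j => exists_EB (F j : LR n)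
    refine ⟨Finset.univ.sup N, fun j ζ hζ i => (hN j ζ hζ i).trans ?_⟩
    exact_mod_cast Finset.le_sup (Finset.mem_univ j)
  refine ⟨fun j => hp ∅ N (F j : LR n), fun j => ?_, ?_⟩
  · rw [idealAt_XI _ P.D.isRadical, Ideal.mem_comap, kap_hp ∅ N _ (hN j)]
    exact Ideal.mul_mem_left _ _ (F j).2
  · -- diagonal scaling
    set u : ℂ := evz z₀ (AddMonoidAlgebra.single (sv ∅ fun _ => (N : ℤ)) 1) with hu
    have hu0 : u ≠ 0 := by
      rw [hu, evz_single, one_mul]
      exact Units.ne_zero _
    have hgrad : ∀ j i, MvPolynomial.eval (fun i => (z₀ i : ℂ)) (MvPolynomial.pderiv i (hp ∅ N (F j : LR n))) =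
        (z₀ i : ℂ)⁻¹ * (u * (v j : Fin n → ℂ) i) := by
      intro j i
      have h1 := grad_eq z₀ i (hp ∅ N (F j : LR n))
      rw [kap_hp ∅ N _ (hN j), der_mul, hV₀ _ (F j).2, zero_mul, add_zero, ← hu] at h1
      have h2 : der z₀ (Pi.single i 1) (F j : LR n) = (v j : Fin n → ℂ) i := by
        rw [← hF j]; rfl
      rw [h2] at h1
      rw [← h1, ← mul_assoc, inv_mul_cancel₀ (z₀ i).ne_zero, one_mul]
    rw [linearIndependent_iff'] at hv' ⊢
    intro s g hg j hj
    apply hv' s g ?_ j hj
    ext i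
    have h1 := congrFun hg i
    rw [Finset.sum_apply] at h1 ⊢
    simp only [Pi.smul_apply, smul_eq_mul, Pi.zero_apply] at h1 ⊢
    have h2 : ∑ j ∈ s, g j * MvPolynomial.eval (fun i => (z₀ i : ℂ)) (MvPolynomial.pderiv i (hp ∅ N (F j : LR n)))
        = ((z₀ i : ℂ)⁻¹ * u) * ∑ j ∈ s, g j * (v j : Fin n → ℂ) i := by
      rw [Finset.mul_sum]
      exact Finset.sum_congr rfl fun j _ => by rw [hgrad]; ring
    rw [h2] at h1
    exact (mul_eq_zero.1 h1).resolve_left (mul_ne_zero (inv_ne_zero (z₀ i).ne_zero) hu0)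

end FQ
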