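import Pool.Agent.Helper46.FQ.QC2

/-!
Iteration of `1 - T`; finite generation of the spectrum; separating functions.
-/

namespace FQ

open MeasureTheory Finset Filter Topology
open scoped FourierTransform SchwartzMap ContDiff

variable {E : Type*} [NormedAddCommGroup E] [InnerProductSpace ℝ E] [FiniteDimensional ℝ E]
  [MeasurableSpace E] [BorelSpace E] {G : Type*} [AddCommGroup G]
  {Λ : Set E} {h : G →+ E} {c : G → ℂ}

/-- iterates of `1 - T` -/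
noncomputable def uJ (h : G →+ E) (c : G → ℂ) (hlf : ∀ r, {ξ | c ξ ≠ 0 ∧ ‖h ξ‖ ≤ r}.Finite)
    (ρ : E → ℂ) (hρ : HasCompactSupport ρ) (u₀ : G →₀ ℂ) : ℕ → G →₀ ℂ
  | 0 => u₀
  | J + 1 => uJ h c hlf ρ hρ u₀ J - Top h c hlf ρ hρ (uJ h c hlf ρ hρ u₀ J)

theorem QC.uJ_bound (Q : QC Λ h c) (ρ : 𝓢(E, ℂ)) (hρ : HasCompactSupport ρ)
    (hone : 𝓕 ρ 0 = 1) (hκ : ∀ z ∈ Λ, ∀ t : Finset Λ,
      (∀ x ∈ t, (x : E) ≠ z) → ∑ x ∈ t, ‖𝓕 ρ ((x : E) - z)‖ ≤ 1 / 4) (u₀ : G →₀ ℂ)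
    (hu₀ : ∀ x ∈ Λ, ‖evE h u₀ x‖ ≤ 1) (J : ℕ) :
    ∀ x ∈ Λ, ‖evE h (uJ h c Q.lf ρ hρ u₀ J) x‖ ≤ (1 / 4) ^ J := by
  induction J with
  | zero => simpa [uJ] using hu₀
  | succ J ih =>
    intro x hx
    rw [uJ, evE_sub, pow_succ]
    exact Q.norm_sub_Top_le ρ hρ hone _ _ ih (by positivity) (1 / 4) x hx (hκ x hx)

/-- (A8) finite generation of the spectrum -/
theorem QC.fg {c : E → ℂ} (Q : QC Λ (AddMonoidHom.id E) c) : ∃ r : ℝ,
    {ξ | c ξ ≠ 0} ⊆ AddSubgroup.closure ({ξ | c ξ ≠ 0 ∧ ‖ξ‖ ≤ r} : Set E) := by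
  classical
  obtain ⟨ρ, hρ, hone, hρ0, hκ⟩ := Q.ud.exists_kernel (1 / 4) (by norm_num)
  obtain ⟨r', hr'⟩ := exists_radius hρ
  set r := max r' 0 with hr
  have hr0 : 0 ≤ r := le_max_right _ _
  have hrρ : ∀ ξ, r < ‖ξ‖ → ρ ξ = 0 := fun ξ hξ => hr' ξ (lt_of_le_of_lt (le_max_left _ _) hξ)
  obtain ⟨C, hC0, hC⟩ := Q.coeff_bound
  refine ⟨2 * r + 1, ?_⟩
  set Γ := AddSubgroup.closure ({ξ | c ξ ≠ 0 ∧ ‖ξ‖ ≤ 2 * r + 1} : Set E) with hΓ
  by_contra hnot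
  rw [Set.not_subset] at hnot
  obtain ⟨ξ₂, hξ₂, hξ₂Γ⟩ := hnot
  have hfin : {ξ | (c ξ ≠ 0 ∧ ‖ξ‖ ≤ ‖ξ₂‖) ∧ ξ ∉ Γ}.Finite := (Q.lf ‖ξ₂‖).subset (fun ξ hξ => hξ.1)
  obtain ⟨ξ₁, hξ₁mem, hmin'⟩ := hfin.toFinset.exists_min_image (fun ξ => ‖ξ‖)
    ⟨ξ₂, by rw [Set.Finite.mem_toFinset]; exact ⟨⟨hξ₂, le_rfl⟩, hξ₂Γ⟩⟩
  rw [Set.Finite.mem_toFinset] at hξ₁mem
  obtain ⟨⟨hξ₁, hξ₁le⟩, hξ₁Γ⟩ := hξ₁mem
  have hmin : ∀ ξ, c ξ ≠ 0 → ‖ξ‖ < ‖ξ₁‖ → ξ ∈ Γ := by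
    intro ξ hξ hlt
    by_contra hn
    have := hmin' ξ (by rw [Set.Finite.mem_toFinset]; exact ⟨⟨hξ, by linarith⟩, hn⟩)
    linarith
  have hbig : 2 * r + 1 < ‖ξ₁‖ := by
    by_contra hcon
    push Not at hcon
    exact hξ₁Γ (AddSubgroup.subset_closure ⟨hξ₁, hcon⟩)
  have hpos : 0 < ‖ξ₁‖ := by linarith
  set s : E := (-(r + 1 / 2) / ‖ξ₁‖) • ξ₁ with hs
  have hsnorm : ‖s‖ = r + 1 / 2 := by
    rw [hs, norm_smul, norm_div, norm_neg, norm_norm, Real.norm_of_nonneg (by positivity)]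
    field_simp
  have hsξ : ‖s + ξ₁‖ = ‖ξ₁‖ - (r + 1 / 2) := by
    have h1 : s + ξ₁ = ((‖ξ₁‖ - (r + 1 / 2)) / ‖ξ₁‖) • ξ₁ := by
      rw [hs, ← one_smul ℝ ξ₁, smul_smul, smul_smul, ← add_smul]
      congr 1
      rw [one_smul]
      field_simp
      ring
    rw [h1, norm_smul, norm_div, norm_norm, Real.norm_of_nonneg (by linarith)]
    field_simp
  set U := uJ (AddMonoidHom.id E) c Q.lf ρ hρ (Finsupp.single s 1) with hU
  -- support properties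
  have hsupp : ∀ J, U J s = 1 ∧ ∀ ζ ∈ (U J).support, ζ - s ∈ Γ ∧ (ζ ≠ s → ‖ζ‖ ≤ r) := by
    intro J
    induction J with
    | zero =>
      refine ⟨by simp [hU, uJ], fun ζ hζ => ?_⟩
      have h1 : ζ = s := by
        have : ζ ∈ (Finsupp.single s (1:ℂ)).support := hζ
        have := Finsupp.support_single_subset this
        rwa [Finset.mem_singleton] at this
      rw [h1, sub_self]
      exact ⟨Γ.zero_mem, fun h => absurd rfl h⟩
    | succ J ih =>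
      have hrec : U (J + 1) = U J - Top (AddMonoidHom.id E) c Q.lf ρ hρ (U J) := rfl
      have hTs : ∀ η, Top (AddMonoidHom.id E) c Q.lf ρ hρ (U J) η ≠ 0 → ‖η‖ ≤ r ∧ η - s ∈ Γ := by
        intro η hη
        rw [Top_apply] at hη
        have h1 : ‖η‖ ≤ r := by
          by_contra hcon
          exact left_ne_zero_of_mul hη (hrρ _ (not_le.1 hcon))
        refine ⟨h1, ?_⟩
        obtain ⟨ζ, hζ, hcz⟩ := exists_of_conv_ne (right_ne_zero_of_mul hη)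
        have h2 := ih.2 ζ hζ
        have h3 : ‖ζ‖ ≤ r + 1 / 2 := by
          by_cases hζs : ζ = s
          · rw [hζs, hsnorm]
          · linarith [h2.2 hζs]
        have h4 : η - ζ ∈ Γ := by
          apply AddSubgroup.subset_closure
          refine ⟨hcz, (norm_sub_le _ _).trans (by linarith)⟩
        have h5 := Γ.add_mem h4 h2.1
        rwa [sub_add_sub_cancel] at h5
      constructor
      · rw [hrec, Finsupp.sub_apply, ih.1]
        have : Top (AddMonoidHom.id E) c Q.lf ρ hρ (U J) s = 0 := by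
          by_contra hne
          have := (hTs s hne).1
          rw [hsnorm] at this
          linarith
        rw [this, sub_zero]
      · intro ζ hζ
        rw [hrec, Finsupp.mem_support_iff, Finsupp.sub_apply] at hζ
        by_cases hT : Top (AddMonoidHom.id E) c Q.lf ρ hρ (U J) ζ = 0
        · rw [hT, sub_zero] at hζ
          exact ih.2 ζ (Finsupp.mem_support_iff.2 hζ)
        · have := hTs ζ hT
          exact ⟨this.2, fun _ => this.1⟩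
  have hconv : ∀ J, conv (U J) c (s + ξ₁) = c ξ₁ := by
    intro J
    obtain ⟨h1, h2⟩ := hsupp J
    rw [conv_eq_sum, Finset.sum_eq_single s]
    · rw [h1, one_mul, add_sub_cancel_left]
    · intro ζ hζ hζs
      obtain ⟨h3, h4⟩ := h2 ζ hζ
      have h4 := h4 hζs
      have h5 : c (s + ξ₁ - ζ) = 0 := by
        by_contra hne
        have h6 : ‖s + ξ₁ - ζ‖ < ‖ξ₁‖ := by
          refine lt_of_le_of_lt (norm_sub_le _ _) ?_
          rw [hsξ]; linarith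
        have h7 := Γ.add_mem (hmin _ hne h6) h3
        have h8 : s + ξ₁ - ζ + (ζ - s) = ξ₁ := by abel
        rw [h8] at h7
        exact hξ₁Γ h7
      rw [h5, mul_zero]
    · intro hs'
      rw [Finsupp.notMem_support_iff] at hs'
      rw [hs', zero_mul]
  have hle : ∀ J : ℕ, ‖c ξ₁‖ ≤ C * (1 / 4) ^ J := by
    intro J
    have h1 := hC (U J) ((1 / 4) ^ J) (Q.uJ_bound ρ hρ hone hκ _ (by
      intro x _
      rw [evE_single, one_mul, norm_ex]) J) (s + ξ₁)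
    rw [hconv, abs_of_nonneg (by positivity)] at h1
    exact h1
  have hlim : Tendsto (fun J : ℕ => C * (1 / 4 : ℝ) ^ J) atTop (𝓝 0) := by
    simpa using (tendsto_pow_atTop_nhds_zero_of_lt_one (by norm_num : (0:ℝ) ≤ 1 / 4)
      (by norm_num)).const_mul C
  have := ge_of_tendsto' hlim hle
  exact hξ₁ (norm_le_zero_iff.1 this)

/-- directional derivative of a trigonometric polynomial (as coefficients) -/
noncomputable def Dt (h : G →+ E) (t : E) (u : G →₀ ℂ) : G →₀ ℂ :=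
  Finsupp.onFinset u.support (fun ζ => (2 * Real.pi * inner ℝ (h ζ) t : ℝ) * Complex.I * u ζ) (by
    intro a ha
    rw [Finsupp.mem_support_iff]
    exact right_ne_zero_of_mul ha)

theorem Dt_apply (h : G →+ E) (t : E) (u : G →₀ ℂ) (ζ : G) :
    Dt h t u ζ = (2 * Real.pi * inner ℝ (h ζ) t : ℝ) * Complex.I * u ζ := rfl

theorem Dt_sub (h : G →+ E) (t : E) (u v : G →₀ ℂ) : Dt h t (u - v) = Dt h t u - Dt h t v := by
  ext ζ; simp [Dt_apply, mul_sub]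

theorem Dt_sum {ι : Type*} [Fintype ι] (b : OrthonormalBasis ι ℝ E) (h : G →+ E) (t : E) (u : G →₀ ℂ)
    (x : E) : evE h (Dt h t u) x = ∑ i, ((inner ℝ (b i) t : ℝ) : ℂ) * evE h (Dt h (b i) u) x := by
  classical
  have hs : ∀ t, (Dt h t u).support ⊆ u.support := fun t => Finsupp.support_onFinset_subset
  rw [evE_eq_sum_of_subset h _ x (hs t)]
  have h1 : ∀ i, ((inner ℝ (b i) t : ℝ) : ℂ) * evE h (Dt h (b i) u) x
      = ∑ ζ ∈ u.support, ((inner ℝ (b i) t : ℝ) : ℂ) * (Dt h (b i) u ζ * ex (h ζ) x) := by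
    intro i
    rw [evE_eq_sum_of_subset h _ x (hs _), Finset.mul_sum]
  rw [Finset.sum_congr rfl fun i _ => h1 i, Finset.sum_comm]
  refine Finset.sum_congr rfl fun ζ _ => ?_
  rw [Dt_apply]
  have h2 : inner ℝ (h ζ) t = ∑ i, inner ℝ (b i) t * inner ℝ (h ζ) (b i) := by
    rw [← b.sum_inner_mul_inner (h ζ) t]
    exact Finset.sum_congr rfl fun i _ => mul_comm _ _
  rw [h2]
  push_cast
  simp only [Dt_apply, Finset.mul_sum, Finset.sum_mul]
  refine Finset.sum_congr rfl fun i _ => ?_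
  push_cast
  ring

theorem exists_deriv_kernel (ρ : 𝓢(E, ℂ)) (hρ : HasCompactSupport ρ) (t : E) :
    ∃ ρt : 𝓢(E, ℂ), HasCompactSupport ρt ∧
      ∀ ξ, ρt ξ = (2 * Real.pi * inner ℝ ξ t : ℝ) * Complex.I * ρ ξ := by
  have h1 : HasCompactSupport (fun ξ : E => ((2 * Real.pi * inner ℝ ξ t : ℝ) * Complex.I) * ρ ξ) :=
    hρ.mul_left
  have h2 : ContDiff ℝ ∞ (fun ξ : E => ((2 * Real.pi * inner ℝ ξ t : ℝ) * Complex.I) * ρ ξ) := by
    apply ContDiff.mul _ (ρ.smooth ⊤)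
    apply ContDiff.mul _ contDiff_const
    exact Complex.ofRealCLM.contDiff.comp (contDiff_const.mul (contDiff_id.inner ℝ contDiff_const))
  exact ⟨h1.toSchwartzMap h2, h1, fun ξ => rfl⟩

/-- derivative estimate for the iterates -/
theorem QC.deriv_bound (Q : QC Λ h c) (ρ : 𝓢(E, ℂ)) (hρ : HasCompactSupport ρ)
    (hone : 𝓕 ρ 0 = 1) (hκ : ∀ z ∈ Λ, ∀ t : Finset Λ,
      (∀ x ∈ t, (x : E) ≠ z) → ∑ x ∈ t, ‖𝓕 ρ ((x : E) - z)‖ ≤ 1 / 4) :
    ∃ C₅, 0 ≤ C₅ ∧ ∀ (u₀ : G →₀ ℂ) (_ : ∀ x ∈ Λ, ‖evE h u₀ x‖ ≤ 1) (J : ℕ) (t x : E),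
      ‖evE h (Dt h t (uJ h c Q.lf ρ hρ u₀ J) - Dt h t u₀) x‖ ≤ C₅ * ‖t‖ := by
  classical
  let b := stdOrthonormalBasis ℝ E
  choose ρt hρt hρt' using fun i => exists_deriv_kernel ρ hρ (b i)
  choose S hS0 hS using fun i => exists_sumB Q.ud (ρt i)
  refine ⟨4 / 3 * ∑ i, S i, by have := Finset.sum_nonneg fun i (_ : i ∈ Finset.univ) => hS0 i; positivity,
    fun u₀ hu₀ J t x => ?_⟩
  have hSS : 0 ≤ ∑ i, S i := Finset.sum_nonneg fun i _ => hS0 i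
  have hstep : ∀ J, ‖evE h (Dt h t (Top h c Q.lf ρ hρ (uJ h c Q.lf ρ hρ u₀ J))) x‖
      ≤ ‖t‖ * (∑ i, S i) * (1 / 4) ^ J := by
    intro J
    rw [Dt_sum b]
    calc ‖∑ i, ((inner ℝ (b i) t : ℝ) : ℂ) * evE h (Dt h (b i) (Top h c Q.lf ρ hρ (uJ h c Q.lf ρ hρ u₀ J))) x‖
        ≤ ∑ i, ‖t‖ * ((1 / 4) ^ J * S i) := by
          refine (norm_sum_le _ _).trans (Finset.sum_le_sum fun i _ => ?_)
          rw [norm_mul]
          refine mul_le_mul ?_ ?_ (norm_nonneg _) (norm_nonneg _)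
          · rw [Complex.norm_real]
            refine (norm_inner_le_norm _ _).trans ?_
            rw [b.norm_eq_one, one_mul]
          · have h1 : Dt h (b i) (Top h c Q.lf ρ hρ (uJ h c Q.lf ρ hρ u₀ J))
                = Top h c Q.lf (ρt i) (hρt i) (uJ h c Q.lf ρ hρ u₀ J) := by
              ext η
              rw [Dt_apply, Top_apply, Top_apply, hρt']
              ring
            rw [h1]
            exact Q.norm_evE_Top_le (ρt i) (hρt i) _ _ (Q.uJ_bound ρ hρ hone hκ u₀ hu₀ J) (S i) x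
              (hS i x).1 (hS i x).2 (by positivity)
      _ = ‖t‖ * (∑ i, S i) * (1 / 4) ^ J := by
          rw [← Finset.mul_sum, ← Finset.mul_sum]; ring
  have hind : ∀ J, ‖evE h (Dt h t (uJ h c Q.lf ρ hρ u₀ J) - Dt h t u₀) x‖
      ≤ ‖t‖ * (∑ i, S i) * (∑ j ∈ range J, (1 / 4 : ℝ) ^ j) := by
    intro J
    induction J with
    | zero => simp [uJ, evE_zero]
    | succ J ih =>
      have h1 : Dt h t (uJ h c Q.lf ρ hρ u₀ (J + 1)) - Dt h t u₀ =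
          (Dt h t (uJ h c Q.lf ρ hρ u₀ J) - Dt h t u₀) -
          Dt h t (Top h c Q.lf ρ hρ (uJ h c Q.lf ρ hρ u₀ J)) := by
        rw [uJ, Dt_sub]; abel
      rw [h1, evE_sub, Finset.sum_range_succ, mul_add]
      exact (norm_sub_le _ _).trans (add_le_add ih (hstep J))
  refine (hind J).trans ?_
  have h2 : ∑ j ∈ range J, (1 / 4 : ℝ) ^ j ≤ 4 / 3 := by
    have h3 := (summable_geometric_of_lt_one (by norm_num : (0:ℝ) ≤ 1 / 4) (by norm_num)).sum_le_tsum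
      (range J) (fun j _ => by positivity)
    rw [tsum_geometric_of_lt_one (by norm_num) (by norm_num)] at h3
    norm_num at h3 ⊢
    exact h3
  calc ‖t‖ * (∑ i, S i) * (∑ j ∈ range J, (1 / 4 : ℝ) ^ j) ≤ ‖t‖ * (∑ i, S i) * (4 / 3) :=
        mul_le_mul_of_nonneg_left h2 (by positivity)
    _ = 4 / 3 * (∑ i, S i) * ‖t‖ := by ring

end FQ
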