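import Mathlib
import Pool.Agent.Helper46.FQ.QC3
import Pool.Agent.Helper46.FQ.Bound

/-!
From a uniformly discrete Fourier quasicrystal set to the algebraic data.
-/

namespace FQ

open MeasureTheory Finset Filter Topology AddMonoidAlgebra
open scoped FourierTransform SchwartzMap ContDiff

section
variable {E : Type*} [NormedAddCommGroup E] [InnerProductSpace ℝ E] [FiniteDimensional ℝ E]
  [MeasurableSpace E] [BorelSpace E]

/-- the point of the torus attached to `x` -/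
noncomputable def phi {n : ℕ} (h : (Fin n → ℤ) →+ E) (x : E) : Fin n → ℂˣ :=
  fun i => Units.mk0 (ex (h (Pi.single i 1)) x) (ex_ne_zero _ _)

theorem ex_zsmul (q x : E) (k : ℤ) : ex (k • q) x = ex q x ^ k := by
  unfold ex
  rw [← Complex.exp_int_mul, ← Int.cast_smul_eq_zsmul ℝ, real_inner_smul_left]
  congr 1; push_cast; ring

theorem ex_sum {ι : Type*} (s : Finset ι) (q : ι → E) (x : E) :
    ex (∑ i ∈ s, q i) x = ∏ i ∈ s, ex (q i) x := by
  classical
  induction s using Finset.induction_on with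
  | empty => simp [ex_zero]
  | insert a s ha ih => rw [Finset.sum_insert ha, Finset.prod_insert ha, ex_add, ih]

theorem chrU_phi {n : ℕ} (h : (Fin n → ℤ) →+ E) (x : E) (ζ : Fin n → ℤ) :
    (chrU (phi h x) ζ : ℂ) = ex (h ζ) x := by
  have h1 : ζ = ∑ j, ζ j • (Pi.single j 1 : Fin n → ℤ) := by
    ext i
    simp [Finset.sum_apply, Pi.single_apply]
  conv_rhs => rw [h1, map_sum, ex_sum]
  rw [chrU, Units.coe_prod]
  refine Finset.prod_congr rfl fun j _ => ?_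
  rw [map_zsmul, ex_zsmul, Units.val_zpow_eq_zpow_val, phi, Units.val_mk0]

theorem evz_phi {n : ℕ} (h : (Fin n → ℤ) →+ E) (x : E) (f : LR n) :
    evz (phi h x) f = evE h f.coeff x := by
  rw [evz_eq_sum, evE_eq_sum_of_subset h _ x le_rfl]
  exact Finset.sum_congr rfl fun ζ _ => by rw [chrU_phi]

theorem lg_phi {n : ℕ} (h : (Fin n → ℤ) →+ E) (x : E) : lg (phi h x) = 0 := by
  ext i
  rw [lg, phi, Units.val_mk0, norm_ex]
  simp

/-- the algebraic data of a quasicrystal -/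
theorem QC.data {n : ℕ} {Λ : Set E} {h : (Fin n → ℤ) →+ E} {c : (Fin n → ℤ) → ℂ} (Q : QC Λ h c)
    (hspan : Submodule.span ℝ (Set.range h) = ⊤) :
    ∃ R C, Data h c (phi h '' Λ) R C := by
  obtain ⟨R, hR⟩ := Q.uniqueness
  obtain ⟨C, hC0, hC⟩ := Q.coeff_bound
  have un : ∀ f : (Fin n → ℤ) →₀ ℂ, (∀ η, ‖h η‖ ≤ R → conv f c η = 0) → f ∈ Ann c :=
    fun f hf => Q.conv_eq_zero f (hR f hf)
  have van : ∀ f : LR n, f ∈ IdealOf c → ∀ z ∈ phi h '' Λ, evz z f = 0 := by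
    rintro f hf _ ⟨x, hx, rfl⟩
    rw [evz_phi]
    exact hR f.coeff (fun η _ => hf η) x hx
  have hunit : ∀ z ∈ phi h '' Λ, lg z = 0 := by
    rintro _ ⟨x, hx, rfl⟩
    exact lg_phi h x
  by_cases hΛ : Λ.Nonempty
  · refine ⟨R, C, hspan, Q.lf, un, hC0, ?_, van, hunit⟩
    intro f s hs η
    obtain ⟨x₀, hx₀⟩ := hΛ
    have hs0 : 0 ≤ s := (norm_nonneg _).trans (hs _ ⟨x₀, hx₀, rfl⟩)
    have := hC f.coeff s (fun x hx => by rw [← evz_phi]; exact hs _ ⟨x, hx, rfl⟩) η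
    rwa [abs_of_nonneg hs0] at this
  · rw [Set.not_nonempty_iff_eq_empty] at hΛ
    refine ⟨R, 0, hspan, Q.lf, un, le_rfl, ?_, van, hunit⟩
    intro f s hs η
    rw [Q.conv_eq_zero f.coeff (fun x hx => by rw [hΛ] at hx; exact absurd hx (Set.notMem_empty x)) η,
      norm_zero, zero_mul]

/-- changing the index group -/
theorem QC.comp {n : ℕ} {Λ : Set E} {c : E → ℂ} (Q : QC Λ (AddMonoidHom.id E) c)
    (h : (Fin n → ℤ) →+ E) (hinj : Function.Injective h) (hrange : ∀ ξ, c ξ ≠ 0 → ξ ∈ Set.range h) :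
    QC Λ h (fun ζ => c (h ζ)) := by
  refine ⟨hinj, Q.ud, fun r => ?_, fun g hg => ?_⟩
  · have h1 := Q.lf r
    have h2 : {ξ | c (h ξ) ≠ 0 ∧ ‖h ξ‖ ≤ r} = h ⁻¹' {ξ | c ξ ≠ 0 ∧ ‖(AddMonoidHom.id E) ξ‖ ≤ r} := by
      ext ξ; simp
    rw [h2]
    exact h1.preimage hinj.injOn
  · rw [Q.id g hg]
    have h3 : Function.support (fun ξ => c ξ * g ((AddMonoidHom.id E) ξ)) ⊆ Set.range h := by
      intro ξ hξ
      rw [Function.mem_support] at hξ
      exact hrange ξ (left_ne_zero_of_mul hξ)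
    exact (hinj.tsum_eq h3).symm

/-- existence of a good index group -/
theorem QC.exists_basis {Λ : Set E} {c : E → ℂ} (Q : QC Λ (AddMonoidHom.id E) c) :
    ∃ (n : ℕ) (h : (Fin n → ℤ) →+ E), Function.Injective h ∧ (∀ ξ, c ξ ≠ 0 → ξ ∈ Set.range h) ∧
      Submodule.span ℝ (Set.range h) = ⊤ := by
  classical
  obtain ⟨r, hr⟩ := Q.fg
  set F : Set E := {ξ | c ξ ≠ 0 ∧ ‖ξ‖ ≤ r} with hF
  have hFfin : F.Finite := Q.lf r
  set b := Module.finBasis ℝ E with hb
  set S : Set E := F ∪ Set.range b with hS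
  have hSfin : S.Finite := hFfin.union (Set.finite_range b)
  set Γ : AddSubgroup E := AddSubgroup.closure S with hΓ
  have hfg : Γ.FG := ⟨hSfin.toFinset, by rw [Set.Finite.coe_toFinset]⟩
  have : AddGroup.FG Γ := (AddGroup.fg_iff_addSubgroup_fg Γ).2 hfg
  have hmf : Module.Finite ℤ Γ := Module.Finite.iff_addGroup_fg.2 this
  have htf : Module.IsTorsionFree ℤ Γ := by
    refine ⟨fun k hk => ?_⟩
    intro x y hxy
    have hxy' : k • x = k • y := hxy
    have hk0 : k ≠ 0 := IsRegular.ne_zero hk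
    apply Subtype.ext
    have h1 := congrArg (Subtype.val) hxy'
    rw [AddSubgroup.coe_zsmul, AddSubgroup.coe_zsmul, ← Int.cast_smul_eq_zsmul ℝ,
      ← Int.cast_smul_eq_zsmul ℝ] at h1
    exact smul_right_injective E (by exact_mod_cast hk0 : ((k : ℤ) : ℝ) ≠ 0) h1
  have hfree : Module.Free ℤ Γ := inferInstance
  let B := Module.finBasis ℤ Γ
  let e : (Fin (Module.finrank ℤ Γ) → ℤ) ≃ₗ[ℤ] Γ := B.equivFun.symm
  refine ⟨Module.finrank ℤ Γ, Γ.subtype.comp e.toLinearMap.toAddMonoidHom, ?_, ?_, ?_⟩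
  · exact Γ.subtype_injective.comp e.injective
  · intro ξ hξ
    have h1 : ξ ∈ Γ := AddSubgroup.closure_mono Set.subset_union_left (hr hξ)
    exact ⟨e.symm ⟨ξ, h1⟩, by simp⟩
  · rw [eq_top_iff, ← b.span_eq]
    apply Submodule.span_mono
    rintro _ ⟨i, rfl⟩
    have h1 : b i ∈ Γ := AddSubgroup.subset_closure (Or.inr ⟨i, rfl⟩)
    exact ⟨e.symm ⟨b i, h1⟩, by simp⟩

end

end FQ
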