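import Mathlib
import Pool.Agent.Helper46.FQ.Adapt2
import Pool.Agent.Helper46.FQ.ConeThm
import Pool.Agent.Helper46.FQ.Setup

/-!
Adapted bases for quasicrystals.
-/

namespace FQ

open Finset AddMonoidAlgebra Filter Topology Matrix

/-- the matrix `L` -/
def Lmat {n d : ℕ} (h : (Fin n → ℤ) →+ EuclideanSpace ℝ (Fin d)) : Matrix (Fin n) (Fin d) ℝ :=
  fun i j => (h (Pi.single i 1)) j

theorem Lmap_eq {n d : ℕ} (h : (Fin n → ℤ) →+ EuclideanSpace ℝ (Fin d)) (y : EuclideanSpace ℝ (Fin d)) :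
    Lmap h y = (Lmat h).mulVec (fun j => y j) := by
  ext i
  rw [Lmap, PiLp.inner_apply]
  simp only [RCLike.inner_apply, conj_trivial, Matrix.mulVec, dotProduct, Lmat]
  exact Finset.sum_congr rfl fun j _ => mul_comm _ _

/-- the adapted basis -/
theorem exists_adapted_basis {d : ℕ} {Λ : Set (EuclideanSpace ℝ (Fin d))}
    {c₀ : EuclideanSpace ℝ (Fin d) → ℂ} (Q₀ : QC Λ (AddMonoidHom.id _) c₀) :
    ∃ (n : ℕ) (h : (Fin n → ℤ) →+ EuclideanSpace ℝ (Fin d)),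
      QC Λ h (fun ζ => c₀ (h ζ)) ∧ Submodule.span ℝ (Set.range h) = ⊤ ∧
      (∀ f : Fin d ↪o Fin n, 0 < ((Lmat h).submatrix f id).det) ∧
      (∀ z : Fin n → ℂˣ, (∀ f ∈ IdealOf (fun ζ => c₀ (h ζ)), evz z f = 0) → lg z ≠ 0 →
        ∀ (J : Finset (Fin n)) (s : ℝ), |s| = 1 → J.card < d →
          ¬ ∀ i : Fin n, 0 ≤ s * qJ J ((i : ℕ) : ℝ) * lg z i) ∧
      ∃ c₁ > 0, ∃ Fs : Finset (LR n), (∀ f ∈ Fs, f ∈ IdealOf (fun ζ => c₀ (h ζ))) ∧
        ∀ v : Fin n → ℝ, v ≠ 0 → ∀ (J : Finset (Fin n)) (s : ℝ), |s| = 1 → J.card < d →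
          (∀ i : Fin n, 0 ≤ s * qJ J ((i : ℕ) : ℝ) * v i) →
          ∃ f ∈ Fs, f.coeff 0 = 1 ∧ ∀ ζ ∈ f.coeff.support, ζ ≠ 0 → pairR v ζ ≤ -(c₁ * ‖v‖) := by
  classical
  obtain ⟨n, h, hinj, hrange, hspan⟩ := Q₀.exists_basis
  have Q := Q₀.comp h hinj hrange
  obtain ⟨R, C, D⟩ := Q.data hspan
  obtain ⟨ε, hε, Fs, hFs, hgood, -, hcone⟩ := D.cone
  obtain ⟨cL, hcL, hL⟩ := exists_L_lower hspan
  have hLinj : Function.Injective (Lmat h).mulVecLin := by
    rw [← LinearMap.ker_eq_bot, LinearMap.ker_eq_bot']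
    intro y hy
    have h1 := hL (WithLp.toLp 2 y)
    rw [Lmap_eq] at h1
    have h2 : (Lmat h).mulVec (fun j => (WithLp.toLp 2 y : EuclideanSpace ℝ (Fin d)) j) = 0 := hy
    rw [h2, norm_zero] at h1
    have h3 : ‖(WithLp.toLp 2 y : EuclideanSpace ℝ (Fin d))‖ ≤ 0 := by
      by_contra hcon
      push Not at hcon
      have := mul_pos hcL hcon
      linarith
    have h4 := norm_le_zero_iff.1 h3
    ext j
    exact congrArg (fun v : EuclideanSpace ℝ (Fin d) => v j) h4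
  obtain ⟨P, hdet, hminor, hP⟩ := FQ.exists_adapted (Lmat h) hLinj ε hε
  set Pr : Matrix (Fin n) (Fin n) ℝ := P.map (Int.cast : ℤ → ℝ) with hPr
  set D₀ : ℤ := |P.det| with hD₀
  have hD₀pos : 0 < D₀ := abs_pos.2 hdet
  have hD₀r : (0 : ℝ) < (D₀ : ℝ) := by exact_mod_cast hD₀pos
  set M : Matrix (Fin n) (Fin n) ℤ := P.det.sign • P.adjugate with hM
  have hMP : M * P = D₀ • 1 := by
    rw [hM, Matrix.smul_mul, Matrix.adjugate_mul, smul_smul, hD₀]
    congr 1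
    rw [mul_comm, Int.mul_sign_self, Int.natCast_natAbs]
  have hPM : P * M = D₀ • 1 := by
    rw [hM, Matrix.mul_smul, Matrix.mul_adjugate, smul_smul, hD₀]
    congr 1
    rw [mul_comm, Int.mul_sign_self, Int.natCast_natAbs]
  set Mr : Matrix (Fin n) (Fin n) ℝ := M.map (Int.cast : ℤ → ℝ) with hMr
  have hPMr : Pr * Mr = (D₀ : ℝ) • 1 := by
    have h1 := congrArg (fun A : Matrix (Fin n) (Fin n) ℤ => A.map (Int.castRingHom ℝ)) hPM
    simp only [Matrix.map_mul] at h1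
    have h2 : (D₀ • (1 : Matrix (Fin n) (Fin n) ℤ)).map (Int.castRingHom ℝ) = (D₀ : ℝ) • 1 := by
      ext i j
      rw [Matrix.map_apply, Matrix.smul_apply, Matrix.smul_apply, Matrix.one_apply, Matrix.one_apply]
      split_ifs <;> simp
    rw [h2] at h1
    exact h1
  have hPMv : ∀ v : Fin n → ℝ, Pr.mulVec (Mr.mulVec v) = (D₀ : ℝ) • v := by
    intro v
    rw [Matrix.mulVec_mulVec, hPMr, Matrix.smul_mulVec, Matrix.one_mulVec]
  -- the lattice map
  let ι : (Fin n → ℤ) →+ (Fin n → ℤ) := AddMonoidHom.mk' (fun ζ => ζ ᵥ* M) (fun a b => Matrix.add_vecMul _ _ _)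
  have hι : ∀ ζ, ι ζ = ζ ᵥ* M := fun ζ => rfl
  let h' : (Fin n → ℤ) →+ EuclideanSpace ℝ (Fin d) :=
    AddMonoidHom.mk' (fun ξ => (D₀ : ℝ)⁻¹ • h (ξ ᵥ* P)) (fun a b => by
      rw [Matrix.add_vecMul, map_add, smul_add])
  have hh' : ∀ ξ, h' ξ = (D₀ : ℝ)⁻¹ • h (ξ ᵥ* P) := fun ξ => rfl
  have hh'ι : ∀ ζ, h' (ι ζ) = h ζ := by
    intro ζ
    rw [hh', hι, Matrix.vecMul_vecMul, hMP, Matrix.vecMul_smul, Matrix.vecMul_one, map_zsmul,
      ← Int.cast_smul_eq_zsmul ℝ, smul_smul, inv_mul_cancel₀ hD₀r.ne', one_smul]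
  have hh'inj : Function.Injective h' := by
    rw [injective_iff_map_eq_zero]
    intro ξ hξ
    rw [hh'] at hξ
    have h1 : h (ξ ᵥ* P) = 0 := by
      rcases smul_eq_zero.1 hξ with h2 | h2
      · exact absurd h2 (inv_ne_zero hD₀r.ne')
      · exact h2
    have h2 : ξ ᵥ* P = 0 := hinj (by rw [h1, map_zero])
    exact Matrix.eq_zero_of_vecMul_eq_zero hdet h2
  have hιinj : Function.Injective ι := by
    intro a b hab
    apply hinj
    rw [← hh'ι, ← hh'ι, hab]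
  have hrange' : ∀ ξ, c₀ ξ ≠ 0 → ξ ∈ Set.range h' := by
    intro ξ hξ
    obtain ⟨ζ, rfl⟩ := hrange ξ hξ
    exact ⟨ι ζ, hh'ι ζ⟩
  have Q' := Q₀.comp h' hh'inj hrange'
  have hspan' : Submodule.span ℝ (Set.range h') = ⊤ := by
    rw [eq_top_iff, ← hspan]
    apply Submodule.span_mono
    rintro _ ⟨ζ, rfl⟩
    exact ⟨ι ζ, hh'ι ζ⟩
  obtain ⟨R', C', D'⟩ := Q'.data hspan'
  have hprphi : ∀ x, pr ι (phi h' x) = phi h x := by
    intro x
    ext k
    rw [pr, chrU_phi, hh'ι, phi, Units.val_mk0]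
  have hmemI : ∀ f ∈ IdealOf (fun ζ => c₀ (h ζ)), ib ι f ∈ IdealOf (fun ζ => c₀ (h' ζ)) := by
    intro f hf
    rw [D'.mem_iff]
    rintro _ ⟨x, hx, rfl⟩
    rw [evz_ib, hprphi]
    exact D.vanish f hf _ ⟨x, hx, rfl⟩
  have hιsingle : ∀ k i, ι (Pi.single k 1) i = M k i := by
    intro k i
    rw [hι, Matrix.single_one_vecMul]
    rfl
  have hlgpr : ∀ z : Fin n → ℂˣ, lg (pr ι z) = Mr.mulVec (lg z) := by
    intro z
    ext k
    rw [lg_pr]
    simp only [Matrix.mulVec, dotProduct, hMr, Matrix.map_apply]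
    exact Finset.sum_congr rfl fun i _ => by rw [hιsingle]
  have hpairι : ∀ (v : Fin n → ℝ) (ζ : Fin n → ℤ), pairR v (ι ζ) = pairR (Mr.mulVec v) ζ := by
    intro v ζ
    rw [pairR, pairR]
    simp only [hι, Matrix.vecMul, Matrix.mulVec, dotProduct, hMr, Matrix.map_apply]
    push_cast
    simp only [Finset.mul_sum, Finset.sum_mul]
    rw [Finset.sum_comm]
    exact Finset.sum_congr rfl fun i _ => Finset.sum_congr rfl fun j _ => by ring
  -- decomposition of vectors with few sign changes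
  have hdec : ∀ v : Fin n → ℝ, v ≠ 0 → ∀ (J : Finset (Fin n)) (s : ℝ), |s| = 1 → J.card < d →
      (∀ i : Fin n, 0 ≤ s * qJ J ((i : ℕ) : ℝ) * v i) →
      ∃ (y : EuclideanSpace ℝ (Fin d)) (u : Fin n → ℝ), Mr.mulVec v = Lmap h y + u ∧ ‖u‖ ≤ ε * ‖y‖ ∧ y ≠ 0 := by
    intro v hv J s hs hJ hpos
    have h1 := hP (Mr.mulVec v)
    by_contra hcon
    push Not at hcon
    have hMv : Mr.mulVec v ≠ 0 := by
      intro h0
      have h2 := hPMv v
      rw [h0, Matrix.mulVec_zero] at h2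
      rcases smul_eq_zero.1 h2.symm with h3 | h3
      · exact hD₀r.ne' h3
      · exact hv h3
    refine h1 ?_ J s hs hJ ?_
    · intro y u hyu
      by_contra hle
      push Not at hle
      set y' : EuclideanSpace ℝ (Fin d) := WithLp.toLp 2 y with hy'
      have hLy' : Lmap h y' = (Lmat h).mulVec y := Lmap_eq h y'
      have hnorm : ‖y‖ ≤ ‖y'‖ := by
        rw [pi_norm_le_iff_of_nonneg (norm_nonneg _)]
        intro j
        exact PiLp.norm_apply_le y' j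
      have hy0 := hcon y' u (by rw [hLy']; exact hyu) (hle.trans (mul_le_mul_of_nonneg_left hnorm hε.le))
      have hyz : y = 0 := by
        ext j
        exact congrArg (fun v : EuclideanSpace ℝ (Fin d) => v j) hy0
      rw [hyz, norm_zero, mul_zero] at hle
      have hu0 := norm_le_zero_iff.1 hle
      rw [hyz, hu0, Matrix.mulVec_zero, add_zero] at hyu
      exact hMv hyu
    · intro i
      rw [hPMv, Pi.smul_apply, smul_eq_mul]
      have := mul_nonneg hD₀r.le (hpos i)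
      linarith
  obtain ⟨CP, hCP0, hCP⟩ : ∃ CP, 0 ≤ CP ∧ ∀ y, ‖Pr.mulVec y‖ ≤ CP * ‖y‖ :=
    ⟨‖LinearMap.toContinuousLinearMap Pr.mulVecLin‖, norm_nonneg _,
      fun y => (LinearMap.toContinuousLinearMap Pr.mulVecLin).le_opNorm y⟩
  refine ⟨n, h', Q', hspan', ?_, ?_, D₀ / (2 * (CP + 1)), by positivity, Fs.image (ib ι), ?_, ?_⟩
  · intro f
    have h1 : Lmat h' = (D₀ : ℝ)⁻¹ • (Pr * Lmat h) := by
      ext i j
      have h2 : Lmat h' i j = (D₀ : ℝ)⁻¹ * (h ((Pi.single i 1 : Fin n → ℤ) ᵥ* P)) j := rfl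
      have h3 : (Pi.single i 1 : Fin n → ℤ) ᵥ* P = ∑ k, P i k • (Pi.single k 1 : Fin n → ℤ) := by
        ext k
        rw [Matrix.single_one_vecMul]
        simp [Finset.sum_apply, Pi.single_apply]
      rw [h2, h3, map_sum]
      simp only [map_zsmul, Matrix.smul_apply, smul_eq_mul, Matrix.mul_apply, hPr, Matrix.map_apply, Lmat]
      congr 1
      rw [WithLp.ofLp_sum, Finset.sum_apply]
      refine Finset.sum_congr rfl fun k _ => ?_
      rw [← Int.cast_smul_eq_zsmul ℝ]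
      rfl
    have h2 : (Lmat h').submatrix f id = (D₀ : ℝ)⁻¹ • ((Pr * Lmat h).submatrix f id) := by
      rw [h1]; rfl
    rw [h2, Matrix.det_smul]
    exact mul_pos (by positivity) (hminor f)
  · intro z hz hlg J s hs hJ hpos
    obtain ⟨y, u, h1, h2, h3⟩ := hdec (lg z) hlg J s hs hJ hpos
    rw [← hlgpr] at h1
    exact h3 (hcone (pr ι z) (fun f hf => by rw [← evz_ib]; exact hz _ (hmemI f hf)) y u h1 h2)
  · intro f hf
    obtain ⟨g, hg, rfl⟩ := Finset.mem_image.1 hf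
    exact hmemI g (hFs g hg)
  · intro v hv J s hs hJ hpos
    obtain ⟨y, u, h1, h2, h3⟩ := hdec v hv J s hs hJ hpos
    obtain ⟨f, hf, hf0, hf1⟩ := hgood y u h3 h2
    rw [← h1] at hf1
    have hcoeff : (ib ι f).coeff = Finsupp.mapDomain ι f.coeff := rfl
    refine ⟨ib ι f, Finset.mem_image_of_mem _ hf, ?_, ?_⟩
    · rw [hcoeff, ← map_zero ι, Finsupp.mapDomain_apply hιinj]
      exact hf0
    · intro ξ hξ hξ0
      rw [hcoeff] at hξ
      obtain ⟨ζ, hζ, rfl⟩ := Finset.mem_image.1 (Finsupp.mapDomain_support hξ)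
      have hζ0 : ζ ≠ 0 := by
        rintro rfl
        exact hξ0 (map_zero ι)
      rw [hpairι]
      refine (hf1 ζ hζ hζ0).trans ?_
      have h4 : (D₀ : ℝ) * ‖v‖ ≤ (CP + 1) * ‖Mr.mulVec v‖ := by
        have h5 := hCP (Mr.mulVec v)
        rw [hPMv, norm_smul, Real.norm_of_nonneg hD₀r.le] at h5
        have := norm_nonneg (Mr.mulVec v)
        linarith
      have h5 : (D₀ : ℝ) / (2 * (CP + 1)) * ‖v‖ ≤ ‖Mr.mulVec v‖ / 2 := by
        rw [div_mul_eq_mul_div, div_le_div_iff₀ (by positivity) (by norm_num)]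
        linarith
      linarith

end FQ
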