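import Mathlib
import Pool.Agent.Helper46.FQ.ConeThm
import Pool.Agent.Helper46.FQ.Setup

/-!
Weighted bounds for the iterates and separation of real points in the fibres.
-/

namespace FQ

open MeasureTheory Finset Filter Topology AddMonoidAlgebra
open scoped FourierTransform SchwartzMap ContDiff

variable {E : Type*} [NormedAddCommGroup E] [InnerProductSpace ℝ E] [FiniteDimensional ℝ E]
  [MeasurableSpace E] [BorelSpace E] {n : ℕ}
  {Λ : Set E} {h : (Fin n → ℤ) →+ E} {c : (Fin n → ℤ) → ℂ}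

/-- weighted sum -/
noncomputable def Wsum (u : (Fin n → ℤ) →₀ ℂ) : ℝ := ∑ ζ ∈ u.support, (1 + ‖ζ‖) ^ 2 * ‖u ζ‖

theorem Wsum_eq {u : (Fin n → ℤ) →₀ ℂ} {s : Finset (Fin n → ℤ)} (hs : u.support ⊆ s) :
    Wsum u = ∑ ζ ∈ s, (1 + ‖ζ‖) ^ 2 * ‖u ζ‖ := by
  unfold Wsum
  apply Finset.sum_subset hs
  intro x _ hx
  rw [Finsupp.notMem_support_iff] at hx
  rw [hx, norm_zero, mul_zero]

theorem Wsum_nonneg (u : (Fin n → ℤ) →₀ ℂ) : 0 ≤ Wsum u :=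
  Finset.sum_nonneg fun _ _ => by positivity

theorem Wsum_sub (u v : (Fin n → ℤ) →₀ ℂ) : Wsum (u - v) ≤ Wsum u + Wsum v := by
  classical
  rw [Wsum_eq (s := u.support ∪ v.support) (Finsupp.support_sub),
    Wsum_eq (u := u) (s := u.support ∪ v.support) Finset.subset_union_left,
    Wsum_eq (u := v) (s := u.support ∪ v.support) Finset.subset_union_right, ← Finset.sum_add_distrib]
  refine Finset.sum_le_sum fun ζ _ => ?_
  rw [← mul_add]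
  apply mul_le_mul_of_nonneg_left _ (by positivity)
  exact norm_sub_le _ _

theorem QC.weighted_bound (Q : QC Λ h c) (ρ : 𝓢(E, ℂ)) (hρ : HasCompactSupport ρ)
    (hone : 𝓕 ρ 0 = 1) (hκ : ∀ z ∈ Λ, ∀ t : Finset Λ,
      (∀ x ∈ t, (x : E) ≠ z) → ∑ x ∈ t, ‖𝓕 ρ ((x : E) - z)‖ ≤ 1 / 4)
    (A B : ℝ) (hA : 0 ≤ A) (hB : 0 ≤ B) (star : ∀ ξ, c ξ ≠ 0 → ‖ξ‖ ≤ A + B * ‖h ξ‖)
    (σ : Fin n → ℤ) :
    ∃ C₇, 0 ≤ C₇ ∧ ∀ J, Wsum (uJ h c Q.lf ρ hρ (Finsupp.single σ 1) J) ≤ C₇ := by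
  classical
  obtain ⟨r', hr'⟩ := exists_radius hρ
  set r := max r' 0 with hr
  have hr0 : 0 ≤ r := le_max_right _ _
  have hrρ : ∀ ξ, r < ‖ξ‖ → ρ ξ = 0 := fun ξ hξ => hr' ξ (lt_of_le_of_lt (le_max_left _ _) hξ)
  obtain ⟨C, hC0, hC⟩ := Q.coeff_bound
  obtain ⟨M, hM⟩ : ∃ M, ∀ x, ‖ρ x‖ ≤ M := by
    exact ⟨_, fun x => SchwartzMap.norm_le_seminorm ℝ ρ x⟩
  have hM0 : 0 ≤ M := (norm_nonneg _).trans (hM 0)
  set P := max r ‖h σ‖ with hP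
  set D := A + B * (r + P) with hD
  have hP0 : 0 ≤ P := hr0.trans (le_max_left _ _)
  have hD0 : 0 ≤ D := by positivity
  set U := uJ h c Q.lf ρ hρ (Finsupp.single σ 1) with hU
  have hrec : ∀ J, U (J + 1) = U J - Top h c Q.lf ρ hρ (U J) := fun J => rfl
  have hTprop : ∀ J, (∀ ζ ∈ (U J).support, ‖ζ‖ ≤ ‖σ‖ + J * D ∧ ‖h ζ‖ ≤ P) →
      ∀ η, Top h c Q.lf ρ hρ (U J) η ≠ 0 → ‖η‖ ≤ ‖σ‖ + ((J : ℝ) + 1) * D ∧ ‖h η‖ ≤ P := by
    intro J ih η hη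
    rw [Top_apply] at hη
    have h1 : ‖h η‖ ≤ r := by
      by_contra hcon
      exact left_ne_zero_of_mul hη (hrρ _ (not_le.1 hcon))
    refine ⟨?_, h1.trans (le_max_left _ _)⟩
    obtain ⟨ζ, hζ, hcz⟩ := exists_of_conv_ne (right_ne_zero_of_mul hη)
    obtain ⟨h2, h3⟩ := ih ζ hζ
    have h4 := star _ hcz
    have h5 : ‖h (η - ζ)‖ ≤ r + P := by
      rw [map_sub]
      exact (norm_sub_le _ _).trans (by linarith)
    have h6 : B * ‖h (η - ζ)‖ ≤ B * (r + P) := mul_le_mul_of_nonneg_left h5 hB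
    have h7 : ‖η‖ ≤ ‖η - ζ‖ + ‖ζ‖ := by
      have := norm_add_le (η - ζ) ζ
      rwa [sub_add_cancel] at this
    rw [hD] at h2 ⊢
    linarith
  have hsupp : ∀ J : ℕ, ∀ ζ ∈ (U J).support, ‖ζ‖ ≤ ‖σ‖ + J * D ∧ ‖h ζ‖ ≤ P := by
    intro J
    induction J with
    | zero =>
      intro ζ hζ
      have h1 : ζ = σ := by
        have : ζ ∈ (Finsupp.single σ (1:ℂ)).support := hζ
        have := Finsupp.support_single_subset this
        rwa [Finset.mem_singleton] at this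
      rw [h1]
      refine ⟨by simp, le_max_right _ _⟩
    | succ J ih =>
      intro ζ hζ
      rw [hrec, Finsupp.mem_support_iff, Finsupp.sub_apply] at hζ
      push_cast
      by_cases hT : Top h c Q.lf ρ hρ (U J) ζ = 0
      · rw [hT, sub_zero] at hζ
        have := ih ζ (Finsupp.mem_support_iff.2 hζ)
        refine ⟨?_, this.2⟩
        linarith [this.1]
      · exact hTprop J ih ζ hT
  have hUb : ∀ J, ∀ x ∈ Λ, ‖evE h (U J) x‖ ≤ (1 / 4) ^ J := fun J =>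
    Q.uJ_bound ρ hρ hone hκ _ (by
      intro x _
      rw [evE_single, one_mul, norm_ex]) J
  set a := 2 * (‖σ‖ + D) + 3 with ha
  set b := 2 * D with hb
  have hTW : ∀ J : ℕ, Wsum (Top h c Q.lf ρ hρ (U J)) ≤ (M * C) * ((a + b * J) ^ (n + 2) * (1 / 4) ^ J) := by
    intro J
    set X := ‖σ‖ + ((J : ℝ) + 1) * D with hX
    have hX0 : 0 ≤ X := by positivity
    obtain ⟨N, hN1, hN2⟩ : ∃ N : ℕ, X ≤ N ∧ (N : ℝ) ≤ X + 1 :=
      ⟨⌈X⌉₊, Nat.le_ceil X, (Nat.ceil_lt_add_one hX0).le⟩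
    have hTX : ∀ η, Top h c Q.lf ρ hρ (U J) η ≠ 0 → ‖η‖ ≤ X := fun η hη => (hTprop J (hsupp J) η hη).1
    have hsub : (Top h c Q.lf ρ hρ (U J)).support ⊆ box n N := by
      intro η hη
      rw [mem_box]
      exact (hTX η (Finsupp.mem_support_iff.1 hη)).trans hN1
    have hcoef : ∀ η, ‖Top h c Q.lf ρ hρ (U J) η‖ ≤ M * C * (1 / 4) ^ J := by
      intro η
      rw [Top_apply, norm_mul, mul_assoc]
      refine mul_le_mul (hM _) ?_ (norm_nonneg _) hM0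
      have := hC (U J) ((1 / 4) ^ J) (hUb J) η
      rwa [abs_of_nonneg (by positivity)] at this
    unfold Wsum
    have haX : 2 * X + 3 = a + b * J := by rw [hX, ha, hb]; ring
    calc ∑ ζ ∈ (Top h c Q.lf ρ hρ (U J)).support, (1 + ‖ζ‖) ^ 2 * ‖Top h c Q.lf ρ hρ (U J) ζ‖
        ≤ ∑ ζ ∈ (Top h c Q.lf ρ hρ (U J)).support, (1 + X) ^ 2 * (M * C * (1 / 4) ^ J) := by
          refine Finset.sum_le_sum fun ζ hζ => ?_
          have h1 := hTX ζ (Finsupp.mem_support_iff.1 hζ)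
          refine mul_le_mul ?_ (hcoef ζ) (norm_nonneg _) (by positivity)
          apply pow_le_pow_left₀ (by positivity)
          linarith
      _ = ((Top h c Q.lf ρ hρ (U J)).support.card : ℝ) * ((1 + X) ^ 2 * (M * C * (1 / 4) ^ J)) := by
          rw [Finset.sum_const, nsmul_eq_mul]
      _ ≤ (2 * X + 3) ^ n * ((2 * X + 3) ^ 2 * (M * C * (1 / 4) ^ J)) := by
          refine mul_le_mul ?_ ?_ (by positivity) (by positivity)
          · calc ((Top h c Q.lf ρ hρ (U J)).support.card : ℝ) ≤ ((box n N).card : ℝ) := by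
                  exact_mod_cast Finset.card_le_card hsub
              _ = (2 * N + 1) ^ n := by rw [card_box]; push_cast; rfl
              _ ≤ (2 * X + 3) ^ n := by
                  apply pow_le_pow_left₀ (by positivity)
                  linarith
          · apply mul_le_mul_of_nonneg_right _ (by positivity)
            apply pow_le_pow_left₀ (by positivity)
            linarith
      _ = (M * C) * ((a + b * J) ^ (n + 2) * (1 / 4) ^ J) := by rw [haX, pow_add]; ring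
  have hsum := (summable_aux a b (by positivity) (by positivity) (n + 2) (1 / 4) (by norm_num)
    (by norm_num)).mul_left (M * C)
  have hpos : ∀ J : ℕ, 0 ≤ (M * C) * ((a + b * J) ^ (n + 2) * (1 / 4) ^ J) := by
    intro J; positivity
  refine ⟨Wsum (Finsupp.single σ (1:ℂ)) + ∑' J : ℕ, (M * C) * ((a + b * J) ^ (n + 2) * (1 / 4) ^ J),
    add_nonneg (Wsum_nonneg _) (tsum_nonneg hpos), fun J => ?_⟩
  have hind : ∀ J, Wsum (U J) ≤ Wsum (Finsupp.single σ (1:ℂ)) +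
      ∑ j ∈ range J, (M * C) * ((a + b * j) ^ (n + 2) * (1 / 4) ^ j) := by
    intro J
    induction J with
    | zero => simp [hU, uJ]
    | succ J ih =>
      rw [hrec, Finset.sum_range_succ]
      have h1 := Wsum_sub (U J) (Top h c Q.lf ρ hρ (U J))
      have h2 := hTW J
      linarith
  refine (hind J).trans ?_
  have := hsum.sum_le_tsum (range J) (fun j _ => hpos j)
  linarith

/-- second order Taylor bound -/
theorem norm_exp_taylor (θ : ℝ) : ‖Complex.exp (Complex.I * θ) - 1 - Complex.I * θ‖ ≤ 3 * θ ^ 2 := by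
  have hn : ‖Complex.I * (θ : ℂ)‖ = |θ| := by simp
  by_cases hθ : |θ| ≤ 1
  · have h1 := Complex.norm_exp_sub_one_sub_id_le (x := Complex.I * θ) (by rw [hn]; exact hθ)
    rw [hn, sq_abs] at h1
    linarith only [h1, sq_nonneg θ]
  · push Not at hθ
    have h1 : ‖Complex.exp (Complex.I * θ)‖ = 1 := by
      rw [mul_comm]; exact Complex.norm_exp_ofReal_mul_I θ
    have h2 : ‖Complex.exp (Complex.I * θ) - 1 - Complex.I * θ‖ ≤ 1 + 1 + |θ| := by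
      refine (norm_sub_le _ _).trans ?_
      rw [hn]
      have := norm_sub_le (Complex.exp (Complex.I * θ)) 1
      rw [h1, norm_one] at this
      linarith
    have h3 : |θ| ≤ θ ^ 2 := by rw [← sq_abs]; nlinarith only [hθ]
    linarith only [hθ, h2, h3]

/-- first order expansion of a Laurent polynomial near a real point -/
theorem taylor_bound (z : Fin n → ℂˣ) (hz : lg z = 0) (u : (Fin n → ℤ) →₀ ℂ) (τ : Fin n → ℝ) :
    ‖evz (z * expI ((2 * Real.pi) • τ)) (AddMonoidAlgebra.ofCoeff u) - evz z (AddMonoidAlgebra.ofCoeff u) -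
      ∑ ζ ∈ u.support, u ζ * chrU z ζ * (Complex.I * ((2 * Real.pi * pairR τ ζ : ℝ) : ℂ))‖
      ≤ 3 * (2 * Real.pi * n) ^ 2 * ‖τ‖ ^ 2 * Wsum u := by
  rw [evz_eq_sum, evz_eq_sum]
  show ‖∑ ζ ∈ u.support, u ζ * _ - ∑ ζ ∈ u.support, u ζ * _ - _‖ ≤ _
  rw [← Finset.sum_sub_distrib, ← Finset.sum_sub_distrib, Wsum, Finset.mul_sum]
  refine (norm_sum_le _ _).trans (Finset.sum_le_sum fun ζ _ => ?_)
  have h1 : u ζ * (chrU (z * expI ((2 * Real.pi) • τ)) ζ : ℂ) - u ζ * (chrU z ζ : ℂ) -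
      u ζ * chrU z ζ * (Complex.I * ((2 * Real.pi * pairR τ ζ : ℝ) : ℂ)) =
      u ζ * (chrU z ζ : ℂ) * (Complex.exp (Complex.I * ((2 * Real.pi * pairR τ ζ : ℝ) : ℂ)) - 1 -
        Complex.I * ((2 * Real.pi * pairR τ ζ : ℝ) : ℂ)) := by
    rw [chrU_mul, Units.val_mul, chrU_expI]
    have h2 : (∑ i, (ζ i : ℂ) * (((2 * Real.pi) • τ) i : ℝ)) = ((2 * Real.pi * pairR τ ζ : ℝ) : ℂ) := by
      rw [pairR, Finset.mul_sum]
      push_cast
      exact Finset.sum_congr rfl fun i _ => by simp; ring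
    rw [h2]
    ring
  rw [h1, norm_mul, norm_mul, norm_chrU, hz]
  have h3 : Real.exp (∑ i, (ζ i : ℝ) * (0 : Fin n → ℝ) i) = 1 := by simp
  rw [h3, mul_one]
  have h4 := norm_exp_taylor (2 * Real.pi * pairR τ ζ)
  have h5 : (2 * Real.pi * pairR τ ζ) ^ 2 ≤ (2 * Real.pi * n) ^ 2 * ‖τ‖ ^ 2 * (1 + ‖ζ‖) ^ 2 := by
    rw [← sq_abs, ← mul_pow, ← mul_pow]
    apply pow_le_pow_left₀ (abs_nonneg _)
    rw [abs_mul, abs_of_pos (by positivity : 0 < 2 * Real.pi)]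
    have h6 := abs_pairR_le τ ζ
    calc 2 * Real.pi * |pairR τ ζ| ≤ 2 * Real.pi * (n * ‖ζ‖ * ‖τ‖) := by
          apply mul_le_mul_of_nonneg_left h6 (by positivity)
      _ ≤ 2 * Real.pi * (n * (1 + ‖ζ‖) * ‖τ‖) := by
          gcongr
          linarith
      _ = 2 * Real.pi * n * ‖τ‖ * (1 + ‖ζ‖) := by ring
  calc ‖u ζ‖ * ‖Complex.exp (Complex.I * ((2 * Real.pi * pairR τ ζ : ℝ) : ℂ)) - 1 -
        Complex.I * ((2 * Real.pi * pairR τ ζ : ℝ) : ℂ)‖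
      ≤ ‖u ζ‖ * (3 * ((2 * Real.pi * n) ^ 2 * ‖τ‖ ^ 2 * (1 + ‖ζ‖) ^ 2)) := by
        apply mul_le_mul_of_nonneg_left _ (norm_nonneg _)
        exact h4.trans (by linarith)
    _ = _ := by ring

/-- the main estimate -/
theorem QC.main_estimate (Q : QC Λ h c) {R C A B t C₃ C₄ C₅ C₆ : ℝ}
    {β : (Fin (kdim h) → ℤ) →+ (Fin n → ℤ)} (P : Pack h c (phi h '' Λ) R C A B t C₃ C₄ C₅ C₆ β)
    (ρ : 𝓢(E, ℂ)) (hρ : HasCompactSupport ρ)
    (hone : 𝓕 ρ 0 = 1) (hκ : ∀ z ∈ Λ, ∀ t : Finset Λ,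
      (∀ x ∈ t, (x : E) ≠ z) → ∑ x ∈ t, ‖𝓕 ρ ((x : E) - z)‖ ≤ 1 / 4)
    (CD : ℝ) (hCD0 : 0 ≤ CD) (hCD : ∀ (u₀ : (Fin n → ℤ) →₀ ℂ) (_ : ∀ x ∈ Λ, ‖evE h u₀ x‖ ≤ 1) (J : ℕ) (t x : E),
      ‖evE h (Dt h t (uJ h c Q.lf ρ hρ u₀ J) - Dt h t u₀) x‖ ≤ CD * ‖t‖)
    (σ : Fin n → ℤ) (J : ℕ) (CW : ℝ) (hCW0 : 0 ≤ CW)
    (hW : Wsum (uJ h c Q.lf ρ hρ (Finsupp.single σ 1) J) ≤ CW)
    (z z' : Fin n → ℂˣ) (τ w : Fin n → ℝ) (y : E) (hz : lg z = 0) (hlgz' : lg z' = 0)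
    (hz' : z' = z * expI ((2 * Real.pi) • τ)) (hw : w = τ - Lmap h y)
    (hVz : ∀ f ∈ IdealOf c, evz z f = 0) (hVz' : ∀ f ∈ IdealOf c, evz z' f = 0)
    (hi : (CD + 1) * ‖y‖ ≤ 2 * Real.pi * |inner ℝ (h σ) y|) :
    ‖y‖ ≤ 2 * (1 / 4) ^ J + (3 * (2 * Real.pi * n) ^ 2 * CW) * ‖τ‖ ^ 2 + (2 * Real.pi * n * CW) * ‖w‖ := by
  classical
  have hpi := Real.pi_pos
  set K₁ := 2 * Real.pi * n * CW with hK₁
  set K₂ := 3 * (2 * Real.pi * n) ^ 2 * CW with hK₂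
  set u₀ : (Fin n → ℤ) →₀ ℂ := Finsupp.single σ 1 with hu₀
  set u := uJ h c Q.lf ρ hρ u₀ J with hu
  have hu₀1 : ∀ x ∈ Λ, ‖evE h u₀ x‖ ≤ 1 := by
    intro x _
    rw [hu₀, evE_single, one_mul, norm_ex]
  have hXu : ∀ z ∈ phi h '' Λ, ‖evz z (AddMonoidAlgebra.ofCoeff u : LR n)‖ ≤ (1 / 4) ^ J := by
    rintro _ ⟨x, hx, rfl⟩
    rw [evz_phi]
    exact Q.uJ_bound ρ hρ hone hκ u₀ hu₀1 J x hx
  have hb1 := P.real_bound z hVz hz (AddMonoidAlgebra.ofCoeff u) _ (by positivity) hXu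
  have hb2 := P.real_bound z' hVz' hlgz' (AddMonoidAlgebra.ofCoeff u) _ (by positivity) hXu
  have hT := taylor_bound z hz u τ
  rw [← hz'] at hT
  have hWu : Wsum u ≤ CW := hW
  have hXD : ∀ z ∈ phi h '' Λ, ‖evz z (AddMonoidAlgebra.ofCoeff (Dt h y u - Dt h y u₀) : LR n)‖
      ≤ CD * ‖y‖ := by
    rintro _ ⟨x, hx, rfl⟩
    rw [evz_phi]
    exact hCD u₀ hu₀1 J y x
  have hb3 := P.real_bound z hVz hz (AddMonoidAlgebra.ofCoeff (Dt h y u - Dt h y u₀)) _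
    (by positivity) hXD
  have hsplit : ∑ ζ ∈ u.support, u ζ * chrU z ζ * (Complex.I * ((2 * Real.pi * pairR τ ζ : ℝ) : ℂ)) =
      evz z (AddMonoidAlgebra.ofCoeff (Dt h y u) : LR n) +
      ∑ ζ ∈ u.support, u ζ * chrU z ζ * (Complex.I * ((2 * Real.pi * pairR w ζ : ℝ) : ℂ)) := by
    have hDs : (AddMonoidAlgebra.ofCoeff (Dt h y u) : LR n).coeff.support ⊆ u.support := by
      intro ζ hζ
      have h1 : Dt h y u ζ ≠ 0 := Finsupp.mem_support_iff.1 hζ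
      rw [Dt_apply] at h1
      exact Finsupp.mem_support_iff.2 (right_ne_zero_of_mul h1)
    rw [evz_eq_sum_of_subset z _ hDs, ← Finset.sum_add_distrib]
    refine Finset.sum_congr rfl fun ζ _ => ?_
    show _ = Dt h y u ζ * _ + _
    have h1 : pairR τ ζ = inner ℝ (h ζ) y + pairR w ζ := by
      rw [← pairR_Lmap, ← pairR_add_left, hw, add_sub_cancel]
    rw [Dt_apply, h1]
    push_cast
    ring
  have hsec : ‖∑ ζ ∈ u.support, u ζ * chrU z ζ * (Complex.I * ((2 * Real.pi * pairR w ζ : ℝ) : ℂ))‖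
      ≤ K₁ * ‖w‖ := by
    calc _ ≤ ∑ ζ ∈ u.support, (2 * Real.pi * n * ‖w‖) * ((1 + ‖ζ‖) ^ 2 * ‖u ζ‖) := by
          refine (norm_sum_le _ _).trans (Finset.sum_le_sum fun ζ _ => ?_)
          rw [norm_mul, norm_mul, norm_mul, norm_chrU, hz, Complex.norm_I, Complex.norm_real]
          have h3 : Real.exp (∑ i, (ζ i : ℝ) * (0 : Fin n → ℝ) i) = 1 := by simp
          rw [h3, mul_one, one_mul, Real.norm_eq_abs, abs_mul, abs_of_pos (by positivity : 0 < 2 * Real.pi)]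
          have h6 := abs_pairR_le w ζ
          have h7 : ‖ζ‖ ≤ (1 + ‖ζ‖) ^ 2 := by nlinarith only [norm_nonneg ζ]
          calc ‖u ζ‖ * (2 * Real.pi * |pairR w ζ|) ≤ ‖u ζ‖ * (2 * Real.pi * (n * ‖ζ‖ * ‖w‖)) := by gcongr
            _ ≤ ‖u ζ‖ * (2 * Real.pi * (n * (1 + ‖ζ‖) ^ 2 * ‖w‖)) := by gcongr
            _ = _ := by ring
      _ = (2 * Real.pi * n * ‖w‖) * Wsum u := by rw [← Finset.mul_sum]; rfl
      _ ≤ (2 * Real.pi * n * ‖w‖) * CW := by gcongr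
      _ = K₁ * ‖w‖ := by rw [hK₁]; ring
  have hD0 : ‖evz z (AddMonoidAlgebra.ofCoeff (Dt h y u₀) : LR n)‖ = 2 * Real.pi * |inner ℝ (h σ) y| := by
    have h1 : (AddMonoidAlgebra.ofCoeff (Dt h y u₀) : LR n) = AddMonoidAlgebra.single σ
        (((2 * Real.pi * inner ℝ (h σ) y : ℝ) : ℂ) * Complex.I) := by
      ext ζ
      show Dt h y u₀ ζ = _
      rw [Dt_apply, coeff_single, hu₀, Finsupp.single_apply, Finsupp.single_apply]
      split_ifs with h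
      · rw [← h, mul_one]
      · rw [mul_zero]
    rw [h1, evz_single, norm_mul, norm_mul, norm_chrU, hz, Complex.norm_I, Complex.norm_real]
    have h3 : Real.exp (∑ j, (σ j : ℝ) * (0 : Fin n → ℝ) j) = 1 := by simp
    rw [h3, mul_one, mul_one, Real.norm_eq_abs, abs_mul, abs_of_pos (by positivity : 0 < 2 * Real.pi)]
  have hlow : ‖y‖ ≤ ‖evz z (AddMonoidAlgebra.ofCoeff (Dt h y u) : LR n)‖ := by
    have h1 : (AddMonoidAlgebra.ofCoeff (Dt h y u₀) : LR n) = AddMonoidAlgebra.ofCoeff (Dt h y u) -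
        AddMonoidAlgebra.ofCoeff (Dt h y u - Dt h y u₀) := by
      rw [AddMonoidAlgebra.ofCoeff_sub, sub_sub_cancel]
    rw [h1, map_sub] at hD0
    have h2 := norm_sub_le (evz z (AddMonoidAlgebra.ofCoeff (Dt h y u) : LR n))
      (evz z (AddMonoidAlgebra.ofCoeff (Dt h y u - Dt h y u₀) : LR n))
    rw [hD0] at h2
    linarith only [hi, hb3, h2]
  have hfin : evz z (AddMonoidAlgebra.ofCoeff (Dt h y u) : LR n) =
      evz z' (AddMonoidAlgebra.ofCoeff u : LR n) - evz z (AddMonoidAlgebra.ofCoeff u : LR n) -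
      (evz z' (AddMonoidAlgebra.ofCoeff u : LR n) - evz z (AddMonoidAlgebra.ofCoeff u : LR n) -
        ∑ ζ ∈ u.support, u ζ * chrU z ζ * (Complex.I * ((2 * Real.pi * pairR τ ζ : ℝ) : ℂ))) -
      ∑ ζ ∈ u.support, u ζ * chrU z ζ * (Complex.I * ((2 * Real.pi * pairR w ζ : ℝ) : ℂ)) := by
    rw [hsplit]; ring
  have hT2 : 3 * (2 * Real.pi * n) ^ 2 * ‖τ‖ ^ 2 * Wsum u ≤ K₂ * ‖τ‖ ^ 2 := by
    calc 3 * (2 * Real.pi * n) ^ 2 * ‖τ‖ ^ 2 * Wsum u ≤ 3 * (2 * Real.pi * n) ^ 2 * ‖τ‖ ^ 2 * CW := by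
          gcongr
      _ = K₂ * ‖τ‖ ^ 2 := by rw [hK₂]; ring
  have e1 := norm_sub_le (evz z' (AddMonoidAlgebra.ofCoeff u : LR n)) (evz z (AddMonoidAlgebra.ofCoeff u : LR n))
  have e2 := norm_sub_le (evz z' (AddMonoidAlgebra.ofCoeff u : LR n) - evz z (AddMonoidAlgebra.ofCoeff u : LR n))
    (evz z' (AddMonoidAlgebra.ofCoeff u : LR n) - evz z (AddMonoidAlgebra.ofCoeff u : LR n) -
        ∑ ζ ∈ u.support, u ζ * chrU z ζ * (Complex.I * ((2 * Real.pi * pairR τ ζ : ℝ) : ℂ)))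
  have e3 := norm_sub_le (evz z' (AddMonoidAlgebra.ofCoeff u : LR n) - evz z (AddMonoidAlgebra.ofCoeff u : LR n) -
    (evz z' (AddMonoidAlgebra.ofCoeff u : LR n) - evz z (AddMonoidAlgebra.ofCoeff u : LR n) -
        ∑ ζ ∈ u.support, u ζ * chrU z ζ * (Complex.I * ((2 * Real.pi * pairR τ ζ : ℝ) : ℂ))))
    (∑ ζ ∈ u.support, u ζ * chrU z ζ * (Complex.I * ((2 * Real.pi * pairR w ζ : ℝ) : ℂ)))
  rw [← hfin] at e3
  linarith

/-- separation of real points in fibres, for sublattices close enough to the kernel -/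
theorem QC.separation (Q : QC Λ h c) (hspan : Submodule.span ℝ (Set.range h) = ⊤) :
    ∃ (R C A B t C₃ C₄ C₅ C₆ : ℝ) (β : (Fin (kdim h) → ℤ) →+ (Fin n → ℤ)),
      Pack h c (phi h '' Λ) R C A B t C₃ C₄ C₅ C₆ β ∧ ∃ ε₀ > 0, ∀ (z : Fin n → ℂˣ) (τ : Fin n → ℝ),
        lg z = 0 → (∀ f ∈ IdealOf c, evz z f = 0) →
        (∀ f ∈ IdealOf c, evz (z * expI ((2 * Real.pi) • τ)) f = 0) →
        (∀ m, ∑ i, (β m i : ℝ) * τ i = 0) → ‖τ‖ ≤ ε₀ → τ = 0 := by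
  classical
  obtain ⟨R, C, D⟩ := Q.data hspan
  obtain ⟨A, B, C₃, C₄, C₅, C₆, t₀, h3, h4, h5, h6, h0, hB, H⟩ := D.exists_pack
  obtain ⟨β₀, P₀⟩ := H t₀ le_rfl
  have hA := P₀.a0
  have star := P₀.star
  obtain ⟨cL, hcL, hL⟩ := exists_L_lower hspan
  obtain ⟨ρ, hρ, hone, hρ0, hκ⟩ := Q.ud.exists_kernel (1 / 4) (by norm_num)
  obtain ⟨CD, hCD0, hCD⟩ := Q.deriv_bound ρ hρ hone hκ
  have hpi := Real.pi_pos
  obtain ⟨N, hN⟩ := exists_nat_ge ((CD + 1) / (2 * Real.pi * cL))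
  -- the functions
  let σ : Fin n → (Fin n → ℤ) := fun i => Pi.single i (N : ℤ)
  choose W hW0 hW using fun i => Q.weighted_bound ρ hρ hone hκ A B hA hB star (σ i)
  set CW := ∑ i, W i with hCW
  have hCW0 : 0 ≤ CW := Finset.sum_nonneg fun i _ => hW0 i
  have hWle : ∀ i, W i ≤ CW := fun i => Finset.single_le_sum (f := W) (fun i _ => hW0 i) (Finset.mem_univ i)
  obtain ⟨CL, hCL0, hCL⟩ : ∃ CL, 0 ≤ CL ∧ ∀ y, ‖Lmap h y‖ ≤ CL * ‖y‖ :=
    ⟨‖LinearMap.toContinuousLinearMap (Llin h)‖, norm_nonneg _,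
      fun y => (LinearMap.toContinuousLinearMap (Llin h)).le_opNorm y⟩
  set K₁ := 2 * Real.pi * n * CW with hK₁
  set K₂ := 3 * (2 * Real.pi * n) ^ 2 * CW with hK₂
  have hK₁0 : 0 ≤ K₁ := by positivity
  have hK₂0 : 0 ≤ K₂ := by positivity
  set t := t₀ + 2 * C₆ + 8 * CL * K₁ * C₆ with ht
  have htt₀ : t₀ ≤ t := by
    have : 0 ≤ 8 * CL * K₁ * C₆ := by positivity
    rw [ht]; linarith only [h6, this]
  have ht0 : 0 < t := by linarith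
  obtain ⟨β, P⟩ := H t htt₀
  refine ⟨R, C, A, B, t, C₃, C₄, C₅, C₆, β, P, 1 / (8 * CL * K₂ + 1), by positivity, ?_⟩
  intro z τ hz hVz hVz' hβ hτ
  obtain ⟨y, hy⟩ := P.S.tan τ hβ
  set w := τ - Lmap h y with hw
  -- z' is real
  set z' := z * expI ((2 * Real.pi) • τ) with hz'
  have hlgz' : lg z' = 0 := by rw [hz', lg_mul, hz, lg_expI, add_zero]
  rcases isEmpty_or_nonempty (Fin n) with hemp | hne
  · exact Subsingleton.elim _ _
  -- choose σ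
  obtain ⟨i, hi⟩ : ∃ i, (CD + 1) * ‖y‖ ≤ 2 * Real.pi * |inner ℝ (h (σ i)) y| := by
    obtain ⟨i, hi⟩ : ∃ i, ‖Lmap h y‖ = ‖Lmap h y i‖ := by
      obtain ⟨i, -, hi⟩ := Finset.exists_max_image Finset.univ (fun i => ‖Lmap h y i‖)
        Finset.univ_nonempty
      exact ⟨i, le_antisymm ((pi_norm_le_iff_of_nonneg (norm_nonneg _)).2 fun j => hi j (Finset.mem_univ j))
        (norm_le_pi_norm _ i)⟩
    refine ⟨i, ?_⟩
    have h1 : inner ℝ (h (σ i)) y = N * Lmap h y i := by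
      have h2 : σ i = (N : ℤ) • (Pi.single i 1 : Fin n → ℤ) := by
        ext j; by_cases hj : j = i
        · subst hj; simp [σ]
        · simp [σ, Pi.single_eq_of_ne hj]
      rw [h2, map_zsmul, ← Int.cast_smul_eq_zsmul ℝ, real_inner_smul_left]
      simp [Lmap]
    rw [h1, abs_mul, ← Real.norm_eq_abs (Lmap h y i), ← hi, Nat.abs_cast]
    have h2 := hL y
    rw [div_le_iff₀ (by positivity)] at hN
    calc (CD + 1) * ‖y‖ ≤ (N * (2 * Real.pi * cL)) * ‖y‖ := mul_le_mul_of_nonneg_right hN (norm_nonneg _)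
      _ = 2 * Real.pi * (N * (cL * ‖y‖)) := by ring
      _ ≤ 2 * Real.pi * (N * ‖Lmap h y‖) := by gcongr
  have hmain : ∀ J : ℕ, ‖y‖ ≤ 2 * (1 / 4) ^ J + K₂ * ‖τ‖ ^ 2 + K₁ * ‖w‖ := by
    intro J
    exact Q.main_estimate P ρ hρ hone hκ CD hCD0 hCD (σ i) J CW hCW0 ((hW i J).trans (hWle i)) z z' τ w y hz
      hlgz' hz' hw hVz hVz' hi
  have hlim : ‖y‖ ≤ K₂ * ‖τ‖ ^ 2 + K₁ * ‖w‖ := by
    have h1 : Tendsto (fun J : ℕ => 2 * (1 / 4 : ℝ) ^ J + K₂ * ‖τ‖ ^ 2 + K₁ * ‖w‖) atTop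
        (𝓝 (2 * 0 + K₂ * ‖τ‖ ^ 2 + K₁ * ‖w‖)) := by
      refine (Tendsto.add_const _ (Tendsto.add_const _ (Tendsto.const_mul _ ?_)))
      exact tendsto_pow_atTop_nhds_zero_of_lt_one (by norm_num) (by norm_num)
    have h2 := ge_of_tendsto' h1 hmain
    linarith
  -- conclusion
  have hC6t : C₆ / t ≤ 1 / 2 := by
    rw [div_le_iff₀ ht0, ht]
    have : 0 ≤ 8 * CL * K₁ * C₆ := by positivity
    linarith only [h0, this]
  have hC6t2 : 2 * CL * K₁ * (C₆ / t) ≤ 1 / 4 := by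
    have h1 : 2 * CL * K₁ * (C₆ / t) = (2 * CL * K₁ * C₆) / t := by ring
    rw [h1, div_le_iff₀ ht0, ht]
    have : 0 ≤ 8 * CL * K₁ * C₆ := by positivity
    linarith only [h6, h0]
  have hτ1 : ‖τ‖ ≤ 2 * CL * ‖y‖ := by
    have h1 : ‖τ‖ ≤ ‖Lmap h y‖ + ‖w‖ := by
      have := norm_add_le (Lmap h y) w
      rwa [hw, add_sub_cancel] at this
    have h2 := hCL y
    have h3 : C₆ / t * ‖τ‖ ≤ 1 / 2 * ‖τ‖ := mul_le_mul_of_nonneg_right hC6t (norm_nonneg _)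
    linarith only [hy, h1, h2, h3]
  have hτ2 : ‖τ‖ ≤ 2 * CL * (K₂ * ‖τ‖ ^ 2) + 2 * CL * K₁ * (C₆ / t) * ‖τ‖ := by
    calc ‖τ‖ ≤ 2 * CL * ‖y‖ := hτ1
      _ ≤ 2 * CL * (K₂ * ‖τ‖ ^ 2 + K₁ * ‖w‖) := by gcongr
      _ ≤ 2 * CL * (K₂ * ‖τ‖ ^ 2 + K₁ * (C₆ / t * ‖τ‖)) := by gcongr
      _ = _ := by ring
  have hτ3 : 2 * CL * (K₂ * ‖τ‖ ^ 2) ≤ 1 / 4 * ‖τ‖ := by
    have h1 : 8 * CL * K₂ * ‖τ‖ ≤ 1 := by
      rw [le_div_iff₀ (by positivity)] at hτ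
      have := norm_nonneg τ
      linarith only [hτ, this]
    have := norm_nonneg τ
    nlinarith only [h1, this]
  have hτ4 : 2 * CL * K₁ * (C₆ / t) * ‖τ‖ ≤ 1 / 4 * ‖τ‖ := mul_le_mul_of_nonneg_right hC6t2 (norm_nonneg _)
  have hτ5 : ‖τ‖ ≤ 0 := by
    have := norm_nonneg τ
    linarith only [hτ2, hτ3, hτ4]
  exact norm_le_zero_iff.1 hτ5

end FQ
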