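import Mathlib
import Pool.Agent.Helper46.FQ.Setup
import Pool.Agent.Helper46.FQ.Defs
import Pool.Agent.Helper46.FQ.ConeThm

/-!
Points of the variety in the real torus; complex points on the complexified orbit.
-/

namespace FQ

open MeasureTheory Finset Filter Topology AddMonoidAlgebra
open scoped FourierTransform SchwartzMap ContDiff

section
variable {E : Type*} [NormedAddCommGroup E] [InnerProductSpace ℝ E] [FiniteDimensional ℝ E]
  [MeasurableSpace E] [BorelSpace E]

/-- `x ∈ Λ` iff `φ(x)` is on the variety -/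
theorem QC.mem_iff {n : ℕ} {Λ : Set E} {h : (Fin n → ℤ) →+ E} {c : (Fin n → ℤ) → ℂ} (Q : QC Λ h c)
    (hspan : Submodule.span ℝ (Set.range h) = ⊤) (x : E) :
    x ∈ Λ ↔ ∀ f ∈ IdealOf c, evz (phi h x) f = 0 := by
  obtain ⟨R, C, D⟩ := Q.data hspan
  constructor
  · intro hx f hf
    exact D.vanish f hf _ ⟨x, hx, rfl⟩
  · intro hV
    by_contra hx
    obtain ⟨u, s, hs0, hs, hlt⟩ := Q.separate x hx
    obtain ⟨A, B, C₃, C₄, C₅, C₆, t₀, h3, h4, h5, h6, h0, hB, H⟩ := D.exists_pack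
    obtain ⟨β, P⟩ := H t₀ le_rfl
    have h1 := P.real_bound (phi h x) hV (lg_phi h x) (AddMonoidAlgebra.ofCoeff u) s hs0 (by
      rintro _ ⟨y, hy, rfl⟩
      rw [evz_phi]
      exact hs y hy)
    rw [evz_phi] at h1
    exact absurd h1 (not_le.2 hlt)

/-- the complexified orbit point -/
noncomputable def phiC {n : ℕ} (h : (Fin n → ℤ) →+ E) (a b : E) : Fin n → ℂˣ :=
  phi h a * expR ((-(2 * Real.pi)) • Lmap h b)

theorem lg_phiC {n : ℕ} (h : (Fin n → ℤ) →+ E) (a b : E) :
    lg (phiC h a b) = Lmap h ((-(2 * Real.pi)) • b) := by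
  rw [phiC, lg_mul, lg_phi, lg_expR, zero_add]
  exact ((Llin h).map_smul _ _).symm

theorem chrU_phiC {n : ℕ} (h : (Fin n → ℤ) →+ E) (a b : E) (ζ : Fin n → ℤ) :
    (chrU (phiC h a b) ζ : ℂ) = ex (h ζ) a * Complex.exp ((-(2 * Real.pi) * inner ℝ (h ζ) b : ℝ)) := by
  rw [phiC, chrU_mul, Units.val_mul, chrU_phi, chrU_expR]
  congr 1
  rw [Complex.ofReal_exp]
  congr 2
  have := pairR_Lmap h b ζ
  rw [pairR] at this
  rw [← this, Finset.mul_sum]
  exact Finset.sum_congr rfl fun i _ => by simp; ring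

theorem QC.complex_iff {n : ℕ} {Λ : Set E} {h : (Fin n → ℤ) →+ E} {c : (Fin n → ℤ) → ℂ}
    (Q : QC Λ h c) (hspan : Submodule.span ℝ (Set.range h) = ⊤) (a b : E) :
    (∀ f ∈ IdealOf c, evz (phiC h a b) f = 0) ↔ b = 0 ∧ a ∈ Λ := by
  have hb0 : phiC h a (0 : E) = phi h a := by
    have h1 : Lmap h (0 : E) = 0 := (Llin h).map_zero
    rw [phiC, h1, smul_zero]
    ext i
    simp [expR]
  constructor
  · intro hV
    obtain ⟨R, C, D⟩ := Q.data hspan
    obtain ⟨ε, hε, Fs, hFs, -, -, H⟩ := D.cone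
    have h1 := H (phiC h a b) hV ((-(2 * Real.pi)) • b) 0 (by rw [lg_phiC, add_zero])
      (by rw [norm_zero]; positivity)
    have hb : b = 0 := by
      rcases smul_eq_zero.1 h1 with h | h
      · have := Real.pi_pos
        exfalso; linarith
      · exact h
    refine ⟨hb, ?_⟩
    rw [hb, hb0] at hV
    exact (Q.mem_iff hspan a).2 hV
  · rintro ⟨rfl, ha⟩
    rw [hb0]
    exact (Q.mem_iff hspan a).1 ha

end

/-- the quasicrystal structure from the definition -/
theorem IsFQSet.qc {d : ℕ} {Λ : Set (EuclideanSpace ℝ (Fin d))} (hΛ : IsFQSet Λ)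
    (hud : IsUniformlyDiscrete Λ) :
    ∃ c : EuclideanSpace ℝ (Fin d) → ℂ, QC Λ (AddMonoidHom.id _) c := by
  classical
  obtain ⟨Λ', c, hc, hid, hlf, hlf', -⟩ := hΛ
  refine ⟨Set.indicator Λ' c, fun x y hxy => hxy, ?_, ?_, ?_⟩
  · obtain ⟨r, hr, H⟩ := hud
    exact ⟨r, hr, fun x hx y hy hxy => by rw [← dist_eq_norm]; exact H x hx y hy hxy⟩
  · intro r
    refine (hlf' (r + 1)).subset ?_
    rintro ξ ⟨h1, h2⟩
    refine ⟨Set.mem_of_indicator_ne_zero h1, ?_⟩
    rw [mem_ball_zero_iff]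
    have : ‖ξ‖ ≤ r := h2
    linarith
  · intro g _
    rw [hid g]
    have h1 := tsum_subtype Λ' (fun ξ => c ξ * g ξ)
    rw [h1]
    refine tsum_congr fun ξ => ?_
    show _ = Set.indicator Λ' c ξ * g ξ
    by_cases hξ : ξ ∈ Λ'
    · rw [Set.indicator_of_mem hξ, Set.indicator_of_mem hξ]
    · rw [Set.indicator_of_notMem hξ, Set.indicator_of_notMem hξ, zero_mul]

/-- common zeros of a finite trigonometric system -/
theorem exists_system {d : ℕ} {Λ : Set (EuclideanSpace ℝ (Fin d))} (hΛ : IsFQSet Λ)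
    (hud : IsUniformlyDiscrete Λ) :
    ∃ Fs : Finset (EuclideanSpace ℝ (Fin d) →₀ ℂ), {x : Fin d → ℂ | ∀ f ∈ Fs, trigEval f x = 0} =
      {x | ∃ a ∈ Λ, ∀ j, x j = ((a j : ℝ) : ℂ)} := by
  classical
  obtain ⟨c₀, Q₀⟩ := hΛ.qc hud
  obtain ⟨n, h, hinj, hrange, hspan⟩ := Q₀.exists_basis
  have Q := Q₀.comp h hinj hrange
  set c : (Fin n → ℤ) → ℂ := fun ζ => c₀ (h ζ) with hc
  obtain ⟨S, hS⟩ := (inferInstance : IsNoetherianRing (LR n)).noetherian (IdealOf c)
  refine ⟨S.image (fun f => Finsupp.mapDomain h f.coeff), ?_⟩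
  -- evaluation
  have hev : ∀ (f : LR n) (x : Fin d → ℂ), trigEval (Finsupp.mapDomain h f.coeff) x =
      evz (phiC h (WithLp.toLp 2 fun j => (x j).re) (WithLp.toLp 2 fun j => (x j).im)) f := by
    intro f x
    rw [trigEval, Finsupp.sum_mapDomain_index (by intro b; simp) (by intros; ring), evz_eq_sum,
      Finsupp.sum]
    refine Finset.sum_congr rfl fun ζ _ => ?_
    rw [chrU_phiC, ex, ← Complex.exp_add]
    congr 2
    simp only [PiLp.inner_apply, RCLike.inner_apply, conj_trivial]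
    push_cast
    simp only [Finset.mul_sum, Finset.sum_mul, ← Finset.sum_add_distrib]
    refine Finset.sum_congr rfl fun j _ => ?_
    have h1 : x j = (x j).re + (x j).im * Complex.I := (Complex.re_add_im (x j)).symm
    conv_lhs => rw [h1]
    have h2 := Complex.I_sq
    linear_combination (2 * (Real.pi : ℂ) * (h ζ j : ℂ) * ((x j).im : ℂ)) * h2
  ext x
  simp only [Set.mem_setOf_eq, Finset.mem_image, forall_exists_index, and_imp, forall_apply_eq_imp_iff₂]
  have h1 : (∀ f ∈ S, trigEval (Finsupp.mapDomain h f.coeff) x = 0) ↔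
      ∀ f ∈ IdealOf c, evz (phiC h (WithLp.toLp 2 fun j => (x j).re)
        (WithLp.toLp 2 fun j => (x j).im)) f = 0 := by
    constructor
    · intro H f hf
      rw [← hS] at hf
      have hker : Ideal.span (S : Set (LR n)) ≤ RingHom.ker (evz (phiC h (WithLp.toLp 2 fun j => (x j).re)
        (WithLp.toLp 2 fun j => (x j).im)) : LR n →+* ℂ) := by
        rw [Ideal.span_le]
        intro g hg
        have := H g hg
        rw [hev] at this
        exact this
      exact hker hf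
    · intro H f hf
      rw [hev]
      apply H
      rw [← hS]
      exact Ideal.subset_span hf
  rw [h1, Q.complex_iff hspan]
  constructor
  · rintro ⟨hb, ha⟩
    refine ⟨_, ha, fun j => ?_⟩
    have h2 := congrArg (fun v : EuclideanSpace ℝ (Fin d) => v j) hb
    simp only [PiLp.zero_apply] at h2
    apply Complex.ext
    · simp
    · simpa using h2
  · rintro ⟨a, ha, hx⟩
    have h2 : (WithLp.toLp 2 fun j => (x j).re : EuclideanSpace ℝ (Fin d)) = a := by
      ext j; simp [hx j]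
    have h3 : (WithLp.toLp 2 fun j => (x j).im : EuclideanSpace ℝ (Fin d)) = 0 := by
      ext j; simp [hx j]
    rw [h2, h3]
    exact ⟨rfl, ha⟩

end FQ
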