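import Pool.Agent.Helper46.FQ.Adapt
import Pool.Agent.Helper46.FQ.LYDefs

/-!
Few sign changes: a polynomial of low degree with the same signs.
-/

namespace FQ

open Finset

variable {n d : ℕ}

open Classical in
/-- set of indices where the sign changes -/
noncomputable def chg (y : Fin n → EReal) : Finset (Fin n) :=
  (Finset.univ.filter fun p : Fin n × Fin n => p.1 < p.2 ∧ (∀ k, p.1 < k → k < p.2 → y k = 0) ∧
    ((y p.1 < 0 ∧ 0 < y p.2) ∨ (0 < y p.1 ∧ y p.2 < 0))).image Prod.snd

theorem card_chg_le (y : Fin n → EReal) : (chg y).card ≤ var y := Finset.card_image_le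

theorem mem_chg {y : Fin n → EReal} {i : Fin n} : i ∈ chg y ↔ ∃ j, j < i ∧
    (∀ k, j < k → k < i → y k = 0) ∧ ((y j < 0 ∧ 0 < y i) ∨ (0 < y j ∧ y i < 0)) := by
  classical
  simp only [chg, Finset.mem_image, Finset.mem_filter, Finset.mem_univ, true_and, Prod.exists,
    exists_eq_right]

/-- factor of the sign polynomial, product at two points -/
theorem fac_pos {k i j : Fin n} (hji : j < i) (hk : ¬ (j < k ∧ k ≤ i)) :
    0 < (((k : ℕ) : ℝ) - 1 / 2 - ((i : ℕ) : ℝ)) * (((k : ℕ) : ℝ) - 1 / 2 - ((j : ℕ) : ℝ)) := by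
  have hji' : ((j : ℕ) : ℝ) + 1 ≤ ((i : ℕ) : ℝ) := by exact_mod_cast hji
  by_cases h : k ≤ j
  · have h1 : ((k : ℕ) : ℝ) ≤ ((j : ℕ) : ℝ) := by exact_mod_cast h
    apply mul_pos_of_neg_of_neg <;> linarith
  · have h1 : i < k := by
      by_contra hcon
      exact hk ⟨not_le.1 h, not_lt.1 hcon⟩
    have h2 : ((i : ℕ) : ℝ) + 1 ≤ ((k : ℕ) : ℝ) := by exact_mod_cast h1
    apply mul_pos <;> linarith

theorem fac_neg {i j : Fin n} (hji : j < i) :
    (((i : ℕ) : ℝ) - 1 / 2 - ((i : ℕ) : ℝ)) * (((i : ℕ) : ℝ) - 1 / 2 - ((j : ℕ) : ℝ)) < 0 := by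
  have hji' : ((j : ℕ) : ℝ) + 1 ≤ ((i : ℕ) : ℝ) := by exact_mod_cast hji
  apply mul_neg_of_neg_of_pos <;> linarith

theorem qJ_mul (J : Finset (Fin n)) (i j : Fin n) : qJ J ((i : ℕ) : ℝ) * qJ J ((j : ℕ) : ℝ) =
    ∏ k ∈ J, (((k : ℕ) : ℝ) - 1 / 2 - ((i : ℕ) : ℝ)) * (((k : ℕ) : ℝ) - 1 / 2 - ((j : ℕ) : ℝ)) := by
  rw [qJ, qJ, Finset.prod_mul_distrib]

/-- signs as real numbers -/
noncomputable def sgE (y : EReal) : ℝ := if 0 < y then 1 else if y < 0 then -1 else 0

theorem sgE_pos {y : EReal} (h : 0 < y) : sgE y = 1 := if_pos h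
theorem sgE_neg {y : EReal} (h : y < 0) : sgE y = -1 := by
  rw [sgE, if_neg (not_lt.2 h.le), if_pos h]

theorem pair_sign (y : Fin n → EReal) {i j : Fin n} (hji : j < i) (hi : y i ≠ 0) (hj : y j ≠ 0)
    (hbet : ∀ k, j < k → k < i → y k = 0) :
    0 < (sgE (y i) * qJ (chg y) ((i : ℕ) : ℝ)) * (sgE (y j) * qJ (chg y) ((j : ℕ) : ℝ)) := by
  classical
  have hre : (sgE (y i) * qJ (chg y) ((i : ℕ) : ℝ)) * (sgE (y j) * qJ (chg y) ((j : ℕ) : ℝ)) =
      (sgE (y i) * sgE (y j)) * (qJ (chg y) ((i : ℕ) : ℝ) * qJ (chg y) ((j : ℕ) : ℝ)) := by ring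
  rw [hre, qJ_mul]
  -- elements of chg in (j, i]
  have hmem : ∀ k ∈ chg y, j < k → k ≤ i → k = i := by
    intro k hk hjk hki
    by_contra hne
    have hlt : k < i := lt_of_le_of_ne hki hne
    obtain ⟨j', -, -, h1⟩ := mem_chg.1 hk
    have h2 := hbet k hjk hlt
    rcases h1 with ⟨-, h3⟩ | ⟨-, h3⟩
    · rw [h2] at h3; exact lt_irrefl _ h3
    · rw [h2] at h3; exact lt_irrefl _ h3
  by_cases hopp : (y j < 0 ∧ 0 < y i) ∨ (0 < y j ∧ y i < 0)
  · have hi' : i ∈ chg y := mem_chg.2 ⟨j, hji, hbet, hopp⟩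
    have h1 : sgE (y i) * sgE (y j) = -1 := by
      rcases hopp with ⟨h2, h3⟩ | ⟨h2, h3⟩
      · rw [sgE_pos h3, sgE_neg h2]; norm_num
      · rw [sgE_pos h2, sgE_neg h3]; norm_num
    rw [h1, ← Finset.mul_prod_erase _ _ hi']
    have h2 : 0 < ∏ k ∈ (chg y).erase i, (((k : ℕ) : ℝ) - 1 / 2 - ((i : ℕ) : ℝ)) *
        (((k : ℕ) : ℝ) - 1 / 2 - ((j : ℕ) : ℝ)) := by
      refine Finset.prod_pos fun k hk => fac_pos hji ?_
      rintro ⟨h3, h4⟩
      exact (Finset.mem_erase.1 hk).1 (hmem k (Finset.mem_erase.1 hk).2 h3 h4)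
    have h3 := fac_neg hji
    nlinarith
  · have h1 : sgE (y i) * sgE (y j) = 1 := by
      rcases lt_or_gt_of_ne hi with h2 | h2 <;> rcases lt_or_gt_of_ne hj with h3 | h3
      · rw [sgE_neg h2, sgE_neg h3]; norm_num
      · exact absurd (Or.inr ⟨h3, h2⟩) hopp
      · exact absurd (Or.inl ⟨h3, h2⟩) hopp
      · rw [sgE_pos h2, sgE_pos h3]; norm_num
    rw [h1, one_mul]
    refine Finset.prod_pos fun k hk => fac_pos hji ?_
    rintro ⟨h3, h4⟩
    have h5 := hmem k hk h3 h4
    subst h5
    obtain ⟨j', hj', hb', ho'⟩ := mem_chg.1 hk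
    -- j' = j
    have h6 : j' = j := by
      rcases lt_trichotomy j' j with h | h | h
      · exact absurd (hb' j h hji) hj
      · exact h
      · have h7 := hbet j' h hj'
        rcases ho' with ⟨h8, -⟩ | ⟨h8, -⟩
        · rw [h7] at h8; exact absurd h8 (lt_irrefl _)
        · rw [h7] at h8; exact absurd h8 (lt_irrefl _)
    rw [h6] at ho'
    exact hopp ho'

/-- few sign changes give a sign polynomial of low degree -/
theorem exists_sign_poly (y : Fin n → EReal) (hy : var y < d) : ∃ (J : Finset (Fin n)) (s : ℝ),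
    |s| = 1 ∧ J.card < d ∧ ∀ i : Fin n, (0 < y i → 0 < s * qJ J ((i : ℕ) : ℝ)) ∧
      (y i < 0 → s * qJ J ((i : ℕ) : ℝ) < 0) := by
  classical
  have hcard : (chg y).card < d := (card_chg_le y).trans_lt hy
  by_cases hne : ∃ i, y i ≠ 0
  · set T : Finset (Fin n) := Finset.univ.filter fun i => y i ≠ 0 with hT
    have hTne : T.Nonempty := by
      obtain ⟨i, hi⟩ := hne
      exact ⟨i, by rw [hT, Finset.mem_filter]; exact ⟨Finset.mem_univ _, hi⟩⟩
    set i₀ := T.min' hTne with hi₀
    have hi₀T : y i₀ ≠ 0 := (Finset.mem_filter.1 (T.min'_mem hTne)).2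
    set t : Fin n → ℝ := fun i => sgE (y i) * qJ (chg y) ((i : ℕ) : ℝ) with ht
    have ht0 : ∀ i, y i ≠ 0 → t i ≠ 0 := by
      intro i hi
      have h1 := qJ_lower (chg y) i
      have h2 : (0 : ℝ) < (1 / 2) ^ n := by positivity
      have h3 : qJ (chg y) ((i : ℕ) : ℝ) ≠ 0 := by
        intro h0
        rw [h0, abs_zero] at h1
        linarith
      apply mul_ne_zero _ h3
      rcases lt_or_gt_of_ne hi with h | h
      · rw [sgE_neg h]; norm_num
      · rw [sgE_pos h]; norm_num
    have hmain : ∀ m : ℕ, ∀ i : Fin n, (i : ℕ) = m → y i ≠ 0 → 0 < t i₀ * t i := by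
      intro m
      induction m using Nat.strong_induction_on with
      | _ m ih =>
        intro i him hi
        by_cases hii : i = i₀
        · rw [hii]
          exact mul_self_pos.2 (ht0 _ hi₀T)
        · have hlt : i₀ < i := lt_of_le_of_ne (T.min'_le i (by
            rw [hT, Finset.mem_filter]; exact ⟨Finset.mem_univ _, hi⟩)) (Ne.symm hii)
          set U : Finset (Fin n) := T.filter fun j => j < i with hU
          have hUne : U.Nonempty := ⟨i₀, by
            rw [hU, Finset.mem_filter]; exact ⟨T.min'_mem hTne, hlt⟩⟩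
          set j := U.max' hUne with hj
          have hjU := Finset.mem_filter.1 (U.max'_mem hUne)
          have hjT : y j ≠ 0 := (Finset.mem_filter.1 hjU.1).2
          have hji : j < i := hjU.2
          have hbet : ∀ k, j < k → k < i → y k = 0 := by
            intro k hjk hki
            by_contra hk
            have : k ≤ j := U.le_max' k (by
              rw [hU, Finset.mem_filter, hT, Finset.mem_filter]
              exact ⟨⟨Finset.mem_univ _, hk⟩, hki⟩)
            exact absurd hjk (not_lt.2 this)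
          have h1 := pair_sign y hji hi hjT hbet
          have h2 := ih j (by rw [← him]; exact hji) j rfl hjT
          have h3 : 0 < (t i₀ * t i) * (t j * t j) := by
            have h4 : (t i₀ * t i) * (t j * t j) = (t i * t j) * (t i₀ * t j) := by ring
            rw [h4]
            exact mul_pos h1 h2
          exact pos_of_mul_pos_left h3 (mul_self_nonneg _)
    refine ⟨chg y, SignType.sign (t i₀), ?_, hcard, fun i => ?_⟩
    · rcases lt_or_gt_of_ne (ht0 i₀ hi₀T) with h | h
      · rw [sign_neg h]; simp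
      · rw [sign_pos h]; simp
    · have hgen : y i ≠ 0 → 0 < (SignType.sign (t i₀) : ℝ) * t i := by
        intro hi
        have h1 := hmain i i rfl hi
        rcases lt_or_gt_of_ne (ht0 i₀ hi₀T) with h | h
        · rw [sign_neg h]
          have h2 : t i < 0 := by
            by_contra hcon
            push Not at hcon
            have := mul_nonpos_of_nonpos_of_nonneg h.le hcon
            linarith
          simp only [SignType.coe_neg_one, neg_mul, one_mul]
          linarith
        · rw [sign_pos h]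
          simp only [SignType.coe_one, one_mul]
          exact pos_of_mul_pos_right h1 h.le
      constructor
      · intro h
        have h1 := hgen h.ne'
        rw [ht] at h1
        simp only [sgE_pos h, one_mul] at h1
        exact h1
      · intro h
        have h1 := hgen h.ne
        rw [ht] at h1
        simp only [sgE_neg h] at h1
        linarith
  · push Not at hne
    refine ⟨∅, 1, by norm_num, ?_, fun i => ?_⟩
    · rw [Finset.card_empty]; omega
    · rw [hne i]
      exact ⟨fun h => absurd h (lt_irrefl _), fun h => absurd h (lt_irrefl _)⟩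

end FQ
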