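import Mathlib
import Pool.Agent.Helper46.FQ.Invar
import Pool.Agent.Helper46.FQ.Boundary
import Pool.Agent.Helper46.FQ.NewBasis
import Pool.Agent.Helper46.FQ.QC4
import Pool.Agent.Helper46.FQ.Real
import Pool.Agent.Helper46.FQ.VarLemma

/-!
The main theorem: Delone Fourier quasicrystals are torus sections of strict Lee-Yang varieties.
-/

namespace FQ

open Finset AddMonoidAlgebra
open scoped OnePoint

variable {n d : ℕ}

theorem exp_eq_phi (h : (Fin n → ℤ) →+ EuclideanSpace ℝ (Fin d)) (x : EuclideanSpace ℝ (Fin d)) (i : Fin n) :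
    Complex.exp (2 * Real.pi * Complex.I * ∑ j, (Lmat h i j : ℂ) * (x j : ℂ)) = ((phi h x i : ℂˣ) : ℂ) := by
  rw [phi, Units.val_mk0, ex]
  congr 1
  rw [PiLp.inner_apply]
  simp only [RCLike.inner_apply, conj_trivial, Lmat]
  push_cast
  have h1 : ∑ j, ((h (Pi.single i 1)) j : ℂ) * (x j : ℂ) = ∑ j, (x j : ℂ) * ((h (Pi.single i 1)) j : ℂ) :=
    Finset.sum_congr rfl fun j _ => mul_comm _ _
  rw [h1]
  ring

theorem exists_units (p : Fin n → OnePoint ℂ) (hp : ∀ i, bsg (p i) = 0) :
    ∃ z : Fin n → ℂˣ, p = fun i => (((z i : ℂˣ) : ℂ) : OnePoint ℂ) := by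
  have h1 : ∀ i, ∃ u : ℂˣ, p i = ((u : ℂ) : OnePoint ℂ) := by
    intro i
    have h2 := hp i
    induction hpi : p i using OnePoint.rec with
    | infty =>
      rw [hpi] at h2
      simp [bsg] at h2
    | coe w =>
      rw [hpi] at h2
      by_cases hw : w = 0
      · rw [hw] at h2; simp [bsg] at h2
      · exact ⟨Units.mk0 w hw, rfl⟩
  choose z hz using h1
  exact ⟨z, funext hz⟩

theorem logAbs_unit (u : ℂˣ) : logAbs ((u : ℂ) : OnePoint ℂ) = ((Real.log ‖(u : ℂ)‖ : ℝ) : EReal) := by
  rw [logAbs, OnePoint.elim_some, if_neg u.ne_zero]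

theorem main_leeyang (Λ : Set (EuclideanSpace ℝ (Fin d))) (hΛ : IsFQSet Λ) (hD : IsDelone Λ) :
    ∃ (n : ℕ) (X : Set (Fin n → OnePoint ℂ)) (L : Matrix (Fin n) (Fin d) ℝ),
      IsStrictLeeYang d X ∧ (∀ f : Fin d ↪o Fin n, 0 < (L.submatrix f id).det) ∧ Λ = LYSet X L := by
  classical
  obtain ⟨c₀, Q₀⟩ := hΛ.qc hD.1
  obtain ⟨n, h, Q, hspan, hminor, hC1, c₁, hc₁, Fs, hFs, hC2⟩ := exists_adapted_basis Q₀
  set c : (Fin n → ℤ) → ℂ := fun ζ => c₀ (h ζ) with hc
  obtain ⟨R, C, A, B, t, C₃, C₄, C₅, C₆, β, P, ε₀, hε₀, hsep⟩ := Q.separation hspan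
  have D := P.D
  have hfin : Module.finrank ℝ (EuclideanSpace ℝ (Fin d)) = d := finrank_euclideanSpace_fin
  have hdim := kdim_add hspan
  rw [hfin] at hdim
  -- membership of orbit points
  have hmem : ∀ x : EuclideanSpace ℝ (Fin d),
      (fun i => ((Complex.exp (2 * Real.pi * Complex.I * ∑ j, (Lmat h i j : ℂ) * (x j : ℂ)) : ℂ) :
        OnePoint ℂ)) ∈ XI (IdealOf c) ↔ x ∈ Λ := by
    intro x
    have h1 : (fun i => ((Complex.exp (2 * Real.pi * Complex.I * ∑ j, (Lmat h i j : ℂ) * (x j : ℂ)) : ℂ) :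
        OnePoint ℂ)) = fun i => (((phi h x i : ℂˣ) : ℂ) : OnePoint ℂ) := by
      ext i; rw [exp_eq_phi]
    rw [h1, mem_XI_iff]
    exact (Q.mem_iff hspan x).symm
  refine ⟨n, XI (IdealOf c), Lmat h, ?_, hminor, ?_⟩
  · refine ⟨by omega, ?_, isClosed_XI _, ?_, ?_, ?_, ?_⟩
    · obtain ⟨Rd, hRd⟩ := hD.2
      obtain ⟨x, hx, -⟩ := hRd 0
      exact ⟨_, (hmem x).2 hx⟩
    · have h1 := equidim_XI P hspan
      rw [hfin] at h1
      exact h1
    · intro z hz
      refine invariant_XI _ (fun f hf => ?_) z hz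
      rw [D.mem_iff] at hf ⊢
      intro w hw
      rw [evz_stf f w (D.unit w hw), hf w hw, map_zero]
    · intro p hp
      by_cases hvar : var (fun i => logAbs (p i)) < d
      · left
        obtain ⟨J, s, hs, hJ, hsign⟩ := exists_sign_poly _ hvar
        by_cases hb : ∃ i₀, bsg (p i₀) ≠ 0
        · exfalso
          obtain ⟨i₀, hi₀⟩ := hb
          refine boundary (IdealOf c) Fs hFs c₁ hc₁ p hp i₀ hi₀ fun r hr hv => ?_
          refine hC2 _ hv J s hs hJ fun i => ?_
          have h1 := hsign i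
          show 0 ≤ s * qJ J ((i : ℕ) : ℝ) * (r i * (bsg (p i) : ℝ))
          induction hpi : p i using OnePoint.rec with
          | infty =>
            rw [hpi] at h1
            have h2 := h1.1 (by rw [logAbs, OnePoint.elim_infty]; exact EReal.zero_lt_top)
            have h3 : bsg (∞ : OnePoint ℂ) = 1 := rfl
            rw [h3, Int.cast_one, mul_one]
            exact mul_nonneg h2.le (hr i)
          | coe w =>
            rw [hpi] at h1
            by_cases hw : w = 0
            · have h2 := h1.2 (by rw [logAbs, OnePoint.elim_some, if_pos hw]; exact EReal.bot_lt_zero)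
              have h3 : bsg ((w : ℂ) : OnePoint ℂ) = -1 := by simp [bsg, hw]
              rw [h3]
              push_cast
              have := mul_nonneg_of_nonpos_of_nonpos h2.le (neg_nonpos.2 (hr i))
              linarith
            · have h3 : bsg ((w : ℂ) : OnePoint ℂ) = 0 := by simp [bsg, hw]
              rw [h3, Int.cast_zero, mul_zero, mul_zero]
        · push Not at hb
          obtain ⟨z, rfl⟩ := exists_units p hb
          rw [mem_XI_iff] at hp
          by_cases hlg : lg z = 0
          · intro i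
            exact ⟨z i, norm_eq_one_of_lg hlg i, rfl⟩
          · exfalso
            refine hC1 z hp hlg J s hs hJ fun i => ?_
            have h1 := hsign i
            rw [logAbs_unit] at h1
            have h2 : lg z i = Real.log ‖(z i : ℂ)‖ := rfl
            rw [h2]
            rcases lt_trichotomy (Real.log ‖(z i : ℂ)‖) 0 with h | h | h
            · have h3 := h1.2 (by exact_mod_cast h)
              exact mul_nonneg_of_nonpos_of_nonpos h3.le h.le
            · rw [h, mul_zero]
            · have h3 := h1.1 (by exact_mod_cast h)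
              exact mul_nonneg h3.le h.le
      · right
        exact not_lt.1 hvar
    · rintro w ⟨hw1, hw2⟩
      have hnorm : ∀ i, ‖w i‖ = 1 := by
        intro i
        obtain ⟨w', hw', he⟩ := hw2 i
        rw [OnePoint.coe_injective he]
        exact hw'
      have hne : ∀ i, w i ≠ 0 := fun i => by
        rw [← norm_ne_zero_iff, hnorm i]; exact one_ne_zero
      set z₀ : Fin n → ℂˣ := fun i => Units.mk0 (w i) (hne i) with hz₀
      have hw : w = fun i => ((z₀ i : ℂˣ) : ℂ) := rfl
      have hlg : lg z₀ = 0 := by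
        ext i
        show Real.log ‖w i‖ = 0
        rw [hnorm i, Real.log_one]
      have hV : ∀ f ∈ IdealOf c, evz z₀ f = 0 := (mem_XI_iff _ z₀).1 hw1
      exact smooth_XI P hspan hε₀ hsep z₀ hlg hV d hfin
  · ext x
    exact (hmem x).symm

end FQ
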