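import Pool.Agent.Helper46.FQ.Chain

/-!
(H1): every chain ideal is good in every generic direction.
-/

namespace FQ

open Finset

variable {n : ℕ} {E : Type*} [NormedAddCommGroup E] [InnerProductSpace ℝ E]

open Classical in
theorem exists_pair {G : Type*} [AddCommGroup G] {h : G →+ E} {c : G → ℂ} (w : G →+ ℝ)
    {A : AddSubgroup G} {J : Set (G →₀ ℂ)} (hc : Chain h (Ann c) A J) (y : E)
    (hng : ∀ f ∈ J, f 0 ≠ 0 → ∃ ζ ∈ f.support, ζ ≠ 0 ∧ 0 ≤ w ζ + inner ℝ (h ζ) y) :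
    ∀ f ∈ Ann c, f ≠ 0 → ∃ ζ₁ ∈ f.support, ∃ ζ₂ ∈ f.support, ζ₁ ≠ ζ₂ ∧
      ζ₁ - ζ₂ ∈ A ∧ w (ζ₁ - ζ₂) + inner ℝ (h (ζ₁ - ζ₂)) y = 0 := by
  intro f hf hf0
  obtain ⟨ζ₀, hζ₀, H⟩ := hc.inv (Ann.sh c) f hf hf0
  have hne : (f.support.filter (fun ζ => ζ - ζ₀ ∈ A)).Nonempty :=
    ⟨ζ₀, by simp [Finset.mem_filter, hζ₀, A.zero_mem, -Finsupp.mem_support_iff]⟩
  obtain ⟨ζ, hζ, hmax⟩ := (f.support.filter (fun ζ => ζ - ζ₀ ∈ A)).exists_max_image
    (w + fn h y) hne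
  rw [Finset.mem_filter] at hζ
  have hJ := H ζ hζ.1 hζ.2
  obtain ⟨ξ, hξ, hξ0, hξ1⟩ := hng _ hJ (by
    rw [Finsupp.filter_apply_pos _ _ A.zero_mem, sh_apply, zero_add]
    exact Finsupp.mem_support_iff.1 hζ.1)
  rw [Finsupp.support_filter, Finset.mem_filter, Finsupp.mem_support_iff, sh_apply,
    ← Finsupp.mem_support_iff] at hξ
  have h1 := hmax (ξ + ζ) (by
    rw [Finset.mem_filter]
    refine ⟨hξ.1, ?_⟩
    have := A.add_mem hξ.2 hζ.2
    rwa [← add_sub_assoc] at this)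
  simp only [AddMonoidHom.add_apply, fn_apply, map_add] at h1
  refine ⟨ξ + ζ, hξ.1, ζ, hζ.1, ?_, ?_, ?_⟩
  · intro h; exact hξ0 (by simpa using h)
  · simpa using hξ.2
  · rw [add_sub_cancel_right]
    linarith

open Classical in
/-- the counting argument -/
theorem card_le_window (h : (Fin n → ℤ) →+ E) (c : (Fin n → ℤ) → ℂ) (R R' D' : ℝ)
    (hRR : R ≤ R')
    (U : ∀ f : (Fin n → ℤ) →₀ ℂ, (∀ η, ‖h η‖ ≤ R → conv f c η = 0) → f ∈ Ann c)
    (P : (Fin n → ℤ) → (Fin n → ℤ) → Prop)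
    (hP : ∀ f ∈ Ann c, f ≠ 0 → ∃ ζ₁ ∈ f.support, ∃ ζ₂ ∈ f.support, ζ₁ ≠ ζ₂ ∧ P ζ₁ ζ₂)
    (Q : Finset (Fin n → ℤ)) (N M D : ℕ) (hQ : ∀ ζ ∈ Q, ‖ζ‖ ≤ N + M) (hQ2 : ∀ ζ ∈ Q, ‖h ζ‖ ≤ D')
    (hD : ∀ ξ, c ξ ≠ 0 → ‖h ξ‖ ≤ R + D' → ‖ξ‖ ≤ D)
    (hQP : ∀ ζ₁ ∈ Q, ∀ ζ₂ ∈ Q, P ζ₁ ζ₂ → ζ₁ = ζ₂) :
    Q.card ≤ ((box n (N + (M + D))).filter (fun ζ => ‖h ζ‖ ≤ R')).card := by
  refine card_le_of_inj Q _ (fun ζ η => c (η - ζ)) ?_
  intro x hx
  let f : (Fin n → ℤ) →₀ ℂ := Finsupp.onFinset Q (fun ζ => if ζ ∈ Q then x ζ else 0) (by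
    intro a ha
    by_contra hcon
    simp [hcon] at ha)
  have hfQ : f.support ⊆ Q := Finsupp.support_onFinset_subset
  have hfx : ∀ ζ ∈ Q, f ζ = x ζ := by
    intro ζ hζ
    simp [f, Finsupp.onFinset_apply, hζ]
  have hf : f ∈ Ann c := by
    apply U
    intro η hη
    rw [conv_eq_sum_of_subset _ _ _ hfQ]
    by_cases hη2 : η ∈ ((box n (N + (M + D))).filter (fun ζ => ‖h ζ‖ ≤ R'))
    · rw [← hx η hη2]
      exact Finset.sum_congr rfl fun ζ hζ => by rw [hfx ζ hζ]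
    · refine Finset.sum_eq_zero fun ζ hζ => ?_
      by_cases hcz : c (η - ζ) = 0
      · rw [hcz, mul_zero]
      · exfalso
        apply hη2
        rw [Finset.mem_filter, mem_box]
        refine ⟨?_, hη.trans hRR⟩
        have h1 : ‖h (η - ζ)‖ ≤ R + D' := by
          rw [map_sub]
          exact (norm_sub_le _ _).trans (add_le_add hη (hQ2 ζ hζ))
        have h2 := hD _ hcz h1
        have h3 : ‖η‖ ≤ ‖ζ‖ + ‖η - ζ‖ := by
          have := norm_add_le ζ (η - ζ)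
          rwa [add_sub_cancel] at this
        have h4 := hQ ζ hζ
        push_cast
        linarith
  intro ζ hζ
  by_contra hne
  have hf0 : f ≠ 0 := by
    intro h0
    apply hne
    rw [← hfx ζ hζ, h0]; rfl
  obtain ⟨ζ₁, h1, ζ₂, h2, h3, h4⟩ := hP f hf hf0
  exact h3 (hQP ζ₁ (hfQ h1) ζ₂ (hfQ h2) h4)

open Classical in
/-- (H1) -/
theorem good_of_chain (h : (Fin n → ℤ) →+ E) (hspan : Submodule.span ℝ (Set.range h) = ⊤)
    (c : (Fin n → ℤ) → ℂ) (R : ℝ)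
    (LF : ∀ r, {ξ | c ξ ≠ 0 ∧ ‖h ξ‖ ≤ r}.Finite)
    (U : ∀ f : (Fin n → ℤ) →₀ ℂ, (∀ η, ‖h η‖ ≤ R → conv f c η = 0) → f ∈ Ann c)
    (w : (Fin n → ℤ) →+ ℝ) (hw : Generic h w)
    {A : AddSubgroup (Fin n → ℤ)} {J : Set ((Fin n → ℤ) →₀ ℂ)} (hc : Chain h (Ann c) A J) (y : E) :
    ∃ f ∈ J, f 0 ≠ 0 ∧ ∀ ζ ∈ f.support, ζ ≠ 0 → w ζ + inner ℝ (h ζ) y < 0 := by
  by_contra hng
  push Not at hng
  have hpair := exists_pair w hc y hng
  obtain ⟨y₁, hy₁, hA⟩ := hc.exists_ne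
  set R' : ℝ := max R 0 with hR'
  have hR'0 : 0 ≤ R' := le_max_right _ _
  obtain ⟨ζ₁, hζ₁⟩ := exists_inner_large h hspan y₁ hy₁ (2 * R' * ‖y₁‖)
  -- the finite set `Qf`
  have hQf := hw y (2 * R')
  set Qf : Finset (Fin n → ℤ) := hQf.toFinset with hQfdef
  have hQf0 : (0 : Fin n → ℤ) ∈ Qf := by
    rw [hQfdef, Set.Finite.mem_toFinset]
    simp [hR'0]
  set q₀ := Qf.card with hq₀
  have hq₀pos : 1 ≤ q₀ := Finset.card_pos.2 ⟨0, hQf0⟩
  set J₀ := 2 * q₀ with hJ₀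
  set W : ℕ → Finset (Fin n → ℤ) := fun N => (box n N).filter (fun ζ => ‖h ζ‖ ≤ R') with hW
  -- bounds
  set D' : ℝ := R' + J₀ * ‖h ζ₁‖ with hD'
  obtain ⟨D, hD⟩ : ∃ D : ℕ, ∀ ξ, c ξ ≠ 0 → ‖h ξ‖ ≤ R + D' → ‖ξ‖ ≤ D := by
    obtain ⟨B, hB⟩ := ((LF (R + D')).image (fun ξ => ‖ξ‖)).bddAbove
    obtain ⟨D, hD⟩ := exists_nat_ge B
    exact ⟨D, fun ξ h1 h2 => (hB ⟨ξ, ⟨h1, h2⟩, rfl⟩).trans hD⟩
  obtain ⟨M, hM⟩ := exists_nat_ge (J₀ * ‖ζ₁‖)
  -- the subgroup A''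
  set v : (Fin n → ℤ) →+ ℝ := w + fn h y with hv
  set A'' : AddSubgroup (Fin n → ℤ) := A ⊓ v.ker with hA''
  have key : ∀ N, 2 * (W N).card ≤ (W (N + (M + D))).card := by
    intro N
    let Φ : (Fin n → ℤ) × ℕ → (Fin n → ℤ) := fun p => p.1 + p.2 • ζ₁
    let S := (W N) ×ˢ (Finset.range J₀)
    let mk : (Fin n → ℤ) → (Fin n → ℤ) ⧸ A'' := QuotientAddGroup.mk
    let T := S.image (fun p => mk (Φ p))
    have hΦ : ∀ p, fn h y₁ (Φ p) = inner ℝ (h p.1) y₁ + (p.2 : ℝ) * inner ℝ (h ζ₁) y₁ := by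
      intro p
      have e1 : Φ p = p.1 + p.2 • ζ₁ := rfl
      rw [e1, map_add, map_nsmul, nsmul_eq_mul]
      rfl
    have hfib : ∀ t ∈ T, (S.filter (fun p => mk (Φ p) = t)).card ≤ q₀ := by
      intro t ht
      obtain ⟨p₀, hp₀, rfl⟩ := Finset.mem_image.1 ht
      refine Finset.card_le_card_of_injOn (fun p => p.1 - p₀.1) ?_ ?_
      · intro p hp
        have hp := Finset.mem_filter.1 (Finset.mem_coe.1 hp)
        have hd : -(Φ p₀) + Φ p ∈ A'' := QuotientAddGroup.eq.1 hp.2.symm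
        have hpS := Finset.mem_product.1 hp.1
        have hp₀S := Finset.mem_product.1 hp₀
        have hpW := (Finset.mem_filter.1 hpS.1).2
        have hp₀W := (Finset.mem_filter.1 hp₀S.1).2
        have hj : p.2 = p₀.2 := by
          have h1 : fn h y₁ (-(Φ p₀) + Φ p) = 0 := hA hd.1
          rw [map_add, map_neg, hΦ, hΦ] at h1
          have h2 : |inner ℝ (h p.1) y₁ - inner ℝ (h p₀.1) y₁| ≤ 2 * R' * ‖y₁‖ := by
            rw [← inner_sub_left]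
            refine (abs_real_inner_le_norm _ _).trans ?_
            refine mul_le_mul_of_nonneg_right ?_ (norm_nonneg _)
            exact (norm_sub_le _ _).trans (by linarith)
          rw [abs_le] at h2
          have h3 : 0 ≤ 2 * R' * ‖y₁‖ := by positivity
          rcases lt_trichotomy p.2 p₀.2 with h4 | h4 | h4
          · exfalso
            have h5 : (p.2 : ℝ) + 1 ≤ p₀.2 := by exact_mod_cast h4
            nlinarith only [hζ₁, h1, h2, h5]
          · exact h4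
          · exfalso
            have h5 : (p₀.2 : ℝ) + 1 ≤ p.2 := by exact_mod_cast h4
            nlinarith only [hζ₁, h1, h2, h5]
        have hd2 : -(Φ p₀) + Φ p = p.1 - p₀.1 := by
          simp only [Φ, hj]; abel
        rw [hd2] at hd
        rw [hQfdef, Set.Finite.coe_toFinset]
        refine ⟨?_, ?_⟩
        · have : v (p.1 - p₀.1) = 0 := hd.2
          simpa [hv] using this
        · rw [map_sub]
          exact (norm_sub_le _ _).trans (by linarith)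
      · intro p hp p' hp' hpp
        have hp := Finset.mem_filter.1 (Finset.mem_coe.1 hp)
        have hp' := Finset.mem_filter.1 (Finset.mem_coe.1 hp')
        have e1 : p.1 = p'.1 := by simpa using hpp
        have hd : -(Φ p) + Φ p' ∈ A'' := QuotientAddGroup.eq.1 (hp.2.trans hp'.2.symm)
        have h1 : fn h y₁ (-(Φ p) + Φ p') = 0 := hA hd.1
        rw [map_add, map_neg, hΦ, hΦ, e1] at h1
        have h2 : ((p'.2 : ℝ) - p.2) * inner ℝ (h ζ₁) y₁ = 0 := by linarith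
        have h3 : inner ℝ (h ζ₁) y₁ ≠ 0 := by
          have : 0 ≤ 2 * R' * ‖y₁‖ := by positivity
          linarith [hζ₁] |> fun (h : (0:ℝ) < inner ℝ (h ζ₁) y₁) => h.ne'
        have h4 : (p'.2 : ℝ) - p.2 = 0 := by
          rcases mul_eq_zero.1 h2 with h | h
          · exact h
          · exact absurd h h3
        have h5 : p.2 = p'.2 := by
          have : (p'.2 : ℝ) = p.2 := by linarith
          exact_mod_cast this.symm
        exact Prod.ext e1 h5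
    have hcard1 : S.card ≤ q₀ * T.card :=
      Finset.card_le_mul_card_image (f := fun p => mk (Φ p)) S q₀ hfib
    have hScard : S.card = (W N).card * J₀ := by
      rw [Finset.card_product, Finset.card_range]
    -- representatives
    have hrep : ∀ t ∈ T, ∃ p ∈ S, mk (Φ p) = t := fun t ht => by
      obtain ⟨p, hp, he⟩ := Finset.mem_image.1 ht
      exact ⟨p, hp, he⟩
    choose! s hsS hsmk using hrep
    let Q := T.image (fun t => Φ (s t))
    have hQcard : Q.card = T.card := by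
      apply Finset.card_image_of_injOn
      intro t ht t' ht' htt
      have := congrArg mk htt
      simp only at this
      rw [hsmk t ht, hsmk t' ht'] at this
      exact this
    have hQ1 : ∀ ζ ∈ Q, ‖ζ‖ ≤ N + M := by
      intro ζ hζ
      obtain ⟨t, ht, rfl⟩ := Finset.mem_image.1 hζ
      have h1 := Finset.mem_product.1 (hsS t ht)
      have h2 := mem_box.1 (Finset.mem_filter.1 h1.1).1
      have h3 : ((s t).2 : ℝ) ≤ J₀ := by exact_mod_cast (Finset.mem_range.1 h1.2).le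
      calc ‖Φ (s t)‖ ≤ ‖(s t).1‖ + ‖(s t).2 • ζ₁‖ := norm_add_le _ _
        _ ≤ N + (s t).2 * ‖ζ₁‖ := add_le_add h2 (norm_nsmul_le)
        _ ≤ N + J₀ * ‖ζ₁‖ := by gcongr
        _ ≤ N + M := by linarith
    have hQ2 : ∀ ζ ∈ Q, ‖h ζ‖ ≤ D' := by
      intro ζ hζ
      obtain ⟨t, ht, rfl⟩ := Finset.mem_image.1 hζ
      have h1 := Finset.mem_product.1 (hsS t ht)
      have h2 := (Finset.mem_filter.1 h1.1).2
      have h3 : ((s t).2 : ℝ) ≤ J₀ := by exact_mod_cast (Finset.mem_range.1 h1.2).le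
      simp only [Φ, map_add, map_nsmul]
      calc ‖h (s t).1 + (s t).2 • h ζ₁‖ ≤ ‖h (s t).1‖ + ‖(s t).2 • h ζ₁‖ := norm_add_le _ _
        _ ≤ R' + (s t).2 * ‖h ζ₁‖ := add_le_add h2 (norm_nsmul_le)
        _ ≤ R' + J₀ * ‖h ζ₁‖ := by gcongr
    have hQP : ∀ a ∈ Q, ∀ b ∈ Q, (a - b ∈ A ∧ w (a - b) + inner ℝ (h (a - b)) y = 0) → a = b := by
      intro a ha b hb hab
      obtain ⟨t, ht, rfl⟩ := Finset.mem_image.1 ha
      obtain ⟨t', ht', rfl⟩ := Finset.mem_image.1 hb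
      have h1 : mk (Φ (s t')) = mk (Φ (s t)) := by
        rw [QuotientAddGroup.eq]
        have : -Φ (s t') + Φ (s t) = Φ (s t) - Φ (s t') := by abel
        rw [this]
        refine ⟨hab.1, ?_⟩
        show v (Φ (s t) - Φ (s t')) = 0
        simpa [hv] using hab.2
      rw [hsmk t ht, hsmk t' ht'] at h1
      rw [h1]
    have hfinal := card_le_window h c R R' D' (le_max_left _ _) U
      (fun a b => a - b ∈ A ∧ w (a - b) + inner ℝ (h (a - b)) y = 0) hpair Q N M D hQ1 hQ2 hD hQP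
    rw [hQcard] at hfinal
    have h5 : q₀ * (2 * (W N).card) ≤ q₀ * T.card := by
      calc q₀ * (2 * (W N).card) = (W N).card * J₀ := by rw [hJ₀]; ring
        _ = S.card := hScard.symm
        _ ≤ q₀ * T.card := hcard1
    exact (Nat.le_of_mul_le_mul_left h5 (by omega)).trans hfinal
  refine growth_contra (M + D) n (fun N => (W N).card) ?_ key ?_
  · apply Finset.card_pos.2
    refine ⟨0, ?_⟩
    rw [hW, Finset.mem_filter, mem_box]
    simp [hR'0]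
  · intro N
    rw [← card_box n N]
    exact Finset.card_filter_le _ _

end FQ
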