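import Mathlib
import Pool.Agent.Helper46.FQ.Chain

/-!
The key linear-uniqueness property (KLU) of chain ideals.
-/

namespace FQ

open Finset

variable {G : Type*} [AddCommGroup G] {E : Type*} [NormedAddCommGroup E] [InnerProductSpace ℝ E]

def Win (h : G →+ E) (w : G →+ ℝ) (L C : ℝ) (a : G) : Prop := ‖h a‖ ≤ L ∧ -C ≤ w a

/-- the key linear uniqueness property -/
def KLU (h : G →+ E) (w : G →+ ℝ) (A : AddSubgroup G) (J : Set (G →₀ ℂ)) : Prop :=
  ∃ L C : ℝ, ∃ F : Finset (G →₀ ℂ), (∀ f ∈ F, f ∈ J) ∧ ∀ φ : G → ℂ,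
    {a | a ∈ A ∧ φ a ≠ 0 ∧ Win h w L C a}.Finite →
    (∀ f ∈ F, ∀ η ∈ A, Win h w L C η → conv f φ η = 0) → φ 0 = 0

def UPropOn (h : G →+ E) (w : G →+ ℝ) (A : AddSubgroup G) (J : Set (G →₀ ℂ)) (s : Set E) : Prop :=
  ∃ δ > 0, ∃ L C : ℝ, ∃ F : Finset (G →₀ ℂ), (∀ f ∈ F, f ∈ J) ∧ ∀ y ∈ s, ∀ φ : G → ℂ,
    {a | a ∈ A ∧ φ a ≠ 0 ∧ Win h w L C a}.Finite →
    (∀ f ∈ F, ∀ η ∈ A, Win h w L C η → conv f φ η = 0) →
    (∀ a ∈ A, Win h w L C a → inner ℝ (h a) y < -δ → φ a = 0) → φ 0 = 0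

def SteepOn (h : G →+ E) (w : G →+ ℝ) (A : AddSubgroup G) (J : Set (G →₀ ℂ)) (s : Set E) : Prop :=
  ∃ ε > 0, ∃ L : ℝ, ∃ F : Finset (G →₀ ℂ), (∀ f ∈ F, f ∈ J) ∧ ∀ y ∈ s, ∀ φ : G → ℂ,
    (∀ f ∈ F, conv f φ 0 = 0) →
    (∀ a ∈ A, ‖h a‖ ≤ L → ε < w a + inner ℝ (h a) y → φ a = 0) → φ 0 = 0

theorem exists_bound {ι : Type*} (s : Finset ι) (f : ι → ℝ) : ∃ B ≥ 0, ∀ i ∈ s, f i ≤ B := by
  classical
  obtain ⟨B, hB⟩ := (s.image f).bddAbove
  refine ⟨max B 0, le_max_right _ _, fun i hi => ?_⟩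
  exact (hB (by simpa using ⟨i, hi, rfl⟩)).trans (le_max_left _ _)

theorem exists_gap {ι : Type*} (s : Finset ι) (f : ι → ℝ) : ∃ γ > 0, ∀ i ∈ s, 0 < f i → γ ≤ f i := by
  classical
  by_cases hne : (s.filter (fun i => 0 < f i)).Nonempty
  · obtain ⟨i₀, hi₀, hmin⟩ := (s.filter (fun i => 0 < f i)).exists_min_image f hne
    exact ⟨f i₀, (Finset.mem_filter.1 hi₀).2, fun i hi hp => hmin i (by simp [hi, hp])⟩
  · refine ⟨1, one_pos, fun i hi hp => ?_⟩
    exact absurd ⟨i, by simp [hi, hp]⟩ hne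

open Classical in
theorem conv_filter_eq (g : G →₀ ℂ) (p : G → Prop) (φ : G → ℂ) (η : G)
    (hz : ∀ ζ ∈ g.support, ¬ p ζ → φ (η - ζ) = 0) :
    conv (g.filter p) φ η = conv g φ η := by
  rw [conv_eq_sum_of_subset (g.filter p) φ η (s := g.support) (by
    rw [Finsupp.support_filter]; exact Finset.filter_subset _ _), conv_eq_sum]
  refine Finset.sum_congr rfl fun ζ hζ => ?_
  by_cases hp : p ζ
  · rw [Finsupp.filter_apply_pos _ _ hp]
  · rw [Finsupp.filter_apply_neg _ _ hp, hz ζ hζ hp]; simp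

open Classical in
theorem uprop_local (h : G →+ E) (w : G →+ ℝ) (A : AddSubgroup G) (J : Set (G →₀ ℂ))
    (hJ : ∀ f ∈ J, ∀ ζ ∈ f.support, ζ ∈ A) (y : E)
    (hK : KLU h w (A ⊓ (fn h y).ker) (Lead (fn h y) J)) :
    ∃ r > 0, UPropOn h w A J (Metric.ball y r) := by
  obtain ⟨L, C, F, hF, H⟩ := hK
  choose! g hgJ hgpos hgeq using hF
  set S : Finset G := F.biUnion (fun b => (g b).support) with hS
  obtain ⟨Lg, hLg0, hLg⟩ := exists_bound S (fun ζ => ‖h ζ‖)
  obtain ⟨Cg, hCg0, hCg⟩ := exists_bound S (fun ζ => w ζ)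
  obtain ⟨γ, hγ, hγS⟩ := exists_gap S (fun ζ => fn h y ζ)
  set L' : ℝ := |L| + Lg with hL'
  set C' : ℝ := C + Cg with hC'
  have hL'0 : 0 ≤ L' := by positivity
  have hLL' : L ≤ L' := (le_abs_self L).trans (by linarith)
  have hCC' : C ≤ C' := by linarith
  refine ⟨γ / (2 * (L' + 1)), by positivity, γ / 2, by positivity, L', C', F.image g, ?_, ?_⟩
  · intro f hf
    obtain ⟨b, hb, rfl⟩ := Finset.mem_image.1 hf
    exact hgJ b hb
  · intro y' hy' φ hfin hkill hvan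
    rw [Metric.mem_ball, dist_eq_norm] at hy'
    refine H φ (hfin.subset ?_) ?_
    · rintro a ⟨haA, ha1, ha2⟩
      exact ⟨haA.1, ha1, ha2.1.trans hLL', by linarith [ha2.2]⟩
    · intro b hb η hη hWη
      rw [hgeq b hb, conv_filter_eq]
      · exact hkill (g b) (Finset.mem_image_of_mem _ hb) η hη.1
          ⟨hWη.1.trans hLL', by linarith [hWη.2]⟩
      · intro ζ hζ hne
        have hζS : ζ ∈ S := by rw [hS, Finset.mem_biUnion]; exact ⟨b, hb, hζ⟩
        have h1 : 0 < fn h y ζ := lt_of_le_of_ne (hgpos b hb ζ hζ) (Ne.symm hne)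
        have h2 := hγS ζ hζS h1
        have h3 : fn h y η = 0 := hη.2
        have hnorm : ‖h (η - ζ)‖ ≤ L' := by
          rw [map_sub]
          refine (norm_sub_le _ _).trans ?_
          have := hLg ζ hζS
          have := hWη.1
          have := le_abs_self L
          linarith
        apply hvan
        · exact A.sub_mem hη.1 (hJ _ (hgJ b hb) ζ hζ)
        · refine ⟨hnorm, ?_⟩
          rw [map_sub]
          have := hCg ζ hζS
          have := hWη.2
          linarith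
        · have h4 : inner ℝ (h (η - ζ)) y = - fn h y ζ := by
            have : fn h y (η - ζ) = - fn h y ζ := by rw [map_sub, h3, zero_sub]
            exact this
          have h5 : inner ℝ (h (η - ζ)) y' = inner ℝ (h (η - ζ)) y + inner ℝ (h (η - ζ)) (y' - y) := by
            rw [← inner_add_right]; congr 1; abel
          have h6 : inner ℝ (h (η - ζ)) (y' - y) ≤ L' * (γ / (2 * (L' + 1))) := by
            refine (real_inner_le_norm _ _).trans ?_
            exact mul_le_mul hnorm hy'.le (norm_nonneg _) hL'0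
          have h7 : L' * (γ / (2 * (L' + 1))) < γ / 2 := by
            rw [← mul_div_assoc, div_lt_div_iff₀ (by positivity) (by positivity)]
            linarith only [hγ]
          rw [h5, h4]
          linarith only [h2, h6, h7]

theorem uprop_of_compact [FiniteDimensional ℝ E] (h : G →+ E) (w : G →+ ℝ) (A : AddSubgroup G)
    (J : Set (G →₀ ℂ)) (s : Set E) (hs : IsCompact s)
    (hloc : ∀ y ∈ s, ∃ r > 0, UPropOn h w A J (Metric.ball y r)) : UPropOn h w A J s := by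
  classical
  refine hs.induction_on (p := UPropOn h w A J) ?_ ?_ ?_ ?_
  · exact ⟨1, one_pos, 0, 0, ∅, by simp, by simp⟩
  · rintro s t hst ⟨δ, hδ, L, C, F, hF, H⟩
    exact ⟨δ, hδ, L, C, F, hF, fun y hy => H y (hst hy)⟩
  · rintro s t ⟨δ, hδ, L, C, F, hF, H⟩ ⟨δ', hδ', L', C', F', hF', H'⟩
    refine ⟨min δ δ', lt_min hδ hδ', max L L', max C C', F ∪ F', ?_, ?_⟩
    · intro f hf
      rcases Finset.mem_union.1 hf with hf | hf
      · exact hF f hf
      · exact hF' f hf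
    · have hm1 : ∀ a, Win h w L C a → Win h w (max L L') (max C C') a := fun a ha =>
        ⟨ha.1.trans (le_max_left _ _), by linarith [ha.2, le_max_left C C']⟩
      have hm2 : ∀ a, Win h w L' C' a → Win h w (max L L') (max C C') a := fun a ha =>
        ⟨ha.1.trans (le_max_right _ _), by linarith [ha.2, le_max_right C C']⟩
      rintro y (hy | hy) φ hfin hkill hvan
      · refine H y hy φ (hfin.subset ?_) ?_ ?_
        · rintro a ⟨h1, h2, h3⟩; exact ⟨h1, h2, hm1 a h3⟩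
        · intro f hf η hη hW; exact hkill f (Finset.mem_union_left _ hf) η hη (hm1 _ hW)
        · intro a ha hW hlt
          exact hvan a ha (hm1 _ hW) (lt_of_lt_of_le hlt (neg_le_neg (min_le_left _ _)))
      · refine H' y hy φ (hfin.subset ?_) ?_ ?_
        · rintro a ⟨h1, h2, h3⟩; exact ⟨h1, h2, hm2 a h3⟩
        · intro f hf η hη hW; exact hkill f (Finset.mem_union_right _ hf) η hη (hm2 _ hW)
        · intro a ha hW hlt
          exact hvan a ha (hm2 _ hW) (lt_of_lt_of_le hlt (neg_le_neg (min_le_right _ _)))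
  · intro y hy
    obtain ⟨r, hr, H⟩ := hloc y hy
    exact ⟨Metric.ball y r, mem_nhdsWithin_of_mem_nhds (Metric.ball_mem_nhds y hr), H⟩

theorem steep_local (h : G →+ E) (w : G →+ ℝ) (A : AddSubgroup G) (J : Set (G →₀ ℂ))
    (hJ : ∀ f ∈ J, ∀ ζ ∈ f.support, ζ ∈ A) (y : E)
    (hgood : ∃ f ∈ J, f 0 ≠ 0 ∧ ∀ ζ ∈ f.support, ζ ≠ 0 → w ζ + inner ℝ (h ζ) y < 0) :
    ∃ r > 0, SteepOn h w A J (Metric.ball y r) := by
  classical
  obtain ⟨f, hf, hf0, hneg⟩ := hgood
  obtain ⟨Lf, hLf0, hLf⟩ := exists_bound f.support (fun ζ => ‖h ζ‖)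
  obtain ⟨γ, hγ, hγS⟩ := exists_gap f.support (fun ζ => -(w ζ + inner ℝ (h ζ) y))
  refine ⟨γ / (2 * (Lf + 1)), by positivity, γ / 2, by positivity, Lf, {f}, by simpa using hf, ?_⟩
  intro y' hy' φ hkill hvan
  rw [Metric.mem_ball, dist_eq_norm] at hy'
  have hk := hkill f (by simp)
  rw [conv_eq_sum, Finset.sum_eq_single (0 : G)] at hk
  · rw [sub_zero] at hk
    rcases mul_eq_zero.1 hk with h1 | h1
    · exact absurd h1 hf0
    · exact h1
  · intro ζ hζ hζ0
    have h1 : φ (0 - ζ) = 0 := by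
      have hn : ‖h (0 - ζ)‖ ≤ Lf := by
        rw [zero_sub, map_neg, norm_neg]; exact hLf ζ hζ
      apply hvan
      · rw [zero_sub]; exact A.neg_mem (hJ f hf ζ hζ)
      · exact hn
      · have h2 := hγS ζ hζ (by have := hneg ζ hζ hζ0; linarith)
        have h5 : inner ℝ (h (0 - ζ)) y' = - inner ℝ (h ζ) y - inner ℝ (h ζ) (y' - y) := by
          rw [zero_sub, map_neg, inner_neg_left, inner_sub_right]; ring
        have h6 : inner ℝ (h ζ) (y' - y) ≤ Lf * (γ / (2 * (Lf + 1))) := by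
          refine (real_inner_le_norm _ _).trans ?_
          exact mul_le_mul (hLf ζ hζ) hy'.le (norm_nonneg _) hLf0
        have h7 : Lf * (γ / (2 * (Lf + 1))) < γ / 2 := by
          rw [← mul_div_assoc, div_lt_div_iff₀ (by positivity) (by positivity)]
          linarith only [hγ]
        have h8 : w (0 - ζ) = - w ζ := by rw [zero_sub, map_neg]
        rw [h5, h8]
        linarith only [h2, h6, h7]
    rw [h1, mul_zero]
  · intro h1
    exact absurd (Finsupp.mem_support_iff.2 hf0) h1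

theorem steep_of_compact (h : G →+ E) (w : G →+ ℝ) (A : AddSubgroup G)
    (J : Set (G →₀ ℂ)) (s : Set E) (hs : IsCompact s)
    (hloc : ∀ y ∈ s, ∃ r > 0, SteepOn h w A J (Metric.ball y r)) : SteepOn h w A J s := by
  classical
  refine hs.induction_on (p := SteepOn h w A J) ?_ ?_ ?_ ?_
  · exact ⟨1, one_pos, 0, ∅, by simp, by simp⟩
  · rintro s t hst ⟨δ, hδ, L, F, hF, H⟩
    exact ⟨δ, hδ, L, F, hF, fun y hy => H y (hst hy)⟩
  · rintro s t ⟨δ, hδ, L, F, hF, H⟩ ⟨δ', hδ', L', F', hF', H'⟩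
    refine ⟨min δ δ', lt_min hδ hδ', max L L', F ∪ F', ?_, ?_⟩
    · intro f hf
      rcases Finset.mem_union.1 hf with hf | hf
      · exact hF f hf
      · exact hF' f hf
    · rintro y (hy | hy) φ hkill hvan
      · refine H y hy φ (fun f hf => hkill f (Finset.mem_union_left _ hf)) ?_
        intro a ha hW hlt
        exact hvan a ha (hW.trans (le_max_left _ _)) (lt_of_le_of_lt (min_le_left _ _) hlt)
      · refine H' y hy φ (fun f hf => hkill f (Finset.mem_union_right _ hf)) ?_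
        intro a ha hW hlt
        exact hvan a ha (hW.trans (le_max_right _ _)) (lt_of_le_of_lt (min_le_right _ _) hlt)
  · intro y hy
    obtain ⟨r, hr, H⟩ := hloc y hy
    exact ⟨Metric.ball y r, mem_nhdsWithin_of_mem_nhds (Metric.ball_mem_nhds y hr), H⟩

/-- expansion of `√(|u|²+ρ²)` -/
theorem psi_inner (u v : E) (ρ : ℝ) (hρ : 0 < ρ) :
    √(‖u + v‖ ^ 2 + ρ ^ 2) ≤ √(‖u‖ ^ 2 + ρ ^ 2) + inner ℝ u v / √(‖u‖ ^ 2 + ρ ^ 2)
      + ‖v‖ ^ 2 / (2 * ρ) := by
  set s := √(‖u‖ ^ 2 + ρ ^ 2) with hs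
  have hs2 : s ^ 2 = ‖u‖ ^ 2 + ρ ^ 2 := Real.sq_sqrt (by positivity)
  have hsρ : ρ ≤ s := by
    rw [hs]; apply Real.le_sqrt_of_sq_le; linarith only [sq_nonneg ‖u‖]
  have hs0 : 0 < s := lt_of_lt_of_le hρ hsρ
  have huv : ‖u + v‖ ^ 2 = ‖u‖ ^ 2 + 2 * inner ℝ u v + ‖v‖ ^ 2 := by
    rw [@norm_add_sq_real]
  set x := inner ℝ u v / s + ‖v‖ ^ 2 / (2 * s) with hx
  have hsx : 2 * s * x = 2 * inner ℝ u v + ‖v‖ ^ 2 := by
    rw [hx]; field_simp
  have h1 : 0 ≤ s + x := by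
    have : 0 ≤ 2 * s * (s + x) := by
      have : 2 * s * (s + x) = ‖u‖ ^ 2 + 2 * ρ ^ 2 + ‖u + v‖ ^ 2 := by
        rw [mul_add, hsx, huv]; linarith only [hs2]
      rw [this]; positivity
    by_contra hcon
    push Not at hcon
    nlinarith only [hs2, huv, hsx, hρ, hcon, hsρ]
  have h2 : √(‖u + v‖ ^ 2 + ρ ^ 2) ≤ s + x := by
    rw [Real.sqrt_le_left h1]
    linarith only [hs2, huv, hsx, sq_nonneg x]
  have h3 : ‖v‖ ^ 2 / (2 * s) ≤ ‖v‖ ^ 2 / (2 * ρ) := by
    apply div_le_div_of_nonneg_left (by positivity) (by positivity)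
    linarith
  linarith

theorem psi_drop (r r' δ ρ : ℝ) (hδ : 0 < δ) (hρ : 0 < ρ) (hrρ : ρ ≤ r) (hrδ : δ / 2 ≤ r)
    (hr0 : 0 ≤ r') (hr' : r' ≤ r - δ / 4) :
    √(r' ^ 2 + ρ ^ 2) ≤ √(r ^ 2 + ρ ^ 2) - δ / 8 := by
  set s := √(r ^ 2 + ρ ^ 2) with hs
  have hs2 : s ^ 2 = r ^ 2 + ρ ^ 2 := Real.sq_sqrt (by positivity)
  have hs0 : 0 ≤ s := Real.sqrt_nonneg _
  have hsr : s ≤ 3 / 2 * r := by
    apply Real.sqrt_le_iff.2
    constructor
    · linarith only [hρ, hrρ]
    · nlinarith only [hρ, hrρ]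
  have hrs : r ≤ s := by
    apply Real.le_sqrt_of_sq_le; nlinarith only []
  rw [Real.sqrt_le_left (by linarith only [hρ, hrρ, hrδ, hrs])]
  have h1 : r' ^ 2 ≤ (r - δ / 4) ^ 2 := by
    apply pow_le_pow_left₀ hr0 hr'
  nlinarith only [hs2, h1, hδ, hρ, hrρ, hrδ, hsr]

open Classical in
theorem klu_step (h : G →+ E) (w : G →+ ℝ) (A : AddSubgroup G)
    (J : Set (G →₀ ℂ))
    (hU : UPropOn h w A J {y | y ∈ Submodule.span ℝ (h '' A) ∧ ‖y‖ = 1})
    (hS : ∀ M, SteepOn h w A J (Metric.closedBall 0 M)) : KLU h w A J := by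
  obtain ⟨δ, hδ, L₁, C₁, F₁, hF₁, H₁⟩ := hU
  set K₁ := max C₁ 0 with hK₁
  have hK₁0 : 0 ≤ K₁ := le_max_right _ _
  have hCK : C₁ ≤ K₁ := le_max_left _ _
  set M := 8 * K₁ / δ + 1 with hM
  have hM0 : 0 < M := by positivity
  have hMδ : K₁ < M * (δ / 8) := by
    rw [hM]; field_simp; linarith
  obtain ⟨ε, hε, L₂', F₂, hF₂, H₂'⟩ := hS M
  set L₂ := max L₂' 0 with hL₂
  have hL₂0 : 0 ≤ L₂ := le_max_right _ _
  set ρ := max 1 (M * L₂ ^ 2 / ε) with hρdef
  have hρ1 : 1 ≤ ρ := le_max_left _ _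
  have hρ : 0 < ρ := by linarith
  have hρε : M * (L₂ ^ 2 / (2 * ρ)) < ε := by
    have h1 : M * L₂ ^ 2 / ε ≤ ρ := le_max_right _ _
    rw [div_le_iff₀ hε] at h1
    rw [← mul_div_assoc, div_lt_iff₀ (by positivity)]
    nlinarith only [hε, h1, hρ1]
  set L₁' := max L₁ 0 with hL₁'
  have hL₁'0 : 0 ≤ L₁' := le_max_right _ _
  set r₂ := max (L₁' ^ 2 / δ) (max ρ (δ / 2)) with hr₂
  have hr₂a : L₁' ^ 2 / δ ≤ r₂ := le_max_left _ _
  have hr₂b : ρ ≤ r₂ := (le_max_left _ _).trans (le_max_right _ _)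
  have hr₂c : δ / 2 ≤ r₂ := (le_max_right _ _).trans (le_max_right _ _)
  set L' := r₂ + L₂ with hL'
  set C' := M * ρ + M * L₂ + K₁ with hC'
  have hMρ : 0 ≤ M * ρ := by positivity
  have hML : 0 ≤ M * L₂ := by positivity
  refine ⟨L' + L₁', C', F₁ ∪ F₂, ?_, ?_⟩
  · intro f hf
    rcases Finset.mem_union.1 hf with hf | hf
    · exact hF₁ f hf
    · exact hF₂ f hf
  intro φ hfin hkill
  by_contra hφ0
  -- the finite set S
  have hSfin : {a | a ∈ A ∧ φ a ≠ 0 ∧ Win h w L' C' a}.Finite := hfin.subset (by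
    rintro a ⟨h1, h2, h3⟩; exact ⟨h1, h2, h3.1.trans (by linarith only [hL₁'0]), h3.2⟩)
  set S := hSfin.toFinset with hSdef
  have hmemS : ∀ a, a ∈ S ↔ a ∈ A ∧ φ a ≠ 0 ∧ Win h w L' C' a := by
    intro a; rw [hSdef, Set.Finite.mem_toFinset]; rfl
  have h0S : (0 : G) ∈ S := by
    rw [hmemS]
    refine ⟨A.zero_mem, hφ0, ?_, ?_⟩
    · rw [map_zero, norm_zero]; linarith
    · rw [map_zero]; linarith
  obtain ⟨a₀, ha₀S, hmax⟩ := S.exists_max_image
    (fun a => w a - M * √(‖h a‖ ^ 2 + ρ ^ 2)) ⟨0, h0S⟩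
  have ha₀ := (hmemS a₀).1 ha₀S
  have h1 := hmax 0 h0S
  simp only [map_zero, norm_zero] at h1
  have hsq : √((0:ℝ) ^ 2 + ρ ^ 2) = ρ := by
    rw [zero_pow (by norm_num), zero_add, Real.sqrt_sq hρ.le]
  rw [hsq] at h1
  have hwa₀ : -(M * ρ) ≤ w a₀ := by
    have : 0 ≤ M * √(‖h a₀‖ ^ 2 + ρ ^ 2) := by positivity
    linarith
  have ha₀W : ‖h a₀‖ ≤ L' := ha₀.2.2.1
  by_cases hcase : r₂ ≤ ‖h a₀‖
  · -- far away: use UProp
    set r := ‖h a₀‖ with hr
    have hr0 : 0 < r := by linarith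
    set y : E := r⁻¹ • h a₀ with hy
    have hy1 : ‖y‖ = 1 := by
      rw [hy, norm_smul, norm_inv, Real.norm_of_nonneg hr0.le, ← hr, inv_mul_cancel₀ hr0.ne']
    have hymem : y ∈ Submodule.span ℝ (h '' A) :=
      Submodule.smul_mem _ _ (Submodule.subset_span ⟨a₀, ha₀.1, rfl⟩)
    have hres := H₁ y ⟨hymem, hy1⟩ (fun x => φ (a₀ + x)) ?_ ?_ ?_
    · rw [add_zero] at hres; exact ha₀.2.1 hres
    · have hinj : Function.Injective (fun a => a₀ + a) := add_right_injective a₀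
      refine (hfin.preimage (f := fun a => a₀ + a) hinj.injOn).subset ?_
      rintro a ⟨haA, ha1, ha2⟩
      refine ⟨A.add_mem ha₀.1 haA, ha1, ?_, ?_⟩
      · rw [map_add]
        have := norm_add_le (h a₀) (h a)
        have := ha2.1
        have := le_max_left L₁ 0
        linarith
      · rw [map_add]
        have := ha2.2
        linarith
    · intro f hf η hη hW
      rw [conv_translate]
      refine hkill f (Finset.mem_union_left _ hf) _ (A.add_mem ha₀.1 hη) ⟨?_, ?_⟩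
      · rw [map_add]
        have := norm_add_le (h a₀) (h η)
        have := hW.1
        have := le_max_left L₁ 0
        linarith
      · rw [map_add]
        have := hW.2
        linarith
    · intro a haA hW hlt
      by_contra hne
      have hinner : inner ℝ (h a₀) (h a) < -(δ * r) := by
        have : inner ℝ (h a) y = r⁻¹ * inner ℝ (h a₀) (h a) := by
          rw [hy, inner_smul_right, real_inner_comm]
        rw [this, inv_mul_lt_iff₀ hr0] at hlt
        linarith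
      have hna : ‖h a‖ ≤ L₁' := hW.1.trans (le_max_left _ _)
      have hsqle : ‖h (a₀ + a)‖ ^ 2 ≤ (r - δ / 4) ^ 2 := by
        rw [map_add, @norm_add_sq_real, ← hr]
        have h3 : ‖h a‖ ^ 2 ≤ L₁' ^ 2 := pow_le_pow_left₀ (norm_nonneg _) hna 2
        have h4 : L₁' ^ 2 ≤ r * δ := by
          have := hr₂a.trans hcase
          rwa [div_le_iff₀ hδ] at this
        nlinarith only [hinner, h3, h4, hδ]
      have hle : ‖h (a₀ + a)‖ ≤ r - δ / 4 := by
        have : 0 ≤ r - δ / 4 := by linarith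
        exact le_of_sq_le_sq hsqle this
      have hdrop := psi_drop r ‖h (a₀ + a)‖ δ ρ hδ hρ (hr₂b.trans hcase) (hr₂c.trans hcase)
        (norm_nonneg _) hle
      have hmemS' : a₀ + a ∈ S := by
        rw [hmemS]
        refine ⟨A.add_mem ha₀.1 haA, hne, by linarith, ?_⟩
        rw [map_add]
        have := hW.2
        linarith
      have h5 := hmax _ hmemS'
      rw [map_add] at h5
      have h6 := hW.2
      have h7 : M * √(‖h (a₀ + a)‖ ^ 2 + ρ ^ 2) ≤ M * (√(r ^ 2 + ρ ^ 2) - δ / 8) :=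
        mul_le_mul_of_nonneg_left hdrop hM0.le
      linarith only [hCK, hMδ, h5, h6, h7]
  · -- near: use Steep
    push Not at hcase
    set s := √(‖h a₀‖ ^ 2 + ρ ^ 2) with hs
    have hs0 : 0 < s := by rw [hs]; positivity
    have hus : ‖h a₀‖ ≤ s := by
      apply Real.le_sqrt_of_sq_le; nlinarith only []
    set y : E := (-(M / s)) • h a₀ with hy
    have hyM : ‖y‖ ≤ M := by
      rw [hy, norm_smul, norm_neg, Real.norm_of_nonneg (by positivity), div_mul_eq_mul_div,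
        div_le_iff₀ hs0]
      exact mul_le_mul_of_nonneg_left hus hM0.le
    have hres := H₂' y (by simpa using hyM) (fun x => φ (a₀ + x)) ?_ ?_
    · rw [add_zero] at hres; exact ha₀.2.1 hres
    · intro f hf
      rw [conv_translate, add_zero]
      exact hkill f (Finset.mem_union_right _ hf) _ ha₀.1 ⟨by linarith, by linarith⟩
    · intro a haA hna' hlt
      by_contra hne
      have hna : ‖h a‖ ≤ L₂ := hna'.trans (le_max_left _ _)
      have hyin : inner ℝ (h a) y = -(M * (inner ℝ (h a₀) (h a) / s)) := by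
        rw [hy, inner_smul_right, real_inner_comm]; ring
      have hyabs : -(M * L₂) ≤ inner ℝ (h a) y ∧ inner ℝ (h a) y ≤ M * L₂ := by
        rw [← abs_le]
        refine (abs_real_inner_le_norm _ _).trans ?_
        rw [mul_comm]
        exact mul_le_mul hyM hna (norm_nonneg _) hM0.le
      have hmemS' : a₀ + a ∈ S := by
        rw [hmemS]
        refine ⟨A.add_mem ha₀.1 haA, hne, ?_, ?_⟩
        · rw [map_add]
          have := norm_add_le (h a₀) (h a)
          linarith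
        · rw [map_add]
          have := hyabs.2
          linarith
      have h5 := hmax _ hmemS'
      rw [map_add, map_add] at h5
      have h6 := psi_inner (h a₀) (h a) ρ hρ
      rw [← hs] at h6
      have h7 : M * √(‖h a₀ + h a‖ ^ 2 + ρ ^ 2) ≤
          M * (s + inner ℝ (h a₀) (h a) / s + ‖h a‖ ^ 2 / (2 * ρ)) :=
        mul_le_mul_of_nonneg_left h6 hM0.le
      have h8 : M * (‖h a‖ ^ 2 / (2 * ρ)) ≤ M * (L₂ ^ 2 / (2 * ρ)) := by
        apply mul_le_mul_of_nonneg_left _ hM0.le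
        apply div_le_div_of_nonneg_right _ (by positivity)
        exact pow_le_pow_left₀ (norm_nonneg _) hna 2
      rw [hyin] at hlt
      linarith only [hρε, hlt, h5, h7, h8]

end FQ
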