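import Pool.Agent.Helper46.FQ.SumBound

/-!
Kernels with small off-diagonal sums.
-/

namespace FQ

open MeasureTheory Finset Filter Topology
open scoped FourierTransform SchwartzMap ContDiff

variable {E : Type*} [NormedAddCommGroup E] [InnerProductSpace ℝ E] [FiniteDimensional ℝ E]
  [MeasurableSpace E] [BorelSpace E]

theorem exists_RD2 (g : 𝓢(E, ℂ)) : ∃ Ck, 0 ≤ Ck ∧ ∀ x, ‖g x‖ ≤ Ck / (1 + ‖x‖) * wgt x := by
  have h1 := fun x => SchwartzMap.one_add_le_sup_seminorm_apply (𝕜 := ℝ)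
    (m := (Module.finrank ℝ E + 2, 0)) (k := Module.finrank ℝ E + 2) (n := 0) le_rfl le_rfl g x
  set C := 2 ^ (Module.finrank ℝ E + 2) * ((Finset.Iic (Module.finrank ℝ E + 2, 0)).sup
    fun m => SchwartzMap.seminorm ℝ m.1 m.2) g with hC
  have hC0 : 0 ≤ C := by
    have := h1 0
    refine le_trans ?_ this
    positivity
  refine ⟨C, hC0, fun x => ?_⟩
  have h2 := h1 x
  rw [norm_iteratedFDeriv_zero] at h2
  unfold wgt
  rw [← div_eq_mul_inv, div_div, le_div_iff₀ (by positivity), mul_comm]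
  refine le_trans (le_of_eq ?_) h2
  ring

theorem wgt_smul_le (R : ℝ) (hR : 1 ≤ R) (x : E) : wgt (R • x) ≤ wgt x := by
  unfold wgt
  apply inv_anti₀ (by positivity)
  apply pow_le_pow_left₀ (by positivity)
  rw [norm_smul, Real.norm_of_nonneg (by linarith)]
  nlinarith [norm_nonneg x]

/-- dilation of a Schwartz function -/
theorem fourier_dilate (g : E → ℂ) (R : ℝ) (hR : 0 < R) (x : E) :
    𝓕 (fun ξ : E => ((R ^ Module.finrank ℝ E)⁻¹ : ℝ) • g (R⁻¹ • ξ)) x = 𝓕 g (R • x) := by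
  rw [Real.fourier_eq', Real.fourier_eq']
  have h1 : ∀ v : E, Complex.exp (↑(-2 * Real.pi * inner ℝ v x) * Complex.I) •
      (((R ^ Module.finrank ℝ E)⁻¹ : ℝ) • g (R⁻¹ • v)) =
      ((R ^ Module.finrank ℝ E)⁻¹ : ℝ) • ((fun w : E => Complex.exp (↑(-2 * Real.pi * inner ℝ w (R • x)) * Complex.I) • g w) (R⁻¹ • v)) := by
    intro v
    rw [smul_comm]
    congr 3
    rw [real_inner_smul_left, real_inner_smul_right]
    congr 2
    field_simp
  rw [integral_congr_ae (Filter.Eventually.of_forall h1), integral_smul]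
  have h2 := Measure.integral_comp_inv_smul (μ := (volume : Measure E))
    (fun w : E => Complex.exp (↑(-2 * Real.pi * inner ℝ w (R • x)) * Complex.I) • g w) R
  rw [h2, abs_of_pos (by positivity), smul_smul, inv_mul_cancel₀ (by positivity), one_smul]

/-- existence of good kernels -/
theorem exists_kernel {Λ : Set E} (hΛ : UD Λ) (δ₀ κ : ℝ) (hδ₀ : 0 < δ₀) (hκ : 0 < κ) :
    ∃ ρ : 𝓢(E, ℂ), HasCompactSupport ρ ∧ 𝓕 ρ 0 = 1 ∧ ρ 0 ≠ 0 ∧ ∀ (z : E) (s : Finset Λ),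
      (∀ x ∈ s, δ₀ ≤ ‖(x : E) - z‖) → ∑ x ∈ s, ‖𝓕 ρ ((x : E) - z)‖ ≤ κ := by
  classical
  obtain ⟨S, hS0, hS⟩ := sum_bound hΛ
  -- the base bump
  let f : ContDiffBump (0 : E) := ⟨1, 2, by norm_num, by norm_num⟩
  set I₀ : ℝ := ∫ x, f x with hI₀
  have hI₀pos : 0 < I₀ := f.integral_pos
  let g₀ : E → ℂ := fun x => ((I₀⁻¹ * f x : ℝ) : ℂ)
  have hg₀c : HasCompactSupport g₀ := by
    have h1 : HasCompactSupport (fun x => I₀⁻¹ * f x) := f.hasCompactSupport.mul_left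
    exact h1.comp_left (g := fun x : ℝ => (x : ℂ)) Complex.ofReal_zero
  have hg₀s : ContDiff ℝ ∞ g₀ := Complex.ofRealCLM.contDiff.comp (contDiff_const.mul f.contDiff)
  set ρ₀ : 𝓢(E, ℂ) := hg₀c.toSchwartzMap hg₀s with hρ₀
  obtain ⟨C, hC0, hC⟩ := exists_RD2 (𝓕 ρ₀)
  set R : ℝ := max 1 (C * S / (δ₀ * κ)) with hR
  have hR1 : 1 ≤ R := le_max_left _ _
  have hR0 : 0 < R := by linarith
  have hRκ : C / (R * δ₀) * S ≤ κ := by
    have h1 : C * S / (δ₀ * κ) ≤ R := le_max_right _ _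
    rw [div_le_iff₀ (by positivity)] at h1
    rw [div_mul_eq_mul_div, div_le_iff₀ (by positivity)]
    linarith
  -- the dilated bump
  let g : E → ℂ := fun ξ => ((R ^ Module.finrank ℝ E)⁻¹ : ℝ) • g₀ (R⁻¹ • ξ)
  have hgc : HasCompactSupport g := by
    have h1 : HasCompactSupport (fun ξ => g₀ (R⁻¹ • ξ)) := hg₀c.comp_smul (inv_ne_zero hR0.ne')
    exact h1.smul_left (f := fun _ => ((R ^ Module.finrank ℝ E)⁻¹ : ℝ))
  have hgs : ContDiff ℝ ∞ g := by
    apply ContDiff.const_smul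
    exact hg₀s.comp (contDiff_const_smul _)
  have hfour : ∀ x, 𝓕 g x = 𝓕 g₀ (R • x) := fun x => fourier_dilate g₀ R hR0 x
  have hone : 𝓕 g₀ 0 = 1 := by
    rw [Real.fourier_eq']
    simp only [inner_zero_right, mul_zero, Complex.ofReal_zero, zero_mul, Complex.exp_zero, one_smul]
    have h1 : ∫ v, g₀ v = ((∫ v, I₀⁻¹ * f v : ℝ) : ℂ) := integral_ofReal
    rw [h1, integral_const_mul, ← hI₀, inv_mul_cancel₀ hI₀pos.ne']
    simp
  refine ⟨hgc.toSchwartzMap hgs, hgc, ?_, ?_, ?_⟩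
  · show 𝓕 g 0 = 1
    rw [hfour, smul_zero, hone]
  · show g 0 ≠ 0
    have h1 : f (0 : E) = 1 := f.one_of_mem_closedBall (by simp [f])
    simp only [g, g₀, smul_zero, h1, mul_one]
    apply smul_ne_zero
    · positivity
    · exact_mod_cast (by positivity : I₀⁻¹ ≠ 0)
  · intro z s hs
    have hterm : ∀ x ∈ s, ‖𝓕 g ((x : E) - z)‖ ≤ C / (R * δ₀) * wgt ((x : E) - z) := by
      intro x hx
      rw [hfour]
      have h1 := hC (R • ((x : E) - z))
      have h2 : ‖𝓕 g₀ (R • ((x : E) - z))‖ ≤ C / (1 + ‖R • ((x : E) - z)‖) * wgt (R • ((x : E) - z)) := h1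
      refine h2.trans ?_
      refine mul_le_mul ?_ (wgt_smul_le R hR1 _) (wgt_pos _).le (by positivity)
      apply div_le_div_of_nonneg_left hC0 (by positivity)
      rw [norm_smul, Real.norm_of_nonneg hR0.le]
      have := hs x hx
      nlinarith
    calc ∑ x ∈ s, ‖𝓕 g ((x : E) - z)‖ ≤ ∑ x ∈ s, C / (R * δ₀) * wgt ((x : E) - z) :=
          Finset.sum_le_sum hterm
      _ = C / (R * δ₀) * ∑ x ∈ s, wgt ((x : E) - z) := by rw [Finset.mul_sum]
      _ ≤ C / (R * δ₀) * S := by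
          apply mul_le_mul_of_nonneg_left (hS z s) (by positivity)
      _ ≤ κ := hRκ

end FQ
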