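import Mathlib

/-!
Sums of rapidly decreasing functions over uniformly discrete sets; kernels.
-/

namespace FQ

open MeasureTheory Finset Filter Topology
open scoped FourierTransform SchwartzMap ContDiff

variable {E : Type*} [NormedAddCommGroup E] [InnerProductSpace ℝ E] [FiniteDimensional ℝ E]
  [MeasurableSpace E] [BorelSpace E]

/-- uniform discreteness -/
def UD (Λ : Set E) : Prop := ∃ δ > 0, ∀ x ∈ Λ, ∀ y ∈ Λ, x ≠ y → δ ≤ ‖x - y‖

/-- the weight -/
noncomputable def wgt (x : E) : ℝ := ((1 + ‖x‖) ^ (Module.finrank ℝ E + 1))⁻¹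

theorem wgt_pos (x : E) : 0 < wgt x := by unfold wgt; positivity

theorem integrable_wgt : Integrable (fun x : E => wgt x) := by
  have h1 := integrable_one_add_norm (E := E) (μ := volume) (r := (Module.finrank ℝ E : ℝ) + 1)
    (by linarith)
  refine h1.congr (Filter.Eventually.of_forall fun x => ?_)
  simp only [wgt]
  rw [Real.rpow_neg (by positivity)]
  congr 1
  have : ((Module.finrank ℝ E : ℝ) + 1) = ((Module.finrank ℝ E + 1 : ℕ) : ℝ) := by push_cast; rfl
  rw [this, Real.rpow_natCast]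

theorem sum_bound {Λ : Set E} (hΛ : UD Λ) : ∃ S : ℝ, 0 ≤ S ∧ ∀ (z : E) (s : Finset Λ),
    ∑ x ∈ s, wgt ((x : E) - z) ≤ S := by
  classical
  obtain ⟨δ, hδ, hsep⟩ := hΛ
  set V : ℝ := (volume (Metric.ball (0 : E) (δ / 2))).toReal with hV
  have hVpos : 0 < V := by
    rw [hV]
    exact ENNReal.toReal_pos (Metric.measure_ball_pos _ _ (by positivity)).ne' measure_ball_lt_top.ne
  set K : ℝ := (1 + δ / 2) ^ (Module.finrank ℝ E + 1) with hK
  set I : ℝ := ∫ t : E, wgt t with hI
  have hI0 : 0 ≤ I := integral_nonneg fun t => (wgt_pos t).le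
  refine ⟨K * I / V, by positivity, fun z s => ?_⟩
  have hint : Integrable (fun t : E => wgt (t - z)) := integrable_wgt.comp_sub_right z
  have h1 : ∀ x : Λ, wgt ((x : E) - z) * V ≤ K * ∫ t in Metric.ball (x : E) (δ / 2), wgt (t - z) := by
    intro x
    have hVx : V = (volume (Metric.ball (x : E) (δ / 2))).toReal := by
      rw [hV, ← Measure.addHaar_ball_center volume (x : E)]
    rw [hVx, ← integral_const_mul]
    have h2 : wgt ((x : E) - z) * (volume (Metric.ball (x : E) (δ / 2))).toReal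
        = ∫ t in Metric.ball (x : E) (δ / 2), wgt ((x : E) - z) := by
      rw [setIntegral_const, smul_eq_mul, mul_comm]; rfl
    rw [h2]
    apply setIntegral_mono_on
    · exact integrableOn_const measure_ball_lt_top.ne
    · exact (hint.const_mul K).integrableOn
    · exact measurableSet_ball
    · intro t ht
      rw [Metric.mem_ball, dist_eq_norm] at ht
      have h3 : 1 + ‖t - z‖ ≤ (1 + δ / 2) * (1 + ‖(x : E) - z‖) := by
        have h4 : ‖t - z‖ ≤ ‖t - x‖ + ‖(x : E) - z‖ := by
          have := norm_add_le (t - x) ((x : E) - z)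
          rwa [sub_add_sub_cancel] at this
        have h5 := norm_nonneg ((x : E) - z)
        nlinarith
      unfold wgt
      rw [inv_eq_one_div, inv_eq_one_div, mul_one_div, div_le_div_iff₀ (by positivity) (by positivity),
        one_mul, hK, ← mul_pow]
      exact pow_le_pow_left₀ (by positivity) h3 _
  have hdisj : Set.PairwiseDisjoint (s : Set Λ) (fun x => Metric.ball (x : E) (δ / 2)) := by
    intro x _ y _ hxy
    rw [Function.onFun, Set.disjoint_left]
    intro t htx hty
    rw [Metric.mem_ball, dist_eq_norm] at htx hty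
    have h2 := hsep x x.2 y y.2 (fun h => hxy (Subtype.ext h))
    have h3 : ‖(x : E) - y‖ ≤ ‖t - x‖ + ‖t - y‖ := by
      have := norm_sub_le (t - y) (t - x)
      have e : (t - y) - (t - x) = (x : E) - y := by abel
      rw [e] at this
      linarith
    linarith
  have h2 : (∑ x ∈ s, wgt ((x : E) - z)) * V ≤ K * I := by
    rw [Finset.sum_mul]
    calc ∑ x ∈ s, wgt ((x : E) - z) * V ≤ ∑ x ∈ s, K * ∫ t in Metric.ball (x : E) (δ / 2), wgt (t - z) :=
          Finset.sum_le_sum fun x _ => h1 x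
      _ = K * ∑ x ∈ s, ∫ t in Metric.ball (x : E) (δ / 2), wgt (t - z) := by rw [Finset.mul_sum]
      _ = K * ∫ t in ⋃ x ∈ s, Metric.ball (x : E) (δ / 2), wgt (t - z) := by
          rw [integral_biUnion_finset s (fun x _ => measurableSet_ball) hdisj
            (fun x _ => hint.integrableOn)]
      _ ≤ K * ∫ t, wgt (t - z) := by
          apply mul_le_mul_of_nonneg_left _ (by positivity)
          exact setIntegral_le_integral hint (Filter.Eventually.of_forall fun t => (wgt_pos _).le)
      _ = K * I := by rw [integral_sub_right_eq_self (fun t : E => wgt t) z]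
  rw [le_div_iff₀ hVpos]
  exact h2

/-- rapidly decreasing functions -/
def RD (k : E → ℂ) (Ck : ℝ) : Prop := ∀ x, ‖k x‖ ≤ Ck * wgt x

theorem RD.summable {Λ : Set E} (hΛ : UD Λ) {k : E → ℂ} {Ck : ℝ} (hk : RD k Ck) (hC : 0 ≤ Ck) (z : E) :
    Summable fun x : Λ => ‖k ((x : E) - z)‖ := by
  obtain ⟨S, hS0, hS⟩ := sum_bound hΛ
  refine summable_of_sum_le (c := Ck * S) (fun x => norm_nonneg _) fun s => ?_
  calc ∑ x ∈ s, ‖k ((x : E) - z)‖ ≤ ∑ x ∈ s, Ck * wgt ((x : E) - z) :=
        Finset.sum_le_sum fun x _ => hk _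
    _ = Ck * ∑ x ∈ s, wgt ((x : E) - z) := by rw [Finset.mul_sum]
    _ ≤ Ck * S := mul_le_mul_of_nonneg_left (hS z s) hC

theorem exists_RD (g : 𝓢(E, ℂ)) : ∃ Ck, 0 ≤ Ck ∧ RD g Ck := by
  have h1 := fun x => SchwartzMap.one_add_le_sup_seminorm_apply (𝕜 := ℝ)
    (m := (Module.finrank ℝ E + 1, 0)) (k := Module.finrank ℝ E + 1) (n := 0) le_rfl le_rfl g x
  set C := 2 ^ (Module.finrank ℝ E + 1) * ((Finset.Iic (Module.finrank ℝ E + 1, 0)).sup
    fun m => SchwartzMap.seminorm ℝ m.1 m.2) g with hC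
  have hC0 : 0 ≤ C := by
    have := h1 0
    refine le_trans ?_ this
    positivity
  refine ⟨C, hC0, fun x => ?_⟩
  have h2 := h1 x
  rw [norm_iteratedFDeriv_zero] at h2
  unfold wgt
  rw [← div_eq_mul_inv, le_div_iff₀ (by positivity), mul_comm]
  exact h2

end FQ
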