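import Mathlib
import Pool.Agent.Helper46.FQ.SumBound
import Pool.Agent.Helper46.FQ.Trace

/-!
The operator `T` and the analytic facts about uniformly discrete Fourier quasicrystals.
-/

namespace FQ

open MeasureTheory Finset Filter Topology
open scoped FourierTransform SchwartzMap ContDiff

variable {E : Type*} [NormedAddCommGroup E] [InnerProductSpace ℝ E] [FiniteDimensional ℝ E]
  [MeasurableSpace E] [BorelSpace E] {G : Type*} [AddCommGroup G]

/-- exponential `exp(2πi⟨q,x⟩)` -/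
noncomputable def ex (q x : E) : ℂ := Complex.exp ((2 * Real.pi * inner ℝ q x : ℝ) * Complex.I)

theorem norm_ex (q x : E) : ‖ex q x‖ = 1 := Complex.norm_exp_ofReal_mul_I _

theorem ex_add (q q' x : E) : ex (q + q') x = ex q x * ex q' x := by
  unfold ex
  rw [← Complex.exp_add, inner_add_left]
  congr 1; push_cast; ring

theorem ex_zero (x : E) : ex (0 : E) x = 1 := by simp [ex]

theorem ex_neg_mul (q x : E) : ex (-q) x * ex q x = 1 := by
  rw [← ex_add, neg_add_cancel, ex_zero]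

theorem ex_ne_zero (q x : E) : ex q x ≠ 0 := Complex.exp_ne_zero _

/-- evaluation of a trigonometric polynomial with frequencies `h ζ` -/
noncomputable def evE (h : G →+ E) (u : G →₀ ℂ) (x : E) : ℂ := u.sum fun ζ a => a * ex (h ζ) x

theorem evE_add (h : G →+ E) (u v : G →₀ ℂ) (x : E) : evE h (u + v) x = evE h u x + evE h v x := by
  classical
  exact Finsupp.sum_add_index (by simp) (by intros; ring)

theorem evE_zero (h : G →+ E) (x : E) : evE h 0 x = 0 := by simp [evE]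

theorem evE_smul (h : G →+ E) (a : ℂ) (u : G →₀ ℂ) (x : E) : evE h (a • u) x = a * evE h u x := by
  rw [evE, Finsupp.sum_smul_index' (by simp)]
  simp only [smul_eq_mul, evE, Finsupp.sum, Finset.mul_sum, mul_assoc]

theorem evE_neg (h : G →+ E) (u : G →₀ ℂ) (x : E) : evE h (-u) x = - evE h u x := by
  have := evE_smul h (-1) u x
  rw [neg_one_smul] at this
  rw [this]; ring

theorem evE_sub (h : G →+ E) (u v : G →₀ ℂ) (x : E) : evE h (u - v) x = evE h u x - evE h v x := by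
  rw [sub_eq_add_neg, evE_add, evE_neg, sub_eq_add_neg]

theorem evE_single (h : G →+ E) (ζ : G) (a : ℂ) (x : E) :
    evE h (Finsupp.single ζ a) x = a * ex (h ζ) x := by
  rw [evE, Finsupp.sum_single_index (by simp)]

theorem evE_eq_sum_of_subset (h : G →+ E) (u : G →₀ ℂ) (x : E) {s : Finset G} (hs : u.support ⊆ s) :
    evE h u x = ∑ ζ ∈ s, u ζ * ex (h ζ) x := Finsupp.sum_of_support_subset u hs _ (by simp)

theorem evE_sh (h : G →+ E) (u : G →₀ ℂ) (ζ : G) (x : E) :
    evE h (sh ζ u) x = ex (h (-ζ)) x * evE h u x := by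
  classical
  have h1 : (sh ζ u).support ⊆ u.support.map (Equiv.subRight ζ).toEmbedding := by
    intro x hx
    rw [Finsupp.mem_support_iff, sh_apply] at hx
    rw [Finset.mem_map]
    exact ⟨x + ζ, Finsupp.mem_support_iff.2 hx, by simp⟩
  rw [evE_eq_sum_of_subset h _ x h1, Finset.sum_map, evE_eq_sum_of_subset h u x le_rfl,
    Finset.mul_sum]
  refine Finset.sum_congr rfl fun y _ => ?_
  rw [sh_apply]
  simp only [Equiv.toEmbedding_apply, Equiv.subRight_apply, sub_add_cancel]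
  rw [sub_eq_add_neg, map_add, ex_add]
  ring

theorem norm_evE_le (h : G →+ E) (u : G →₀ ℂ) (x : E) : ‖evE h u x‖ ≤ ∑ ζ ∈ u.support, ‖u ζ‖ := by
  rw [evE_eq_sum_of_subset h u x le_rfl]
  refine (norm_sum_le _ _).trans (Finset.sum_le_sum fun ζ _ => ?_)
  rw [norm_mul, norm_ex, mul_one]

/-- a uniformly discrete Fourier quasicrystal with frequency coefficients indexed by `G` -/
structure QC (Λ : Set E) (h : G →+ E) (c : G → ℂ) : Prop where
  inj : Function.Injective h
  ud : UD Λ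
  lf : ∀ r, {ξ | c ξ ≠ 0 ∧ ‖h ξ‖ ≤ r}.Finite
  id : ∀ g : 𝓢(E, ℂ), HasCompactSupport g → ∑' x : Λ, 𝓕 g (x : E) = ∑' ξ, c ξ * g (h ξ)

variable {Λ : Set E} {h : G →+ E} {c : G → ℂ}

theorem fourier_translate (g : E → ℂ) (q x : E) :
    𝓕 (fun ξ => g (ξ + q)) x = ex q x * 𝓕 g x := by
  have h1 := VectorFourier.fourierIntegral_comp_add_right Real.fourierChar (volume : Measure E)
    (innerₗ E) g q
  have h2 := congrFun h1 x
  show VectorFourier.fourierIntegral Real.fourierChar volume (innerₗ E) (g ∘ fun v => v + q) x = _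
  rw [h2]
  show Real.fourierChar (inner ℝ q x) • (𝓕 g x) = _
  rw [Circle.smul_def, Real.fourierChar_apply, smul_eq_mul]
  rfl

theorem fourier_modulate (g : E → ℂ) (z x : E) :
    𝓕 (fun ξ => g ξ * ex ξ z) x = 𝓕 g (x - z) := by
  rw [Real.fourier_eq', Real.fourier_eq']
  apply integral_congr_ae
  refine Filter.Eventually.of_forall fun v => ?_
  simp only [smul_eq_mul, ex]
  rw [mul_comm (g v), ← mul_assoc, ← Complex.exp_add]
  congr 2
  rw [inner_sub_right]
  push_cast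
  ring

theorem hasCompactSupport_translate {g : E → ℂ} (hg : HasCompactSupport g) (q : E) :
    HasCompactSupport (fun ξ => g (ξ + q)) :=
  hg.comp_homeomorph (Homeomorph.addRight q)

theorem contDiff_ex (z : E) : ContDiff ℝ ∞ (fun ξ : E => ex ξ z) := by
  unfold ex
  apply ContDiff.cexp
  apply ContDiff.mul _ contDiff_const
  exact Complex.ofRealCLM.contDiff.comp (contDiff_const.mul (contDiff_id.inner ℝ contDiff_const))

theorem exists_radius {g : E → ℂ} (hg : HasCompactSupport g) : ∃ r : ℝ, ∀ ξ, r < ‖ξ‖ → g ξ = 0 := by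
  obtain ⟨r, hr⟩ := hg.isCompact.isBounded.exists_norm_le
  refine ⟨r, fun ξ hξ => ?_⟩
  by_contra hne
  exact absurd (hr ξ (subset_tsupport _ hne)) (not_le.2 hξ)

theorem conv_finite (hlf : ∀ r, {ξ | c ξ ≠ 0 ∧ ‖h ξ‖ ≤ r}.Finite) (u : G →₀ ℂ) (r : ℝ) :
    {η | conv u c η ≠ 0 ∧ ‖h η‖ ≤ r}.Finite := by
  classical
  have h1 : (⋃ ζ ∈ (u.support : Set G), (fun ξ => ξ + ζ) '' {ξ | c ξ ≠ 0 ∧ ‖h ξ‖ ≤ r + ‖h ζ‖}).Finite :=
    Set.Finite.biUnion u.support.finite_toSet fun ζ _ => (hlf _).image _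
  refine h1.subset ?_
  rintro η ⟨hη1, hη2⟩
  obtain ⟨ζ, hζ, hc⟩ := exists_of_conv_ne hη1
  simp only [Set.mem_iUnion]
  refine ⟨ζ, hζ, η - ζ, ⟨hc, ?_⟩, by simp⟩
  rw [map_sub]
  exact (norm_sub_le _ _).trans (by linarith)

theorem QC.summable_left (Q : QC Λ h c) (u : G →₀ ℂ) (g : 𝓢(E, ℂ)) (z : E) :
    Summable fun x : Λ => evE h u (x : E) * 𝓕 g ((x : E) - z) := by
  obtain ⟨C, hC0, hC⟩ := exists_RD (𝓕 g)
  refine Summable.of_norm_bounded ((hC.summable Q.ud hC0 z).mul_left (∑ ζ ∈ u.support, ‖u ζ‖)) ?_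
  intro x
  rw [norm_mul]
  exact mul_le_mul_of_nonneg_right (norm_evE_le h u x) (norm_nonneg _)

theorem QC.summable_right (Q : QC Λ h c) (u : G →₀ ℂ) (g : E → ℂ) (hg : HasCompactSupport g) :
    Summable fun η => conv u c η * g (h η) := by
  obtain ⟨r, hr⟩ := exists_radius hg
  refine summable_of_hasFiniteSupport ?_
  refine (conv_finite Q.lf u r).subset ?_
  intro η hη
  rw [Function.mem_support] at hη
  refine ⟨left_ne_zero_of_mul hη, ?_⟩
  by_contra hcon
  push Not at hcon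
  exact right_ne_zero_of_mul hη (hr _ hcon)

/-- the modulated identity -/
theorem QC.modulated (Q : QC Λ h c) (u : G →₀ ℂ) (g : 𝓢(E, ℂ)) (hg : HasCompactSupport g) :
    ∑' x : Λ, evE h u (x : E) * 𝓕 g (x : E) = ∑' η, conv u c η * g (h η) := by
  induction u using Finsupp.induction_linear with
  | zero => simp [evE_zero, conv_zero]
  | add u v hu hv =>
    have s1 := Q.summable_left u g 0
    have s2 := Q.summable_left v g 0
    simp only [sub_zero] at s1 s2
    simp only [evE_add, conv_add, add_mul]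
    rw [s1.tsum_add s2, (Q.summable_right u g hg).tsum_add (Q.summable_right v g hg), hu, hv]
  | single ζ a =>
    simp only [evE_single, conv_single]
    have hgt := hasCompactSupport_translate hg (h ζ)
    have hgs : ContDiff ℝ ∞ (fun ξ => g (ξ + h ζ)) := (g.smooth ⊤).comp (contDiff_id.add contDiff_const)
    have h1 := Q.id (hgt.toSchwartzMap hgs) hgt
    have h2 : ∀ x : E, (𝓕 (hgt.toSchwartzMap hgs) : 𝓢(E, ℂ)) x = ex (h ζ) x * 𝓕 g x :=
      fun x => fourier_translate (g : E → ℂ) (h ζ) x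
    simp only [h2] at h1
    have h3 : ∀ x : Λ, a * ex (h ζ) (x : E) * 𝓕 g (x : E) = a * (ex (h ζ) (x : E) * 𝓕 g (x : E)) :=
      fun x => by ring
    simp only [h3, tsum_mul_left]
    rw [h1, ← tsum_mul_left, ← (Equiv.subRight ζ).tsum_eq]
    refine tsum_congr fun η => ?_
    show a * (c (η - ζ) * g (h (η - ζ) + h ζ)) = _
    rw [← map_add, sub_add_cancel]
    ring

/-- the operator `T` -/
noncomputable def Top (h : G →+ E) (c : G → ℂ) (hlf : ∀ r, {ξ | c ξ ≠ 0 ∧ ‖h ξ‖ ≤ r}.Finite)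
    (ρ : E → ℂ) (hρ : HasCompactSupport ρ) (u : G →₀ ℂ) : G →₀ ℂ :=
  Finsupp.ofSupportFinite (fun η => ρ (h η) * conv u c η) (by
    obtain ⟨r, hr⟩ := exists_radius hρ
    refine (conv_finite hlf u r).subset ?_
    intro η hη
    rw [Function.mem_support] at hη
    refine ⟨right_ne_zero_of_mul hη, ?_⟩
    by_contra hcon
    push Not at hcon
    exact left_ne_zero_of_mul hη (hr _ hcon))

theorem Top_apply (hlf : ∀ r, {ξ | c ξ ≠ 0 ∧ ‖h ξ‖ ≤ r}.Finite)
    (ρ : E → ℂ) (hρ : HasCompactSupport ρ) (u : G →₀ ℂ) (η : G) :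
    Top h c hlf ρ hρ u η = ρ (h η) * conv u c η := rfl

theorem QC.evE_Top (Q : QC Λ h c) (ρ : 𝓢(E, ℂ)) (hρ : HasCompactSupport ρ) (u : G →₀ ℂ) (z : E) :
    evE h (Top h c Q.lf ρ hρ u) z = ∑' x : Λ, evE h u (x : E) * 𝓕 ρ ((x : E) - z) := by
  have hgc : HasCompactSupport (fun ξ : E => ρ ξ * ex ξ z) := hρ.mul_right
  have hgs : ContDiff ℝ ∞ (fun ξ : E => ρ ξ * ex ξ z) := (ρ.smooth ⊤).mul (contDiff_ex z)
  have h1 := Q.modulated u (hgc.toSchwartzMap hgs) hgc
  have h2 : ∀ x : E, (𝓕 (hgc.toSchwartzMap hgs) : 𝓢(E, ℂ)) x = 𝓕 ρ (x - z) :=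
    fun x => fourier_modulate (ρ : E → ℂ) z x
  simp only [h2] at h1
  rw [h1, evE, Finsupp.sum]
  rw [tsum_eq_sum (s := (Top h c Q.lf ρ hρ u).support)]
  · refine Finset.sum_congr rfl fun η _ => ?_
    rw [Top_apply]
    show _ = conv u c η * (ρ (h η) * ex (h η) z)
    ring
  · intro η hη
    rw [Finsupp.notMem_support_iff, Top_apply] at hη
    show conv u c η * (ρ (h η) * ex (h η) z) = 0
    rw [← mul_assoc, mul_comm (conv u c η), hη, zero_mul]

end FQ
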