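import Mathlib
import Pool.Agent.Helper46.FQ.QC
import Pool.Agent.Helper46.FQ.Kernel

/-!
Estimates for the operator `T`.
-/

namespace FQ

open MeasureTheory Finset Filter Topology
open scoped FourierTransform SchwartzMap ContDiff

variable {E : Type*} [NormedAddCommGroup E] [InnerProductSpace ℝ E] [FiniteDimensional ℝ E]
  [MeasurableSpace E] [BorelSpace E] {G : Type*} [AddCommGroup G]
  {Λ : Set E} {h : G →+ E} {c : G → ℂ}

/-- uniform bound for sums of a Schwartz function -/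
theorem exists_sumB (hΛ : UD Λ) (g : 𝓢(E, ℂ)) : ∃ S, 0 ≤ S ∧ ∀ z : E,
    (Summable fun x : Λ => ‖𝓕 g ((x : E) - z)‖) ∧ ∑' x : Λ, ‖𝓕 g ((x : E) - z)‖ ≤ S := by
  obtain ⟨S, hS0, hS⟩ := sum_bound hΛ
  obtain ⟨C, hC0, hC⟩ := exists_RD (𝓕 g)
  refine ⟨C * S, by positivity, fun z => ⟨hC.summable hΛ hC0 z, ?_⟩⟩
  refine (hC.summable hΛ hC0 z).tsum_le_of_sum_le fun s => ?_
  calc ∑ x ∈ s, ‖𝓕 g ((x : E) - z)‖ ≤ ∑ x ∈ s, C * wgt ((x : E) - z) :=
        Finset.sum_le_sum fun x _ => hC _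
    _ = C * ∑ x ∈ s, wgt ((x : E) - z) := by rw [Finset.mul_sum]
    _ ≤ C * S := mul_le_mul_of_nonneg_left (hS z s) hC0

theorem QC.norm_evE_Top_le (Q : QC Λ h c) (ρ : 𝓢(E, ℂ)) (hρ : HasCompactSupport ρ) (u : G →₀ ℂ)
    (s : ℝ) (hs : ∀ x ∈ Λ, ‖evE h u x‖ ≤ s) (S : ℝ) (z : E)
    (hS1 : Summable fun x : Λ => ‖𝓕 ρ ((x : E) - z)‖) (hS : ∑' x : Λ, ‖𝓕 ρ ((x : E) - z)‖ ≤ S)
    (hs0 : 0 ≤ s) :
    ‖evE h (Top h c Q.lf ρ hρ u) z‖ ≤ s * S := by
  rw [Q.evE_Top]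
  calc ‖∑' x : Λ, evE h u (x : E) * 𝓕 ρ ((x : E) - z)‖ ≤ ∑' x : Λ, s * ‖𝓕 ρ ((x : E) - z)‖ := by
        refine tsum_of_norm_bounded (hS1.mul_left s).hasSum fun x => ?_
        rw [norm_mul]
        exact mul_le_mul_of_nonneg_right (hs x x.2) (norm_nonneg _)
    _ = s * ∑' x : Λ, ‖𝓕 ρ ((x : E) - z)‖ := tsum_mul_left
    _ ≤ s * S := mul_le_mul_of_nonneg_left hS hs0

open Classical in
theorem QC.norm_sub_Top_le (Q : QC Λ h c) (ρ : 𝓢(E, ℂ)) (hρ : HasCompactSupport ρ)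
    (hone : 𝓕 ρ 0 = 1) (u : G →₀ ℂ)
    (s : ℝ) (hs : ∀ x ∈ Λ, ‖evE h u x‖ ≤ s) (hs0 : 0 ≤ s) (κ : ℝ) (z : E) (hz : z ∈ Λ)
    (hκ : ∀ t : Finset Λ, (∀ x ∈ t, (x : E) ≠ z) → ∑ x ∈ t, ‖𝓕 ρ ((x : E) - z)‖ ≤ κ) :
    ‖evE h u z - evE h (Top h c Q.lf ρ hρ u) z‖ ≤ s * κ := by
  obtain ⟨S, hS0, hS⟩ := exists_sumB Q.ud ρ
  have hsum := Q.summable_left u ρ z
  rw [Q.evE_Top, hsum.tsum_eq_add_tsum_ite ⟨z, hz⟩]
  simp only [sub_self]
  rw [hone, mul_one, sub_add_cancel_left, norm_neg]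
  have hsum2 : Summable fun x : Λ => if x = ⟨z, hz⟩ then (0:ℝ) else ‖𝓕 ρ ((x : E) - z)‖ := by
    refine Summable.of_nonneg_of_le (fun x => ?_) (fun x => ?_) (hS z).1
    · split_ifs
      · exact le_rfl
      · exact norm_nonneg _
    · split_ifs
      · exact norm_nonneg _
      · exact le_rfl
  calc ‖∑' x : Λ, if x = ⟨z, hz⟩ then (0:ℂ) else evE h u (x : E) * 𝓕 ρ ((x : E) - z)‖
      ≤ ∑' x : Λ, s * (if x = ⟨z, hz⟩ then (0:ℝ) else ‖𝓕 ρ ((x : E) - z)‖) := by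
        refine tsum_of_norm_bounded (hsum2.mul_left s).hasSum fun x => ?_
        split_ifs
        · simp
        · rw [norm_mul]
          exact mul_le_mul_of_nonneg_right (hs x x.2) (norm_nonneg _)
    _ = s * ∑' x : Λ, (if x = ⟨z, hz⟩ then (0:ℝ) else ‖𝓕 ρ ((x : E) - z)‖) := tsum_mul_left
    _ ≤ s * κ := by
        apply mul_le_mul_of_nonneg_left _ hs0
        refine hsum2.tsum_le_of_sum_le fun t => ?_
        rw [← Finset.sum_filter_add_sum_filter_not t (fun x => x = ⟨z, hz⟩)]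
        have h1 : ∑ x ∈ t.filter (fun x => x = ⟨z, hz⟩), (if x = ⟨z, hz⟩ then (0:ℝ) else ‖𝓕 ρ ((x : E) - z)‖) = 0 := by
          refine Finset.sum_eq_zero fun x hx => ?_
          rw [if_pos (Finset.mem_filter.1 hx).2]
        rw [h1, zero_add]
        have h2 : ∑ x ∈ t.filter (fun x => ¬ x = ⟨z, hz⟩), (if x = ⟨z, hz⟩ then (0:ℝ) else ‖𝓕 ρ ((x : E) - z)‖)
            = ∑ x ∈ t.filter (fun x => ¬ x = ⟨z, hz⟩), ‖𝓕 ρ ((x : E) - z)‖ := by
          refine Finset.sum_congr rfl fun x hx => ?_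
          rw [if_neg (Finset.mem_filter.1 hx).2]
        rw [h2]
        exact hκ _ fun x hx he => (Finset.mem_filter.1 hx).2 (Subtype.ext he)

/-- average of powers of a unimodular number -/
theorem tendsto_avg (w : ℂ) (hw : ‖w‖ = 1) (hne : w ≠ 1) :
    Tendsto (fun N : ℕ => (∑ k ∈ range N, w ^ k) / N) atTop (𝓝 0) := by
  have h1 : ∀ N : ℕ, ‖(∑ k ∈ range N, w ^ k) / N‖ ≤ (2 / ‖w - 1‖) * (N : ℝ)⁻¹ := by
    intro N
    rw [geom_sum_eq hne, norm_div, norm_div, Complex.norm_natCast, div_eq_mul_inv]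
    apply mul_le_mul_of_nonneg_right _ (by positivity)
    apply div_le_div_of_nonneg_right _ (norm_nonneg _)
    refine (norm_sub_le _ _).trans ?_
    rw [norm_pow, hw, one_pow, norm_one]
    norm_num
  refine squeeze_zero_norm h1 ?_
  have := (tendsto_inv_atTop_nhds_zero_nat (𝕜 := ℝ)).const_mul (2 / ‖w - 1‖)
  simpa using this

/-- a point where finitely many nonzero frequencies are not integral -/
theorem exists_generic_pt (s : Finset E) (hs : ∀ q ∈ s, q ≠ 0) : ∃ x₀ : E, ∀ q ∈ s, ex q x₀ ≠ 1 := by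
  classical
  obtain ⟨f, hf⟩ := Module.exists_dual_forall_apply_ne_zero (K := ℝ) (fun q : s => (q : E))
    (fun q => hs q q.2)
  let f' : E →L[ℝ] ℝ := LinearMap.toContinuousLinearMap f
  set x₁ := (InnerProductSpace.toDual ℝ E).symm f' with hx₁
  have hx₁' : ∀ q, inner ℝ x₁ q = f q := fun q => by
    rw [hx₁, InnerProductSpace.toDual_symm_apply]; rfl
  obtain ⟨B, hB0, hB⟩ := exists_bound s (fun q => |inner ℝ q x₁|)
  refine ⟨(1 / (2 * (B + 1))) • x₁, fun q hq heq => ?_⟩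
  have h1 : inner ℝ q x₁ ≠ (0:ℝ) := by
    rw [real_inner_comm, hx₁']
    exact hf ⟨q, hq⟩
  unfold ex at heq
  rw [Complex.exp_eq_one_iff] at heq
  obtain ⟨k, hk⟩ := heq
  have h2 : ((2 * Real.pi * inner ℝ q ((1 / (2 * (B + 1))) • x₁) : ℝ) : ℂ) = ((2 * Real.pi * k : ℝ) : ℂ) := by
    have hI : (Complex.I : ℂ) ≠ 0 := Complex.I_ne_zero
    apply mul_right_cancel₀ hI
    rw [hk]; push_cast; ring
  have h3 : inner ℝ q ((1 / (2 * (B + 1))) • x₁) = (k : ℝ) := by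
    have h4 : 2 * Real.pi * inner ℝ q ((1 / (2 * (B + 1))) • x₁) = 2 * Real.pi * k := by exact_mod_cast h2
    exact mul_left_cancel₀ (by positivity) h4
  rw [real_inner_smul_right] at h3
  have h5 := hB q hq
  have h6 : |(k : ℝ)| < 1 := by
    rw [← h3, abs_mul, abs_of_nonneg (by positivity)]
    calc 1 / (2 * (B + 1)) * |inner ℝ q x₁| ≤ 1 / (2 * (B + 1)) * B :=
          mul_le_mul_of_nonneg_left h5 (by positivity)
      _ < 1 := by
          rw [div_mul_eq_mul_div, one_mul, div_lt_one (by positivity)]; linarith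
  have h7 : k = 0 := by
    have : |k| < 1 := by exact_mod_cast h6
    exact Int.abs_lt_one_iff.1 this
  rw [h7] at h3
  simp only [Int.cast_zero] at h3
  rcases mul_eq_zero.1 h3 with h | h
  · have : (0:ℝ) < 1 / (2 * (B + 1)) := by positivity
    linarith
  · exact h1 h

theorem ex_nsmul (q x : E) (k : ℕ) : ex q ((k : ℝ) • x) = ex q x ^ k := by
  unfold ex
  rw [← Complex.exp_nat_mul, real_inner_smul_right]
  congr 1; push_cast; ring

/-- the constant coefficient is bounded by the sup norm -/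
theorem coeff_zero_le (hinj : Function.Injective h) (v : G →₀ ℂ) (M : ℝ)
    (hM : ∀ z, ‖evE h v z‖ ≤ M) : ‖v 0‖ ≤ M := by
  classical
  obtain ⟨x₀, hx₀⟩ := exists_generic_pt ((v.support.erase 0).image h) (by
    intro q hq
    obtain ⟨ζ, hζ, rfl⟩ := Finset.mem_image.1 hq
    intro h0
    apply (Finset.mem_erase.1 hζ).1
    apply hinj
    rw [h0, map_zero])
  have hlim : Tendsto (fun N : ℕ => (∑ k ∈ range N, evE h v ((k : ℝ) • x₀)) / N) atTop (𝓝 (v 0)) := by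
    have h1 : ∀ N : ℕ, N ≠ 0 → (∑ k ∈ range N, evE h v ((k : ℝ) • x₀)) / N
        = v 0 + ∑ ζ ∈ v.support.erase 0, v ζ * ((∑ k ∈ range N, ex (h ζ) x₀ ^ k) / N) := by
      intro N hN
      have hN' : (N : ℂ) ≠ 0 := by exact_mod_cast hN
      have h2 : ∀ k : ℕ, evE h v ((k : ℝ) • x₀) = v 0 + ∑ ζ ∈ v.support.erase 0, v ζ * ex (h ζ) x₀ ^ k := by
        intro k
        rw [evE_eq_sum_of_subset h v _ (Finset.subset_insert 0 v.support),
          ← Finset.insert_erase (Finset.mem_insert_self (0:G) v.support), Finset.sum_insert]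
        · rw [map_zero h, ex_zero, mul_one, Finset.erase_insert_eq_erase]
          congr 1
          exact Finset.sum_congr rfl fun ζ _ => by rw [ex_nsmul]
        · exact Finset.notMem_erase _ _
      simp only [h2, Finset.sum_add_distrib, Finset.sum_const, card_range, nsmul_eq_mul]
      rw [add_div, mul_div_assoc, mul_comm, div_mul_cancel₀ _ hN']
      congr 1
      rw [Finset.sum_comm, Finset.sum_div]
      refine Finset.sum_congr rfl fun ζ _ => ?_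
      rw [← Finset.mul_sum, mul_div_assoc]
    have h3 : Tendsto (fun N : ℕ => v 0 + ∑ ζ ∈ v.support.erase 0, v ζ * ((∑ k ∈ range N, ex (h ζ) x₀ ^ k) / N))
        atTop (𝓝 (v 0 + ∑ ζ ∈ v.support.erase 0, v ζ * 0)) := by
      refine tendsto_const_nhds.add (tendsto_finsetSum _ fun ζ hζ => Tendsto.const_mul _ ?_)
      exact tendsto_avg _ (norm_ex _ _) (hx₀ _ (Finset.mem_image_of_mem _ hζ))
    simp only [mul_zero, Finset.sum_const_zero, add_zero] at h3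
    refine h3.congr' ?_
    filter_upwards [eventually_ne_atTop 0] with N hN
    exact (h1 N hN).symm
  refine le_of_tendsto hlim.norm ?_
  filter_upwards [eventually_gt_atTop 0] with N hN
  rw [norm_div, Complex.norm_natCast, div_le_iff₀ (by exact_mod_cast hN)]
  calc ‖∑ k ∈ range N, evE h v ((k : ℝ) • x₀)‖ ≤ ∑ _k ∈ range N, M :=
        (norm_sum_le _ _).trans (Finset.sum_le_sum fun k _ => hM _)
    _ = M * N := by rw [Finset.sum_const, card_range, nsmul_eq_mul, mul_comm]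

/-- (A1) -/
theorem QC.coeff_bound (Q : QC Λ h c) : ∃ C, 0 ≤ C ∧ ∀ (u : G →₀ ℂ) (s : ℝ),
    (∀ x ∈ Λ, ‖evE h u x‖ ≤ s) → ∀ η, ‖conv u c η‖ ≤ C * |s| := by
  obtain ⟨ρ, hρ, hone, hρ0, -⟩ := exists_kernel Q.ud 1 1 one_pos one_pos
  obtain ⟨S, hS0, hS⟩ := exists_sumB Q.ud ρ
  have hρ0' : 0 < ‖ρ 0‖ := norm_pos_iff.2 hρ0
  refine ⟨S / ‖ρ 0‖, by positivity, fun u s hs η => ?_⟩
  have h1 : ∀ x ∈ Λ, ‖evE h (sh η u) x‖ ≤ |s| := by
    intro x hx
    rw [evE_sh, norm_mul, norm_ex, one_mul]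
    exact (hs x hx).trans (le_abs_self s)
  have h2 := coeff_zero_le Q.inj (Top h c Q.lf ρ hρ (sh η u)) (|s| * S) (fun z =>
    Q.norm_evE_Top_le ρ hρ (sh η u) |s| h1 S z (hS z).1 (hS z).2 (abs_nonneg s))
  rw [Top_apply, map_zero, conv_sh, zero_add, norm_mul] at h2
  rw [div_mul_eq_mul_div, le_div_iff₀ hρ0']
  linarith

theorem QC.conv_eq_zero (Q : QC Λ h c) (u : G →₀ ℂ) (hu : ∀ x ∈ Λ, evE h u x = 0) (η : G) :
    conv u c η = 0 := by
  obtain ⟨C, hC0, hC⟩ := Q.coeff_bound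
  have := hC u 0 (fun x hx => by rw [hu x hx, norm_zero]) η
  rw [abs_zero, mul_zero] at this
  exact norm_le_zero_iff.1 this

/-- kernel with separation adapted to the set -/
theorem UD.exists_kernel {Λ : Set E} (hΛ : UD Λ) (κ : ℝ) (hκ : 0 < κ) :
    ∃ ρ : 𝓢(E, ℂ), HasCompactSupport ρ ∧ 𝓕 ρ 0 = 1 ∧ ρ 0 ≠ 0 ∧ ∀ z ∈ Λ, ∀ t : Finset Λ,
      (∀ x ∈ t, (x : E) ≠ z) → ∑ x ∈ t, ‖𝓕 ρ ((x : E) - z)‖ ≤ κ := by
  obtain ⟨δ, hδ, hsep⟩ := hΛ
  obtain ⟨ρ, h1, h2, h3, h4⟩ := FQ.exists_kernel ⟨δ, hδ, hsep⟩ δ κ hδ hκ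
  exact ⟨ρ, h1, h2, h3, fun z hz t ht => h4 z t fun x hx => hsep x x.2 z hz (ht x hx)⟩

/-- vanishing on `Λ` from contraction -/
theorem eq_zero_of_contract (u : G →₀ ℂ) (θ : ℝ) (hθ0 : 0 ≤ θ) (hθ : θ < 1)
    (H : ∀ s, 0 ≤ s → (∀ x ∈ Λ, ‖evE h u x‖ ≤ s) → ∀ x ∈ Λ, ‖evE h u x‖ ≤ s * θ) :
    ∀ x ∈ Λ, evE h u x = 0 := by
  intro x hx
  have h1 : ∀ N : ℕ, ∀ x ∈ Λ, ‖evE h u x‖ ≤ (∑ ζ ∈ u.support, ‖u ζ‖) * θ ^ N := by
    intro N
    induction N with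
    | zero => intro x _; simpa using norm_evE_le h u x
    | succ N ih =>
      intro x hx
      have h2 := H _ (by positivity) ih x hx
      rw [pow_succ, ← mul_assoc]
      exact h2
  have h3 : Tendsto (fun N : ℕ => (∑ ζ ∈ u.support, ‖u ζ‖) * θ ^ N) atTop (𝓝 0) := by
    simpa using (tendsto_pow_atTop_nhds_zero_of_lt_one hθ0 hθ).const_mul (∑ ζ ∈ u.support, ‖u ζ‖)
  have h4 := ge_of_tendsto' h3 (fun N => h1 N x hx)
  exact norm_le_zero_iff.1 h4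

/-- (U) -/
theorem QC.uniqueness (Q : QC Λ h c) : ∃ R : ℝ, ∀ u : G →₀ ℂ,
    (∀ η, ‖h η‖ ≤ R → conv u c η = 0) → ∀ x ∈ Λ, evE h u x = 0 := by
  obtain ⟨ρ, hρ, hone, hρ0, hκ⟩ := Q.ud.exists_kernel (1 / 4) (by norm_num)
  obtain ⟨r, hr⟩ := exists_radius hρ
  refine ⟨r, fun u hu => ?_⟩
  have hT : Top h c Q.lf ρ hρ u = 0 := by
    ext η
    rw [Top_apply, Finsupp.coe_zero, Pi.zero_apply]
    by_cases hη : ‖h η‖ ≤ r
    · rw [hu η hη, mul_zero]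
    · rw [hr _ (not_le.1 hη), zero_mul]
  refine eq_zero_of_contract u (1 / 4) (by norm_num) (by norm_num) fun s hs0 hs x hx => ?_
  have h1 := Q.norm_sub_Top_le ρ hρ hone u s hs hs0 (1 / 4) x hx (hκ x hx)
  rw [hT, evE_zero, sub_zero] at h1
  exact h1

/-- (A6) -/
theorem QC.separate (Q : QC Λ h c) (x₀ : E) (hx₀ : x₀ ∉ Λ) : ∃ (u : G →₀ ℂ) (s : ℝ), 0 ≤ s ∧
    (∀ x ∈ Λ, ‖evE h u x‖ ≤ s) ∧ s < ‖evE h u x₀‖ := by
  classical
  obtain ⟨δ, hδ, hsep⟩ := Q.ud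
  -- distance from x₀ to Λ
  obtain ⟨δ₀, hδ₀, hδ₀'⟩ : ∃ δ₀ > 0, ∀ x ∈ Λ, δ₀ ≤ ‖x - x₀‖ := by
    by_cases hex : ∃ y ∈ Λ, ‖y - x₀‖ < δ / 2
    · obtain ⟨y, hy, hyx⟩ := hex
      have hyne : y ≠ x₀ := fun h => hx₀ (h ▸ hy)
      refine ⟨min (‖y - x₀‖) (δ / 2), lt_min (norm_pos_iff.2 (sub_ne_zero.2 hyne)) (by positivity), ?_⟩
      intro x hx
      by_cases hxy : x = y
      · rw [hxy]; exact min_le_left _ _
      · refine (min_le_right _ _).trans ?_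
        have h1 := hsep x hx y hy hxy
        have h2 : ‖x - y‖ ≤ ‖x - x₀‖ + ‖y - x₀‖ := by
          have := norm_sub_le (x - x₀) (y - x₀)
          have e : (x - x₀) - (y - x₀) = x - y := by abel
          rwa [e] at this
        linarith
    · push Not at hex
      exact ⟨δ / 2, by positivity, hex⟩
  set δ₁ := min δ δ₀ with hδ₁
  obtain ⟨ρ, hρ, hone, hρ0, hκ⟩ := exists_kernel Q.ud δ₁ (1 / 4) (lt_min hδ hδ₀) (by norm_num)
  set u : G →₀ ℂ := Finsupp.single 0 1 - Top h c Q.lf ρ hρ (Finsupp.single 0 1) with hu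
  have h1 : ∀ z, evE h (Finsupp.single 0 1) z = 1 := by
    intro z; rw [evE_single, map_zero, ex_zero, mul_one]
  refine ⟨u, 1 / 4, by norm_num, fun x hx => ?_, ?_⟩
  · rw [hu, evE_sub]
    have := Q.norm_sub_Top_le ρ hρ hone (Finsupp.single 0 1) 1 (fun x _ => by rw [h1, norm_one])
      zero_le_one (1 / 4) x hx (fun t ht => hκ x t fun y hy => (min_le_left _ _).trans
        (hsep y y.2 x hx (ht y hy)))
    linarith
  · rw [hu, evE_sub, h1]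
    have h2 : ‖evE h (Top h c Q.lf ρ hρ (Finsupp.single 0 1)) x₀‖ ≤ 1 * (1 / 4) := by
      obtain ⟨S, hS0, hS⟩ := exists_sumB Q.ud ρ
      refine Q.norm_evE_Top_le ρ hρ _ 1 (fun x _ => by rw [h1, norm_one]) (1 / 4) x₀ (hS x₀).1 ?_
        zero_le_one
      refine (hS x₀).1.tsum_le_of_sum_le fun t => ?_
      exact hκ x₀ t fun y hy => (min_le_right _ _).trans (hδ₀' y y.2)
    have h3 : (1 : ℝ) ≤ ‖(1 : ℂ) - evE h (Top h c Q.lf ρ hρ (Finsupp.single 0 1)) x₀‖ +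
        ‖evE h (Top h c Q.lf ρ hρ (Finsupp.single 0 1)) x₀‖ := by
      have := norm_add_le ((1 : ℂ) - evE h (Top h c Q.lf ρ hρ (Finsupp.single 0 1)) x₀)
        (evE h (Top h c Q.lf ρ hρ (Finsupp.single 0 1)) x₀)
      rwa [sub_add_cancel, norm_one] at this
    linarith

end FQ
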