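import Mathlib
import Pool.Agent.Helper46.FQ.KLU
import Pool.Agent.Helper46.FQ.Good

/-!
Property (★): the support of `c` is contained in a region `‖ξ‖ ≤ A + B ‖h ξ‖`.
-/

namespace FQ

open Finset

variable {n : ℕ} {E : Type*} [NormedAddCommGroup E] [InnerProductSpace ℝ E]
  [FiniteDimensional ℝ E]

theorem klu_of_chain (h : (Fin n → ℤ) →+ E) (hspan : Submodule.span ℝ (Set.range h) = ⊤)
    (c : (Fin n → ℤ) → ℂ) (R : ℝ)
    (LF : ∀ r, {ξ | c ξ ≠ 0 ∧ ‖h ξ‖ ≤ r}.Finite)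
    (U : ∀ f : (Fin n → ℤ) →₀ ℂ, (∀ η, ‖h η‖ ≤ R → conv f c η = 0) → f ∈ Ann c)
    (w : (Fin n → ℤ) →+ ℝ) (hw : Generic h w) :
    ∀ (m : ℕ) (A : AddSubgroup (Fin n → ℤ)) (J : Set ((Fin n → ℤ) →₀ ℂ)),
      Module.finrank ℝ (Submodule.span ℝ (h '' A)) = m → Chain h (Ann c) A J → KLU h w A J := by
  intro m
  induction m using Nat.strong_induction_on with
  | _ m ih =>
    intro A J hm hc
    apply klu_step
    · have hcomp : IsCompact {y : E | y ∈ Submodule.span ℝ (h '' A) ∧ ‖y‖ = 1} := by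
        have h1 : {y : E | y ∈ Submodule.span ℝ (h '' A) ∧ ‖y‖ = 1} =
            Metric.sphere 0 1 ∩ (Submodule.span ℝ (h '' A) : Set E) := by
          ext y; simp [and_comm]
        rw [h1]
        exact (isCompact_sphere 0 1).inter_right (Submodule.closed_of_finiteDimensional _)
      refine uprop_of_compact h w A J _ hcomp ?_
      rintro y ⟨hy, hy1⟩
      refine uprop_local h w A J hc.supp y ?_
      refine ih _ ?_ (A ⊓ (fn h y).ker) _ rfl (Chain.step y hc)
      rw [← hm]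
      apply Submodule.finrank_lt_finrank_of_lt
      refine lt_of_le_of_ne (Submodule.span_mono (Set.image_mono (fun a ha => ha.1))) ?_
      intro heq
      have hyy : ∀ x ∈ Submodule.span ℝ (h '' ((A ⊓ (fn h y).ker : AddSubgroup (Fin n → ℤ)) : Set (Fin n → ℤ))),
          inner ℝ x y = (0:ℝ) := by
        intro x hx
        induction hx using Submodule.span_induction with
        | mem x hx => obtain ⟨ζ, hζ, rfl⟩ := hx; exact hζ.2
        | zero => simp
        | add x z _ _ hx hz => rw [inner_add_left, hx, hz, add_zero]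
        | smul a x _ hx => rw [inner_smul_left, hx, mul_zero]
      have h3 := hyy y (heq ▸ hy)
      rw [inner_self_eq_zero] at h3
      rw [h3, norm_zero] at hy1
      exact zero_ne_one hy1
    · intro M
      refine steep_of_compact h w A J _ (isCompact_closedBall 0 M) ?_
      intro y hy
      exact steep_local h w A J hc.supp y (good_of_chain h hspan c R LF U w hw hc y)

theorem norm_drop (u v : E) (δ L r : ℝ) (hr : r = ‖u‖) (hr0 : 0 < r) (hL0 : 0 ≤ L) (hv : ‖v‖ ≤ L)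
    (hin : inner ℝ v (r⁻¹ • u) < -δ) (hδ : 0 < δ) (hL : L ^ 2 ≤ r * δ) (hδr : δ / 4 ≤ r) :
    ‖u + v‖ ≤ r - δ / 4 := by
  have hinner : inner ℝ u v < -(δ * r) := by
    have : inner ℝ v (r⁻¹ • u) = r⁻¹ * inner ℝ u v := by
      rw [inner_smul_right, real_inner_comm]
    rw [this, inv_mul_lt_iff₀ hr0] at hin
    linarith
  have hsqle : ‖u + v‖ ^ 2 ≤ (r - δ / 4) ^ 2 := by
    rw [@norm_add_sq_real, ← hr]
    have h3 : ‖v‖ ^ 2 ≤ L ^ 2 := pow_le_pow_left₀ (norm_nonneg _) hv 2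
    nlinarith
  have : 0 ≤ r - δ / 4 := by linarith
  exact le_of_sq_le_sq hsqle this

/-- linear bound in a generic direction -/
theorem w_bound (h : (Fin n → ℤ) →+ E) (hspan : Submodule.span ℝ (Set.range h) = ⊤)
    (c : (Fin n → ℤ) → ℂ) (R : ℝ)
    (LF : ∀ r, {ξ | c ξ ≠ 0 ∧ ‖h ξ‖ ≤ r}.Finite)
    (U : ∀ f : (Fin n → ℤ) →₀ ℂ, (∀ η, ‖h η‖ ≤ R → conv f c η = 0) → f ∈ Ann c)
    (w : (Fin n → ℤ) →+ ℝ) (hw : Generic h w) :
    ∃ A B : ℝ, 0 ≤ B ∧ ∀ ξ, c ξ ≠ 0 → w ξ ≤ A + B * ‖h ξ‖ := by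
  have hUP : UPropOn h w ⊤ (Ann c) (Metric.sphere (0:E) 1) := by
    refine uprop_of_compact h w ⊤ _ _ (isCompact_sphere 0 1) ?_
    intro y hy
    refine uprop_local h w ⊤ _ (fun _ _ _ _ => AddSubgroup.mem_top _) y ?_
    rw [top_inf_eq]
    have hy0 : y ≠ 0 := by
      rintro rfl
      simp at hy
    exact klu_of_chain h hspan c R LF U w hw _ _ _ rfl (Chain.base y hy0)
  obtain ⟨δ, hδ, L, C, F, hF, H⟩ := hUP
  set K := max C 0 with hK
  have hK0 : 0 ≤ K := le_max_right _ _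
  have hCK : C ≤ K := le_max_left _ _
  set B := 4 * K / δ + 1 with hB
  have hB0 : 0 < B := by positivity
  have hBδ : K < B * (δ / 4) := by rw [hB]; field_simp; linarith
  set L' := max L 0 with hL'
  have hL'0 : 0 ≤ L' := le_max_right _ _
  set r₀ := max (L' ^ 2 / δ) (δ / 4) with hr₀
  have hr₀a : L' ^ 2 / δ ≤ r₀ := le_max_left _ _
  have hr₀b : δ / 4 ≤ r₀ := le_max_right _ _
  obtain ⟨A, hA0, hA⟩ := exists_bound (LF r₀).toFinset (fun ξ => w ξ - B * ‖h ξ‖)
  refine ⟨A, B, hB0.le, fun ξ hξ => ?_⟩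
  have hSfin := LF ‖h ξ‖
  set S := hSfin.toFinset with hS
  have hmemS : ∀ a, a ∈ S ↔ c a ≠ 0 ∧ ‖h a‖ ≤ ‖h ξ‖ := by
    intro a; rw [hS, Set.Finite.mem_toFinset]; rfl
  have hξS : ξ ∈ S := (hmemS ξ).2 ⟨hξ, le_rfl⟩
  obtain ⟨a₀, ha₀S, hmax⟩ := S.exists_max_image (fun a => w a - B * ‖h a‖) ⟨ξ, hξS⟩
  have ha₀ := (hmemS a₀).1 ha₀S
  have hle : w ξ - B * ‖h ξ‖ ≤ w a₀ - B * ‖h a₀‖ := hmax ξ hξS
  suffices hsuff : ‖h a₀‖ ≤ r₀ by
    have := hA a₀ (by rw [Set.Finite.mem_toFinset]; exact ⟨ha₀.1, hsuff⟩)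
    linarith
  by_contra hcase
  push Not at hcase
  set r := ‖h a₀‖ with hr
  have hr0 : 0 < r := by linarith
  have hy1 : ‖r⁻¹ • h a₀‖ = 1 := by
    rw [norm_smul, norm_inv, Real.norm_of_nonneg hr0.le, ← hr, inv_mul_cancel₀ hr0.ne']
  have hres := H (r⁻¹ • h a₀) (by simpa using hy1) (fun x => c (a₀ + x)) ?_ ?_ ?_
  · rw [add_zero] at hres; exact ha₀.1 hres
  · have hinj : Function.Injective (fun a => a₀ + a) := add_right_injective a₀
    refine ((LF (r + L')).preimage (f := fun a => a₀ + a) hinj.injOn).subset ?_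
    rintro a ⟨haA, ha1, ha2⟩
    refine ⟨ha1, ?_⟩
    rw [map_add]
    have := norm_add_le (h a₀) (h a)
    have := ha2.1
    have := le_max_left L 0
    linarith
  · intro f hf η hη hW
    rw [conv_translate]
    exact hF f hf _
  · intro a haA hW hlt
    by_contra hne
    have hle2 := norm_drop (h a₀) (h a) δ L' r hr hr0 hL'0 (hW.1.trans (le_max_left _ _)) hlt hδ
      (by have := hr₀a.trans hcase.le
          rwa [div_le_iff₀ hδ] at this) (hr₀b.trans hcase.le)
    have hm : a₀ + a ∈ S := by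
      rw [hmemS]
      refine ⟨hne, ?_⟩
      rw [map_add]
      linarith [ha₀.2]
    have h5 := hmax _ hm
    rw [map_add, map_add] at h5
    have h6 := hW.2
    have h7 : B * ‖h a₀ + h a‖ ≤ B * (r - δ / 4) := mul_le_mul_of_nonneg_left hle2 hB0.le
    linarith

/-- the functional `ζ ↦ ∑ w_i ζ_i` -/
noncomputable def wfun (w : Fin n → ℝ) : (Fin n → ℤ) →+ ℝ :=
  AddMonoidHom.mk' (fun ζ => ∑ i, w i * (ζ i : ℝ)) (by
    intro a b; simp [mul_add, Finset.sum_add_distrib])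

theorem wfun_apply (w : Fin n → ℝ) (ζ : Fin n → ℤ) : wfun w ζ = ∑ i, w i * (ζ i : ℝ) := rfl

/-- real extension of `h` -/
noncomputable def hR (h : (Fin n → ℤ) →+ E) : (Fin n → ℝ) →ₗ[ℝ] E :=
  ∑ i, (LinearMap.proj i : (Fin n → ℝ) →ₗ[ℝ] ℝ).smulRight (h (Pi.single i 1))

theorem hR_apply (h : (Fin n → ℤ) →+ E) (x : Fin n → ℝ) :
    hR h x = ∑ i, x i • h (Pi.single i 1) := by
  simp [hR]

/-- cast `ℤ^n → ℝ^n` -/
def toR (ζ : Fin n → ℤ) : Fin n → ℝ := fun i => (ζ i : ℝ)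

theorem hR_toR (h : (Fin n → ℤ) →+ E) (ζ : Fin n → ℤ) : hR h (toR ζ) = h ζ := by
  rw [hR_apply]
  have h1 : ζ = ∑ i, ζ i • (Pi.single i 1 : Fin n → ℤ) := by
    ext j
    simp [Finset.sum_apply, Pi.single_apply]
  conv_rhs => rw [h1, map_sum]
  refine Finset.sum_congr rfl fun i _ => ?_
  rw [map_zsmul, toR, Int.cast_smul_eq_zsmul]

theorem norm_toR (ζ : Fin n → ℤ) : ‖toR ζ‖ = ‖ζ‖ := by
  simp only [Pi.norm_def]
  rfl

theorem exists_generic (h : (Fin n → ℤ) →+ E) (w₀ : Fin n → ℝ) (ε : ℝ) (hε : 0 < ε) :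
    ∃ w : Fin n → ℝ, (∀ i, |w i - w₀ i| < ε) ∧ Generic h (wfun w) := by
  classical
  let KS : Finset (Fin n → ℤ) → Submodule ℝ (Fin n → ℝ) := fun S =>
    Submodule.span ℝ (toR '' (S : Set (Fin n → ℤ))) ⊓ (hR h).ker
  have hch : ∀ S, ∃ k : Fin n → ℝ, KS S ≠ ⊥ → (k ∈ KS S ∧ k ≠ 0) := by
    intro S
    by_cases hS : KS S = ⊥
    · exact ⟨0, fun h => absurd hS h⟩
    · obtain ⟨k, hk, hk0⟩ := (Submodule.ne_bot_iff _).1 hS
      exact ⟨k, fun _ => ⟨hk, hk0⟩⟩
  choose k hk using hch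
  let Us : Finset (Fin n → ℤ) → Set (Fin n → ℝ) := fun S =>
    {w | KS S ≠ ⊥ → ∑ i, w i * k S i ≠ 0}
  have hopen : ∀ S, IsOpen (Us S) := by
    intro S
    by_cases hS : KS S = ⊥
    · have : Us S = Set.univ := by ext w; simp [Us, hS]
      rw [this]; exact isOpen_univ
    · have : Us S = {w | ∑ i, w i * k S i ≠ 0} := by ext w; simp [Us, hS]
      rw [this]
      exact isOpen_ne_fun (by fun_prop) continuous_const
  have hdense : ∀ S, Dense (Us S) := by
    intro S
    by_cases hS : KS S = ⊥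
    · have : Us S = Set.univ := by ext w; simp [Us, hS]
      rw [this]; exact dense_univ
    · have : Us S = {w | ∑ i, w i * k S i ≠ 0} := by ext w; simp [Us, hS]
      rw [this, Metric.dense_iff]
      intro w r hr
      by_cases hw : ∑ i, w i * k S i = 0
      · have hkne := (hk S hS).2
        have hn : 0 < ‖k S‖ := norm_pos_iff.2 hkne
        refine ⟨w + (r / (2 * ‖k S‖)) • k S, ?_, ?_⟩
        · rw [Metric.mem_ball, dist_eq_norm, add_sub_cancel_left, norm_smul,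
            Real.norm_of_nonneg (by positivity)]
          field_simp
          linarith
        · simp only [Set.mem_ofPred_eq, Pi.add_apply, Pi.smul_apply, smul_eq_mul, add_mul,
            Finset.sum_add_distrib, hw, zero_add]
          have h1 : ∑ i, r / (2 * ‖k S‖) * k S i * k S i = r / (2 * ‖k S‖) * ∑ i, k S i * k S i := by
            rw [Finset.mul_sum]; exact Finset.sum_congr rfl fun i _ => by ring
          rw [h1]
          apply mul_ne_zero (by positivity)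
          intro h2
          apply hkne
          have h3 := (Finset.sum_eq_zero_iff_of_nonneg (fun i _ => mul_self_nonneg (k S i))).1 h2
          ext i
          exact mul_self_eq_zero.1 (h3 i (Finset.mem_univ i))
      · exact ⟨w, Metric.mem_ball_self hr, hw⟩
  have hD : Dense (⋂ S, Us S) := dense_iInter_of_isOpen hopen hdense
  obtain ⟨w, hwball, hwU⟩ := Metric.dense_iff.1 hD w₀ ε hε
  refine ⟨w, fun i => ?_, ?_⟩
  · rw [Metric.mem_ball, dist_pi_lt_iff hε] at hwball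
    have := hwball i
    rwa [Real.dist_eq] at this
  · intro y D
    set v : (Fin n → ℤ) →+ ℝ := wfun w + fn h y with hv
    set X : Set (Fin n → ℝ) := toR '' (v.ker : Set (Fin n → ℤ)) with hX
    -- real functional
    let vR : (Fin n → ℝ) → ℝ := fun x => ∑ i, w i * x i + inner ℝ (hR h x) y
    have hvR : ∀ x ∈ Submodule.span ℝ X, vR x = 0 := by
      intro x hx
      induction hx using Submodule.span_induction with
      | mem x hx =>
        obtain ⟨ζ, hζ, rfl⟩ := hx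
        have h1 : v ζ = 0 := hζ
        simp only [vR, hR_toR]
        exact h1
      | zero => simp [vR]
      | add x z _ _ hx hz =>
        simp only [vR, Pi.add_apply, mul_add, Finset.sum_add_distrib, map_add,
          inner_add_left] at *
        linarith
      | smul a x _ hx =>
        simp only [vR, Pi.smul_apply, smul_eq_mul, map_smul, inner_smul_left, conj_trivial] at *
        have : ∑ i, w i * (a * x i) = a * ∑ i, w i * x i := by
          rw [Finset.mul_sum]; exact Finset.sum_congr rfl fun i _ => by ring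
        rw [this, ← mul_add, hx, mul_zero]
    obtain ⟨b, hbX, hbspan, hbli⟩ := exists_linearIndependent ℝ X
    have hbfin : b.Finite := hbli.setFinite
    -- pull back b to a finset of integral vectors
    obtain ⟨S, hS1, hS2⟩ : ∃ S : Finset (Fin n → ℤ), (∀ ζ ∈ S, ζ ∈ v.ker) ∧ b ⊆ toR '' (S : Set (Fin n → ℤ)) := by
      have : ∀ x ∈ b, ∃ ζ ∈ v.ker, toR ζ = x := fun x hx => hbX hx
      choose! g hg1 hg2 using this
      refine ⟨hbfin.toFinset.image g, ?_, ?_⟩
      · intro ζ hζ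
        obtain ⟨x, hx, rfl⟩ := Finset.mem_image.1 hζ
        exact hg1 x (by simpa using hx)
      · intro x hx
        exact ⟨g x, by simpa using ⟨x, hx, rfl⟩, hg2 x hx⟩
    have hSX : Submodule.span ℝ (toR '' (S : Set (Fin n → ℤ))) = Submodule.span ℝ X := by
      apply le_antisymm
      · apply Submodule.span_mono
        rintro x ⟨ζ, hζ, rfl⟩
        exact ⟨ζ, hS1 ζ hζ, rfl⟩
      · rw [← hbspan]
        exact Submodule.span_mono hS2
    have hbot : KS S = ⊥ := by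
      by_contra hne
      have h1 := hk S hne
      have h2 : (∑ i, w i * k S i ≠ 0) := Set.mem_iInter.1 hwU S hne
      apply h2
      have h3 := hvR (k S) (hSX ▸ h1.1.1)
      have h4 : hR h (k S) = 0 := h1.1.2
      simpa [vR, h4] using h3
    -- injectivity on the span
    let T : Submodule.span ℝ X →ₗ[ℝ] E := (hR h).domRestrict _
    have hTker : T.ker = ⊥ := by
      rw [LinearMap.ker_eq_bot']
      rintro ⟨x, hx⟩ hTx
      have : x ∈ KS S := ⟨by rw [hSX]; exact hx, hTx⟩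
      rw [hbot, Submodule.mem_bot] at this
      exact Subtype.ext this
    obtain ⟨K, hK, hanti⟩ := T.exists_antilipschitzWith hTker
    obtain ⟨N, hN⟩ := exists_nat_ge ((K : ℝ) * D)
    refine (box n N).finite_toSet.subset ?_
    rintro a ⟨ha1, ha2⟩
    rw [Finset.mem_coe, mem_box]
    have haX : toR a ∈ Submodule.span ℝ X := Submodule.subset_span ⟨a, ha1, rfl⟩
    have h1 := hanti.le_mul_norm (by simp) ⟨toR a, haX⟩
    have h2 : ‖(⟨toR a, haX⟩ : Submodule.span ℝ X)‖ = ‖a‖ := by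
      rw [← norm_toR a]; rfl
    have h3 : T ⟨toR a, haX⟩ = h a := hR_toR h a
    rw [h2, h3] at h1
    calc ‖a‖ ≤ K * ‖h a‖ := h1
      _ ≤ K * D := by gcongr
      _ ≤ N := hN

/-- property (★) -/
theorem star (h : (Fin n → ℤ) →+ E) (hspan : Submodule.span ℝ (Set.range h) = ⊤)
    (c : (Fin n → ℤ) → ℂ) (R : ℝ)
    (LF : ∀ r, {ξ | c ξ ≠ 0 ∧ ‖h ξ‖ ≤ r}.Finite)
    (U : ∀ f : (Fin n → ℤ) →₀ ℂ, (∀ η, ‖h η‖ ≤ R → conv f c η = 0) → f ∈ Ann c) :
    ∃ A B : ℝ, 0 ≤ A ∧ 0 ≤ B ∧ ∀ ξ, c ξ ≠ 0 → ‖ξ‖ ≤ A + B * ‖h ξ‖ := by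
  classical
  have h1 : ∀ i : Fin n, ∀ s : ℝ, ∃ A B : ℝ, 0 ≤ B ∧
      ∀ ξ, c ξ ≠ 0 → s * ξ i ≤ A + B * ‖h ξ‖ + ‖ξ‖ / 2 := by
    intro i s
    obtain ⟨w, hw, hgen⟩ := exists_generic h (Pi.single i s : Fin n → ℝ) (1 / (2 * (n + 1)))
      (by positivity)
    obtain ⟨A, B, hB, H⟩ := w_bound h hspan c R LF U (wfun w) hgen
    refine ⟨A, B, hB, fun ξ hξ => ?_⟩
    have h2 := H ξ hξ
    rw [wfun_apply] at h2
    have h3 : ∑ j, w j * (ξ j : ℝ) = s * ξ i + ∑ j, (w j - (Pi.single i s : Fin n → ℝ) j) * (ξ j : ℝ) := by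
      simp only [sub_mul, Finset.sum_sub_distrib]
      have : ∑ j, (Pi.single i s : Fin n → ℝ) j * (ξ j : ℝ) = s * ξ i := by
        rw [Finset.sum_eq_single i]
        · simp
        · intro j _ hj; simp [Pi.single_eq_of_ne hj]
        · simp
      rw [this]; ring
    have h4 : |∑ j, (w j - (Pi.single i s : Fin n → ℝ) j) * (ξ j : ℝ)| ≤ ‖ξ‖ / 2 := by
      calc |∑ j, (w j - (Pi.single i s : Fin n → ℝ) j) * (ξ j : ℝ)|
          ≤ ∑ j, |(w j - (Pi.single i s : Fin n → ℝ) j) * (ξ j : ℝ)| := Finset.abs_sum_le_sum_abs _ _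
        _ ≤ ∑ j : Fin n, 1 / (2 * ((n:ℝ) + 1)) * ‖ξ‖ := by
            refine Finset.sum_le_sum fun j _ => ?_
            rw [abs_mul]
            refine mul_le_mul (hw j).le ?_ (abs_nonneg _) (by positivity)
            rw [← Int.norm_eq_abs]
            exact norm_le_pi_norm ξ j
        _ = (n / (n + 1)) * (‖ξ‖ / 2) := by
            rw [Finset.sum_const, Finset.card_univ, Fintype.card_fin, nsmul_eq_mul]
            field_simp
        _ ≤ 1 * (‖ξ‖ / 2) := by
            apply mul_le_mul_of_nonneg_right _ (by positivity)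
            rw [div_le_one (by positivity)]
            linarith
        _ = ‖ξ‖ / 2 := one_mul _
    rw [abs_le] at h4
    linarith
  choose A B hB H using h1
  obtain ⟨A', hA'0, hA'⟩ := exists_bound (Finset.univ : Finset (Fin n × Fin 2))
    (fun p => A p.1 (if p.2 = 0 then 1 else -1))
  obtain ⟨B', hB'0, hB'⟩ := exists_bound (Finset.univ : Finset (Fin n × Fin 2))
    (fun p => B p.1 (if p.2 = 0 then 1 else -1))
  refine ⟨2 * A', 2 * B', by positivity, by positivity, fun ξ hξ => ?_⟩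
  have h5 : ‖ξ‖ ≤ A' + B' * ‖h ξ‖ + ‖ξ‖ / 2 := by
    rw [pi_norm_le_iff_of_nonneg (by positivity)]
    intro i
    rw [Int.norm_eq_abs, abs_le]
    constructor
    · have h6 := H i (-1) ξ hξ
      have h7 := hA' (i, 1) (Finset.mem_univ _)
      have h8 := hB' (i, 1) (Finset.mem_univ _)
      simp only [Fin.isValue, one_ne_zero, ↓reduceIte] at h7 h8
      have h9 : B i (-1) * ‖h ξ‖ ≤ B' * ‖h ξ‖ := by gcongr
      linarith
    · have h6 := H i 1 ξ hξ
      have h7 := hA' (i, 0) (Finset.mem_univ _)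
      have h8 := hB' (i, 0) (Finset.mem_univ _)
      simp only [↓reduceIte] at h7 h8
      have h9 : B i 1 * ‖h ξ‖ ≤ B' * ‖h ξ‖ := by gcongr
      linarith
  linarith

end FQ
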